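import Pool.Agent.Lib.MP_400390_ag.Center

/-!
# Sections of ample Cartier divisors
-/

namespace FJ

open AlgebraicGeometry CategoryTheory

universe u

section gen

variable {Y : Scheme.{u}} [IsIntegral Y]

/-- Global generation of a positive multiple of an ample divisor on a compact open subset. -/
theorem AmpleOn.exists_sections {C : CDiv Y} {T : Y.Opens} (hC : AmpleOn C T)
    (hT : IsCompact (T : Set Y)) :
    ∃ N : ℕ, 0 < N ∧ ∃ (r : ℕ) (s : Fin r → Y.functionField), (∀ i, s i ≠ 0) ∧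
      (∀ i, ∀ y ∈ T, RegAt y (s i * C.eqn y ^ N)) ∧
        ∀ y ∈ T, ∃ i, UnitAt y (s i * C.eqn y ^ N) := by
  classical
  have hC' : ∀ t : T, ∃ (n : ℕ) (s : Y.functionField) (U : Y.Opens), 0 < n ∧
    (∀ y ∈ T, RegAt y (s * C.eqn y ^ n)) ∧ IsAffineOpen U ∧ (t : Y) ∈ U ∧
      ∀ y, y ∈ U ↔ y ∈ T ∧ UnitAt y (s * C.eqn y ^ n) := fun t => hC t t.2
  choose n s U hn hreg _ htU hU using hC'
  obtain ⟨F, hF⟩ := hT.elim_finite_subcover (fun t : T => (U t : Set Y)) (fun t => (U t).isOpen)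
    (fun y hy => Set.mem_iUnion.2 ⟨⟨y, hy⟩, htU ⟨y, hy⟩⟩)
  let e := F.equivFin
  refine ⟨∏ t ∈ F, n t, Finset.prod_pos fun t _ => hn t, F.card,
    fun i => s (e.symm i) ^ (∏ t ∈ F.erase (e.symm i), n t), ?_, ?_, ?_⟩
  · intro i
    refine pow_ne_zero _ ?_
    intro h0
    obtain ⟨a, ha, ha'⟩ := ((hU (e.symm i) _).1 (htU (e.symm i))).2
    rw [h0, zero_mul, map_eq_zero_iff _ (IsFractionRing.injective _ _)] at ha'
    rw [ha'] at ha
    exact not_isUnit_zero ha
  · intro i y hy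
    have h1 := (hreg (e.symm i) y hy).pow (∏ t ∈ F.erase (e.symm i), n t)
    rw [mul_pow, ← pow_mul, Finset.mul_prod_erase F n (e.symm i).2] at h1
    exact h1
  · intro y hy
    obtain ⟨t, ht, hyt⟩ := Set.mem_iUnion₂.1 (hF hy)
    refine ⟨e ⟨t, ht⟩, ?_⟩
    have h1 := (((hU t y).1 hyt).2).pow (∏ t' ∈ F.erase t, n t')
    rw [mul_pow, ← pow_mul, Finset.mul_prod_erase F n ht] at h1
    simpa using h1

end gen

section relative

variable {X Y : Scheme.{u}} [IsIntegral Y] (π : Y ⟶ X) {U : X.Opens}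

theorem regAt_of_section {W : Y.Opens} [Nonempty W] (a : Γ(Y, W)) {y : Y} (hy : y ∈ W) :
    RegAt y (algebraMap Γ(Y, W) Y.functionField a) :=
  ⟨Y.presheaf.germ W y hy a, Scheme.algebraMap_germ_eq_germToFunctionField Y hy a⟩

theorem pullFun_eq (hη : genericPoint Y ∈ π ⁻¹ᵁ U) {W : Y.Opens} [Nonempty W]
    (hWU : W ≤ π ⁻¹ᵁ U) (r : Γ(X, U)) :
    pullFun π U hη r = algebraMap Γ(Y, W) Y.functionField ((π.appLE U W hWU).hom r) := by
  have hW : genericPoint Y ∈ W :=
    ((genericPoint_spec Y).mem_open_set_iff W.isOpen).mpr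
      (by simpa using (inferInstance : Nonempty W))
  have h1 : π.appLE U W hWU ≫ Y.presheaf.germ W (genericPoint Y) hW =
      π.app U ≫ Y.presheaf.germ (π ⁻¹ᵁ U) (genericPoint Y) hη := by
    rw [Scheme.Hom.appLE, Category.assoc, Y.presheaf.germ_res]
  exact (congrArg (fun z => z.hom r) h1).symm

/-- Denominators: every rational function becomes regular on the affine open `W` after
multiplication by a nonzero function coming from the base. -/
theorem exists_denominator (hη : genericPoint Y ∈ π ⁻¹ᵁ U)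
    (hinj : Function.Injective (pullFun π U hη))
    (halg : ∀ f : Y.functionField,
      @IsAlgebraic Γ(X, U) Y.functionField _ _ (pullFun π U hη).toAlgebra f)
    {W : Y.Opens} (hW : IsAffineOpen W) (hWU : W ≤ π ⁻¹ᵁ U) (f : Y.functionField) :
    ∃ c : Γ(X, U), c ≠ 0 ∧ ∀ y ∈ W, RegAt y (pullFun π U hη c * f) := by
  by_cases hne : Nonempty W
  swap
  · refine ⟨1, ?_, fun y hy => (hne ⟨⟨y, hy⟩⟩).elim⟩
    intro h0
    have h1 := congrArg (pullFun π U hη) h0
    rw [map_one, map_zero] at h1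
    exact one_ne_zero h1
  let : Algebra Γ(X, U) Y.functionField := (pullFun π U hη).toAlgebra
  let : Algebra Γ(X, U) Γ(Y, W) := (π.appLE U W hWU).hom.toAlgebra
  have htower : IsScalarTower Γ(X, U) Γ(Y, W) Y.functionField :=
    IsScalarTower.of_algebraMap_eq fun r => pullFun_eq π hη hWU r
  have hfr : IsFractionRing Γ(Y, W) Y.functionField :=
    functionField_isFractionRing_of_isAffineOpen Y W hW
  obtain ⟨a, b, hb, hab⟩ := IsFractionRing.div_surjective (A := Γ(Y, W)) f
  have hbalg : IsAlgebraic Γ(X, U) b := by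
    have h1 : IsAlgebraic Γ(X, U) (algebraMap Γ(Y, W) Y.functionField b) := halg _
    exact (isAlgebraic_algebraMap_iff (IsFractionRing.injective Γ(Y, W) Y.functionField)).1 h1
  obtain ⟨r, hr0, b', hb'⟩ := hbalg.exists_nonzero_dvd hb
  refine ⟨r, hr0, fun y hy => ?_⟩
  have h2 : pullFun π U hη r * f = algebraMap Γ(Y, W) Y.functionField (b' * a) := by
    have h3 : pullFun π U hη r = algebraMap Γ(Y, W) Y.functionField b *
        algebraMap Γ(Y, W) Y.functionField b' := by
      rw [← map_mul, ← hb']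
      exact pullFun_eq π hη hWU r
    have hb0 : algebraMap Γ(Y, W) Y.functionField b ≠ 0 := by
      rw [Ne, map_eq_zero_iff _ (IsFractionRing.injective Γ(Y, W) Y.functionField)]
      exact nonZeroDivisors.ne_zero hb
    rw [h3, ← hab, map_mul]
    field_simp
  rw [h2]
  exact regAt_of_section _ hy

/-- A function on the base that bounds the local equations of `H` and their inverses. -/
theorem exists_bound_function (hη : genericPoint Y ∈ π ⁻¹ᵁ U)
    (hinj : Function.Injective (pullFun π U hη))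
    (halg : ∀ f : Y.functionField,
      @IsAlgebraic Γ(X, U) Y.functionField _ _ (pullFun π U hη).toAlgebra f)
    (hT : IsCompact ((π ⁻¹ᵁ U : Y.Opens) : Set Y)) (H : CDiv Y) :
    ∃ c : Γ(X, U), c ≠ 0 ∧ ∀ y ∈ π ⁻¹ᵁ U, RegAt y (pullFun π U hη c * H.eqn y) ∧
      RegAt y (pullFun π U hη c / H.eqn y) := by
  classical
  have hloc : ∀ t : ↥(π ⁻¹ᵁ U : Y.Opens).1, ∃ (W : Y.Opens) (c : Γ(X, U)), (t : Y) ∈ W ∧ c ≠ 0 ∧
      ∀ y ∈ W, RegAt y (pullFun π U hη c * H.eqn y) ∧
        RegAt y (pullFun π U hη c / H.eqn y) := by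
    rintro ⟨t, ht⟩
    obtain ⟨V, htV, hV⟩ := H.loc t
    obtain ⟨W, hW, htW, hWle⟩ := Y.isBasis_affineOpens.exists_subset_of_mem_open
      (show t ∈ ((V ⊓ π ⁻¹ᵁ U : Y.Opens) : Set Y) from ⟨htV, ht⟩) (V ⊓ π ⁻¹ᵁ U).isOpen
    obtain ⟨W, hW, rfl⟩ := hW
    have hWU : W ≤ π ⁻¹ᵁ U := fun y hy => (hWle hy).2
    obtain ⟨c₁, hc₁, hc₁'⟩ := exists_denominator π hη hinj halg hW hWU (H.eqn t)
    obtain ⟨c₂, hc₂, hc₂'⟩ := exists_denominator π hη hinj halg hW hWU (H.eqn t)⁻¹
    refine ⟨W, c₁ * c₂, htW, ?_, fun y hy => ?_⟩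
    · intro h0
      have h1 := congrArg (pullFun π U hη) h0
      rw [map_mul, map_zero, mul_eq_zero] at h1
      rcases h1 with h1 | h1
      · exact hc₁ ((map_eq_zero_iff _ hinj).1 h1)
      · exact hc₂ ((map_eq_zero_iff _ hinj).1 h1)
    · have hu : UnitAt y (H.eqn y / H.eqn t) := hV y (hWle hy).1
      have hreg : ∀ c : Γ(X, U), RegAt y (pullFun π U hη c) := by
        intro c
        have hne : Nonempty W := ⟨⟨y, hy⟩⟩
        rw [pullFun_eq π hη hWU]
        exact regAt_of_section _ hy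
      constructor
      · have h2 := ((hc₁' y hy).mul hu.regAt).mul (hreg c₂)
        have h3 : pullFun π U hη (c₁ * c₂) * H.eqn y =
            pullFun π U hη c₁ * H.eqn t * (H.eqn y / H.eqn t) * pullFun π U hη c₂ := by
          have := H.ne_zero t
          rw [map_mul]
          field_simp
        rw [h3]
        exact h2
      · have h2 := ((hc₂' y hy).mul hu.inv.regAt).mul (hreg c₁)
        have h3 : pullFun π U hη (c₁ * c₂) / H.eqn y =
            pullFun π U hη c₂ * (H.eqn t)⁻¹ * (H.eqn y / H.eqn t)⁻¹ * pullFun π U hη c₁ := by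
          have := H.ne_zero t
          have := H.ne_zero y
          rw [map_mul]
          field_simp
        rw [h3]
        exact h2
  choose W c htW hc0 hc using hloc
  obtain ⟨F, hF⟩ := hT.elim_finite_subcover (fun t => (W t : Set Y)) (fun t => (W t).isOpen)
    (fun y hy => Set.mem_iUnion.2 ⟨⟨y, hy⟩, htW ⟨y, hy⟩⟩)
  refine ⟨∏ t ∈ F, c t, ?_, fun y hy => ?_⟩
  · intro h0
    have h1 := congrArg (pullFun π U hη) h0
    rw [map_prod, map_zero, Finset.prod_eq_zero_iff] at h1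
    obtain ⟨t, _, ht⟩ := h1
    exact hc0 t ((map_eq_zero_iff _ hinj).1 ht)
  · obtain ⟨t, ht, hyt⟩ := Set.mem_iUnion₂.1 (hF hy)
    have hreg : ∀ c : Γ(X, U), RegAt y (pullFun π U hη c) := by
      intro c
      have hne : Nonempty (π ⁻¹ᵁ U : Y.Opens) := ⟨⟨y, hy⟩⟩
      rw [pullFun_eq π hη (le_refl (π ⁻¹ᵁ U))]
      exact regAt_of_section _ hy
    rw [← Finset.mul_prod_erase F c ht, map_mul]
    constructor
    · rw [mul_right_comm]
      exact (hc t y hyt).1.mul (hreg _)
    · rw [mul_div_right_comm]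
      exact (hc t y hyt).2.mul (hreg _)

end relative

end FJ
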