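import Pool.Agent.Lib.MP_400390_ag.Torsion

/-!
# Assembly of Claim A: asymptotically Cartier implies `ℚ`-Cartier
-/

namespace FJ

open scoped BigOperators
open Polynomial

section

variable {A R K ι : Type*} [CommRing A] [IsDomain A] [CommRing R] [IsDomain R] [Field K]
  [Algebra A R] [Algebra R K] [Algebra A K] [IsScalarTower A R K] [IsFractionRing R K]
  {ord : ι → K → ℤ}

/-- A common denominator. -/
theorem NoetherData.common [Module.Finite A R]
    {θ : R} {f : A[X]} (hN : NoetherData A R θ f) :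
    ∃ a : A, a ≠ 0 ∧ ∀ r : R, ∃ g : A[X], algebraMap A R a * r = aeval θ g := by
  classical
  obtain ⟨S, hS⟩ := Module.Finite.fg_top (R := A) (M := R)
  choose a ha g hg using hN.gen
  have ha' : ∀ r, a r ≠ 0 := by
    intro r h0
    apply ha r
    rw [h0, map_zero]
  refine ⟨∏ s ∈ S, a s, Finset.prod_ne_zero_iff.2 fun s _ => ha' s, ?_⟩
  intro r
  have hr : r ∈ Submodule.span A (S : Set R) := hS ▸ Submodule.mem_top
  induction hr using Submodule.span_induction with
  | mem x hx =>
    refine ⟨C (∏ s ∈ S.erase x, a s) * g x, ?_⟩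
    rw [map_mul, aeval_C, ← hg, ← Finset.mul_prod_erase S a hx, map_mul]
    ring
  | zero => exact ⟨0, by simp⟩
  | add x y _ _ hx hy =>
    obtain ⟨P, hP⟩ := hx
    obtain ⟨Q, hQ⟩ := hy
    exact ⟨P + Q, by rw [mul_add, hP, hQ, map_add]⟩
  | smul c x _ hx =>
    obtain ⟨P, hP⟩ := hx
    refine ⟨C c * P, ?_⟩
    rw [map_mul, aeval_C, ← hP, Algebra.smul_def]
    ring

/-- The free `A`-submodule `A[θ]` of `K`. -/
theorem NoetherData.linearIndependent (hinj : Function.Injective (algebraMap R K))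
    {θ : R} {f : A[X]} (hN : NoetherData A R θ f) :
    LinearIndependent A (fun i : Fin f.natDegree => algebraMap R K (θ ^ (i : ℕ))) := by
  rw [Fintype.linearIndependent_iff]
  intro c hc
  let P : A[X] := ∑ i : Fin f.natDegree, monomial (i : ℕ) (c i)
  have hP : aeval θ P = 0 := by
    apply hinj
    rw [map_zero, ← hc]
    simp only [P, map_sum, aeval_monomial]
    refine Finset.sum_congr rfl fun i _ => ?_
    rw [map_mul, ← IsScalarTower.algebraMap_apply A R K, ← Algebra.smul_def]
  have hdeg : P.degree < f.degree := by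
    rw [degree_eq_natDegree hN.monic.ne_zero]
    refine lt_of_le_of_lt (degree_sum_le _ _) ?_
    rw [Finset.sup_lt_iff (WithBot.bot_lt_coe _)]
    intro i _
    exact lt_of_le_of_lt (degree_monomial_le _ _) (by exact_mod_cast i.2)
  have hP0 := hN.indep P hdeg hP
  intro i
  have h1 := congrArg (fun Q : A[X] => Q.coeff i) hP0
  simp only [P, finsetSum_coeff, coeff_monomial, coeff_zero] at h1
  rw [Finset.sum_eq_single i] at h1
  · simpa using h1
  · intro j _ hj
    rw [if_neg]
    intro hji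
    exact hj (Fin.ext hji)
  · intro hi
    exact (hi (Finset.mem_univ _)).elim

theorem NoetherData.aeval_mem {θ : R} {f : A[X]} (hN : NoetherData A R θ f) (P : A[X]) :
    algebraMap R K (aeval θ P) ∈
      Submodule.span A (Set.range fun i : Fin f.natDegree => algebraMap R K (θ ^ (i : ℕ))) := by
  have h1 : aeval θ P = aeval θ (P %ₘ f) := by
    conv_lhs => rw [← modByMonic_add_div P f, map_add, map_mul, hN.root, zero_mul, add_zero]
  rw [h1, aeval_eq_sum_range, map_sum]
  refine Submodule.sum_mem _ fun i hi => ?_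
  by_cases hi' : i < f.natDegree
  · have h2 : algebraMap R K ((P %ₘ f).coeff i • θ ^ i) =
        (P %ₘ f).coeff i • algebraMap R K (θ ^ i) := by
      rw [Algebra.smul_def, map_mul, ← IsScalarTower.algebraMap_apply A R K, ← Algebra.smul_def]
    rw [h2]
    exact Submodule.smul_mem _ _ (Submodule.subset_span ⟨⟨i, hi'⟩, rfl⟩)
  · have h3 : (P %ₘ f).coeff i = 0 := by
      apply coeff_eq_zero_of_degree_lt
      refine lt_of_lt_of_le (degree_modByMonic_lt P hN.monic) ?_
      rw [degree_eq_natDegree hN.monic.ne_zero]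
      exact_mod_cast not_lt.1 hi'
    rw [h3, zero_smul, map_zero]
    exact Submodule.zero_mem _

variable {p : ℕ} [Fact p.Prime] [CharP K p]

/-- **Step 1', first part**: `R` has a dual basis over `A`. -/
theorem hasDB_R [Module.Finite A R] (hinj : Function.Injective (algebraMap A R))
    {θ : R} {f : A[X]} (hN : NoetherData A R θ f) (hA : ∀ e : ℕ, FrobDB (p ^ e) A)
    (h : KrullData R K ι ord) (hF : StronglyFRegular p h) :
    HasDB A ((h.RD 0).restrictScalars A) := by
  have : ExpChar K p := ExpChar.prime Fact.out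
  obtain ⟨a, ha0, ha⟩ := hN.common
  have hRK : Function.Injective (algebraMap R K) := IsFractionRing.injective R K
  have hc0 : algebraMap R K (algebraMap A R a) ≠ 0 := by
    rw [Ne, map_eq_zero_iff _ hRK, map_eq_zero_iff _ hinj]
    exact ha0
  obtain ⟨e, he, φ, hφ, hφR, hφc⟩ := hF _ (h.algebraMap_mem_RD_zero (algebraMap A R a)) hc0
  set c := algebraMap R K (algebraMap A R a) with hc
  refine HasDB.push (hA e) (HasDB.of_linearIndependent (hN.linearIndependent hRK)) (l := 1)
    (fun _ x => c * x ^ p ^ e) (fun _ => φ) ?_ ?_ ?_ ?_ (fun _ => hφ) ?_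
  · intro _ x hx
    obtain ⟨r, rfl⟩ := h.mem_RD_zero.1 hx
    obtain ⟨g, hg⟩ := ha (r ^ p ^ e)
    rw [hc, ← map_pow, ← map_mul, hg]
    exact hN.aeval_mem g
  · intro _ x _ y _
    rw [add_pow_expChar_pow, mul_add]
  · intro _ b x _
    rw [_root_.smul_pow, mul_smul_comm]
  · intro _ y hy
    refine hφR y ?_
    have : Submodule.span A (Set.range fun i : Fin f.natDegree => algebraMap R K (θ ^ (i : ℕ))) ≤
        (h.RD 0).restrictScalars A := by
      rw [Submodule.span_le]
      rintro _ ⟨i, rfl⟩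
      exact h.algebraMap_mem_RD_zero _
    exact this hy
  · intro x _
    simp only [Finset.univ_unique, Finset.sum_singleton]
    rw [mul_comm, hφ, hφc, mul_one]

/-- **Step 1**: for an asymptotically Cartier divisor `D`, every `R(jD)` has a dual basis over
`A`. -/
theorem hasDB_RD [Module.Finite A R] (hinj : Function.Injective (algebraMap A R))
    {θ : R} {f : A[X]} (hN : NoetherData A R θ f) (hA : ∀ e : ℕ, FrobDB (p ^ e) A)
    (h : KrullData R K ι ord) (hF : StronglyFRegular p h) {D : ι → ℤ}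
    (hD : AsymptoticallyCartier h D) (j : ℕ) :
    HasDB A ((h.RD (j • D)).restrictScalars A) := by
  have : ExpChar K p := ExpChar.prime Fact.out
  have hRK : Function.Injective (algebraMap R K) := IsFractionRing.injective R K
  rcases Nat.eq_zero_or_pos j with rfl | hj
  · rw [zero_smul]
    exact hasDB_R hinj hN hA h hF
  obtain ⟨c0, hc0R, hc00, hAT⟩ := hD
  obtain ⟨e1, he1, φ1, hφ1, hφ1R, hφ1c⟩ := hF c0 hc0R hc00
  have hp0 : 0 < p := Nat.Prime.pos Fact.out
  obtain ⟨b', hb'0, hb'⟩ := hAT (j * p ^ e1) (Nat.mul_pos hj (pow_pos hp0 _))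
  -- clear the denominator of `b'`
  obtain ⟨b, hb0, hbR, hb⟩ : ∃ b : K, b ≠ 0 ∧ b ∈ h.RD 0 ∧ ∀ n : ℕ,
      b * c0 ^ (n / (j * p ^ e1)) ∈ h.RD (n • D) * h.RD (-(n • D)) := by
    obtain ⟨r, s, hs, hrs⟩ := IsFractionRing.div_surjective (A := R) b'
    have hs0 : algebraMap R K s ≠ 0 := by
      rw [Ne, IsFractionRing.to_map_eq_zero_iff]
      exact nonZeroDivisors.ne_zero hs
    have hr : algebraMap R K s * b' = algebraMap R K r := by
      rw [← hrs]
      field_simp
    refine ⟨algebraMap R K s * b', mul_ne_zero hs0 hb'0, ?_, ?_⟩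
    · rw [hr]
      exact h.algebraMap_mem_RD_zero r
    · intro n
      rw [mul_assoc, ← Algebra.smul_def]
      exact Submodule.smul_mem _ _ (hb' n)
  obtain ⟨e2, he2, φ2, hφ2, hφ2R, hφ2b⟩ := hF b hbR hb0
  set φ : K →+ K := φ1.comp φ2 with hφdef
  have hφ : IsPL (p ^ (e1 + e2)) φ := by
    intro x y
    simp only [hφdef, AddMonoidHom.comp_apply]
    rw [pow_add, pow_mul, hφ2, hφ1]
  have hφR : Maps h φ 0 0 := fun x hx => hφ1R _ (hφ2R _ hx)
  set q := p ^ (e1 + e2) with hq
  have hq0 : 0 < q := pow_pos hp0 _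
  have hz := hb (j * q)
  have hdiv : j * q / (j * p ^ e1) = p ^ e2 := by
    rw [hq, pow_add, ← mul_assoc, Nat.mul_div_cancel_left _ (Nat.mul_pos hj (pow_pos hp0 _))]
  rw [hdiv] at hz
  have hφz : φ (b * c0 ^ p ^ e2) = 1 := by
    simp only [hφdef, AddMonoidHom.comp_apply]
    rw [mul_comm, hφ2, hφ2b, mul_one, hφ1c]
  obtain ⟨m, x, y, hx, hy, hxy⟩ := mem_mul_iff_exists.1 hz
  have hqj : (j * q) • D = q • (j • D) := by rw [smul_smul, mul_comm]
  rw [hqj] at hx hy
  refine HasDB.push (hA (e1 + e2)) (hasDB_R hinj hN hA h hF) (l := m)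
    (fun i z => y i * z ^ q) (fun i => φ.comp (AddMonoidHom.mulLeft (x i))) ?_ ?_ ?_ ?_ ?_ ?_
  · intro i z hz
    have h1 := h.mul_mem_RD (hy i) (h.pow_mem_RD hz q)
    rw [neg_add_cancel] at h1
    exact h1
  · intro i z _ w _
    rw [hq, add_pow_expChar_pow, mul_add]
  · intro i a z _
    rw [_root_.smul_pow, mul_smul_comm]
  · intro i w hw
    have h1 := h.mul_mem_RD (hx i) hw
    have h2 := Maps.twist h hq0 hφ (by simp) hφR (j • D) (x i * w)
      (by rw [zero_add]; rwa [add_zero] at h1)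
    rw [zero_add] at h2
    exact h2
  · intro i a w
    simp only [AddMonoidHom.comp_apply, AddMonoidHom.coe_mulLeft]
    rw [mul_left_comm, hφ]
  · intro z _
    simp only [AddMonoidHom.comp_apply, AddMonoidHom.coe_mulLeft]
    have h1 : ∀ i, φ (x i * (y i * z ^ q)) = φ (z ^ q * (x i * y i)) := by
      intro i
      congr 1
      ring
    rw [Finset.sum_congr rfl fun i _ => h1 i, ← map_sum, ← Finset.mul_sum, ← hxy, hφ, hφz, mul_one]

/-- `K` is finitely generated over `K ^ q`. -/
theorem exists_spanning [Module.Finite A R] (hinj : Function.Injective (algebraMap A R))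
    {θ : R} {f : A[X]} (hN : NoetherData A R θ f) (hA : ∀ e : ℕ, FrobDB (p ^ e) A)
    (h : KrullData R K ι ord) (hF : StronglyFRegular p h) (e : ℕ) :
    ∃ (n : ℕ) (s : Fin n → K), ∀ x : K, ∃ c : Fin n → K, x = ∑ i, c i ^ p ^ e * s i := by
  have : ExpChar K p := ExpChar.prime Fact.out
  obtain ⟨k, m, F, hm, hadd, hsmul, hsum⟩ := hasDB_R hinj hN hA h hF
  obtain ⟨l, μ, g, hg, hgs⟩ := hA e
  have hq0 : p ^ e ≠ 0 := pow_ne_zero _ (Nat.Prime.ne_zero Fact.out)
  have key : ∀ x : K, ∃ c : Fin k × Fin l → K,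
      x = ∑ t, c t ^ p ^ e * (algebraMap A K (μ t.2) * m t.1) := by
    intro x
    obtain ⟨r, s, hs, hrs⟩ := IsFractionRing.div_surjective (A := R) x
    have hs0 : algebraMap R K s ≠ 0 := by
      rw [Ne, IsFractionRing.to_map_eq_zero_iff]
      exact nonZeroDivisors.ne_zero hs
    have hmem : algebraMap R K (r * s ^ (p ^ e - 1)) ∈ (h.RD 0).restrictScalars A :=
      h.algebraMap_mem_RD_zero _
    refine ⟨fun t => algebraMap A K (g t.2 (F t.1 (algebraMap R K (r * s ^ (p ^ e - 1))))) /
      algebraMap R K s, ?_⟩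
    have h1 := hsum _ hmem
    have h2 : x = algebraMap R K (r * s ^ (p ^ e - 1)) / algebraMap R K s ^ p ^ e := by
      rw [← hrs, map_mul, map_pow, div_eq_div_iff hs0 (pow_ne_zero _ hs0)]
      have : algebraMap R K s ^ p ^ e = algebraMap R K s ^ (p ^ e - 1) * algebraMap R K s := by
        rw [← pow_succ, Nat.sub_add_cancel (Nat.pos_of_ne_zero hq0)]
      rw [this]
      ring
    rw [h2, div_eq_iff (pow_ne_zero _ hs0)]
    conv_lhs => rw [h1]
    rw [Finset.sum_mul, Fintype.sum_prod_type]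
    refine Finset.sum_congr rfl fun i _ => ?_
    conv_lhs => rw [hgs (F i _), Finset.sum_smul]
    refine Finset.sum_congr rfl fun j _ => ?_
    rw [Algebra.smul_def, map_mul, map_pow, div_pow]
    field_simp
  classical
  let E := (Fintype.equivFin (Fin k × Fin l)).symm
  refine ⟨Fintype.card (Fin k × Fin l), fun i => algebraMap A K (μ (E i).2) * m (E i).1, ?_⟩
  intro x
  obtain ⟨c, hc⟩ := key x
  refine ⟨c ∘ E, ?_⟩
  conv_lhs => rw [hc]
  exact (Equiv.sum_comp E
    (fun t => c t ^ p ^ e * (algebraMap A K (μ t.2) * m t.1))).symm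

/-- **Claim A** for `R` finite over `A`. -/
theorem qCartier_of_noetherData [Module.Finite A R]
    (hinj : Function.Injective (algebraMap A R))
    {θ : R} {f : A[X]} (hN : NoetherData A R θ f) (hA : ∀ e : ℕ, FrobDB (p ^ e) A)
    (h : KrullData R K ι ord) (hF : StronglyFRegular p h) {D : ι → ℤ}
    (hDfin : {P | D P ≠ 0}.Finite) (hD : AsymptoticallyCartier h D) : QCartier h D := by
  have hRK : Function.Injective (algebraMap R K) := IsFractionRing.injective R K
  set c := algebraMap R K (aeval θ (derivative f)) with hc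
  have hc0 : c ≠ 0 := by
    rw [hc, Ne, map_eq_zero_iff _ hRK]
    exact hN.sep
  have hne : ∀ j : ℕ, h.RD (j • D) ≠ ⊥ := by
    intro j hbot
    obtain ⟨c0, hc0R, hc00, hAT⟩ := hD
    obtain ⟨b, hb0, hb⟩ := hAT 1 one_pos
    have h1 := hb j
    rw [hbot, Submodule.bot_mul] at h1
    exact mul_ne_zero hb0 (pow_ne_zero _ hc00) ((Submodule.mem_bot R).1 h1)
  have hmem : ∀ j : ℕ, c ∈ h.RD (j • D) * h.RD (-(j • D)) := by
    intro j
    obtain ⟨n, m, w, hm, hw, hsum⟩ := derivative_mem hN.monic hN.root hN.gen (hne j)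
      (hasDB_RD hinj hN hA h hF hD j)
    rw [hc, ← hsum]
    refine Submodule.sum_mem _ fun i _ => Submodule.mul_mem_mul (hm i) ?_
    refine mem_RD_neg h ?_ ?_
    · refine hDfin.subset ?_
      intro P hP
      simp only [Set.mem_ofPred_eq, Pi.smul_apply] at hP ⊢
      intro h0
      apply hP
      rw [h0, smul_zero]
    · intro x hx
      obtain ⟨r, hr⟩ := hw i x hx
      rw [← hr]
      exact h.algebraMap_mem_RD_zero r
  obtain ⟨e, he, φ, hφ, hφR, hφc⟩ := hF c (by rw [hc]; exact h.algebraMap_mem_RD_zero _) hc0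
  obtain ⟨n, s, hs⟩ := exists_spanning hinj hN hA h hF e
  exact qCartier_of_uniform h s hs hφ hφR hφc hmem

end

end FJ
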