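import Pool.Agent.Lib.MP_400390_ag.Gen

/-!
# Test ideals of `(Spec R, λ Z)` through a generator `κ` of the `p⁻¹`-linear maps

(module B of MP_400390_ag, part 1)
-/

namespace FJ

open scoped BigOperators

variable {R K ι : Type*} [CommRing R] [Field K] [Algebra R K] {ord : ι → K → ℤ}

/-- `⌈λ Z⌉`. -/
noncomputable def cl (Z : ι → ℤ) (l : ℝ) : ι → ℤ := fun P => ⌈l * (Z P : ℝ)⌉

/-- `φ (c * ·)`. -/
def scale (φ : K →+ K) (c : K) : K →+ K := φ.comp (AddMonoidHom.mulLeft c)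

@[simp] theorem scale_apply (φ : K →+ K) (c x : K) : scale φ c x = φ (c * x) := rfl

/-- The iterates of `κ`. -/
def iter (κ : K →+ K) : ℕ → (K →+ K)
  | 0 => AddMonoidHom.id K
  | e + 1 => κ.comp (iter κ e)

@[simp] theorem iter_zero (κ : K →+ K) (x : K) : iter κ 0 x = x := rfl

@[simp] theorem iter_succ (κ : K →+ K) (e : ℕ) (x : K) : iter κ (e + 1) x = κ (iter κ e x) := rfl

theorem iter_add (κ : K →+ K) (e f : ℕ) (x : K) : iter κ (e + f) x = iter κ e (iter κ f x) := by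
  induction e with
  | zero => simp
  | succ e ih => rw [Nat.add_right_comm, iter_succ, iter_succ, ih]

theorem iter_pl {κ : K →+ K} {p : ℕ} (hκ : IsPL p κ) (e : ℕ) : IsPL (p ^ e) (iter κ e) := by
  induction e with
  | zero => intro a b; simp
  | succ e ih =>
    intro a b
    rw [iter_succ, iter_succ, pow_succ', pow_mul, ih (a ^ p) b, hκ]

/-- `1 + p + ... + p^(e-1)`. -/
def gs (p : ℕ) : ℕ → ℤ
  | 0 => 0
  | e + 1 => 1 + p * gs p e

theorem gs_succ' (p e : ℕ) : gs p (e + 1) = gs p e + p ^ e := by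
  induction e with
  | zero => simp [gs]
  | succ e ih =>
    have h1 : gs p (e + 1 + 1) = 1 + p * gs p (e + 1) := rfl
    have h2 : gs p (e + 1) = 1 + p * gs p e := rfl
    rw [h1, ih, pow_succ]
    rw [ih] at h2
    linear_combination -h2

theorem gs_add (p e f : ℕ) : gs p (e + f) = gs p e + p ^ e * gs p f := by
  induction e with
  | zero => simp [gs]
  | succ e ih =>
    have h1 : gs p (e + 1 + f) = 1 + p * gs p (e + f) := by
      rw [Nat.add_right_comm]; rfl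
    have h2 : gs p (e + 1) = 1 + p * gs p e := rfl
    rw [h1, ih, h2, pow_succ]
    ring

/-- A generator of the `p^(-e)`-linear maps `K → K`, with its divisor. -/
structure Generator (p : ℕ) (h : KrullData R K ι ord) (κ : K →+ K) (Δ : ι → ℤ) : Prop where
  pl : IsPL p κ
  fin : {P | Δ P ≠ 0}.Finite
  maps : ∀ (c : K) (E E' : ι → ℤ), c ∈ h.RD (Δ + (p : ℤ) • E' - E) → Maps h (scale κ c) E E'
  sharp : ∀ (c : K) (E E' : ι → ℤ), {P | E P ≠ 0}.Finite → {P | E' P ≠ 0}.Finite →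
    Maps h (scale κ c) E E' → c ∈ h.RD (Δ + (p : ℤ) • E' - E)
  gen : ∀ (e : ℕ) (φ : K →+ K), IsPL (p ^ e) φ → ∃ c : K, ∀ x, φ x = iter κ e (c * x)

section

variable {p : ℕ} {h : KrullData R K ι ord} {κ : K →+ K} {Δ : ι → ℤ}

/-- multiplication of a divisor by an integer: support. -/
theorem fin_add {E F : ι → ℤ} (hE : {P | E P ≠ 0}.Finite) (hF : {P | F P ≠ 0}.Finite) :
    {P | (E + F) P ≠ 0}.Finite := by
  refine (hE.union hF).subset ?_
  intro P hP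
  simp only [Pi.add_apply, Set.mem_ofPred_eq, Set.mem_union] at hP ⊢
  by_contra hcon
  push Not at hcon
  rw [hcon.1, hcon.2] at hP
  simp at hP

theorem fin_smul {E : ι → ℤ} (hE : {P | E P ≠ 0}.Finite) (n : ℤ) :
    {P | (n • E) P ≠ 0}.Finite := by
  refine hE.subset ?_
  intro P hP
  simp only [Pi.smul_apply, smul_eq_mul, Set.mem_ofPred_eq] at hP ⊢
  exact right_ne_zero_of_mul hP

theorem fin_cl {Z : ι → ℤ} (hZ : {P | Z P ≠ 0}.Finite) (l : ℝ) : {P | cl Z l P ≠ 0}.Finite := by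
  refine hZ.subset ?_
  intro P hP hZP
  apply hP
  simp [cl, hZP]

theorem fin_zero : {P | (0 : ι → ℤ) P ≠ 0}.Finite := by simp

theorem maps_iter (hκ : Generator p h κ Δ) (e : ℕ) (c : K) (E E' : ι → ℤ)
    (hc : c ∈ h.RD (gs p e • Δ + (p ^ e : ℤ) • E' - E)) : Maps h (scale (iter κ e) c) E E' := by
  induction e generalizing E' with
  | zero =>
    intro x hx
    rw [scale_apply, iter_zero]
    have h1 := h.mul_mem_RD hc hx
    refine h.RD_mono ?_ h1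
    intro P
    simp [gs]
  | succ e ih =>
    intro x hx
    rw [scale_apply, iter_succ]
    have h1 : Maps h (scale (iter κ e) c) E (Δ + (p : ℤ) • E') := by
      refine ih _ ?_
      refine h.RD_mono ?_ hc
      intro P
      rw [gs_succ', pow_succ]
      simp only [Pi.sub_apply, Pi.add_apply, Pi.smul_apply, smul_eq_mul]
      linarith
    have h2 := h1 x hx
    have h3 : Maps h (scale κ 1) (Δ + (p : ℤ) • E') E' := by
      refine hκ.maps 1 _ _ ?_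
      rw [sub_self]
      exact h.mem_RD_zero.2 ⟨1, by simp⟩
    simpa using h3 _ h2

theorem sharp_iter (hκ : Generator p h κ Δ) (e : ℕ) (c : K) (E E' : ι → ℤ)
    (hE : {P | E P ≠ 0}.Finite) (hE' : {P | E' P ≠ 0}.Finite)
    (hm : Maps h (scale (iter κ e) c) E E') :
    c ∈ h.RD (gs p e • Δ + (p ^ e : ℤ) • E' - E) := by
  induction e generalizing E' with
  | zero =>
    -- `c R(E) ⊆ R(E')`
    intro hc P
    obtain ⟨t, ht0, ht⟩ := h.unif P
    have h1 : - E P ≤ ord P (t ^ (- E P)) := by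
      rw [h.zpow P ht0, ht]
      omega
    obtain ⟨s, hs0, hsP, hs⟩ := h.exists_mul_mem P hE (x := t ^ (- E P)) (fun _ => h1)
    have h2 := hm _ hs
    rw [scale_apply, iter_zero] at h2
    have htz : t ^ (- E P) ≠ 0 := zpow_ne_zero _ ht0
    have h3 := h2 (mul_ne_zero hc (mul_ne_zero hs0 htz)) P
    rw [h.mul P _ _ hc (mul_ne_zero hs0 htz), h.mul P _ _ hs0 htz, hsP, h.zpow P ht0, ht] at h3
    simp [gs]
    omega
  | succ e ih =>
    have h1 : Maps h (scale (iter κ e) c) E (Δ + (p : ℤ) • E') := by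
      intro x hx
      have h2 : Maps h (scale κ (scale (iter κ e) c x)) 0 E' := by
        intro r hr
        obtain ⟨r', rfl⟩ := h.mem_RD_zero.1 hr
        have h3 := hm (r' ^ (p ^ e) • x) (Submodule.smul_mem _ _ hx)
        rw [scale_apply, iter_succ, Algebra.smul_def, map_pow, mul_left_comm,
          iter_pl hκ.pl e] at h3
        rw [scale_apply, mul_comm]
        exact h3
      have h4 := hκ.sharp _ _ _ fin_zero hE' h2
      simpa using h4
    have h5 := ih _ (fin_add hκ.fin (fin_smul hE' _)) h1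
    refine h.RD_mono ?_ h5
    intro P
    rw [gs_succ', pow_succ]
    simp only [Pi.sub_apply, Pi.add_apply, Pi.smul_apply, smul_eq_mul]
    linarith

/-- The divisor `Δ_e + p^e B - ⌈p^e λ Z⌉`. -/
noncomputable def dv (p : ℕ) (Δ Z : ι → ℤ) (e : ℕ) (B : ι → ℤ) (l : ℝ) : ι → ℤ :=
  gs p e • Δ + (p ^ e : ℤ) • B - cl Z ((p : ℝ) ^ e * l)

/-- The image of a submodule under a `q⁻¹`-linear map. -/
def img {q : ℕ} {φ : K →+ K} (hφ : IsPL q φ) (M : Submodule R K) : Submodule R K where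
  carrier := φ '' M
  zero_mem' := ⟨0, M.zero_mem, map_zero φ⟩
  add_mem' := by
    rintro _ _ ⟨x, hx, rfl⟩ ⟨y, hy, rfl⟩
    exact ⟨x + y, M.add_mem hx hy, map_add φ x y⟩
  smul_mem' := by
    rintro r _ ⟨x, hx, rfl⟩
    refine ⟨r ^ q • x, M.smul_mem _ hx, ?_⟩
    rw [Algebra.smul_def, Algebra.smul_def, map_pow, hφ]

theorem mem_img {q : ℕ} {φ : K →+ K} (hφ : IsPL q φ) {M : Submodule R K} {y : K} :
    y ∈ img hφ M ↔ ∃ x ∈ M, φ x = y := Iff.rfl

theorem img_mono {q : ℕ} {φ : K →+ K} (hφ : IsPL q φ) {M N : Submodule R K} (hMN : M ≤ N) :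
    img hφ M ≤ img hφ N := by
  rintro _ ⟨x, hx, rfl⟩
  exact ⟨x, hMN hx, rfl⟩

/-- `T_e(B, λ) = κ^e (R(Δ_e + p^e B - ⌈p^e λ Z⌉))`. -/
noncomputable def T (hκ : Generator p h κ Δ) (Z : ι → ℤ) (e : ℕ) (B : ι → ℤ) (l : ℝ) :
    Submodule R K :=
  img (iter_pl hκ.pl e) (h.RD (dv p Δ Z e B l))

theorem T_zero (hκ : Generator p h κ Δ) (Z : ι → ℤ) (B : ι → ℤ) (l : ℝ) :
    T hκ Z 0 B l = h.RD (B - cl Z l) := by
  ext x
  have : dv p Δ Z 0 B l = B - cl Z l := by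
    simp [dv, gs]
  constructor
  · rintro ⟨y, hy, rfl⟩
    rw [iter_zero, ← this]
    exact hy
  · intro hx
    exact ⟨x, by rw [this]; exact hx, rfl⟩

theorem dv_succ (Z : ι → ℤ) (e : ℕ) (B : ι → ℤ) (l : ℝ) :
    dv p Δ Z (e + 1) B l = dv p Δ Z e (Δ + (p : ℤ) • B) (p * l) := by
  funext P
  simp only [dv, Pi.sub_apply, Pi.add_apply, Pi.smul_apply, smul_eq_mul, gs_succ', pow_succ]
  have : (p : ℝ) ^ e * p * l = (p : ℝ) ^ e * (p * l) := by ring
  rw [this]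
  ring

theorem T_succ (hκ : Generator p h κ Δ) (Z : ι → ℤ) (e : ℕ) (B : ι → ℤ) (l : ℝ) :
    T hκ Z (e + 1) B l = img hκ.pl (T hκ Z e (Δ + (p : ℤ) • B) (p * l)) := by
  ext x
  constructor
  · rintro ⟨y, hy, rfl⟩
    rw [dv_succ] at hy
    exact ⟨iter κ e y, ⟨y, hy, rfl⟩, rfl⟩
  · rintro ⟨_, ⟨y, hy, rfl⟩, rfl⟩
    rw [← dv_succ] at hy
    exact ⟨y, hy, rfl⟩

theorem T_mono_B (hκ : Generator p h κ Δ) (Z : ι → ℤ) (e : ℕ) {B B' : ι → ℤ}
    (hB : ∀ P, B P ≤ B' P) (l : ℝ) : T hκ Z e B l ≤ T hκ Z e B' l := by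
  refine img_mono _ (h.RD_mono ?_)
  intro P
  simp only [dv, Pi.sub_apply, Pi.add_apply, Pi.smul_apply, smul_eq_mul]
  have : (p ^ e : ℤ) * B P ≤ (p ^ e : ℤ) * B' P := mul_le_mul_of_nonneg_left (hB P) (by positivity)
  omega

theorem T_anti (hκ : Generator p h κ Δ) {Z : ι → ℤ} (hZ : ∀ P, 0 ≤ Z P) (e : ℕ) (B : ι → ℤ)
    {l l' : ℝ} (hl : l ≤ l') : T hκ Z e B l' ≤ T hκ Z e B l := by
  refine img_mono _ (h.RD_mono ?_)
  intro P
  simp only [dv, cl, Pi.sub_apply, Pi.add_apply, Pi.smul_apply, smul_eq_mul]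
  have hZP : (0 : ℝ) ≤ Z P := by exact_mod_cast hZ P
  have : ⌈(p : ℝ) ^ e * l * (Z P : ℝ)⌉ ≤ ⌈(p : ℝ) ^ e * l' * (Z P : ℝ)⌉ := by
    apply Int.ceil_le_ceil
    gcongr
  omega

/-- Shift by integral multiples of `Z`. -/
theorem T_shift (hκ : Generator p h κ Δ) (Z : ι → ℤ) (e : ℕ) (B : ι → ℤ) (l : ℝ) (s : ℤ) :
    T hκ Z e B (l + s) = T hκ Z e (B - s • Z) l := by
  have : dv p Δ Z e B (l + s) = dv p Δ Z e (B - s • Z) l := by
    funext P
    simp only [dv, cl, Pi.sub_apply, Pi.add_apply, Pi.smul_apply, smul_eq_mul]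
    have h1 : (p : ℝ) ^ e * (l + s) * (Z P : ℝ) =
        (p : ℝ) ^ e * l * (Z P : ℝ) + ((p ^ e * (s * Z P) : ℤ) : ℝ) := by
      push_cast
      ring
    rw [h1, Int.ceil_add_intCast]
    ring
  rw [T, T, this]

/-- Stability of `J` under the `p^(-e)`-linear maps `R(⌈(p^e - 1) λ Z⌉) → R`. -/
def Stable (p : ℕ) (h : KrullData R K ι ord) (Z : ι → ℤ) (l : ℝ) (J : Submodule R K) : Prop :=
  ∀ e : ℕ, 0 < e → ∀ φ : K →+ K, IsPL (p ^ e) φ → Maps h φ (cl Z (((p : ℝ) ^ e - 1) * l)) 0 →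
    ∀ x ∈ J, φ x ∈ J

/-- `J` is the test ideal `τ(R, λ Z)`: the smallest nonzero ideal stable under the
`p^(-e)`-linear maps `R(⌈(p^e - 1) λ Z⌉) → R`, `e ≥ 1`. -/
structure IsTI (p : ℕ) (h : KrullData R K ι ord) (Z : ι → ℤ) (l : ℝ)
    (J : Submodule R K) : Prop where
  le : J ≤ h.RD 0
  ne : J ≠ ⊥
  stable : Stable p h Z l J
  min : ∀ J' : Submodule R K, J' ≤ h.RD 0 → J' ≠ ⊥ → Stable p h Z l J' → J ≤ J'

theorem IsTI.unique {Z : ι → ℤ} {l : ℝ} {J J' : Submodule R K}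
    (hJ : IsTI p h Z l J) (hJ' : IsTI p h Z l J') : J = J' :=
  le_antisymm (hJ.min _ hJ'.le hJ'.ne hJ'.stable) (hJ'.min _ hJ.le hJ.ne hJ.stable)

/-- A splitting of level one. -/
theorem exists_split [CharP K p] (hp : p.Prime) (hκ : Generator p h κ Δ)
    (hF : StronglyFRegular p h) : ∃ b ∈ h.RD Δ, κ b = 1 := by
  have : Fact p.Prime := ⟨hp⟩
  obtain ⟨e, he, φ, hφ, hφm, hφ1⟩ := hF 1 (h.mem_RD_zero.2 ⟨1, by simp⟩) one_ne_zero
  let ψ : K →+ K := φ.comp (iterateFrobenius K p (e - 1)).toAddMonoidHom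
  have hψ : ∀ x, ψ x = φ (x ^ p ^ (e - 1)) := by
    intro x
    change φ (iterateFrobenius K p (e - 1) x) = _
    rw [iterateFrobenius_def]
  have hψp : IsPL (p ^ 1) ψ := by
    intro a b
    rw [hψ, hψ, mul_pow, ← pow_mul, pow_one]
    have : p * p ^ (e - 1) = p ^ e := by
      rw [← pow_succ', Nat.sub_add_cancel he]
    rw [this, hφ]
  obtain ⟨c, hc⟩ := hκ.gen 1 ψ hψp
  refine ⟨c, ?_, ?_⟩
  · have hm : Maps h (scale κ c) 0 0 := by
      intro x hx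
      have h1 : scale κ c x = ψ x := by rw [hc]; rfl
      rw [h1, hψ]
      apply hφm
      have h2 := h.pow_mem_RD hx (p ^ (e - 1))
      simpa using h2
    have h3 := hκ.sharp c 0 0 fin_zero fin_zero hm
    simpa using h3
  · have h1 : κ (c * 1) = ψ 1 := by rw [hc]; rfl
    rw [mul_one] at h1
    rw [h1, hψ, one_pow, hφ1]

theorem T_le_succ [CharP K p] (hp : p.Prime) (hκ : Generator p h κ Δ)
    (hF : StronglyFRegular p h) {Z : ι → ℤ} (hZ : ∀ P, 0 ≤ Z P) (e : ℕ) (B : ι → ℤ) (l : ℝ) :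
    T hκ Z e B l ≤ T hκ Z (e + 1) B l := by
  obtain ⟨b, hb, hb1⟩ := exists_split hp hκ hF
  rintro _ ⟨y, hy, rfl⟩
  refine ⟨b * y ^ p, ?_, ?_⟩
  · have h1 := h.mul_mem_RD hb (h.pow_mem_RD hy p)
    refine h.RD_mono ?_ h1
    intro P
    simp only [dv, cl, Pi.sub_apply, Pi.add_apply, Pi.smul_apply, smul_eq_mul, nsmul_eq_mul,
      Pi.mul_apply, Pi.natCast_apply]
    have h2 : gs p (e + 1) = 1 + p * gs p e := rfl
    have h3 : ⌈(p : ℝ) ^ (e + 1) * l * (Z P : ℝ)⌉ ≤ p * ⌈(p : ℝ) ^ e * l * (Z P : ℝ)⌉ := by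
      rw [Int.ceil_le]
      push_cast
      have h4 := Int.le_ceil ((p : ℝ) ^ e * l * (Z P : ℝ))
      calc (p : ℝ) ^ (e + 1) * l * (Z P : ℝ) = p * ((p : ℝ) ^ e * l * (Z P : ℝ)) := by ring
        _ ≤ _ := by gcongr
    rw [h2, pow_succ]
    have h5 : (p : ℤ) * (gs p e * Δ P + p ^ e * B P - ⌈(p : ℝ) ^ e * l * (Z P : ℝ)⌉) =
        p * gs p e * Δ P + p ^ e * p * B P - p * ⌈(p : ℝ) ^ e * l * (Z P : ℝ)⌉ := by ring
    linarith
  · rw [iter_add, iter_succ, iter_zero, mul_comm, hκ.pl, hb1, mul_one]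

theorem T_le_add [CharP K p] (hp : p.Prime) (hκ : Generator p h κ Δ)
    (hF : StronglyFRegular p h) {Z : ι → ℤ} (hZ : ∀ P, 0 ≤ Z P) {e f : ℕ} (hef : e ≤ f)
    (B : ι → ℤ) (l : ℝ) : T hκ Z e B l ≤ T hκ Z f B l := by
  induction f, hef using Nat.le_induction with
  | base => exact le_rfl
  | succ f _ ih => exact ih.trans (T_le_succ hp hκ hF hZ f B l)

/-- `T(B, λ) = ⋃_e T_e(B, λ)`. -/
noncomputable def TT (hκ : Generator p h κ Δ) (Z : ι → ℤ) (B : ι → ℤ) (l : ℝ) : Submodule R K :=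
  ⨆ e, T hκ Z e B l

theorem mem_TT [CharP K p] (hp : p.Prime) (hκ : Generator p h κ Δ)
    (hF : StronglyFRegular p h) {Z : ι → ℤ} (hZ : ∀ P, 0 ≤ Z P) {B : ι → ℤ} {l : ℝ} {x : K} :
    x ∈ TT hκ Z B l ↔ ∃ e, x ∈ T hκ Z e B l := by
  rw [TT, Submodule.mem_iSup_of_directed]
  exact (monotone_nat_of_le_succ (fun e => T_le_succ hp hκ hF hZ e B l)).directed_le

theorem mem_TT_ge [CharP K p] (hp : p.Prime) (hκ : Generator p h κ Δ)
    (hF : StronglyFRegular p h) {Z : ι → ℤ} (hZ : ∀ P, 0 ≤ Z P) {B : ι → ℤ} {l : ℝ} {x : K}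
    (n : ℕ) : x ∈ TT hκ Z B l ↔ ∃ e, n ≤ e ∧ x ∈ T hκ Z e B l := by
  rw [mem_TT hp hκ hF hZ]
  constructor
  · rintro ⟨e, he⟩
    exact ⟨max e n, le_max_right _ _, T_le_add hp hκ hF hZ (le_max_left _ _) B l he⟩
  · rintro ⟨e, -, he⟩
    exact ⟨e, he⟩

theorem TT_anti (hκ : Generator p h κ Δ) {Z : ι → ℤ} (hZ : ∀ P, 0 ≤ Z P) (B : ι → ℤ)
    {l l' : ℝ} (hl : l ≤ l') : TT hκ Z B l' ≤ TT hκ Z B l :=
  iSup_mono fun e => T_anti hκ hZ e B hl

theorem TT_shift (hκ : Generator p h κ Δ) (Z : ι → ℤ) (B : ι → ℤ) (l : ℝ) (s : ℤ) :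
    TT hκ Z B (l + s) = TT hκ Z (B - s • Z) l := by
  rw [TT, TT]
  exact iSup_congr fun e => T_shift hκ Z e B l s

/-- `T(B, λ) = κ(T(Δ + p B, p λ))`. -/
theorem TT_eq_img [CharP K p] (hp : p.Prime) (hκ : Generator p h κ Δ)
    (hF : StronglyFRegular p h) {Z : ι → ℤ} (hZ : ∀ P, 0 ≤ Z P) (B : ι → ℤ) (l : ℝ) :
    TT hκ Z B l = img hκ.pl (TT hκ Z (Δ + (p : ℤ) • B) (p * l)) := by
  ext x
  rw [mem_TT_ge hp hκ hF hZ 1]
  constructor
  · rintro ⟨e, he, hx⟩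
    obtain ⟨f, rfl⟩ : ∃ f, e = f + 1 := ⟨e - 1, by omega⟩
    rw [T_succ] at hx
    obtain ⟨y, hy, rfl⟩ := hx
    exact ⟨y, (mem_TT hp hκ hF hZ).2 ⟨f, hy⟩, rfl⟩
  · rintro ⟨y, hy, rfl⟩
    obtain ⟨f, hf⟩ := (mem_TT hp hκ hF hZ).1 hy
    refine ⟨f + 1, by omega, ?_⟩
    rw [T_succ]
    exact ⟨y, hf, rfl⟩

/-- `R(E) ≠ 0`. -/
theorem RD_ne_bot {E : ι → ℤ} (hE : {P | E P ≠ 0}.Finite) : h.RD E ≠ ⊥ := by
  classical
  by_cases hι : Nonempty ι
  · obtain ⟨P⟩ := hι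
    obtain ⟨t, ht0, ht⟩ := h.unif P
    obtain ⟨s, hs0, hsP, hs⟩ := h.exists_mul_mem P hE (x := t ^ (- E P)) (fun _ => by
      rw [h.zpow P ht0, ht]
      omega)
    intro hbot
    rw [hbot, Submodule.mem_bot] at hs
    exact mul_ne_zero hs0 (zpow_ne_zero _ ht0) hs
  · intro hbot
    have : (1 : K) ∈ h.RD E := fun _ P => (hι ⟨P⟩).elim
    rw [hbot, Submodule.mem_bot] at this
    exact one_ne_zero this

/-- **The test ideal of `(R, λ Z)`.** -/
theorem isTI_TT [CharP K p] (hp : p.Prime) (hκ : Generator p h κ Δ)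
    (hF : StronglyFRegular p h) {Z : ι → ℤ} (hZ : ∀ P, 0 ≤ Z P) (hZfin : {P | Z P ≠ 0}.Finite)
    {l : ℝ} (hl : 0 ≤ l) : IsTI p h Z l (TT hκ Z 0 l) := by
  have hp0 : (0 : ℝ) < p := by exact_mod_cast hp.pos
  have hZR : ∀ P, (0 : ℝ) ≤ Z P := fun P => by exact_mod_cast hZ P
  refine ⟨?_, ?_, ?_, ?_⟩
  · intro x hx
    obtain ⟨e, y, hy, rfl⟩ := (mem_TT hp hκ hF hZ).1 hx
    have h1 : Maps h (scale (iter κ e) 1) (dv p Δ Z e 0 l) 0 := by
      refine maps_iter hκ e 1 _ _ ?_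
      refine h.RD_mono ?_ (h.mem_RD_zero.2 ⟨1, by simp⟩)
      intro P
      simp only [dv, cl, Pi.sub_apply, Pi.add_apply, Pi.smul_apply, smul_eq_mul, Pi.zero_apply]
      have : 0 ≤ ⌈(p : ℝ) ^ e * l * (Z P : ℝ)⌉ := Int.ceil_nonneg (by have := hZR P; positivity)
      linarith
    simpa using h1 y hy
  · intro hbot
    have h1 : T hκ Z 0 0 l ≤ TT hκ Z 0 l := le_iSup (fun e => T hκ Z e 0 l) 0
    rw [hbot, T_zero, le_bot_iff] at h1
    refine RD_ne_bot (h := h) ?_ h1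
    rw [sub_eq_add_neg]
    refine fin_add fin_zero ?_
    have := fin_smul (fin_cl hZfin l) (-1)
    simpa using this
  · intro e he φ hφ hφm x hx
    obtain ⟨f, y, hy, rfl⟩ := (mem_TT hp hκ hF hZ).1 hx
    obtain ⟨c, hc⟩ := hκ.gen e φ hφ
    have hc' : Maps h (scale (iter κ e) c) (cl Z (((p : ℝ) ^ e - 1) * l)) 0 := by
      intro x hx
      rw [scale_apply, ← hc]
      exact hφm x hx
    have h1 := sharp_iter hκ e c _ _ (fin_cl hZfin _) fin_zero hc'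
    refine (mem_TT hp hκ hF hZ).2 ⟨e + f, c ^ p ^ f * y, ?_, ?_⟩
    · have h2 := h.mul_mem_RD (h.pow_mem_RD h1 (p ^ f)) hy
      refine h.RD_mono ?_ h2
      intro P
      simp only [dv, cl, Pi.sub_apply, Pi.add_apply, Pi.smul_apply, smul_eq_mul, nsmul_eq_mul,
        Pi.zero_apply, Nat.cast_pow, Pi.pow_apply, Pi.natCast_apply, Pi.mul_apply, mul_zero,
        add_zero]
      have h3 : gs p (e + f) = gs p f + p ^ f * gs p e := by rw [add_comm, gs_add]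
      have h4 : ⌈(p : ℝ) ^ (e + f) * l * (Z P : ℝ)⌉ ≤
          (p : ℤ) ^ f * ⌈((p : ℝ) ^ e - 1) * l * (Z P : ℝ)⌉ + ⌈(p : ℝ) ^ f * l * (Z P : ℝ)⌉ := by
        rw [Int.ceil_le]
        push_cast
        have h5 := Int.le_ceil (((p : ℝ) ^ e - 1) * l * (Z P : ℝ))
        have h6 := Int.le_ceil ((p : ℝ) ^ f * l * (Z P : ℝ))
        calc (p : ℝ) ^ (e + f) * l * (Z P : ℝ) =
            (p : ℝ) ^ f * (((p : ℝ) ^ e - 1) * l * (Z P : ℝ)) + (p : ℝ) ^ f * l * (Z P : ℝ) := by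
              ring
          _ ≤ _ := by gcongr
      rw [h3]
      linarith
    · rw [iter_add, iter_pl hκ.pl f, hc]
  · intro J hJ hJ0 hJs x hx
    obtain ⟨f, y, hy, rfl⟩ := (mem_TT hp hκ hF hZ).1 hx
    obtain ⟨d, hdJ, hd0⟩ := (Submodule.ne_bot_iff _).1 hJ0
    obtain ⟨e, he, φ, hφ, hφm, hφd⟩ := hF d (hJ hdJ) hd0
    obtain ⟨b, hb⟩ := hκ.gen e φ hφ
    have hb' : Maps h (scale (iter κ e) b) 0 0 := by
      intro x hx
      rw [scale_apply, ← hb]
      exact hφm x hx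
    have h1 := sharp_iter hκ e b _ _ fin_zero fin_zero hb'
    have h2 : Maps h (scale (iter κ (f + e)) (b * y ^ p ^ e))
        (cl Z (((p : ℝ) ^ (f + e) - 1) * l)) 0 := by
      refine maps_iter hκ _ _ _ _ ?_
      have h3 := h.mul_mem_RD h1 (h.pow_mem_RD hy (p ^ e))
      refine h.RD_mono ?_ h3
      intro P
      simp only [dv, cl, Pi.sub_apply, Pi.add_apply, Pi.smul_apply, smul_eq_mul, nsmul_eq_mul,
        Pi.zero_apply, Nat.cast_pow, Pi.pow_apply, Pi.natCast_apply, Pi.mul_apply, mul_zero,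
        add_zero, sub_zero]
      have h3 : gs p (f + e) = gs p e + p ^ e * gs p f := by rw [add_comm, gs_add]
      have h4 : ⌈((p : ℝ) ^ (f + e) - 1) * l * (Z P : ℝ)⌉ ≤
          (p : ℤ) ^ e * ⌈(p : ℝ) ^ f * l * (Z P : ℝ)⌉ := by
        rw [Int.ceil_le]
        push_cast
        have h5 := Int.le_ceil ((p : ℝ) ^ f * l * (Z P : ℝ))
        have h6 : 0 ≤ l * (Z P : ℝ) := mul_nonneg hl (hZR P)
        calc ((p : ℝ) ^ (f + e) - 1) * l * (Z P : ℝ) =
            (p : ℝ) ^ e * ((p : ℝ) ^ f * l * (Z P : ℝ)) - l * (Z P : ℝ) := by ring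
          _ ≤ (p : ℝ) ^ e * ((p : ℝ) ^ f * l * (Z P : ℝ)) := by linarith
          _ ≤ _ := by gcongr
      rw [h3]
      linarith
    have h7 := hJs (f + e) (by omega) _ (by
      intro a x
      rw [scale_apply, scale_apply, mul_left_comm, iter_pl hκ.pl]) h2 d hdJ
    rw [scale_apply, iter_add] at h7
    have h8 : b * y ^ p ^ e * d = y ^ p ^ e * (b * d) := by ring
    rw [h8, iter_pl hκ.pl, ← hb, hφd, mul_one] at h7
    exact h7

theorem mulLeft_mem {c : K} {E F : ι → ℤ} (hc : c ∈ h.RD F) {x : K} (hx : x ∈ h.RD E) :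
    c * x ∈ h.RD (F + E) := h.mul_mem_RD hc hx

/-- A trace map is a generator, provided that every `p^(-e)`-linear map is a multiple of `κ^e`. -/
theorem generator_of_traceMap (hp : p.Prime) (hκ : IsTraceMap p h κ Δ)
    (hgen : ∀ (e : ℕ) (τ φ : K →+ K), IsPL (p ^ e) τ → τ ≠ 0 → IsPL (p ^ e) φ →
      ∃ c : K, ∀ x, φ x = τ (c * x)) : Generator p h κ Δ where
  pl := hκ.pl
  fin := hκ.fin
  maps := by
    intro c E E' hc x hx
    rw [scale_apply]
    have h1 := Maps.twist h hp.pos hκ.pl hκ.fin hκ.maps E'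
    have h2 := h1 (c * x) (by
      refine h.RD_mono ?_ (h.mul_mem_RD hc hx)
      intro P
      simp only [Pi.sub_apply, Pi.add_apply, Pi.smul_apply, smul_eq_mul, nsmul_eq_mul,
        Pi.mul_apply, Pi.natCast_apply]
      linarith)
    simpa using h2
  sharp := by
    intro c E E' hE hE' hm hc P
    by_contra hlt
    push Not at hlt
    obtain ⟨x, hx0, hx1, hx2⟩ := hκ.sharp P
    obtain ⟨t, ht0, ht⟩ := h.unif P
    have hxne : x ≠ 0 := by
      rintro rfl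
      exact hx0 (map_zero κ)
    have htE : t ^ (- E' P) ≠ 0 := zpow_ne_zero _ ht0
    set y := c⁻¹ * ((t ^ (- E' P)) ^ p * x) with hy
    have hord : - E P ≤ ord P y := by
      rw [hy, h.mul P _ _ (inv_ne_zero hc) (mul_ne_zero (pow_ne_zero _ htE) hxne), h.inv P hc,
        h.mul P _ _ (pow_ne_zero _ htE) hxne, h.pow P htE, h.zpow P ht0, ht]
      simp only [Pi.sub_apply, Pi.add_apply, Pi.smul_apply, smul_eq_mul] at hlt
      nlinarith
    have hval : scale κ c y = t ^ (- E' P) * κ x := by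
      rw [scale_apply, hy, mul_inv_cancel_left₀ hc, hκ.pl]
    have hpl : IsPL p (scale κ c) := by
      intro a b
      rw [scale_apply, scale_apply, mul_left_comm, hκ.pl]
    have hne : scale κ c y ≠ 0 := by
      rw [hval]
      exact mul_ne_zero htE hx0
    have h3 := Maps.loc h hp.pos hpl hE hm P (fun _ => hord) hne
    rw [hval, h.mul P _ _ htE hx0, h.zpow P ht0, ht] at h3
    omega
  gen := by
    have hsurj : Function.Surjective κ := by
      obtain ⟨x, hx⟩ : ∃ x, κ x ≠ 0 := by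
        by_contra hcon
        push Not at hcon
        exact hκ.ne_zero (by ext x; simpa using hcon x)
      intro y
      refine ⟨(y / κ x) ^ p * x, ?_⟩
      rw [hκ.pl, div_mul_cancel₀ _ hx]
    have hiter : ∀ e, Function.Surjective (iter κ e) := by
      intro e
      induction e with
      | zero => intro y; exact ⟨y, rfl⟩
      | succ e ih =>
        intro y
        obtain ⟨z, rfl⟩ := hsurj y
        obtain ⟨w, rfl⟩ := ih z
        exact ⟨w, rfl⟩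
    intro e φ hφ
    refine hgen e (iter κ e) φ (iter_pl hκ.pl e) ?_ hφ
    intro h0
    obtain ⟨w, hw⟩ := hiter e 1
    rw [h0] at hw
    exact zero_ne_one hw

end

end FJ
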