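import Pool.Agent.Lib.MP_400390_ag.FrobPoly
import Pool.Agent.Lib.MP_400390_ag.TestIdeal

/-!
# The trace map of a canonical divisor
-/

namespace FJ

open scoped BigOperators
open Polynomial

/-- `A` has a `q⁻¹`-linear map `Φ` generating the `q⁻¹`-linear maps, with finite dual bases. -/
def FrobGen (q : ℕ) (A : Type*) [CommRing A] : Prop :=
  ∃ Φ : A →+ A, (∀ a b, Φ (a ^ q * b) = a * Φ b) ∧
    ∃ (n : ℕ) (μ c : Fin n → A), ∀ a, a = ∑ i, (Φ (c i * a)) ^ q * μ i

theorem FrobGen.of_ringEquiv {q : ℕ} {A B : Type*} [CommRing A] [CommRing B] (e : A ≃+* B)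
    (h : FrobGen q A) : FrobGen q B := by
  obtain ⟨Φ, hΦ, n, μ, c, hs⟩ := h
  refine ⟨(e : A →+* B).toAddMonoidHom.comp (Φ.comp (e.symm : B →+* A).toAddMonoidHom),
    ?_, n, fun i => e (μ i), fun i => e (c i), ?_⟩
  · intro a b
    simp [hΦ]
  · intro a
    have := congrArg e (hs (e.symm a))
    simpa using this

theorem FrobGen.of_fintype {A κ : Type*} [CommRing A] [Fintype κ] {q : ℕ} (Φ : A →+ A)
    (hΦ : ∀ a b, Φ (a ^ q * b) = a * Φ b) (μ c : κ → A)
    (hs : ∀ a, a = ∑ i, (Φ (c i * a)) ^ q * μ i) : FrobGen q A := by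
  classical
  let e := (Fintype.equivFin κ).symm
  refine ⟨Φ, hΦ, Fintype.card κ, μ ∘ e, c ∘ e, ?_⟩
  intro a
  conv_lhs => rw [hs a]
  exact (Equiv.sum_comp e (fun i => (Φ (c i * a)) ^ q * μ i)).symm

theorem FrobGen.field (k : Type*) [Field k] (p : ℕ) [Fact p.Prime] [CharP k p] [PerfectField k]
    (e : ℕ) : FrobGen (p ^ e) k := by
  have : ExpChar k p := ExpChar.prime Fact.out
  have : PerfectRing k p := PerfectField.toPerfectRing p
  refine FrobGen.of_fintype (κ := Unit)
    (((iterateFrobeniusEquiv k p e).symm : k →+* k).toAddMonoidHom) ?_ (fun _ => 1)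
      (fun _ => 1) ?_
  · intro a b
    have : (iterateFrobeniusEquiv k p e).symm (a ^ p ^ e) = a := by
      rw [RingEquiv.symm_apply_eq]
      exact (iterateFrobeniusEquiv_apply k p e a).symm
    simp [map_mul, this, -map_pow]
  · intro a
    simp only [Finset.univ_unique, Finset.sum_singleton, mul_one, one_mul]
    have := iterateFrobeniusEquiv_apply k p e ((iterateFrobeniusEquiv k p e).symm a)
    rw [RingEquiv.apply_symm_apply] at this
    exact this

theorem FrobGen.polynomial {A : Type*} [CommRing A] {p e : ℕ} [Fact p.Prime] [CharP A p]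
    (h : FrobGen (p ^ e) A) : FrobGen (p ^ e) A[X] := by
  have : ExpChar A p := ExpChar.prime Fact.out
  obtain ⟨Φ, hΦ, n, μ, c, hs⟩ := h
  set q := p ^ e with hq
  have hq0 : 0 < q := pow_pos (Nat.Prime.pos Fact.out) _
  let F0 : A[X] → A[X] := fun P =>
    ∑ m ∈ Finset.range (P.natDegree + 1), monomial m (Φ (P.coeff (q * m + (q - 1))))
  have hF0 : ∀ P m, (F0 P).coeff m = Φ (P.coeff (q * m + (q - 1))) := by
    intro P m
    simp only [F0, finsetSum_coeff, coeff_monomial]
    rw [Finset.sum_ite_eq' (Finset.range (P.natDegree + 1)) m]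
    split_ifs with hm
    · rfl
    · have : P.natDegree < q * m + (q - 1) := by
        have h1 : P.natDegree < m := by
          have := Finset.mem_range.not.1 hm
          omega
        have h2 : m ≤ q * m := Nat.le_mul_of_pos_left m hq0
        omega
      rw [coeff_eq_zero_of_natDegree_lt this, map_zero]
  let F : A[X] →+ A[X] :=
    { toFun := F0
      map_zero' := by
        ext m
        rw [hF0, coeff_zero, map_zero, coeff_zero]
      map_add' := by
        intro P Q
        ext m
        rw [coeff_add, hF0, hF0, hF0, coeff_add, map_add] }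
  have hF : ∀ P m, (F P).coeff m = Φ (P.coeff (q * m + (q - 1))) := hF0
  have hFmon : ∀ (l : ℕ) (a : A), F (monomial l a) =
      if l % q = q - 1 then monomial (l / q) (Φ a) else 0 := by
    intro l a
    ext m
    rw [hF, coeff_monomial]
    have hj : q - 1 < q := by omega
    by_cases h1 : l = q * m + (q - 1)
    · have h2 : l % q = q - 1 := by
        rw [h1, Nat.mul_add_mod, Nat.mod_eq_of_lt hj]
      have h3 : l / q = m := by
        rw [h1, Nat.mul_add_div hq0, Nat.div_eq_of_lt hj, add_zero]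
      rw [if_pos h1, if_pos h2, h3, coeff_monomial, if_pos rfl]
    · rw [if_neg h1, map_zero]
      split_ifs with h2
      · rw [coeff_monomial, if_neg]
        intro h3
        apply h1
        rw [← h3, ← h2, Nat.div_add_mod]
      · rw [coeff_zero]
  have hG : ∀ i (j : Fin q) P m, (F (C (c i) * X ^ (q - 1 - j) * P)).coeff m =
      Φ (c i * P.coeff (q * m + j)) := by
    intro i j P m
    have hj := j.2
    rw [hF, mul_assoc, coeff_C_mul]
    have h1 : q * m + (q - 1) = (q * m + j) + (q - 1 - j) := by omega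
    rw [h1, coeff_X_pow_mul]
  have hmon : ∀ i (j : Fin q) (l : ℕ) (a : A), F (C (c i) * X ^ (q - 1 - j) * monomial l a) =
      if l % q = j then monomial (l / q) (Φ (c i * a)) else 0 := by
    intro i j l a
    ext m
    rw [hG, coeff_monomial]
    have hj := j.2
    by_cases h1 : l = q * m + j
    · have h2 : l % q = j := by
        rw [h1, Nat.mul_add_mod, Nat.mod_eq_of_lt hj]
      have h3 : l / q = m := by
        rw [h1, Nat.mul_add_div hq0, Nat.div_eq_of_lt hj, add_zero]
      rw [if_pos h1, if_pos h2, h3, coeff_monomial, if_pos rfl]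
    · rw [if_neg h1, mul_zero, map_zero]
      split_ifs with h2
      · rw [coeff_monomial, if_neg]
        intro h3
        apply h1
        rw [← h3, ← h2, Nat.div_add_mod]
      · rw [coeff_zero]
  refine FrobGen.of_fintype (κ := Fin n × Fin q) F ?_ (fun t => C (μ t.1) * X ^ (t.2 : ℕ))
    (fun t => C (c t.1) * X ^ (q - 1 - t.2)) ?_
  · intro P Q
    induction Q using Polynomial.induction_on' with
    | add Q₁ Q₂ h1 h2 => rw [mul_add, map_add, h1, h2, map_add, mul_add]
    | monomial l b =>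
      induction P using Polynomial.induction_on' with
      | add P₁ P₂ h1 h2 =>
        have h3 : (P₁ + P₂) ^ q = P₁ ^ q + P₂ ^ q := by
          rw [hq]
          exact add_pow_expChar_pow P₁ P₂ p e
        rw [h3, add_mul, map_add, h1, h2, add_mul]
      | monomial r a =>
        rw [monomial_pow, monomial_mul_monomial, hFmon, hFmon]
        have h1 : (r * q + l) % q = l % q := by
          rw [add_comm, Nat.add_mul_mod_self_right]
        have h2 : (r * q + l) / q = r + l / q := by
          rw [add_comm, Nat.add_mul_div_right _ _ hq0, add_comm]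
        rw [h1]
        split_ifs with h3
        · rw [monomial_mul_monomial, hΦ, h2]
        · rw [mul_zero]
  · intro P
    rw [Fintype.sum_prod_type]
    simp only
    induction P using Polynomial.induction_on' with
    | add P₁ P₂ h1 h2 =>
      conv_lhs => rw [h1, h2]
      rw [← Finset.sum_add_distrib]
      refine Finset.sum_congr rfl fun i _ => ?_
      rw [← Finset.sum_add_distrib]
      refine Finset.sum_congr rfl fun j _ => ?_
      rw [mul_add, map_add]
      have h3 : ∀ S T : A[X], (S + T) ^ q = S ^ q + T ^ q := by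
        intro S T
        rw [hq]
        exact add_pow_expChar_pow _ _ p e
      rw [h3, add_mul]
    | monomial l a =>
      have h1 : ∀ i, ∑ j : Fin q, (F (C (c i) * X ^ (q - 1 - j) * monomial l a)) ^ q *
          (C (μ i) * X ^ (j : ℕ)) = monomial l ((Φ (c i * a)) ^ q * μ i) := by
        intro i
        rw [Finset.sum_eq_single (⟨l % q, Nat.mod_lt _ hq0⟩ : Fin q)]
        · rw [hmon, if_pos rfl, monomial_pow, C_mul_X_pow_eq_monomial, monomial_mul_monomial]
          have h2 : l / q * q + l % q = l := by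
            rw [mul_comm]
            exact Nat.div_add_mod l q
          simp only [h2]
        · intro j _ hj
          rw [hmon, if_neg, zero_pow hq0.ne', zero_mul]
          intro h2
          apply hj
          ext
          exact h2.symm
        · intro h2
          exact (h2 (Finset.mem_univ _)).elim
      rw [Finset.sum_congr rfl fun i _ => h1 i, ← map_sum, ← hs a]

theorem FrobGen.mvPolynomial (k : Type*) [Field k] (p : ℕ) [Fact p.Prime] [CharP k p]
    [PerfectField k] (e d : ℕ) : FrobGen (p ^ e) (MvPolynomial (Fin d) k) := by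
  induction d with
  | zero =>
    exact FrobGen.of_ringEquiv (MvPolynomial.isEmptyRingEquiv k (Fin 0)).symm
      (FrobGen.field k p e)
  | succ d ih =>
    exact FrobGen.of_ringEquiv (MvPolynomial.finSuccEquiv k d).toRingEquiv.symm
      (FrobGen.polynomial ih)

/-- The data contained in `IsCanonical`. -/
structure CanonData {A R K ι : Type*} [CommRing A] [CommRing R] [Field K] [Algebra R K]
    {ord : ι → K → ℤ} (h : KrullData R K ι ord) (D : ι → ℤ) (ψ : A →+* R) (Θ : K → R → A) :
    Prop where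
  fin : {P | D P ≠ 0}.Finite
  inj : Function.Injective ψ
  dvd : ∀ s : R, s ≠ 0 → ∃ a : A, a ≠ 0 ∧ s ∣ ψ a
  add : ∀ w ∈ h.RD D, ∀ x y, Θ w (x + y) = Θ w x + Θ w y
  lin : ∀ w ∈ h.RD D, ∀ a x, Θ w (ψ a * x) = a * Θ w x
  addw : ∀ w ∈ h.RD D, ∀ w' ∈ h.RD D, ∀ x, Θ (w + w') x = Θ w x + Θ w' x
  smul : ∀ w ∈ h.RD D, ∀ r x, Θ (algebraMap R K r * w) x = Θ w (r * x)
  inj0 : ∀ w ∈ h.RD D, (∀ x, Θ w x = 0) → w = 0
  surj : ∀ f : R → A, (∀ x y, f (x + y) = f x + f y) → (∀ a x, f (ψ a * x) = a * f x) →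
    ∃ w ∈ h.RD D, Θ w = f

section

variable {A R K ι : Type*} [CommRing A] [IsDomain A] [CommRing R] [IsDomain R] [Field K]
  [Algebra R K] [IsFractionRing R K] {ord : ι → K → ℤ} {h : KrullData R K ι ord} {D : ι → ℤ}
  {ψ : A →+* R} {Θ : K → R → A}

omit [IsDomain A] [IsDomain R] [IsFractionRing R K] in
theorem mul_mem_RD' {E : ι → ℤ} (r : R) {w : K} (hw : w ∈ h.RD E) :
    algebraMap R K r * w ∈ h.RD E := by
  rw [← Algebra.smul_def]
  exact Submodule.smul_mem _ _ hw

omit [IsDomain A] [IsDomain R] [IsFractionRing R K] in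
theorem CanonData.uniq (H : CanonData h D ψ Θ) {w w' : K} (hw : w ∈ h.RD D) (hw' : w' ∈ h.RD D)
    (heq : ∀ x, Θ w x = Θ w' x) : w = w' := by
  have hd : w - w' ∈ h.RD D := Submodule.sub_mem _ hw hw'
  rw [← sub_eq_zero]
  refine H.inj0 _ hd (fun x => ?_)
  have h1 := H.addw _ hd _ hw' x
  rw [sub_add_cancel, heq] at h1
  simpa using h1

omit [IsDomain A] [IsDomain R] [IsFractionRing R K] in
theorem CanonData.step (H : CanonData h D ψ Θ) {p : ℕ} [Fact p.Prime] [CharP R p] (Φ : A →+ A)
    (hΦ : ∀ a b, Φ (a ^ p * b) = a * Φ b) {w : K} (hw : w ∈ h.RD D) :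
    ∃ w' ∈ h.RD D, ∀ y, Θ w' y = Φ (Θ w (y ^ p)) := by
  obtain ⟨w', hw', he⟩ := H.surj (fun y => Φ (Θ w (y ^ p))) (by
    intro x y
    rw [add_pow_char, H.add w hw, map_add]) (by
    intro a x
    rw [mul_pow, ← map_pow, H.lin w hw, hΦ])
  exact ⟨w', hw', fun y => by rw [he]⟩

/-- For `x ∈ K` there is `s ≠ 0` in `R` with `s x ∈ R(D)`. -/
theorem exists_smul_mem_RD (h : KrullData R K ι ord) {D : ι → ℤ} (hD : {P | D P ≠ 0}.Finite)
    (x : K) : ∃ s : R, s ≠ 0 ∧ algebraMap R K s * x ∈ h.RD D := by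
  obtain ⟨w, hw, hw0⟩ := Submodule.ne_bot_iff _ |>.1 (RD_ne_bot (h := h) hD)
  by_cases hx : x = 0
  · exact ⟨1, one_ne_zero, by rw [hx, mul_zero]; exact Submodule.zero_mem _⟩
  obtain ⟨a, b, hb, hab⟩ := IsFractionRing.div_surjective (A := R) (x / w)
  have hb0 : b ≠ 0 := nonZeroDivisors.ne_zero hb
  have hb' : algebraMap R K b ≠ 0 := by
    rwa [Ne, map_eq_zero_iff _ (IsFractionRing.injective R K)]
  refine ⟨b, hb0, ?_⟩
  have h1 : algebraMap R K b * x = algebraMap R K a * w := by
    rw [div_eq_div_iff hb' hw0] at hab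
    rw [hab]
    ring
  rw [h1]
  exact mul_mem_RD' a hw

set_option linter.unusedSectionVars false in
theorem CanonData.exists_traceMap (H : CanonData h D ψ Θ) {p : ℕ} [Fact p.Prime] [CharP R p]
    (hA : FrobGen p A) : ∃ κ : K →+ K, IsTraceMap p h κ (-((p - 1) • D)) := by
  classical
  obtain ⟨Φ, hΦ, n, μ, c, hs⟩ := hA
  have hp : p.Prime := Fact.out
  have hp0 : 0 < p := hp.pos
  have hinj := IsFractionRing.injective R K
  have hne : ∀ {s : R}, s ≠ 0 → algebraMap R K s ≠ 0 := by
    intro s hs0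
    rwa [Ne, map_eq_zero_iff _ hinj]
  choose! κ0 hκ0 hκ0' using fun (w : K) (hw : w ∈ h.RD D) => H.step Φ hΦ hw
  -- properties of `κ0`
  have k0add : ∀ w ∈ h.RD D, ∀ w' ∈ h.RD D, κ0 (w + w') = κ0 w + κ0 w' := by
    intro w hw w' hw'
    refine H.uniq (hκ0 _ (Submodule.add_mem _ hw hw'))
      (Submodule.add_mem _ (hκ0 _ hw) (hκ0 _ hw')) (fun y => ?_)
    rw [hκ0' _ (Submodule.add_mem _ hw hw'), H.addw _ hw _ hw', map_add,
      H.addw _ (hκ0 _ hw) _ (hκ0 _ hw'), hκ0' _ hw, hκ0' _ hw']
  have k0pl : ∀ (r : R), ∀ w ∈ h.RD D, κ0 (algebraMap R K r ^ p * w) =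
      algebraMap R K r * κ0 w := by
    intro r w hw
    have hm : algebraMap R K r ^ p * w ∈ h.RD D := by
      rw [← map_pow]
      exact mul_mem_RD' _ hw
    refine H.uniq (hκ0 _ hm) (mul_mem_RD' _ (hκ0 _ hw)) (fun y => ?_)
    rw [hκ0' _ hm, ← map_pow, H.smul _ hw, H.smul _ (hκ0 _ hw), hκ0' _ hw, mul_pow]
  -- the scaling element
  have hex : ∀ x : K, ∃ s : R, s ≠ 0 ∧ algebraMap R K s ^ p * x ∈ h.RD D := by
    intro x
    obtain ⟨s, hs0, hsx⟩ := exists_smul_mem_RD h H.fin x
    refine ⟨s, hs0, ?_⟩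
    obtain ⟨m, rfl⟩ : ∃ m, p = m + 1 := ⟨p - 1, by omega⟩
    rw [pow_succ, mul_assoc, ← map_pow]
    exact mul_mem_RD' _ hsx
  choose σ hσ0 hσ using hex
  have key : ∀ (x : K) (t : R), t ≠ 0 → algebraMap R K t ^ p * x ∈ h.RD D →
      κ0 (algebraMap R K (σ x) ^ p * x) / algebraMap R K (σ x) =
        κ0 (algebraMap R K t ^ p * x) / algebraMap R K t := by
    intro x t ht htx
    rw [div_eq_div_iff (hne (hσ0 x)) (hne ht), mul_comm _ (algebraMap R K t),
      mul_comm _ (algebraMap R K (σ x)), ← k0pl _ _ (hσ x), ← k0pl _ _ htx]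
    congr 1
    ring
  let κ : K →+ K :=
    { toFun := fun x => κ0 (algebraMap R K (σ x) ^ p * x) / algebraMap R K (σ x)
      map_zero' := by
        rw [key 0 1 one_ne_zero (by rw [mul_zero]; exact Submodule.zero_mem _), mul_zero]
        have h1 := k0add 0 (Submodule.zero_mem _) 0 (Submodule.zero_mem _)
        rw [add_zero] at h1
        have h2 : κ0 0 = 0 := by simpa using h1
        rw [h2, zero_div]
      map_add' := by
        intro x y
        have hx : algebraMap R K (σ x * σ y) ^ p * x ∈ h.RD D := by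
          have h1 : algebraMap R K (σ x * σ y) ^ p * x =
              algebraMap R K (σ y ^ p) * (algebraMap R K (σ x) ^ p * x) := by
            rw [map_mul, map_pow]
            ring
          rw [h1]
          exact mul_mem_RD' _ (hσ x)
        have hy : algebraMap R K (σ x * σ y) ^ p * y ∈ h.RD D := by
          have h1 : algebraMap R K (σ x * σ y) ^ p * y =
              algebraMap R K (σ x ^ p) * (algebraMap R K (σ y) ^ p * y) := by
            rw [map_mul, map_pow]
            ring
          rw [h1]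
          exact mul_mem_RD' _ (hσ y)
        have h0 : σ x * σ y ≠ 0 := mul_ne_zero (hσ0 x) (hσ0 y)
        rw [key x _ h0 hx, key y _ h0 hy, key (x + y) _ h0 (by
          rw [mul_add]
          exact Submodule.add_mem _ hx hy), mul_add, k0add _ hx _ hy, add_div] }
  have hκ : ∀ (x : K) (t : R), t ≠ 0 → algebraMap R K t ^ p * x ∈ h.RD D →
      κ x = κ0 (algebraMap R K t ^ p * x) / algebraMap R K t := key
  have hκD : ∀ w ∈ h.RD D, κ w = κ0 w := by
    intro w hw
    rw [hκ w 1 one_ne_zero (by simpa using hw)]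
    simp
  have hpl : IsPL p κ := by
    intro a b
    obtain ⟨u, v, hv, rfl⟩ := IsFractionRing.div_surjective (A := R) a
    have hv0 : v ≠ 0 := nonZeroDivisors.ne_zero hv
    have h0 : σ b * v ≠ 0 := mul_ne_zero (hσ0 b) hv0
    have h1 : algebraMap R K (σ b * v) ^ p * ((algebraMap R K u / algebraMap R K v) ^ p * b) =
        algebraMap R K u ^ p * (algebraMap R K (σ b) ^ p * b) := by
      rw [map_mul, mul_pow, div_pow]
      field_simp [hne hv0]
    have h2 : algebraMap R K u ^ p * (algebraMap R K (σ b) ^ p * b) ∈ h.RD D := by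
      rw [← map_pow]
      exact mul_mem_RD' _ (hσ b)
    rw [hκ _ _ h0 (by rw [h1]; exact h2), h1, k0pl _ _ (hσ b), hκ b _ (hσ0 b) (hσ b), map_mul]
    field_simp [hne hv0, hne (hσ0 b)]
  have hmapsD : Maps h κ D D := by
    intro x hx
    rw [hκD x hx]
    exact hκ0 x hx
  -- detection of divisibility
  have hdet : ∀ (b u : A), (∀ a, b ∣ Φ (a * u)) → b ^ p ∣ u := by
    intro b u hb
    rw [hs u]
    refine Finset.dvd_sum fun i _ => ?_
    exact Dvd.dvd.mul_right (pow_dvd_pow_of_dvd (hb _) p) _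
  -- sharpness for `D`
  have hsharp : ∀ x : K, (∀ r : R, κ (algebraMap R K r * x) ∈ h.RD D) → x ∈ h.RD D := by
    intro x hx
    obtain ⟨s, hs0, hsx⟩ := exists_smul_mem_RD h H.fin x
    obtain ⟨b, hb0, t, hbt⟩ := H.dvd s hs0
    have hψb : ψ b ≠ 0 := by rwa [Ne, map_eq_zero_iff _ H.inj]
    have hw : algebraMap R K (ψ b) * x ∈ h.RD D := by
      rw [hbt, mul_comm s t, map_mul, mul_assoc]
      exact mul_mem_RD' _ hsx
    set w := algebraMap R K (ψ b) * x with hwdef
    have hdiv : ∀ r : R, b ∣ Θ w r := by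
      intro r
      have h1 : b ^ p ∣ b ^ (p - 1) * Θ w r := by
        refine hdet b _ (fun a => ?_)
        -- `κ (a r x) ∈ R(D)`
        have h2 := hx (ψ a * r)
        have h3 : algebraMap R K (ψ b) ^ p * (algebraMap R K (ψ a * r) * x) =
            algebraMap R K (ψ b ^ (p - 1) * (ψ a * r)) * w := by
          rw [hwdef, map_mul _ (ψ b ^ (p - 1)), map_pow]
          have : algebraMap R K (ψ b) ^ p = algebraMap R K (ψ b) ^ (p - 1) *
              algebraMap R K (ψ b) := by
            rw [← pow_succ, Nat.sub_add_cancel hp0]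
          rw [this]
          ring
        have h4 : algebraMap R K (ψ b) ^ p * (algebraMap R K (ψ a * r) * x) ∈ h.RD D := by
          rw [h3]
          exact mul_mem_RD' _ hw
        have h5 := hκ _ _ hψb h4
        rw [eq_div_iff (hne hψb), h3] at h5
        have h6 := hκ0' _ (mul_mem_RD' (ψ b ^ (p - 1) * (ψ a * r)) hw) 1
        rw [← h5, mul_comm, H.smul _ h2, mul_one, H.smul _ hw, one_pow, mul_one] at h6
        have h7 : Θ (κ (algebraMap R K (ψ a * r) * x)) (ψ b) =
            b * Θ (κ (algebraMap R K (ψ a * r) * x)) 1 := by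
          rw [← H.lin _ h2, mul_one]
        have h8 : Θ w (ψ b ^ (p - 1) * (ψ a * r)) = a * (b ^ (p - 1) * Θ w r) := by
          rw [← map_pow, H.lin _ hw, H.lin _ hw]
          ring
        rw [h7, h8] at h6
        exact ⟨_, h6.symm⟩
      obtain ⟨z, hz⟩ := h1
      refine ⟨z, ?_⟩
      have h9 : b ^ (p - 1) * Θ w r = b ^ (p - 1) * (b * z) := by
        rw [hz, ← mul_assoc, ← pow_succ, Nat.sub_add_cancel hp0]
      exact mul_left_cancel₀ (pow_ne_zero _ hb0) h9
    choose f hf using hdiv
    obtain ⟨w', hw', hΘ⟩ := H.surj f (by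
      intro x y
      apply mul_left_cancel₀ hb0
      rw [← hf, H.add _ hw, mul_add, ← hf, ← hf]) (by
      intro a x
      apply mul_left_cancel₀ hb0
      rw [← hf, H.lin _ hw, hf]
      ring)
    have h10 : w = algebraMap R K (ψ b) * w' := by
      refine H.uniq hw (mul_mem_RD' _ hw') (fun y => ?_)
      rw [H.smul _ hw', H.lin _ hw', hΘ, ← hf]
    rw [hwdef] at h10
    have h11 := mul_left_cancel₀ (hne hψb) h10
    rw [h11]
    exact hw'
  refine ⟨κ, hpl, ?_, ?_, ?_, ?_⟩
  · intro h0
    obtain ⟨w, hw, hw0⟩ := Submodule.ne_bot_iff _ |>.1 (RD_ne_bot (h := h) H.fin)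
    refine hw0 (H.inj0 w hw (fun r => ?_))
    rw [hs (Θ w r)]
    refine Finset.sum_eq_zero fun i _ => ?_
    have h1 : Φ (c i * Θ w r) = 0 := by
      have h2 := hκ0' _ (mul_mem_RD' (ψ (c i) * r) hw) 1
      rw [← hκD _ (mul_mem_RD' _ hw), h0, H.smul _ hw, one_pow, mul_one, H.lin _ hw] at h2
      rw [← h2]
      have h3 := H.addw 0 (Submodule.zero_mem _) 0 (Submodule.zero_mem _) 1
      rw [add_zero] at h3
      simpa using h3
    rw [h1, zero_pow hp0.ne', zero_mul]
  · refine H.fin.subset ?_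
    intro P hP
    simp only [Set.mem_ofPred_eq, Pi.neg_apply, Pi.smul_apply] at hP ⊢
    intro h0
    rw [h0] at hP
    simp at hP
  · have h1 := Maps.twist h hp0 hpl H.fin hmapsD (-D)
    have h2 : D + p • (-D) = -((p - 1) • D) := by
      ext P
      have : ((p - 1 : ℕ) : ℤ) = (p : ℤ) - 1 := by
        rw [Nat.cast_sub hp.one_lt.le, Nat.cast_one]
      simp only [Pi.add_apply, Pi.smul_apply, Pi.neg_apply, nsmul_eq_mul, Pi.mul_apply,
        Pi.natCast_apply, this]
      ring
    rw [h2, add_neg_cancel] at h1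
    exact h1
  · intro P
    obtain ⟨t, ht0, ht⟩ := h.unif P
    have hfin : {Q | (D + Pi.single P 1 : ι → ℤ) Q ≠ 0}.Finite := by
      refine (H.fin.union (Set.finite_singleton P)).subset ?_
      intro Q hQ
      by_contra hcon
      simp only [Set.mem_union, Set.mem_ofPred_eq, Set.mem_singleton_iff, not_or, not_not] at hcon
      simp only [Set.mem_ofPred_eq, Pi.add_apply, hcon.1, Pi.single_eq_of_ne hcon.2] at hQ
      exact hQ rfl
    obtain ⟨s, hs0, hsP, hsx⟩ := h.exists_mul_mem P hfin (x := t ^ (- D P - 1)) (fun _ => by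
      rw [h.zpow P ht0, ht]
      simp only [Pi.add_apply, Pi.single_eq_same]
      omega)
    set x := algebraMap R K s * t ^ (- D P - 1) with hx
    have hx0 : x ≠ 0 := mul_ne_zero hs0 (zpow_ne_zero _ ht0)
    have hxP : ord P x = - D P - 1 := by
      rw [hx, h.mul P _ _ hs0 (zpow_ne_zero _ ht0), hsP, h.zpow P ht0, ht]
      omega
    have hxD : x ∉ h.RD D := by
      intro hmem
      have := hmem hx0 P
      omega
    -- some `κ (r x)` is not in `R(D)`
    obtain ⟨r, hr⟩ : ∃ r : R, κ (algebraMap R K r * x) ∉ h.RD D := by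
      by_contra hcon
      push Not at hcon
      exact hxD (hsharp x hcon)
    have hrx : algebraMap R K r * x ∈ h.RD (D + Pi.single P 1) := mul_mem_RD' _ hsx
    set z := algebraMap R K r * x with hz
    have hκz : κ z ≠ 0 := by
      intro h0
      rw [h0] at hr
      exact hr (Submodule.zero_mem _)
    have hz0 : z ≠ 0 := by
      intro h0
      rw [h0, map_zero] at hκz
      exact hκz rfl
    have hbad : ord P (κ z) < - D P := by
      by_contra hcon
      push Not at hcon
      apply hr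
      intro _ Q
      by_cases hQ : Q = P
      · subst hQ
        exact hcon
      · refine Maps.loc h hp0 hpl H.fin hmapsD Q (fun _ => ?_) hκz
        have := hrx hz0 Q
        simp only [Pi.add_apply, Pi.single_eq_of_ne hQ] at this
        omega
    have htD : t ^ (D P) ≠ 0 := zpow_ne_zero _ ht0
    refine ⟨(t ^ (D P)) ^ p * z, ?_, ?_, ?_⟩
    · rw [hpl]
      exact mul_ne_zero htD hκz
    · rw [h.mul P _ _ (pow_ne_zero _ htD) hz0, h.pow P htD, h.zpow P ht0, ht]
      have h5 := hrx hz0 P
      simp only [Pi.add_apply, Pi.single_eq_same] at h5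
      have : ((p - 1 : ℕ) : ℤ) = (p : ℤ) - 1 := by
        rw [Nat.cast_sub hp.one_lt.le, Nat.cast_one]
      simp only [Pi.neg_apply, Pi.smul_apply, nsmul_eq_mul, Pi.mul_apply, Pi.natCast_apply, this]
      nlinarith
    · rw [hpl, h.mul P _ _ htD hκz, h.zpow P ht0, ht]
      omega

end

/-- MODULE (K) -/
theorem exists_traceMap (k : Type*) [Field k] [PerfectField k] (p : ℕ) [Fact p.Prime] [CharP k p]
    {R K ι : Type*} [CommRing R] [IsDomain R] [Algebra k R] [Algebra.FiniteType k R] [Field K]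
    [Algebra R K] [IsFractionRing R K] {ord : ι → K → ℤ} (h : KrullData R K ι ord)
    {D : ι → ℤ} (hD : IsCanonical k h D) :
    ∃ κ : K →+ K, IsTraceMap p h κ (-((p - 1) • D)) := by
  obtain ⟨hfin, d, ψ, hinj, hψ, Θ, h1, h2, h3, h4, h5, h6⟩ := hD
  have hchar : CharP R p := charP_of_injective_algebraMap (algebraMap k R).injective p
  have hdvd : ∀ s : R, s ≠ 0 → ∃ a : MvPolynomial (Fin d) k, a ≠ 0 ∧ s ∣ ψ a := by
    intro s hs
    let _ : Algebra (MvPolynomial (Fin d) k) R := (ψ : MvPolynomial (Fin d) k →+* R).toAlgebra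
    have : Module.Finite (MvPolynomial (Fin d) k) R := hψ
    have h7 := Ideal.comap_ne_bot_of_integral_mem (R := MvPolynomial (Fin d) k) hs
      (Ideal.mem_span_singleton_self s) (Algebra.IsIntegral.isIntegral s)
    obtain ⟨a, ha, ha0⟩ := Submodule.ne_bot_iff _ |>.1 h7
    refine ⟨a, ha0, ?_⟩
    exact Ideal.mem_span_singleton.1 ha
  have hA : FrobGen p (MvPolynomial (Fin d) k) := by
    have := FrobGen.mvPolynomial k p 1 d
    rwa [pow_one] at this
  have H : CanonData h D (ψ : MvPolynomial (Fin d) k →+* R) Θ :=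
    ⟨hfin, hinj, hdvd, h1, h2, h3, h4, h5, h6⟩
  exact H.exists_traceMap hA

end FJ
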