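import Pool.Agent.Lib.MP_400390_ag.TestIdeal

/-!
# Cartier divisors and twisting of `T_e(B, λ)`

(module B of MP_400390_ag, part 2)
-/

namespace FJ

open scoped BigOperators

variable {R K ι : Type*} [CommRing R] [Field K] [Algebra R K] {ord : ι → K → ℤ}

/-- `F` is Cartier: `R(F)` is invertible with inverse `R(-F)`. -/
def IsCart (h : KrullData R K ι ord) (F : ι → ℤ) : Prop :=
  ∃ (m : ℕ) (x y : Fin m → K), (∀ i, x i ∈ h.RD F) ∧ (∀ i, y i ∈ h.RD (-F)) ∧ ∑ i, x i * y i = 1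

variable {h : KrullData R K ι ord}

theorem RD_zero_eq_one : h.RD 0 = (1 : Submodule R K) := by
  ext x
  rw [h.mem_RD_zero, Submodule.mem_one]

theorem RD_mul_le' {E E' : ι → ℤ} : h.RD E * h.RD E' ≤ h.RD (E + E') :=
  Submodule.mul_le.2 fun _ hx _ hy => h.mul_mem_RD hx hy

theorem isCart_iff {F : ι → ℤ} : IsCart h F ↔ h.RD F * h.RD (-F) = 1 := by
  constructor
  · rintro ⟨m, x, y, hx, hy, hxy⟩
    refine le_antisymm ?_ ?_
    · rw [← RD_zero_eq_one (h := h)]
      refine RD_mul_le'.trans (h.RD_mono fun P => ?_)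
      simp
    · rw [Submodule.one_le, ← hxy]
      exact Submodule.sum_mem _ fun i _ => Submodule.mul_mem_mul (hx i) (hy i)
  · intro heq
    have h1 : (1 : K) ∈ h.RD F * h.RD (-F) := by
      rw [heq]
      exact Submodule.one_le.1 le_rfl
    have key : ∀ z ∈ h.RD F * h.RD (-F), ∃ (m : ℕ) (x y : Fin m → K), (∀ i, x i ∈ h.RD F) ∧
        (∀ i, y i ∈ h.RD (-F)) ∧ ∑ i, x i * y i = z := by
      intro z hz
      induction hz using Submodule.mul_induction_on' with
      | mem_mul_mem x hx y hy => exact ⟨1, fun _ => x, fun _ => y, by simpa using hx,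
          by simpa using hy, by simp⟩
      | add a _ b _ ha hb =>
        obtain ⟨m, x, y, hx, hy, hxy⟩ := ha
        obtain ⟨m', x', y', hx', hy', hxy'⟩ := hb
        refine ⟨m + m', Fin.append x x', Fin.append y y', ?_, ?_, ?_⟩
        · intro i
          refine Fin.addCases (fun i => ?_) (fun i => ?_) i
          · rw [Fin.append_left]; exact hx i
          · rw [Fin.append_right]; exact hx' i
        · intro i
          refine Fin.addCases (fun i => ?_) (fun i => ?_) i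
          · rw [Fin.append_left]; exact hy i
          · rw [Fin.append_right]; exact hy' i
        · rw [Fin.sum_univ_add]
          simp [hxy, hxy']
    exact key 1 h1

theorem IsCart.mul {F E : ι → ℤ} (hF : IsCart h F) : h.RD F * h.RD E = h.RD (F + E) := by
  refine le_antisymm RD_mul_le' ?_
  intro z hz
  obtain ⟨m, x, y, hx, hy, hxy⟩ := hF
  have : z = ∑ i, x i * (y i * z) := by
    calc z = (∑ i, x i * y i) * z := by rw [hxy, one_mul]
      _ = _ := by rw [Finset.sum_mul]; exact Finset.sum_congr rfl fun i _ => mul_assoc _ _ _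
  rw [this]
  refine Submodule.sum_mem _ fun i _ => Submodule.mul_mem_mul (hx i) ?_
  refine h.RD_mono ?_ (h.mul_mem_RD (hy i) hz)
  intro P
  simp

theorem isCart_zero : IsCart h 0 := by
  rw [isCart_iff, neg_zero, RD_zero_eq_one, one_mul]

theorem IsCart.neg {F : ι → ℤ} (hF : IsCart h F) : IsCart h (-F) := by
  rw [isCart_iff] at hF ⊢
  rw [neg_neg, mul_comm, hF]

theorem IsCart.add {F E : ι → ℤ} (hF : IsCart h F) (hE : IsCart h E) : IsCart h (F + E) := by
  have h1 := hF.mul (E := E)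
  have h2 := hF.neg.mul (E := -E)
  rw [isCart_iff] at hF hE ⊢
  rw [neg_add, ← h1, ← h2, mul_mul_mul_comm, hF, hE, one_mul]

theorem IsCart.nsmul {F : ι → ℤ} (hF : IsCart h F) (n : ℕ) : IsCart h (n • F) := by
  induction n with
  | zero => rw [zero_smul]; exact isCart_zero
  | succ n ih => rw [succ_nsmul]; exact ih.add hF

theorem IsCart.zsmul {F : ι → ℤ} (hF : IsCart h F) (n : ℤ) : IsCart h (n • F) := by
  obtain ⟨n, rfl | rfl⟩ := n.eq_nat_or_neg
  · rw [natCast_zsmul]; exact hF.nsmul n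
  · rw [neg_zsmul, natCast_zsmul]; exact (hF.nsmul n).neg

theorem IsCart.cancel {F : ι → ℤ} (hF : IsCart h F) {M N : Submodule R K}
    (hMN : h.RD F * M = h.RD F * N) : M = N := by
  have h1 : h.RD (-F) * (h.RD F * M) = h.RD (-F) * (h.RD F * N) := by rw [hMN]
  rw [← mul_assoc, ← mul_assoc, mul_comm (h.RD (-F)), isCart_iff.1 hF, one_mul, one_mul] at h1
  exact h1

section

variable {p : ℕ} {κ : K →+ K} {Δ : ι → ℤ}

/-- `φ(R(E + q F)) = R(F) φ(R(E))`. -/
theorem img_twist [CharP K p] (hp : p.Prime) {F : ι → ℤ} (hF : IsCart h F) {e : ℕ} {φ : K →+ K}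
    (hφ : IsPL (p ^ e) φ) (E : ι → ℤ) :
    img hφ (h.RD (E + (p ^ e : ℤ) • F)) = h.RD F * img hφ (h.RD E) := by
  have : Fact p.Prime := ⟨hp⟩
  have : ExpChar K p := ExpChar.prime hp
  refine le_antisymm ?_ ?_
  · rintro _ ⟨z, hz, rfl⟩
    obtain ⟨m, x, y, hx, hy, hxy⟩ := hF
    have h1 : z = ∑ i, x i ^ p ^ e * (y i ^ p ^ e * z) := by
      have h2 : ∑ i, x i ^ p ^ e * y i ^ p ^ e = 1 := by
        have := congrArg (fun t => t ^ p ^ e) hxy
        simp only [one_pow] at this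
        rw [sum_pow_char_pow] at this
        simpa [mul_pow] using this
      calc z = (∑ i, x i ^ p ^ e * y i ^ p ^ e) * z := by rw [h2, one_mul]
        _ = _ := by rw [Finset.sum_mul]; exact Finset.sum_congr rfl fun i _ => mul_assoc _ _ _
    rw [h1, map_sum]
    refine Submodule.sum_mem _ fun i _ => ?_
    rw [hφ]
    refine Submodule.mul_mem_mul (hx i) ⟨_, ?_, rfl⟩
    refine h.RD_mono ?_ (h.mul_mem_RD (h.pow_mem_RD (hy i) (p ^ e)) hz)
    intro P
    simp only [Pi.add_apply, Pi.smul_apply, smul_eq_mul, nsmul_eq_mul, Pi.mul_apply, Pi.neg_apply,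
      Pi.natCast_apply, Nat.cast_pow, Pi.pow_apply]
    linarith
  · rw [Submodule.mul_le]
    rintro x hx _ ⟨z, hz, rfl⟩
    refine ⟨x ^ p ^ e * z, ?_, hφ x z⟩
    refine h.RD_mono ?_ (h.mul_mem_RD (h.pow_mem_RD hx (p ^ e)) hz)
    intro P
    simp only [Pi.add_apply, Pi.smul_apply, smul_eq_mul, nsmul_eq_mul, Pi.mul_apply,
      Pi.natCast_apply, Nat.cast_pow, Pi.pow_apply]
    linarith

theorem T_twist [CharP K p] (hp : p.Prime) (hκ : Generator p h κ Δ) {F : ι → ℤ}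
    (hF : IsCart h F) (Z : ι → ℤ) (e : ℕ) (B : ι → ℤ) (l : ℝ) :
    T hκ Z e (B + F) l = h.RD F * T hκ Z e B l := by
  rw [T, T, ← img_twist hp hF (iter_pl hκ.pl e)]
  congr 2
  funext P
  simp only [dv, Pi.sub_apply, Pi.add_apply, Pi.smul_apply, smul_eq_mul]
  ring

theorem TT_twist [CharP K p] (hp : p.Prime) (hκ : Generator p h κ Δ) {F : ι → ℤ}
    (hF : IsCart h F) (Z : ι → ℤ) (B : ι → ℤ) (l : ℝ) :
    TT hκ Z (B + F) l = h.RD F * TT hκ Z B l := by
  rw [TT, TT, Submodule.mul_iSup]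
  exact iSup_congr fun e => T_twist hp hκ hF Z e B l

/-- Right continuity (with insertion of `c ∈ R(-Z)`). -/
theorem TT_right [CharP K p] [IsNoetherianRing R] (hp : p.Prime) (hκ : Generator p h κ Δ)
    (hF : StronglyFRegular p h) {Z : ι → ℤ} (hZ : ∀ P, 0 ≤ Z P) (hZfin : {P | Z P ≠ 0}.Finite)
    {l : ℝ} (hl : 0 ≤ l) : ∃ ε : ℝ, 0 < ε ∧ TT hκ Z 0 (l + ε) = TT hκ Z 0 l := by
  have hp0 : (0 : ℝ) < p := by exact_mod_cast hp.pos
  have hle := (isTI_TT hp hκ hF hZ hZfin hl).le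
  -- stabilization
  obtain ⟨e, he⟩ : ∃ e, TT hκ Z 0 l = T hκ Z e 0 l := by
    have hnoeth : IsNoetherian R (h.RD 0) := by
      rw [RD_zero_eq_one]
      have h1 : (1 : Submodule R K) = LinearMap.range (Algebra.linearMap R K) := by
        ext x
        rw [Submodule.mem_one, LinearMap.mem_range]
        rfl
      rw [h1]
      exact isNoetherian_of_surjective (Algebra.linearMap R K).rangeRestrict
        (LinearMap.range_rangeRestrict _)
    have hT : ∀ e, T hκ Z e 0 l ≤ h.RD 0 := fun e =>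
      (le_iSup (fun e => T hκ Z e 0 l) e).trans hle
    let f : ℕ →o Submodule R (h.RD 0) :=
      ⟨fun e => (T hκ Z e 0 l).submoduleOf (h.RD 0), fun a b hab =>
        Submodule.comap_mono (T_le_add hp hκ hF hZ hab 0 l)⟩
    obtain ⟨n, hn⟩ := monotone_stabilizes_iff_noetherian.2 hnoeth f
    refine ⟨n, le_antisymm ?_ (le_iSup (fun e => T hκ Z e 0 l) n)⟩
    refine iSup_le fun e => ?_
    rcases le_total e n with hen | hen
    · exact T_le_add hp hκ hF hZ hen 0 l
    · intro x hx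
      have h1 : (⟨x, hT e hx⟩ : h.RD 0) ∈ f e := hx
      rw [← hn e hen] at h1
      exact h1
  obtain ⟨c, hcZ, hc0⟩ := (Submodule.ne_bot_iff _).1 (RD_ne_bot (h := h) (E := -Z) (by
    have := fin_smul hZfin (-1)
    simpa using this))
  have hcR : c ∈ h.RD 0 := h.RD_mono (fun P => by simpa using hZ P) hcZ
  obtain ⟨f, hf, φ, hφ, hφm, hφc⟩ := hF c hcR hc0
  obtain ⟨b, hb⟩ := hκ.gen f φ hφ
  have hb' : Maps h (scale (iter κ f) b) 0 0 := by
    intro x hx
    rw [scale_apply, ← hb]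
    exact hφm x hx
  have h1 := sharp_iter hκ f b _ _ fin_zero fin_zero hb'
  refine ⟨((p : ℝ) ^ (e + f))⁻¹, by positivity, ?_⟩
  have hε : l ≤ l + ((p : ℝ) ^ (e + f))⁻¹ := by
    have : 0 < ((p : ℝ) ^ (e + f))⁻¹ := by positivity
    linarith
  refine le_antisymm (TT_anti hκ hZ 0 hε) ?_
  rw [he]
  rintro _ ⟨y, hy, rfl⟩
  refine (mem_TT hp hκ hF hZ).2 ⟨e + f, y ^ p ^ f * (b * c), ?_, ?_⟩
  · have h2 := h.mul_mem_RD (h.pow_mem_RD hy (p ^ f)) (h.mul_mem_RD h1 hcZ)
    refine h.RD_mono ?_ h2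
    intro P
    simp only [dv, cl, Pi.sub_apply, Pi.add_apply, Pi.smul_apply, smul_eq_mul, nsmul_eq_mul,
      Pi.zero_apply, Nat.cast_pow, Pi.pow_apply, Pi.natCast_apply, Pi.mul_apply, mul_zero,
      add_zero, sub_zero, Pi.neg_apply]
    have h3 : gs p (e + f) = gs p f + p ^ f * gs p e := by rw [add_comm, gs_add]
    have h4 : ⌈(p : ℝ) ^ (e + f) * (l + ((p : ℝ) ^ (e + f))⁻¹) * (Z P : ℝ)⌉ ≤
        (p : ℤ) ^ f * ⌈(p : ℝ) ^ e * l * (Z P : ℝ)⌉ + Z P := by
      rw [Int.ceil_le]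
      push_cast
      have h5 := Int.le_ceil ((p : ℝ) ^ e * l * (Z P : ℝ))
      have h6 : (p : ℝ) ^ (e + f) ≠ 0 := by positivity
      calc (p : ℝ) ^ (e + f) * (l + ((p : ℝ) ^ (e + f))⁻¹) * (Z P : ℝ) =
          (p : ℝ) ^ f * ((p : ℝ) ^ e * l * (Z P : ℝ)) + (Z P : ℝ) := by
            rw [mul_add, mul_inv_cancel₀ h6]
            ring
        _ ≤ _ := by gcongr
    rw [h3]
    linarith
  · rw [iter_add, iter_pl hκ.pl f, ← hb, hφc, mul_one]

end

end FJ
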