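import Pool.Agent.Lib.MP_400390_ag.Geometry

/-!
# Centers of valuation rings
-/

namespace FJ

open AlgebraicGeometry CategoryTheory IsLocalRing

universe u

variable {X Y : Scheme.{u}} [IsIntegral Y]

/-- Pull-back of a section over `U` to the function field of `Y`. -/
noncomputable def pullFun (π : Y ⟶ X) (U : X.Opens) (hη : genericPoint Y ∈ π ⁻¹ᵁ U) :
    Γ(X, U) →+* Y.functionField :=
  (π.app U ≫ Y.presheaf.germ (π ⁻¹ᵁ U) (genericPoint Y) hη).hom

theorem exists_center (π : Y ⟶ X) [IsProper π] {U : X.Opens} (hU : IsAffineOpen U)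
    (hη : genericPoint Y ∈ π ⁻¹ᵁ U) (V : ValuationSubring Y.functionField)
    (hV : ∀ r : Γ(X, U), pullFun π U hη r ∈ V) :
    ∃ y : Y, π y ∈ U ∧
      (∀ a : Y.presheaf.stalk y, algebraMap (Y.presheaf.stalk y) Y.functionField a ∈ V) ∧
      ∀ a : Y.presheaf.stalk y, ¬ IsUnit a →
        algebraMap (Y.presheaf.stalk y) Y.functionField a ∈ V.nonunits := by
  let f : Γ(X, U) →+* V := (pullFun π U hη).codRestrict V.toSubring hV
  let i₁ : Spec (.of Y.functionField) ⟶ Y := Y.fromSpecStalk (genericPoint Y)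
  let i₂ : Spec (.of V) ⟶ X := Spec.map (CommRingCat.ofHom f) ≫ hU.fromSpec
  let ι : CommRingCat.of V ⟶ CommRingCat.of Y.functionField :=
    CommRingCat.ofHom (algebraMap V Y.functionField)
  have hfι : CommRingCat.ofHom f ≫ ι =
      π.app U ≫ Y.presheaf.germ (π ⁻¹ᵁ U) (genericPoint Y) hη := by
    ext r
    rfl
  have hη' : π (genericPoint Y) ∈ U := hη
  have h1 : X.fromSpecStalk (π (genericPoint Y)) =
      Spec.map (X.presheaf.germ U _ hη') ≫ hU.fromSpec :=
    (hU.fromSpecStalk_eq_fromSpecStalk hη).symm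
  have h0 : X.presheaf.germ U _ hη' ≫ π.stalkMap (genericPoint Y) =
      π.app U ≫ Y.presheaf.germ (π ⁻¹ᵁ U) (genericPoint Y) hη :=
    Scheme.Hom.germ_stalkMap π U _ hη'
  have hcomm : i₁ ≫ π = Spec.map ι ≫ i₂ := by
    simp only [i₁, i₂]
    rw [← Scheme.SpecMap_stalkMap_fromSpecStalk, h1, ← Spec.map_comp_assoc,
      ← Spec.map_comp_assoc, hfι, h0]
  have hlift : ∃ l : Spec (.of V) ⟶ Y, Spec.map ι ≫ l = i₁ ∧ l ≫ π = i₂ := by
    have huc : ValuativeCriterion.Existence π := by
      have h2 : UniversallyClosed π := inferInstance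
      rw [UniversallyClosed.eq_valuativeCriterion] at h2
      exact h2.1
    obtain ⟨⟨⟨l, hl₁, hl₂⟩⟩⟩ := huc
      { R := V, K := Y.functionField, i₁ := i₁, i₂ := i₂, commSq := ⟨hcomm⟩ }
    exact ⟨l, hl₁, hl₂⟩
  obtain ⟨l, hl₁, hl₂⟩ := hlift
  have hspec : Spec.map (Scheme.stalkClosedPointTo l) ≫ Y.fromSpecStalk _ = l :=
    Scheme.Spec_stalkClosedPointTo_fromSpecStalk l
  have hring : Scheme.stalkClosedPointTo l ≫ ι =
      Y.presheaf.stalkSpecializes ((genericPoint_spec Y).specializes trivial) := by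
    apply Spec.map_injective
    rw [← cancel_mono (Y.fromSpecStalk (l (closedPoint V))), Spec.map_comp, Category.assoc, hspec,
      hl₁, Scheme.SpecMap_stalkSpecializes_fromSpecStalk]
  have hval : ∀ a : Y.presheaf.stalk (l (closedPoint V)),
      algebraMap (Y.presheaf.stalk (l (closedPoint V))) Y.functionField a =
        ((Scheme.stalkClosedPointTo l).hom a : V) := by
    intro a
    exact (congrArg (fun z => z.hom a) hring).symm
  refine ⟨l (closedPoint V), ?_, ?_, ?_⟩
  · have h3 : π (l (closedPoint V)) = (l ≫ π) (closedPoint V) := rfl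
    rw [h3, hl₂]
    have h4 : i₂ (closedPoint V) = hU.fromSpec (Spec.map (CommRingCat.ofHom f) (closedPoint V)) :=
      rfl
    rw [h4, ← SetLike.mem_coe, ← hU.range_fromSpec]
    exact ⟨_, rfl⟩
  · intro a
    rw [hval]
    exact ((Scheme.stalkClosedPointTo l).hom a).2
  · intro a ha
    rw [hval]
    have h6 : ¬ IsUnit ((Scheme.stalkClosedPointTo l).hom a) := by
      intro h7
      exact ha (isUnit_of_map_unit (Scheme.stalkClosedPointTo l).hom a h7)
    exact ValuationSubring.coe_mem_nonunits_iff.2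
      ((IsLocalRing.mem_maximalIdeal ((Scheme.stalkClosedPointTo l).hom a)).2 h6)

end FJ
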