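import Mathlib

/-!
# Common framework for MP_400390_ag

`R` is a (normal noetherian) domain with fraction field `K`, `ι` indexes the prime divisors of
`Spec R` and `ord P : K → ℤ` is the order of vanishing along the prime divisor `P` (the value at
`0` is irrelevant).  The structure `KrullData` records the properties that are used.
-/

namespace FJ

open scoped BigOperators

/-- The family of discrete valuations attached to the prime divisors of a normal domain `R` with
fraction field `K`. -/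
structure KrullData (R K ι : Type*) [CommRing R] [Field K] [Algebra R K]
    (ord : ι → K → ℤ) : Prop where
  mul : ∀ P x y, x ≠ 0 → y ≠ 0 → ord P (x * y) = ord P x + ord P y
  add : ∀ P x y, x ≠ 0 → y ≠ 0 → x + y ≠ 0 → min (ord P x) (ord P y) ≤ ord P (x + y)
  mem : ∀ x, x ≠ 0 → ((∀ P, 0 ≤ ord P x) ↔ ∃ r : R, algebraMap R K r = x)
  fin : ∀ x, x ≠ 0 → {P | ord P x ≠ 0}.Finite
  sep : ∀ P Q, P ≠ Q → ∃ s : R, algebraMap R K s ≠ 0 ∧ ord P (algebraMap R K s) = 0 ∧
    0 < ord Q (algebraMap R K s)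
  unif : ∀ P, ∃ t : K, t ≠ 0 ∧ ord P t = 1

variable {R K ι : Type*} [CommRing R] [Field K] [Algebra R K] {ord : ι → K → ℤ}

namespace KrullData

variable (h : KrullData R K ι ord)
include h

theorem one (P : ι) : ord P 1 = 0 := by
  have := h.mul P 1 1 one_ne_zero one_ne_zero
  rw [one_mul] at this
  omega

theorem pow (P : ι) {x : K} (hx : x ≠ 0) (n : ℕ) : ord P (x ^ n) = n * ord P x := by
  induction n with
  | zero => simp [h.one]
  | succ n ih =>
    rw [pow_succ, h.mul P _ _ (pow_ne_zero _ hx) hx, ih]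
    push_cast
    ring

theorem inv (P : ι) {x : K} (hx : x ≠ 0) : ord P x⁻¹ = - ord P x := by
  have := h.mul P x x⁻¹ hx (inv_ne_zero hx)
  rw [mul_inv_cancel₀ hx, h.one] at this
  omega

theorem zpow (P : ι) {x : K} (hx : x ≠ 0) (n : ℤ) : ord P (x ^ n) = n * ord P x := by
  cases n with
  | ofNat n => simpa using h.pow P hx n
  | negSucc n =>
    rw [zpow_negSucc, h.inv P (pow_ne_zero _ hx), h.pow P hx, Int.negSucc_eq]
    push_cast
    ring

theorem nonneg (P : ι) {r : R} (hr : algebraMap R K r ≠ 0) : 0 ≤ ord P (algebraMap R K r) :=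
  (h.mem _ hr).2 ⟨r, rfl⟩ P

/-- The divisorial fractional ideal `R(E) = H⁰(Spec R, O(E))`, as an `R`-submodule of `K`. -/
def RD (E : ι → ℤ) : Submodule R K where
  carrier := {x | x ≠ 0 → ∀ P, - E P ≤ ord P x}
  zero_mem' := fun hx => (hx rfl).elim
  add_mem' := by
    intro x y hx hy hxy P
    by_cases hx0 : x = 0
    · subst hx0
      rw [zero_add] at hxy ⊢
      exact hy hxy P
    by_cases hy0 : y = 0
    · subst hy0
      rw [add_zero] at hxy ⊢
      exact hx hxy P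
    exact le_trans (le_min (hx hx0 P) (hy hy0 P)) (h.add P x y hx0 hy0 hxy)
  smul_mem' := by
    intro r x hx hrx P
    rw [Algebra.smul_def] at hrx ⊢
    have hr : algebraMap R K r ≠ 0 := left_ne_zero_of_mul hrx
    have hx0 : x ≠ 0 := right_ne_zero_of_mul hrx
    rw [h.mul P _ _ hr hx0]
    have h1 := h.nonneg P hr
    have h2 := hx hx0 P
    omega

theorem mem_RD {E : ι → ℤ} {x : K} : x ∈ h.RD E ↔ (x ≠ 0 → ∀ P, - E P ≤ ord P x) := Iff.rfl

theorem mem_RD_zero {x : K} : x ∈ h.RD 0 ↔ ∃ r : R, algebraMap R K r = x := by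
  rw [mem_RD]
  constructor
  · intro hx
    by_cases hx0 : x = 0
    · exact ⟨0, by simp [hx0]⟩
    · exact (h.mem x hx0).1 (fun P => by simpa using hx hx0 P)
  · intro hx hx0 P
    simpa using (h.mem x hx0).2 hx P

theorem algebraMap_mem_RD_zero (r : R) : algebraMap R K r ∈ h.RD 0 := h.mem_RD_zero.2 ⟨r, rfl⟩

theorem RD_mono {E E' : ι → ℤ} (hE : ∀ P, E P ≤ E' P) : h.RD E ≤ h.RD E' := by
  intro x hx hx0 P
  have h1 := hx hx0 P
  have h2 := hE P
  omega

theorem mul_mem_RD {E E' : ι → ℤ} {x y : K} (hx : x ∈ h.RD E) (hy : y ∈ h.RD E') :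
    x * y ∈ h.RD (E + E') := by
  intro hxy P
  have hx0 : x ≠ 0 := left_ne_zero_of_mul hxy
  have hy0 : y ≠ 0 := right_ne_zero_of_mul hxy
  rw [h.mul P _ _ hx0 hy0]
  have h1 := hx hx0 P
  have h2 := hy hy0 P
  simp only [Pi.add_apply]
  omega

theorem pow_mem_RD {E : ι → ℤ} {x : K} (hx : x ∈ h.RD E) (n : ℕ) :
    x ^ n ∈ h.RD (n • E) := by
  induction n with
  | zero =>
    rw [pow_zero, zero_smul]
    exact h.mem_RD_zero.2 ⟨1, by simp⟩
  | succ n ih =>
    rw [pow_succ, succ_nsmul]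
    exact h.mul_mem_RD ih hx

/-- Approximation: a rational function that satisfies the condition of `R(E)` at `P` can be moved
into `R(E)` by an element `s` of `R` that is a unit at `P`. -/
theorem exists_mul_mem (P : ι) {E : ι → ℤ} (hE : {Q | E Q ≠ 0}.Finite) {x : K}
    (hx : x ≠ 0 → - E P ≤ ord P x) :
    ∃ s : R, algebraMap R K s ≠ 0 ∧ ord P (algebraMap R K s) = 0 ∧
      algebraMap R K s * x ∈ h.RD E := by
  classical
  by_cases hx0 : x = 0
  · refine ⟨1, by simp, by simpa using h.one P, ?_⟩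
    rw [hx0, mul_zero]
    exact Submodule.zero_mem _
  have hbad : {Q | ord Q x < - E Q}.Finite := by
    refine (hE.union (h.fin x hx0)).subset ?_
    intro Q hQ
    simp only [Set.mem_union, Set.mem_ofPred_eq] at hQ ⊢
    by_contra hcon
    push Not at hcon
    rw [hcon.1, hcon.2] at hQ
    simp at hQ
  have key : ∀ T : Finset ι, P ∉ T → ∀ f : ι → ℤ, ∃ s : R, algebraMap R K s ≠ 0 ∧
      ord P (algebraMap R K s) = 0 ∧ ∀ Q ∈ T, f Q ≤ ord Q (algebraMap R K s) := by
    intro T hT f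
    induction T using Finset.induction_on with
    | empty => exact ⟨1, by simp, by simpa using h.one P, by simp⟩
    | insert Q T hQT ih =>
      obtain ⟨s, hs0, hsP, hsT⟩ := ih (fun hh => hT (Finset.mem_insert_of_mem hh))
      have hPQ : P ≠ Q := fun hh => hT (hh ▸ Finset.mem_insert_self _ _)
      obtain ⟨u, hu0, huP, huQ⟩ := h.sep P Q hPQ
      refine ⟨s * u ^ (f Q).toNat, ?_, ?_, ?_⟩
      · rw [map_mul, map_pow]
        exact mul_ne_zero hs0 (pow_ne_zero _ hu0)
      · rw [map_mul, map_pow, h.mul P _ _ hs0 (pow_ne_zero _ hu0), h.pow P hu0, hsP, huP]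
        simp
      · intro Q' hQ'
        rw [map_mul, map_pow, h.mul _ _ _ hs0 (pow_ne_zero _ hu0), h.pow _ hu0]
        have h1 := h.nonneg Q' hs0
        have h2 := h.nonneg Q' hu0
        rcases Finset.mem_insert.1 hQ' with rfl | hQ'
        · have h3 : (f Q') ≤ ((f Q').toNat : ℤ) := Int.self_le_toNat _
          have h4 : ((f Q').toNat : ℤ) ≤ ((f Q').toNat : ℤ) * ord Q' (algebraMap R K u) :=
            le_mul_of_one_le_right (Int.natCast_nonneg _) (by omega)
          omega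
        · have h3 := hsT Q' hQ'
          have h4 : 0 ≤ ((f Q).toNat : ℤ) * ord Q' (algebraMap R K u) :=
            mul_nonneg (Int.natCast_nonneg _) h2
          omega
  obtain ⟨s, hs0, hsP, hsT⟩ := key hbad.toFinset (by
    simp only [Set.Finite.mem_toFinset, Set.mem_ofPred_eq, not_lt]
    exact hx hx0) (fun Q => - E Q - ord Q x)
  refine ⟨s, hs0, hsP, ?_⟩
  intro _ Q
  rw [h.mul Q _ _ hs0 hx0]
  by_cases hQ : ord Q x < - E Q
  · have := hsT Q (by simpa using hQ)
    omega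
  · have := h.nonneg Q hs0
    omega

end KrullData

/-- `φ` is `q⁻¹`-linear: `φ (a ^ q * b) = a * φ b` (`q = p ^ e`). -/
def IsPL {K : Type*} [CommRing K] (q : ℕ) (φ : K →+ K) : Prop :=
  ∀ a b, φ (a ^ q * b) = a * φ b

/-- `φ` maps `R(E)` into `R(E')`. -/
def Maps (h : KrullData R K ι ord) (φ : K →+ K) (E E' : ι → ℤ) : Prop :=
  ∀ x ∈ h.RD E, φ x ∈ h.RD E'

/-- Strong `F`-regularity of `R`, in terms of additive maps `K → K` which map `R` to `R`. -/
def StronglyFRegular (p : ℕ) (h : KrullData R K ι ord) : Prop :=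
  ∀ c ∈ h.RD 0, c ≠ 0 → ∃ e : ℕ, 0 < e ∧ ∃ φ : K →+ K, IsPL (p ^ e) φ ∧ Maps h φ 0 0 ∧ φ c = 1

section maps

variable (h : KrullData R K ι ord)
include h

/-- Localisation of a `q⁻¹`-linear map at a prime divisor. -/
theorem Maps.loc {φ : K →+ K} {q : ℕ} (hq : 0 < q) (hφ : IsPL q φ) {E E' : ι → ℤ}
    (hE : {Q | E Q ≠ 0}.Finite) (hm : Maps h φ E E') (P : ι) {x : K}
    (hx : x ≠ 0 → - E P ≤ ord P x) (hφx : φ x ≠ 0) : - E' P ≤ ord P (φ x) := by
  obtain ⟨s, hs0, hsP, hsx⟩ := h.exists_mul_mem P hE hx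
  have h1 : algebraMap R K s ^ q * x ∈ h.RD E := by
    have : algebraMap R K s ^ q * x = (s ^ (q - 1)) • (algebraMap R K s * x) := by
      rw [Algebra.smul_def, map_pow, ← mul_assoc, ← pow_succ, Nat.sub_add_cancel hq]
    rw [this]
    exact Submodule.smul_mem _ _ hsx
  have h2 := hm _ h1
  rw [hφ] at h2
  have h3 := h2 (mul_ne_zero hs0 hφx) P
  rw [h.mul P _ _ hs0 hφx, hsP, zero_add] at h3
  exact h3

/-- Twisting: a `q⁻¹`-linear map `R(E) → R(E')` maps `R(E + q G)` to `R(E' + G)`. -/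
theorem Maps.twist {φ : K →+ K} {q : ℕ} (hq : 0 < q) (hφ : IsPL q φ) {E E' : ι → ℤ}
    (hE : {Q | E Q ≠ 0}.Finite) (hm : Maps h φ E E') (G : ι → ℤ) :
    Maps h φ (E + q • G) (E' + G) := by
  intro x hx hφx P
  obtain ⟨t, ht0, ht⟩ := h.unif P
  have hx0 : x ≠ 0 := by
    rintro rfl
    exact hφx (map_zero φ)
  have htG : t ^ (G P) ≠ 0 := zpow_ne_zero _ ht0
  have hne : φ ((t ^ (G P)) ^ q * x) ≠ 0 := by
    rw [hφ]
    exact mul_ne_zero htG hφx
  have h1 : - E' P ≤ ord P (φ ((t ^ (G P)) ^ q * x)) := by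
    refine Maps.loc h hq hφ hE hm P (fun _ => ?_) hne
    rw [h.mul P _ _ (pow_ne_zero _ htG) hx0, h.pow P htG, h.zpow P ht0, ht]
    have := hx hx0 P
    simp only [Pi.add_apply, nsmul_eq_mul, Pi.natCast_apply, Pi.mul_apply] at this
    nlinarith
  rw [hφ, h.mul P _ _ htG hφx, h.zpow P ht0, ht] at h1
  simp only [Pi.add_apply]
  omega

end maps

/-- Algebraic form of `D` being numerically `ℚ`-Cartier: there is `c ≠ 0` in `R` such that for each
`q ≥ 1` some `b ≠ 0` satisfies `b * c ^ ⌊n / q⌋ ∈ R(nD) * R(-nD)` for all `n` (product of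
submodules of `K`). -/
def AsymptoticallyCartier (h : KrullData R K ι ord) (D : ι → ℤ) : Prop :=
  ∃ c ∈ h.RD 0, c ≠ 0 ∧ ∀ q : ℕ, 0 < q → ∃ b : K, b ≠ 0 ∧ ∀ n : ℕ,
    b * c ^ (n / q) ∈ h.RD (n • D) * h.RD (-(n • D))

/-- `D` is `ℚ`-Cartier: for some `N ≥ 1`, `R(ND) * R(-ND) = R`. -/
def QCartier (h : KrullData R K ι ord) (D : ι → ℤ) : Prop :=
  ∃ N : ℕ, 0 < N ∧ (1 : K) ∈ h.RD (N • D) * h.RD (-(N • D))

end FJ
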