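import Pool.Agent.Lib.MP_400390_ag.KrullNormal

/-!
# The prime divisors in an affine open of a normal locally noetherian scheme
-/

namespace FJ

universe u

open AlgebraicGeometry TopologicalSpace CategoryTheory

theorem ord_ringEquiv {B B' : Type*} [CommRing B] [IsDomain B] [IsDiscreteValuationRing B]
    [CommRing B'] [IsDomain B'] [IsDiscreteValuationRing B'] (e : B ≃+* B') (x : B) :
    Ring.ord B' (e x) = Ring.ord B x := by
  obtain ⟨ϖ, hϖ⟩ := IsDiscreteValuationRing.exists_irreducible B
  have hϖ' : Irreducible (e ϖ) := (MulEquiv.irreducible_iff e).2 hϖ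
  by_cases hx : x = 0
  · subst hx
    rw [map_zero, Ring.ord_eq_addVal, Ring.ord_eq_addVal, AddValuation.map_zero,
      AddValuation.map_zero]
  · obtain ⟨n, u, rfl⟩ := IsDiscreteValuationRing.eq_unit_mul_pow_irreducible hx hϖ
    rw [map_mul, map_pow, Ring.ord_mul_of_isUnit_left u.isUnit,
      Ring.ord_mul_of_isUnit_left (u.isUnit.map e),
      Ring.ord_pow (mem_nonZeroDivisors_of_ne_zero hϖ.ne_zero),
      Ring.ord_pow (mem_nonZeroDivisors_of_ne_zero hϖ'.ne_zero),
      Ring.ord_of_irreducible hϖ, Ring.ord_of_irreducible hϖ']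

/-- Reindexing of Krull data. -/
theorem KrullData.reindex {R K ι ι' : Type*} [CommRing R] [Field K] [Algebra R K]
    {ord : ι → K → ℤ} (h : KrullData R K ι ord) (e : ι' ≃ ι) {ord' : ι' → K → ℤ}
    (hord : ∀ i f, f ≠ 0 → ord' i f = ord (e i) f) : KrullData R K ι' ord' where
  mul P x y hx hy := by
    rw [hord P _ (mul_ne_zero hx hy), hord P _ hx, hord P _ hy]
    exact h.mul _ _ _ hx hy
  add P x y hx hy hxy := by
    rw [hord P _ hxy, hord P _ hx, hord P _ hy]
    exact h.add _ _ _ hx hy hxy
  mem x hx := by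
    rw [← h.mem x hx]
    constructor
    · intro h1 P
      have h2 := h1 (e.symm P)
      rwa [hord _ _ hx, e.apply_symm_apply] at h2
    · intro h1 P
      rw [hord _ _ hx]
      exact h1 _
  fin x hx := by
    have h1 := (h.fin x hx).preimage (f := e) (e.injective.injOn)
    refine h1.subset ?_
    intro P hP
    simp only [Set.mem_ofPred_eq, Set.mem_preimage] at hP ⊢
    rwa [hord _ _ hx] at hP
  sep P Q hPQ := by
    obtain ⟨s, h1, h2, h3⟩ := h.sep (e P) (e Q) (fun h0 => hPQ (e.injective h0))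
    refine ⟨s, h1, ?_, ?_⟩
    · rwa [hord _ _ h1]
    · rwa [hord _ _ h1]
  unif P := by
    obtain ⟨t, ht, h1⟩ := h.unif (e P)
    refine ⟨t, ht, ?_⟩
    rwa [hord _ _ ht]

/-- A localisation of a noetherian normal domain at a height one prime is a DVR. -/
theorem isDiscreteValuationRing_of_isLocalization {R : Type*} [CommRing R] [IsDomain R]
    [IsNoetherianRing R] [IsIntegrallyClosed R] (P : Ideal R) [P.IsPrime] (hP : P.height = 1)
    (B : Type*) [CommRing B] [IsDomain B] [Algebra R B] [IsLocalization.AtPrime B P] :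
    IsDiscreteValuationRing B := by
  have hdvr := isDiscreteValuationRing_of_height_one P hP
  exact IsDiscreteValuationRing.RingEquivClass.isDiscreteValuationRing
    (IsLocalization.algEquiv P.primeCompl (Localization.AtPrime P) B)

theorem ord_atPrime_eq {R : Type*} [CommRing R] [IsDomain R]
    [IsNoetherianRing R] [IsIntegrallyClosed R] (P : Ideal R) [P.IsPrime] (hP : P.height = 1)
    (B : Type*) [CommRing B] [IsDomain B] [Algebra R B] [IsLocalization.AtPrime B P]
    {a : R} (ha : a ≠ 0) :
    Ring.ord B (algebraMap R B a) = (vP P a : ℕ∞) := by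
  have hdvr := isDiscreteValuationRing_of_height_one P hP
  have hdvr' := isDiscreteValuationRing_of_isLocalization P hP B
  rw [vP_coe P ha]
  let e := (IsLocalization.algEquiv P.primeCompl (Localization.AtPrime P) B)
  have h1 : algebraMap R B a = e.toRingEquiv (algebraMap R (Localization.AtPrime P) a) :=
    (e.commutes a).symm
  rw [h1, ord_ringEquiv]

section

variable (X : Scheme.{u}) [IsIntegral X] [IsLocallyNoetherian X]

omit [IsLocallyNoetherian X] [IsIntegral X] in
theorem exists_primeIdealOf_eq (U : X.Opens) (hU : IsAffineOpen U) (P : Spec Γ(X, U)) :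
    ∃ x : U, hU.primeIdealOf x = P := by
  refine ⟨hU.isoSpec.inv P, ?_⟩
  have h : (hU.isoSpec.inv ≫ hU.isoSpec.hom) P = P := by
    rw [Iso.inv_hom_id]
    rfl
  rwa [Scheme.Hom.comp_apply] at h

omit [IsLocallyNoetherian X] in
theorem isIntegrallyClosed_section (hn : ∀ x : X, IsIntegrallyClosed (X.presheaf.stalk x))
    (U : X.Opens) (hU : IsAffineOpen U) [Nonempty U] : IsIntegrallyClosed Γ(X, U) := by
  refine IsIntegrallyClosed.of_localization_maximal (fun P hP0 hPm => ?_)
  obtain ⟨x, hx⟩ := exists_primeIdealOf_eq X U hU ⟨P, hPm.isPrime⟩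
  have hloc : IsLocalization.AtPrime (X.presheaf.stalk (x : X)) (hU.primeIdealOf x).asIdeal :=
    hU.isLocalization_stalk x
  have hP : (hU.primeIdealOf x).asIdeal = P := by rw [hx]
  have hcl := hn x
  subst hP
  exact IsIntegrallyClosed.of_equiv
    (IsLocalization.algEquiv (hU.primeIdealOf x).asIdeal.primeCompl
      (X.presheaf.stalk (x : X)) (Localization.AtPrime (hU.primeIdealOf x).asIdeal)).toRingEquiv

omit [IsLocallyNoetherian X] [IsIntegral X] in
theorem height_primeIdealOf (U : X.Opens) (hU : IsAffineOpen U) (x : U) :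
    (hU.primeIdealOf x).asIdeal.height = Order.coheight (x : X) := by
  have hloc : IsLocalization.AtPrime (X.presheaf.stalk (x : X)) (hU.primeIdealOf x).asIdeal :=
    hU.isLocalization_stalk x
  have h1 := ringKrullDim_stalk_eq_coheight (x : X)
  rw [IsLocalization.AtPrime.ringKrullDim_eq_height (hU.primeIdealOf x).asIdeal
    (X.presheaf.stalk (x : X))] at h1
  exact_mod_cast h1

/-- The prime divisors of `X` meeting `U` correspond to the height one primes of `Γ(X, U)`. -/
noncomputable def primeDivisorEquiv (U : X.Opens) (hU : IsAffineOpen U) :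
    {x : X // x ∈ U ∧ Order.coheight x = 1} ≃
      {P : PrimeSpectrum Γ(X, U) // P.asIdeal.height = 1} :=
  Equiv.ofBijective (fun x => ⟨hU.primeIdealOf ⟨x.1, x.2.1⟩, by
    rw [height_primeIdealOf]
    exact x.2.2⟩) (by
    constructor
    · intro x y hxy
      have h1 : hU.primeIdealOf ⟨x.1, x.2.1⟩ = hU.primeIdealOf ⟨y.1, y.2.1⟩ :=
        congrArg Subtype.val hxy
      have h2 := hU.fromSpec_primeIdealOf ⟨x.1, x.2.1⟩
      have h3 := hU.fromSpec_primeIdealOf ⟨y.1, y.2.1⟩
      rw [h1] at h2
      exact Subtype.ext (h2.symm.trans h3)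
    · rintro ⟨P, hP⟩
      obtain ⟨x, rfl⟩ := exists_primeIdealOf_eq X U hU P
      rw [height_primeIdealOf] at hP
      exact ⟨⟨x.1, x.2, hP⟩, rfl⟩)

theorem schemeOrd_eq_vP (U : X.Opens) (hU : IsAffineOpen U) [Nonempty U]
    [IsNoetherianRing Γ(X, U)] [IsIntegrallyClosed Γ(X, U)] (x : U)
    (hx : Order.coheight (x : X) = 1) (hP : (hU.primeIdealOf x).asIdeal.height = 1)
    {a : Γ(X, U)} (ha : a ≠ 0) :
    Scheme.ord (algebraMap Γ(X, U) X.functionField a) (x : X) =
      (vP (hU.primeIdealOf x).asIdeal a : ℤ) := by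
  have hloc : IsLocalization.AtPrime (X.presheaf.stalk (x : X)) (hU.primeIdealOf x).asIdeal :=
    hU.isLocalization_stalk x
  have hord := ord_atPrime_eq (hU.primeIdealOf x).asIdeal hP (X.presheaf.stalk (x : X)) ha
  have hdvr := isDiscreteValuationRing_of_isLocalization (hU.primeIdealOf x).asIdeal hP
    (X.presheaf.stalk (x : X))
  have hfr := functionField_isFractionRing_of_isAffineOpen X U hU
  have hinj := IsFractionRing.injective Γ(X, U) X.functionField
  have ha' : algebraMap Γ(X, U) X.functionField a ≠ 0 := by rwa [Ne, map_eq_zero_iff _ hinj]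
  rw [Scheme.ord_eq_iff hx ha']
  have hkd : Ring.KrullDimLE 1 (X.presheaf.stalk (x : X)) := krullDimLE_of_coheight_le hx.le
  have htower := functionField_isScalarTower X U x
  rw [IsScalarTower.algebraMap_apply Γ(X, U) (X.presheaf.stalk (x : X)) X.functionField]
  have ha2 : algebraMap Γ(X, U) (X.presheaf.stalk (x : X)) a ≠ 0 := by
    intro h0
    rw [IsScalarTower.algebraMap_apply Γ(X, U) (X.presheaf.stalk (x : X)) X.functionField, h0,
      map_zero] at ha'
    exact ha' rfl
  have h1 : Scheme.ordHom (x : X) hx (algebraMap (X.presheaf.stalk (x : X)) X.functionField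
      (algebraMap Γ(X, U) (X.presheaf.stalk (x : X)) a)) =
      Ring.ordFrac (X.presheaf.stalk (x : X)) (algebraMap (X.presheaf.stalk (x : X))
        X.functionField (algebraMap Γ(X, U) (X.presheaf.stalk (x : X)) a)) := rfl
  rw [h1, Ring.ordFrac_eq_ord _ ha2]
  exact Ring.ordMonoidWithZeroHom_eq_coe _ (mem_nonZeroDivisors_of_ne_zero ha2) hord

/-- Scheme form of MODULE (P). -/
theorem krullData_affine (hn : ∀ x : X, IsIntegrallyClosed (X.presheaf.stalk x)) (U : X.Opens)
    (hU : IsAffineOpen U) [Nonempty U] :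
    KrullData Γ(X, U) X.functionField {x : X // x ∈ U ∧ Order.coheight x = 1}
      (fun x f => Scheme.ord f x.1) := by
  have hno : IsNoetherianRing Γ(X, U) := IsLocallyNoetherian.component_noetherian ⟨U, hU⟩
  have hic := isIntegrallyClosed_section X hn U hU
  have hfr := functionField_isFractionRing_of_isAffineOpen X U hU
  have hinj := IsFractionRing.injective Γ(X, U) X.functionField
  refine (krullData Γ(X, U) X.functionField).reindex (primeDivisorEquiv X U hU) ?_
  intro x f hf
  obtain ⟨a, b, ha, hb, rfl⟩ := exists_frac (R := Γ(X, U)) f hf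
  rw [ordP_eq _ ha hb]
  have hb' : algebraMap Γ(X, U) X.functionField b ≠ 0 := by rwa [Ne, map_eq_zero_iff _ hinj]
  have h1 := Scheme.ord_mul (x := x.1) hf hb'
  rw [div_mul_cancel₀ _ hb'] at h1
  have hP : (hU.primeIdealOf ⟨x.1, x.2.1⟩).asIdeal.height = 1 := by
    rw [height_primeIdealOf]
    exact x.2.2
  rw [schemeOrd_eq_vP X U hU ⟨x.1, x.2.1⟩ x.2.2 hP ha,
    schemeOrd_eq_vP X U hU ⟨x.1, x.2.1⟩ x.2.2 hP hb] at h1
  change Scheme.ord _ x.1 = (vP (hU.primeIdealOf ⟨x.1, x.2.1⟩).asIdeal a : ℤ) -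
    vP (hU.primeIdealOf ⟨x.1, x.2.1⟩).asIdeal b
  omega

end

end FJ
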