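import Pool.Agent.Lib.MP_400390_ag.Jumping
import Pool.Agent.Lib.MP_400390_ag.KrullScheme

/-!
# Localisation of test ideals
-/

namespace FJ

open scoped BigOperators

/-- `R'` with its prime divisors `ι'` is the localisation of `R` at the element `f`. -/
structure LocData {R K ι : Type*} (R' : Type*) {ι' : Type*} [CommRing R] [CommRing R'] [Field K] [Algebra R K]
    [Algebra R' K] [Algebra R R'] (ord : ι → K → ℤ) (ord' : ι' → K → ℤ) (f : R)
    (j : ι' → ι) : Prop where
  tower : ∀ r : R, algebraMap R' K (algebraMap R R' r) = algebraMap R K r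
  surj : ∀ r' : R', ∃ (n : ℕ) (r : R), algebraMap R R' f ^ n * r' = algebraMap R R' r
  inv : ∃ g : R', g * algebraMap R R' f = 1
  inj : Function.Injective j
  ordEq : ∀ P x, x ≠ 0 → ord' P x = ord (j P) x
  range : ∀ Q, (∃ P, j P = Q) ↔ ord Q (algebraMap R K f) = 0

section

variable {R K ι R' ι' : Type*} [CommRing R] [CommRing R'] [Field K] [Algebra R K]
    [Algebra R' K] [Algebra R R'] {ord : ι → K → ℤ} {ord' : ι' → K → ℤ} {f : R} {j : ι' → ι}
    {h : KrullData R K ι ord} {h' : KrullData R' K ι' ord'}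

theorem LocData.f_ne_zero (L : LocData R' ord ord' f j) : algebraMap R K f ≠ 0 := by
  obtain ⟨g, hg⟩ := L.inv
  have h1 := congrArg (algebraMap R' K) hg
  rw [map_mul, map_one, L.tower] at h1
  exact right_ne_zero_of_mul_eq_one h1

theorem LocData.RD_le (L : LocData R' ord ord' f j) {E : ι → ℤ} {x : K} (hx : x ∈ h.RD E) :
    x ∈ h'.RD (E ∘ j) := by
  intro hx0 P
  rw [L.ordEq P x hx0]
  exact hx hx0 (j P)

theorem LocData.exists_mem_RD (L : LocData R' ord ord' f j) {E : ι → ℤ}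
    (hE : {P | E P ≠ 0}.Finite) {x : K} (hx : x ∈ h'.RD (E ∘ j)) :
    ∃ n₀ : ℕ, ∀ n, n₀ ≤ n → algebraMap R K f ^ n * x ∈ h.RD E := by
  classical
  by_cases hx0 : x = 0
  · exact ⟨0, fun n _ => by rw [hx0, mul_zero]; exact Submodule.zero_mem _⟩
  have hf0 := L.f_ne_zero
  have hbad : {Q | ord Q x < - E Q}.Finite := by
    refine (hE.union (h.fin x hx0)).subset ?_
    intro Q hQ
    simp only [Set.mem_union, Set.mem_ofPred_eq] at hQ ⊢
    by_contra hcon
    push Not at hcon
    rw [hcon.1, hcon.2] at hQ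
    simp at hQ
  obtain ⟨N, hN⟩ : ∃ N : ℕ, ∀ Q ∈ hbad.toFinset, - E Q - ord Q x ≤ N := by
    refine ⟨∑ Q ∈ hbad.toFinset, (- E Q - ord Q x).toNat, fun Q hQ => ?_⟩
    have h1 : (- E Q - ord Q x).toNat ≤ ∑ Q ∈ hbad.toFinset, (- E Q - ord Q x).toNat :=
      Finset.single_le_sum (f := fun Q => (- E Q - ord Q x).toNat) (fun _ _ => Nat.zero_le _) hQ
    have h2 := Int.self_le_toNat (- E Q - ord Q x)
    omega
  refine ⟨N, fun n hn _ Q => ?_⟩
  rw [h.mul Q _ _ (pow_ne_zero _ hf0) hx0, h.pow Q hf0]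
  have h3 := h.nonneg Q hf0
  by_cases hQ : ord Q x < - E Q
  · have h4 : ord Q (algebraMap R K f) ≠ 0 := by
      intro h5
      obtain ⟨P, rfl⟩ := (L.range Q).2 h5
      have h6 := hx hx0 P
      rw [L.ordEq P x hx0] at h6
      simp only [Function.comp_apply] at h6
      omega
    have h7 := hN Q (by simpa using hQ)
    have h8 : (n : ℤ) ≤ n * ord Q (algebraMap R K f) :=
      le_mul_of_one_le_right (Int.natCast_nonneg _) (by omega)
    have h9 : (N : ℤ) ≤ n := by exact_mod_cast hn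
    omega
  · have h7 : 0 ≤ (n : ℤ) * ord Q (algebraMap R K f) := mul_nonneg (Int.natCast_nonneg _) h3
    omega

include h h' in
theorem LocData.maps (L : LocData R' ord ord' f j) {q : ℕ} (hq : 0 < q) {φ : K →+ K}
    (hφ : IsPL q φ) {E E' : ι → ℤ} (hE : {P | E P ≠ 0}.Finite) (hm : Maps h φ E E') :
    Maps h' φ (E ∘ j) (E' ∘ j) := by
  intro x hx hφx P
  have hx0 : x ≠ 0 := by
    rintro rfl
    exact hφx (map_zero φ)
  rw [L.ordEq P _ hφx]
  refine Maps.loc h hq hφ hE hm (j P) (fun _ => ?_) hφx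
  rw [← L.ordEq P x hx0]
  exact hx hx0 P

include h h' in
theorem LocData.isTraceMap (L : LocData R' ord ord' f j) {p : ℕ} (hp : p.Prime) {κ : K →+ K}
    {Δ : ι → ℤ} (hκ : IsTraceMap p h κ Δ) : IsTraceMap p h' κ (Δ ∘ j) where
  pl := hκ.pl
  ne_zero := hκ.ne_zero
  fin := hκ.fin.preimage L.inj.injOn
  maps := L.maps hp.pos hκ.pl hκ.fin hκ.maps
  sharp := by
    intro P
    obtain ⟨x, hx0, hx1, hx2⟩ := hκ.sharp (j P)
    have hxne : x ≠ 0 := by
      rintro rfl
      exact hx0 (map_zero κ)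
    refine ⟨x, hx0, ?_, ?_⟩
    · rw [L.ordEq P x hxne]
      exact hx1
    · rw [L.ordEq P _ hx0]
      exact hx2

include h h' in
theorem LocData.stronglyFRegular (L : LocData R' ord ord' f j) {p : ℕ} (hp : p.Prime)
    (hF : StronglyFRegular p h) : StronglyFRegular p h' := by
  intro c hc hc0
  have hf0 := L.f_ne_zero
  obtain ⟨n, hn⟩ := L.exists_mem_RD (h := h) (h' := h') fin_zero (x := c) hc
  obtain ⟨e, he, φ, hφ, hφm, hφ1⟩ := hF _ (hn n le_rfl) (mul_ne_zero (pow_ne_zero _ hf0) hc0)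
  refine ⟨e, he, φ.comp (AddMonoidHom.mulLeft (algebraMap R K f ^ n)), ?_, ?_, ?_⟩
  · intro a b
    change φ (_ * (_ * _)) = a * φ (_ * _)
    rw [mul_left_comm, hφ]
  · intro x hx
    have h1 := L.maps (h := h) (h' := h') (pow_pos hp.pos e) hφ fin_zero hφm
    refine h1 _ ?_
    have h2 : algebraMap R K f ^ n ∈ h'.RD 0 := by
      refine h'.mem_RD_zero.2 ⟨algebraMap R R' f ^ n, ?_⟩
      rw [map_pow, L.tower]
    have h3 := h'.mul_mem_RD h2 hx
    rwa [add_zero] at h3
  · exact hφ1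

include h h' in
theorem LocData.qCartier (L : LocData R' ord ord' f j) {D : ι → ℤ}
    (hD : QCartier h D) : QCartier h' (D ∘ j) := by
  obtain ⟨N, hN, h1⟩ := hD
  refine ⟨N, hN, ?_⟩
  have key : ∀ z ∈ h.RD (N • D) * h.RD (-(N • D)),
      z ∈ h'.RD (N • (D ∘ j)) * h'.RD (-(N • (D ∘ j))) := by
    intro z hz
    refine Submodule.mul_induction_on hz ?_ ?_
    · intro a ha b hb
      exact Submodule.mul_mem_mul (L.RD_le ha) (L.RD_le hb)
    · intro x y hx hy
      exact Submodule.add_mem _ hx hy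
  exact key 1 h1

end

section

variable {R K ι : Type*} [CommRing R] [IsDomain R] [Field K] [Algebra R K] [IsFractionRing R K]
  {ord : ι → K → ℤ} {h : KrullData R K ι ord} {p : ℕ} {κ : K →+ K} {Δ : ι → ℤ}

omit [IsDomain R] in
/-- The test ideal is `TT`. -/
theorem isTestIdeal_comap_TT [CharP K p] (hp : p.Prime) (G : Generator p h κ Δ)
    (hF : StronglyFRegular p h) {Z : ι → ℤ} (hZ0 : ∀ P, 0 ≤ Z P) (hZfin : {P | Z P ≠ 0}.Finite)
    {t : ℝ} (ht : 0 ≤ t) :
    IsTestIdeal p h (fun P => t * (Z P : ℝ)) ((TT G Z 0 t).comap (Algebra.linearMap R K)) := by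
  have hT := isTI_TT hp G hF hZ0 hZfin ht
  have hmemτ : ∀ x, x ∈ (TT G Z 0 t).comap (Algebra.linearMap R K) ↔
    algebraMap R K x ∈ TT G Z 0 t := fun x => Iff.rfl
  have hTTτ : TT G Z 0 t = Submodule.map (Algebra.linearMap R K)
      ((TT G Z 0 t).comap (Algebra.linearMap R K)) := by
    ext x
    constructor
    · intro hx
      obtain ⟨y, rfl⟩ := h.mem_RD_zero.1 (hT.le hx)
      exact ⟨y, hx, rfl⟩
    · rintro ⟨y, hy, rfl⟩
      exact hy
  refine ⟨⟨?_, ?_⟩, ?_⟩
  · intro hbot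
    apply hT.ne
    rw [hTTτ]
    rw [hbot]
    exact Submodule.map_bot _
  · intro e he φ hφ hφm x hx
    have h1 : Maps h φ (cl Z (((p : ℝ) ^ e - 1) * t)) 0 := by
      have : cl Z (((p : ℝ) ^ e - 1) * t) = fun P => ⌈((p : ℝ) ^ e - 1) * (t * (Z P : ℝ))⌉ := by
        funext P
        simp only [cl, mul_assoc]
      rw [this]
      exact hφm
    have h2 := hT.stable e he φ hφ h1 _ hx
    obtain ⟨y, hy⟩ := h.mem_RD_zero.1 (hT.le h2)
    exact ⟨y, by rw [hmemτ, hy]; exact h2, hy⟩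
  · rintro I ⟨hI0, hIc⟩
    have h1 : TT G Z 0 t ≤ Submodule.map (Algebra.linearMap R K) I := by
      refine hT.min _ ?_ ?_ ?_
      · rintro _ ⟨y, -, rfl⟩
        exact h.algebraMap_mem_RD_zero y
      · intro hbot
        apply hI0
        rw [eq_bot_iff]
        intro x hx
        have h2 : algebraMap R K x ∈ Submodule.map (Algebra.linearMap R K) I := ⟨x, hx, rfl⟩
        rw [hbot, Submodule.mem_bot, IsFractionRing.to_map_eq_zero_iff] at h2
        exact h2
      · intro e he φ hφ hφm x hx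
        obtain ⟨x, hxI, rfl⟩ := hx
        have h1 : Maps h φ (fun P => ⌈((p : ℝ) ^ e - 1) * (t * (Z P : ℝ))⌉) 0 := by
          have : cl Z (((p : ℝ) ^ e - 1) * t) =
              fun P => ⌈((p : ℝ) ^ e - 1) * (t * (Z P : ℝ))⌉ := by
            funext P
            simp only [cl, mul_assoc]
          rw [← this]
          exact hφm
        obtain ⟨y, hyI, hy⟩ := hIc e he φ hφ h1 x hxI
        exact ⟨y, hyI, hy⟩
    intro x hx
    obtain ⟨y, hyI, hy⟩ := h1 ((hmemτ x).1 hx)
    have h2 : y = x := IsFractionRing.injective R K hy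
    rw [← h2]
    exact hyI

end

section

variable {R K ι R' ι' : Type*} [CommRing R] [IsDomain R] [CommRing R'] [Field K]
    [Algebra R K] [IsFractionRing R K]
    [Algebra R' K] [IsFractionRing R' K] [Algebra R R'] {ord : ι → K → ℤ} {ord' : ι' → K → ℤ}
    {f : R} {j : ι' → ι} {h : KrullData R K ι ord} {h' : KrullData R' K ι' ord'} {p : ℕ}
    {κ : K →+ K} {Δ : ι → ℤ}

omit [IsDomain R] [IsFractionRing R K] [IsFractionRing R' K] in
theorem fin_dv {Z : ι → ℤ} (hΔ : {P | Δ P ≠ 0}.Finite) (hZfin : {P | Z P ≠ 0}.Finite) (e : ℕ)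
    (t : ℝ) : {P | dv p Δ Z e 0 t P ≠ 0}.Finite := by
  rw [dv, sub_eq_add_neg]
  refine fin_add (fin_add (fin_smul hΔ _) (fin_smul fin_zero _)) ?_
  have := fin_smul (fin_cl hZfin ((p : ℝ) ^ e * t)) (-1)
  simpa using this

omit [IsDomain R] in
/-- **Localisation of test ideals.** -/
theorem testIdeal_loc [CharP K p] (hp : p.Prime) (L : LocData R' ord ord' f j)
    (G : Generator p h κ Δ) (G' : Generator p h' κ (Δ ∘ j)) (hF : StronglyFRegular p h)
    {Z : ι → ℤ} (hZ0 : ∀ P, 0 ≤ Z P) (hZfin : {P | Z P ≠ 0}.Finite)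
    {t : ℝ} (ht : 0 ≤ t) {J : Ideal R} {J' : Ideal R'}
    (hJ : IsTestIdeal p h (fun P => t * (Z P : ℝ)) J)
    (hJ' : IsTestIdeal p h' (fun P => t * (Z (j P) : ℝ)) J') :
    J' = J.map (algebraMap R R') := by
  have hF' : StronglyFRegular p h' := L.stronglyFRegular (h := h) hp hF
  have hZ0' : ∀ P, 0 ≤ (Z ∘ j) P := fun P => hZ0 _
  have hZfin' : {P | (Z ∘ j) P ≠ 0}.Finite := hZfin.preimage L.inj.injOn
  have e1 : J = (TT G Z 0 t).comap (Algebra.linearMap R K) :=
    hJ.unique (isTestIdeal_comap_TT hp G hF hZ0 hZfin ht)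
  have e2 : J' = (TT G' (Z ∘ j) 0 t).comap (Algebra.linearMap R' K) :=
    hJ'.unique (isTestIdeal_comap_TT hp G' hF' hZ0' hZfin' ht)
  have hdv : ∀ e, dv p (Δ ∘ j) (Z ∘ j) e 0 t = (dv p Δ Z e 0 t) ∘ j := by
    intro e
    funext P
    simp [dv, cl]
  have hinv := L.inv
  obtain ⟨g, hg⟩ := hinv
  apply le_antisymm
  · intro x hx
    rw [e2] at hx
    obtain ⟨e, y, hy, hyx⟩ := (mem_TT hp G' hF' hZ0').1 (show algebraMap R' K x ∈ _ from hx)
    rw [hdv] at hy
    obtain ⟨n₀, hn₀⟩ := L.exists_mem_RD (h := h) (h' := h') (fin_dv G.fin hZfin e t) hy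
    obtain ⟨m, r, hmr⟩ := L.surj x
    -- `f ^ n * x` with `n = max n₀ m`
    set n := n₀ + m with hn
    have h1 : algebraMap R K f ^ n * algebraMap R' K x ∈ TT G Z 0 t := by
      refine (mem_TT hp G hF hZ0).2 ⟨e, (algebraMap R K f ^ n) ^ p ^ e * y, ?_, ?_⟩
      · rw [← pow_mul]
        refine hn₀ _ ?_
        calc n₀ ≤ n := by omega
          _ ≤ n * p ^ e := Nat.le_mul_of_pos_right n (pow_pos hp.pos e)
      · rw [iter_pl G.pl, hyx]
    have h2 : algebraMap R K f ^ n * algebraMap R' K x = algebraMap R K (f ^ n₀ * r) := by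
      rw [← L.tower, ← L.tower, map_mul, ← hmr, ← map_pow, ← map_mul, hn, pow_add, map_pow]
      congr 1
      ring
    have h3 : f ^ n₀ * r ∈ J := by
      rw [e1]
      change algebraMap R K (f ^ n₀ * r) ∈ TT G Z 0 t
      rw [← h2]
      exact h1
    have h4 : x = g ^ n * algebraMap R R' (f ^ n₀ * r) := by
      have h5 : (g * algebraMap R R' f) ^ n = 1 := by rw [hg, one_pow]
      rw [map_mul, ← hmr, map_pow]
      calc x = (g * algebraMap R R' f) ^ n * x := by rw [h5, one_mul]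
        _ = _ := by rw [mul_pow, hn]; ring
    rw [h4]
    exact Ideal.mul_mem_left _ _ (Ideal.mem_map_of_mem _ h3)
  · rw [Ideal.map_le_iff_le_comap]
    intro r hr
    rw [e1] at hr
    obtain ⟨e, y, hy, hyx⟩ := (mem_TT hp G hF hZ0).1 (show algebraMap R K r ∈ _ from hr)
    rw [Ideal.mem_comap, e2]
    change algebraMap R' K (algebraMap R R' r) ∈ TT G' (Z ∘ j) 0 t
    rw [L.tower]
    refine (mem_TT hp G' hF' hZ0').2 ⟨e, y, ?_, hyx⟩
    rw [hdv]
    exact L.RD_le hy

end

/-- **Localisation of test ideals**, over a perfect field. -/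
theorem testIdeal_localization (k : Type*) [Field k] [PerfectField k] (p : ℕ) [Fact p.Prime]
    [CharP k p] {R K ι R' ι' : Type*} [CommRing R] [IsDomain R] [Algebra k R]
    [Algebra.FiniteType k R] [CommRing R'] [Field K] [Algebra R K] [IsFractionRing R K]
    [Algebra R' K] [IsFractionRing R' K] [Algebra R R'] {ord : ι → K → ℤ} {ord' : ι' → K → ℤ}
    {f : R} {j : ι' → ι} (L : LocData R' ord ord' f j) {h : KrullData R K ι ord}
    {h' : KrullData R' K ι' ord'} (hF : StronglyFRegular p h) {κ : K →+ K} {Δ : ι → ℤ}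
    (hκ : IsTraceMap p h κ Δ) {Z : ι → ℤ} (hZfin : {P | Z P ≠ 0}.Finite) (hZ0 : ∀ P, 0 ≤ Z P)
    {t : ℝ} (ht : 0 ≤ t) {J : Ideal R} {J' : Ideal R'}
    (hJ : IsTestIdeal p h (fun P => t * (Z P : ℝ)) J)
    (hJ' : IsTestIdeal p h' (fun P => t * (Z (j P) : ℝ)) J') :
    J' = J.map (algebraMap R R') := by
  have hp : p.Prime := Fact.out
  let algkK : Algebra k K := ((algebraMap R K).comp (algebraMap k R)).toAlgebra
  have hcharK : CharP K p := charP_of_injective_algebraMap (algebraMap k K).injective p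
  have G : Generator p h κ Δ := generator_of_traceMap hp hκ (fun e τ φ hτ hτ0 hφ =>
    gen_of_spanning (exists_spanning' k p R K e) hτ hτ0 hφ)
  have G' : Generator p h' κ (Δ ∘ j) := generator_of_traceMap hp
    (L.isTraceMap (h := h) hp hκ) (fun e τ φ hτ hτ0 hφ =>
    gen_of_spanning (exists_spanning' k p R K e) hτ hτ0 hφ)
  exact testIdeal_loc hp L G G' hF hZ0 hZfin ht hJ hJ'

end FJ

namespace FJ

universe u

open AlgebraicGeometry TopologicalSpace CategoryTheory

section scheme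

variable (X : Scheme.{u}) [IsIntegral X] [IsLocallyNoetherian X]

theorem locData_basicOpen (hn : ∀ x : X, IsIntegrallyClosed (X.presheaf.stalk x)) (U : X.Opens)
    (hU : IsAffineOpen U) [Nonempty U] (f : Γ(X, U)) [Nonempty (X.basicOpen f)] :
    LocData Γ(X, X.basicOpen f)
      (fun (x : {x : X // x ∈ U ∧ Order.coheight x = 1}) (g : X.functionField) =>
        Scheme.ord g x.1)
      (fun (x : {x : X // x ∈ X.basicOpen f ∧ Order.coheight x = 1}) (g : X.functionField) =>
        Scheme.ord g x.1) f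
      (fun x => ⟨x.1, X.basicOpen_le f x.2.1, x.2.2⟩) := by
  have hloc := hU.isLocalization_basicOpen f
  have hno : IsNoetherianRing Γ(X, U) := IsLocallyNoetherian.component_noetherian ⟨U, hU⟩
  have hic := isIntegrallyClosed_section X hn U hU
  have hfr := functionField_isFractionRing_of_isAffineOpen X U hU
  have hf0 : f ≠ 0 := by
    rintro rfl
    obtain ⟨x, hx⟩ := ‹Nonempty (X.basicOpen (0 : Γ(X, U)))›
    rw [Scheme.basicOpen_zero] at hx
    exact hx
  refine ⟨?_, ?_, ?_, ?_, ?_, ?_⟩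
  · intro r
    exact X.presheaf.germ_res_apply (homOfLE (X.basicOpen_le f)) (genericPoint X) _ r
  · intro r'
    obtain ⟨n, r, hr⟩ := IsLocalization.Away.surj f r'
    exact ⟨n, r, by rw [mul_comm]; exact hr⟩
  · exact ⟨IsLocalization.Away.invSelf f, by
      rw [mul_comm]; exact IsLocalization.Away.mul_invSelf f⟩
  · intro x y hxy
    simp only [Subtype.mk.injEq] at hxy
    exact Subtype.ext hxy
  · intro P x hx
    rfl
  · rintro ⟨q₀, hq₀, hq₁⟩
    obtain ⟨q, hqq⟩ : ∃ q : U, q.1 = q₀ := ⟨⟨q₀, hq₀⟩, rfl⟩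
    subst hqq
    have hP : (hU.primeIdealOf q).asIdeal.height = 1 := by
      rw [height_primeIdealOf]
      exact hq₁
    have hdvr := isDiscreteValuationRing_of_height_one _ hP
    have hloc' : IsLocalization.AtPrime (X.presheaf.stalk (q : X))
      (hU.primeIdealOf q).asIdeal := hU.isLocalization_stalk q
    have h1 : Scheme.ord (algebraMap Γ(X, U) X.functionField f) q.1 =
        (vP (hU.primeIdealOf q).asIdeal f : ℤ) := schemeOrd_eq_vP X U hU q hq₁ hP hf0
    have h2 : q.1 ∈ X.basicOpen f ↔ f ∉ (hU.primeIdealOf q).asIdeal := by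
      rw [Scheme.mem_basicOpen']
      exact (IsLocalization.AtPrime.isUnit_to_map_iff (X.presheaf.stalk (q : X))
        (hU.primeIdealOf q).asIdeal f)
    change _ ↔ Scheme.ord (algebraMap Γ(X, U) X.functionField f) q.1 = 0
    rw [h1]
    constructor
    · rintro ⟨P, hPq⟩
      have h3 : P.1 = q.1 := congrArg Subtype.val hPq
      have h4 : q.1 ∈ X.basicOpen f := h3 ▸ P.2.1
      rw [vP_eq_zero _ (h2.1 h4)]
      rfl
    · intro h3
      have h4 : f ∉ (hU.primeIdealOf q).asIdeal := by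
        intro h5
        have h6 := vP_pos _ hf0 h5
        omega
      exact ⟨⟨q.1, h2.2 h4, hq₁⟩, rfl⟩

/-- **Localisation of test ideals**, scheme form. -/
theorem testIdeal_basicOpen (k : Type*) [Field k] [PerfectField k] (p : ℕ) [Fact p.Prime]
    [CharP k p] (hn : ∀ x : X, IsIntegrallyClosed (X.presheaf.stalk x)) (U : X.Opens)
    (hU : IsAffineOpen U) [Nonempty U] [Algebra k Γ(X, U)] [Algebra.FiniteType k Γ(X, U)]
    (f : Γ(X, U)) (hW : IsAffineOpen (X.basicOpen f)) [Nonempty (X.basicOpen f)]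
    (hF : StronglyFRegular p (krullData_affine X hn U hU)) {κ : X.functionField →+ X.functionField}
    {Δ : {x : X // x ∈ U ∧ Order.coheight x = 1} → ℤ}
    (hκ : IsTraceMap p (krullData_affine X hn U hU) κ Δ) {Z : X → ℤ}
    (hZfin : {P : {x : X // x ∈ U ∧ Order.coheight x = 1} | Z P.1 ≠ 0}.Finite)
    (hZ0 : ∀ x, 0 ≤ Z x) {t : ℝ} (ht : 0 ≤ t) {J : Ideal Γ(X, U)}
    {J' : Ideal Γ(X, X.basicOpen f)}
    (hJ : IsTestIdeal p (krullData_affine X hn U hU) (fun P => t * (Z P.1 : ℝ)) J)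
    (hJ' : IsTestIdeal p (krullData_affine X hn (X.basicOpen f) hW)
      (fun P => t * (Z P.1 : ℝ)) J') :
    J.map (X.presheaf.map (homOfLE (X.basicOpen_le f)).op).hom = J' := by
  have hfr := functionField_isFractionRing_of_isAffineOpen X U hU
  have hfr' := functionField_isFractionRing_of_isAffineOpen X (X.basicOpen f) hW
  have L := locData_basicOpen X hn U hU f
  exact (testIdeal_localization k p L (h := krullData_affine X hn U hU)
    (h' := krullData_affine X hn (X.basicOpen f) hW) hF hκ (Z := fun P => Z P.1) hZfin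
    (fun P => hZ0 _) ht hJ hJ').symm

end scheme

end FJ
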