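import Pool.Agent.Lib.MP_400390_ag.Glue
import Pool.Agent.Lib.MP_400390_ag.Localize

/-!
# Locally principal divisors are `ℚ`-Cartier on affine opens; finite type sections
-/

namespace FJ

open AlgebraicGeometry CategoryTheory

universe u

section ring

variable {R K ι : Type*} [CommRing R] [Field K] [Algebra R K] {ord : ι → K → ℤ}
  (h : KrullData R K ι ord)

theorem RD_mul_RD_nsmul {A B : ι → ℤ} (hAB : (1 : K) ∈ h.RD A * h.RD B) (j : ℕ) :
    (1 : K) ∈ h.RD (j • A) * h.RD (j • B) := by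
  have key : ∀ (C : ι → ℤ), (h.RD C) ^ j ≤ h.RD (j • C) := by
    intro C
    induction j with
    | zero =>
      rw [pow_zero, zero_smul, Submodule.one_le]
      exact h.mem_RD_zero.2 ⟨1, by simp⟩
    | succ n ih =>
      rw [pow_succ, succ_nsmul]
      refine le_trans (mul_le_mul' ih le_rfl) ?_
      rw [Submodule.mul_le]
      intro x hx y hy
      exact h.mul_mem_RD hx hy
  have h1 : (1 : K) ∈ (h.RD A * h.RD B) ^ j := by
    have := Submodule.pow_mem_pow (h.RD A * h.RD B) hAB j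
    rwa [one_pow] at this
  rw [mul_pow] at h1
  exact mul_le_mul' (key A) (key B) h1

theorem QCartier.neg {D : ι → ℤ} (hD : QCartier h D) : QCartier h (-D) := by
  obtain ⟨N, hN, h1⟩ := hD
  refine ⟨N, hN, ?_⟩
  rw [smul_neg, neg_neg, mul_comm]
  exact h1

theorem QCartier.nsmul {D : ι → ℤ} (hD : QCartier h D) (j : ℕ) : QCartier h (j • D) := by
  obtain ⟨N, hN, h1⟩ := hD
  refine ⟨N, hN, ?_⟩
  have h2 := RD_mul_RD_nsmul h h1 j
  rw [smul_neg, ← smul_comm N j] at h2
  exact h2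

theorem QCartier.of_nsmul {D : ι → ℤ} {m : ℕ} (hm : 0 < m) (hD : QCartier h (m • D)) :
    QCartier h D := by
  obtain ⟨N, hN, h1⟩ := hD
  refine ⟨N * m, Nat.mul_pos hN hm, ?_⟩
  rw [mul_smul]
  exact h1

end ring

section scheme

variable {X : Scheme.{u}} [IsIntegral X] [IsLocallyNoetherian X]
  (hn : ∀ x : X, IsIntegrallyClosed (X.presheaf.stalk x)) {U : X.Opens} (hU : IsAffineOpen U)
  [Nonempty U]

include hn hU in
theorem mem_basicOpen_iff_ord {f : Γ(X, U)} (hf : Nonempty (X.basicOpen f)) {x : X} (hxU : x ∈ U)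
    (hx : Order.coheight x = 1) :
    x ∈ X.basicOpen f ↔ Scheme.ord (algebraMap Γ(X, U) X.functionField f) x = 0 := by
  have L := locData_basicOpen X hn U hU f
  have h1 := L.range ⟨x, hxU, hx⟩
  rw [← h1]
  constructor
  · intro hx'
    exact ⟨⟨x, hx', hx⟩, rfl⟩
  · rintro ⟨P, hP⟩
    have h3 : P.1 = x := congrArg Subtype.val hP
    exact h3 ▸ P.2.1

/-- A divisor which is locally the divisor of a rational function. -/
def LocPrincipal (X : Scheme.{u}) [IsIntegral X] [IsLocallyNoetherian X] (Z : X → ℤ) : Prop :=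
  ∀ x : X, ∃ (V : X.Opens) (f : X.functionField), x ∈ V ∧ f ≠ 0 ∧
    ∀ y ∈ V, Order.coheight y = 1 → Scheme.ord f y = Z y

include hn hU in
theorem finite_support_of_locPrincipal {Z : X → ℤ} (hZ : LocPrincipal X Z) :
    {P : {x : X // x ∈ U ∧ Order.coheight x = 1} | Z P.1 ≠ 0}.Finite := by
  have K := krullData_affine X hn U hU
  choose V f hxV hf hVf using hZ
  obtain ⟨T, hT⟩ := hU.isCompact.elim_finite_subcover (fun x => (V x : Set X))
    (fun x => (V x).2) (fun x _ => Set.mem_iUnion.2 ⟨x, hxV x⟩)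
  have hfin : (⋃ x ∈ T, {P : {x : X // x ∈ U ∧ Order.coheight x = 1} |
      Scheme.ord (f x) P.1 ≠ 0}).Finite :=
    Set.Finite.biUnion T.finite_toSet (fun x _ => K.fin (f x) (hf x))
  refine hfin.subset ?_
  intro P hP
  obtain ⟨x, hx, hPx⟩ := Set.mem_iUnion₂.1 (hT P.2.1)
  refine Set.mem_iUnion₂.2 ⟨x, hx, ?_⟩
  have := hVf x P.1 hPx P.2.2
  simp only [Set.mem_ofPred_eq] at hP ⊢
  rwa [this]

theorem qCartier_of_locPrincipal {Z : X → ℤ} (hZ : LocPrincipal X Z) :
    QCartier (krullData_affine X hn U hU)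
      (fun x : {x : X // x ∈ U ∧ Order.coheight x = 1} => Z x.1) := by
  have K := krullData_affine X hn U hU
  set D : {x : X // x ∈ U ∧ Order.coheight x = 1} → ℤ := fun x => Z x.1 with hD
  have hfr := functionField_isFractionRing_of_isAffineOpen X U hU
  have hinj := IsFractionRing.injective Γ(X, U) X.functionField
  have hsupp := finite_support_of_locPrincipal hn hU hZ
  refine ⟨1, one_pos, ?_⟩
  rw [one_smul]
  set I : Ideal Γ(X, U) :=
    (K.RD D * K.RD (-D)).comap (Algebra.linearMap Γ(X, U) X.functionField) with hI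
  have hmemI : ∀ r, r ∈ I ↔ algebraMap Γ(X, U) X.functionField r ∈ K.RD D * K.RD (-D) := by
    intro r
    rw [hI, Submodule.mem_comap, Algebra.linearMap_apply]
  suffices hI1 : I = ⊤ by
    have := (hmemI 1).1 (hI1 ▸ Submodule.mem_top)
    rwa [map_one] at this
  by_contra hne
  obtain ⟨M, hM, hIM⟩ := Ideal.exists_le_maximal I hne
  obtain ⟨x, hx⟩ := exists_primeIdealOf_eq X U hU ⟨M, hM.isPrime⟩
  obtain ⟨V, f, hxV, hf, hVf⟩ := hZ x.1
  obtain ⟨s, hsV, hxs⟩ := hU.exists_basicOpen_le (V := V ⊓ U) ⟨x.1, hxV, x.2⟩ x.2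
  have hne' : Nonempty (X.basicOpen s) := ⟨⟨x.1, hxs⟩⟩
  have hsM : s ∉ M := by
    have h1 := hU.isLocalization_stalk x
    have h2 := (IsLocalization.AtPrime.isUnit_to_map_iff (X.presheaf.stalk (x : X))
        (hU.primeIdealOf x).asIdeal s).1 (by rw [Scheme.mem_basicOpen'] at hxs; exact hxs)
    rw [hx] at h2
    exact h2
  have hs0 : algebraMap Γ(X, U) X.functionField s ≠ 0 := by
    intro h0
    rw [← map_zero (algebraMap Γ(X, U) X.functionField)] at h0
    exact hsM (hinj h0 ▸ M.zero_mem)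
  -- the bad primes
  have hbad : {P : {x : X // x ∈ U ∧ Order.coheight x = 1} |
      Scheme.ord f P.1 - D P ≠ 0}.Finite := by
    refine (hsupp.union (K.fin f hf)).subset ?_
    intro P hP
    by_contra hcon
    simp only [Set.mem_union, Set.mem_ofPred_eq, not_or, not_not] at hcon hP
    rw [hcon.2] at hP
    exact hP (by simp [hD, hcon.1])
  obtain ⟨n, hn'⟩ : ∃ n : ℕ, ∀ P ∈ hbad.toFinset, |Scheme.ord f P.1 - D P| ≤ n := by
    refine ⟨hbad.toFinset.sup (fun P => (|Scheme.ord f P.1 - D P|).toNat), fun P hP => ?_⟩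
    have h1 := Finset.le_sup (f := fun P => (|Scheme.ord f P.1 - D P|).toNat) hP
    have h2 := Int.toNat_of_nonneg (abs_nonneg (Scheme.ord f P.1 - D P))
    omega
  have hall : ∀ P : {x : X // x ∈ U ∧ Order.coheight x = 1},
      |Scheme.ord f P.1 - D P| ≤ n * Scheme.ord (algebraMap Γ(X, U) X.functionField s) P.1 := by
    intro P
    by_cases hP : Scheme.ord f P.1 - D P = 0
    · rw [hP, abs_zero]
      have := K.nonneg P hs0
      exact mul_nonneg (Int.natCast_nonneg _) this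
    · have h1 := hn' P (by simpa using hP)
      have h2 : Scheme.ord (algebraMap Γ(X, U) X.functionField s) P.1 ≠ 0 := by
        intro h3
        have h4 := (mem_basicOpen_iff_ord hn hU hne' P.2.1 P.2.2).2 h3
        exact hP (by rw [hVf P.1 (hsV h4).1 P.2.2]; simp [hD])
      have h3 := K.nonneg P hs0
      have h4 : (1 : ℤ) ≤ Scheme.ord (algebraMap Γ(X, U) X.functionField s) P.1 := by
        omega
      calc |Scheme.ord f P.1 - D P| ≤ n := h1
        _ = n * 1 := by ring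
        _ ≤ _ := mul_le_mul_of_nonneg_left h4 (Int.natCast_nonneg _)
  have h1 : algebraMap Γ(X, U) X.functionField s ^ n * f⁻¹ ∈ K.RD D := by
    intro _ P
    have e1 := K.mul P _ _ (pow_ne_zero n hs0) (inv_ne_zero hf)
    rw [K.pow P hs0, K.inv P hf] at e1
    have := abs_le.1 (hall P)
    change -D P ≤ Scheme.ord (_ * f⁻¹) P.1
    rw [e1]
    linarith [this.1, this.2]
  have h2 : algebraMap Γ(X, U) X.functionField s ^ n * f ∈ K.RD (-D) := by
    intro _ P
    have e1 := K.mul P _ _ (pow_ne_zero n hs0) hf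
    rw [K.pow P hs0] at e1
    have := abs_le.1 (hall P)
    change -(-D P) ≤ Scheme.ord (_ * f) P.1
    rw [e1, neg_neg]
    linarith [this.1, this.2]
  have h3 : s ^ (n + n) ∈ I := by
    rw [hmemI, map_pow]
    have : algebraMap Γ(X, U) X.functionField s ^ (n + n) =
        (algebraMap Γ(X, U) X.functionField s ^ n * f⁻¹) *
          (algebraMap Γ(X, U) X.functionField s ^ n * f) := by
      rw [pow_add]
      field_simp
    rw [this]
    exact Submodule.mul_mem_mul h1 h2
  exact hsM (hM.isPrime.mem_of_pow_mem _ (hIM h3))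

/-- The integral divisor `m Z` attached to a `ℚ`-Cartier `ℚ`-divisor `Z`. -/
theorem exists_locPrincipal {Z : X → ℚ} (hZ0 : ∀ x, 0 ≤ Z x) (hZ : IsQCartierDiv Z) :
    ∃ (m : ℕ) (Z' : X → ℤ), 0 < m ∧ (∀ x, Order.coheight x = 1 → (Z' x : ℚ) = m * Z x) ∧
      (∀ x, 0 ≤ Z' x) ∧ LocPrincipal X Z' := by
  classical
  obtain ⟨m, hm, hZ⟩ := hZ
  choose V f hxV hf hVf using hZ
  refine ⟨m, fun x => if Order.coheight x = 1 then Scheme.ord (f x) x else 0, hm, ?_, ?_, ?_⟩
  · intro x hx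
    simp only [hx, if_true]
    exact hVf x x (hxV x) hx
  · intro x
    simp only
    split_ifs with hx
    · have h1 := hVf x x (hxV x) hx
      have h2 : (0 : ℚ) ≤ (Scheme.ord (f x) x : ℚ) := by
        rw [h1]
        exact mul_nonneg (Nat.cast_nonneg _) (hZ0 x)
      exact_mod_cast h2
    · exact le_rfl
  · intro x
    refine ⟨V x, f x, hxV x, hf x, fun y hy hy1 => ?_⟩
    simp only [hy1, if_true]
    have h1 := hVf x y hy hy1
    have h2 := hVf y y (hxV y) hy1
    have h3 : (Scheme.ord (f x) y : ℚ) = Scheme.ord (f y) y := by rw [h1, h2]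
    exact_mod_cast h3

theorem finiteType_structMap {k : Type u} [Field k] {X : Scheme.{u}} (s : X ⟶ Spec (.of k))
    [LocallyOfFiniteType s] (U : X.Opens) (hU : IsAffineOpen U) :
    (structMap s U).FiniteType := by
  have h1 : (s.appLE ⊤ U le_top).hom.FiniteType :=
    s.finiteType_appLE (isAffineOpen_top _) hU le_top
  have h2 : structMap s U = (s.appLE ⊤ U le_top).hom.comp
      ((Scheme.ΓSpecIso (.of k)).inv.hom) := rfl
  rw [h2]
  refine RingHom.FiniteType.comp h1 ?_
  refine RingHom.FiniteType.of_surjective _ ?_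
  exact (ConcreteCategory.bijective_of_isIso (Scheme.ΓSpecIso (.of k)).inv).2

end scheme

section scheme

variable {X : Scheme.{u}} [IsIntegral X] [IsLocallyNoetherian X]
  (hn : ∀ x : X, IsIntegrallyClosed (X.presheaf.stalk x))

include hn in
/-- `ℚ`-Cartier on an affine open subset: locally principal. -/
theorem exists_eqn_of_qCartier {U : X.Opens} (hU : IsAffineOpen U) [Nonempty U] {D : X → ℤ}
    (hD : QCartier (krullData_affine X hn U hU)
      (fun x : {x : X // x ∈ U ∧ Order.coheight x = 1} => D x.1)) :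
    ∃ N : ℕ, 0 < N ∧ ∀ x ∈ U, ∃ (V : X.Opens) (f : X.functionField), x ∈ V ∧ f ≠ 0 ∧
      ∀ y ∈ V, Order.coheight y = 1 → Scheme.ord f y = N * D y := by
  obtain ⟨N, hN, h1⟩ := hD
  refine ⟨N, hN, ?_⟩
  suffices hmain : ∀ x : U, ∃ (V : X.Opens) (f : X.functionField), x.1 ∈ V ∧ f ≠ 0 ∧
      ∀ y ∈ V, Order.coheight y = 1 → Scheme.ord f y = N * D y from fun x hx => hmain ⟨x, hx⟩
  intro x
  have K := krullData_affine X hn U hU
  set E : {x : X // x ∈ U ∧ Order.coheight x = 1} → ℤ := fun x => D x.1 with hE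
  have hfr := functionField_isFractionRing_of_isAffineOpen X U hU
  have hinj := IsFractionRing.injective Γ(X, U) X.functionField
  have hloc : IsLocalization.AtPrime (X.presheaf.stalk (x : X)) (hU.primeIdealOf x).asIdeal :=
    hU.isLocalization_stalk x
  set P := (hU.primeIdealOf x).asIdeal with hP
  have hPp : P.IsPrime := (hU.primeIdealOf x).isPrime
  -- some product is a unit at `x`
  obtain ⟨a, ha, b, hb, s, hs, hsP⟩ : ∃ a ∈ K.RD (N • E), ∃ b ∈ K.RD (-(N • E)),
      ∃ s : Γ(X, U), algebraMap Γ(X, U) X.functionField s = a * b ∧ s ∉ P := by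
    by_contra hcon
    push Not at hcon
    have h2 : K.RD (N • E) * K.RD (-(N • E)) ≤
        Submodule.map (Algebra.linearMap Γ(X, U) X.functionField) P := by
      rw [Submodule.mul_le]
      intro a ha b hb
      have h3 : a * b ∈ K.RD 0 := by
        have := K.mul_mem_RD ha hb
        rwa [add_neg_cancel] at this
      obtain ⟨s, hs⟩ := K.mem_RD_zero.1 h3
      exact ⟨s, hcon a ha b hb s hs, hs⟩
    obtain ⟨s, hs, hs1⟩ := h2 h1
    rw [Algebra.linearMap_apply, ← map_one (algebraMap Γ(X, U) X.functionField)] at hs1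
    have h3 := hinj hs1
    rw [h3] at hs
    exact hPp.ne_top ((Ideal.eq_top_iff_one _).2 hs)
  have hxs : x.1 ∈ X.basicOpen s := by
    rw [Scheme.mem_basicOpen']
    exact (IsLocalization.AtPrime.isUnit_to_map_iff (X.presheaf.stalk (x : X)) P s).2 hsP
  have hne : Nonempty (X.basicOpen s) := ⟨⟨x, hxs⟩⟩
  have hs0 : algebraMap Γ(X, U) X.functionField s ≠ 0 := by
    intro h0
    rw [← map_zero (algebraMap Γ(X, U) X.functionField)] at h0
    exact hsP (hinj h0 ▸ P.zero_mem)
  have ha0 : a ≠ 0 := by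
    rintro rfl
    rw [zero_mul] at hs
    exact hs0 hs
  have hb0 : b ≠ 0 := by
    rintro rfl
    rw [mul_zero] at hs
    exact hs0 hs
  refine ⟨X.basicOpen s, b, hxs, hb0, fun y hy hy1 => ?_⟩
  have hyU : y ∈ U := X.basicOpen_le s hy
  have h2 := (mem_basicOpen_iff_ord hn hU hne hyU hy1).1 hy
  have h3 := ha ha0 ⟨y, hyU, hy1⟩
  have h4 := hb hb0 ⟨y, hyU, hy1⟩
  have h5 := K.mul ⟨y, hyU, hy1⟩ a b ha0 hb0
  rw [← hs] at h5
  have h6 : (N • E) ⟨y, hyU, hy1⟩ = N * D y := by simp [hE]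
  rw [h6] at h3
  rw [Pi.neg_apply, h6] at h4
  simp only at h3 h4 h5
  omega

include hn in
/-- `ℚ`-Cartier on all affine open subsets of a quasi-compact scheme: `ℚ`-Cartier. -/
theorem isQCartierDiv_of_qCartier [CompactSpace X] {D : X → ℤ}
    (hD : ∀ (U : X.Opens) (hU : IsAffineOpen U) (_ : Nonempty U),
      QCartier (krullData_affine X hn U hU)
        (fun x : {x : X // x ∈ U ∧ Order.coheight x = 1} => D x.1)) :
    IsQCartierDiv (fun x => (D x : ℚ)) := by
  classical
  have h1 : ∀ x : X, ∃ (U : X.Opens) (N : ℕ), x ∈ U ∧ 0 < N ∧ ∀ z ∈ U, ∃ (V : X.Opens)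
      (f : X.functionField), z ∈ V ∧ f ≠ 0 ∧
      ∀ y ∈ V, Order.coheight y = 1 → Scheme.ord f y = N * D y := by
    intro x
    obtain ⟨_, ⟨U, hU, rfl⟩, hxU, -⟩ := X.isBasis_affineOpens.exists_subset_of_mem_open
      (Set.mem_univ x) isOpen_univ
    have hne : Nonempty U := ⟨⟨x, hxU⟩⟩
    obtain ⟨N, hN, h2⟩ := exists_eqn_of_qCartier hn hU (hD U hU hne)
    exact ⟨U, N, hxU, hN, h2⟩
  choose U N hxU hN h2 using h1
  obtain ⟨T, hT⟩ := isCompact_univ.elim_finite_subcover (fun x => (U x : Set X))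
    (fun x => (U x).2) (fun x _ => Set.mem_iUnion.2 ⟨x, hxU x⟩)
  refine ⟨∏ x ∈ T, N x, Finset.prod_pos (fun x _ => hN x), fun z => ?_⟩
  obtain ⟨x, hx, hzx⟩ := Set.mem_iUnion₂.1 (hT (Set.mem_univ z))
  obtain ⟨V, f, hzV, hf, hVf⟩ := h2 x z hzx
  obtain ⟨M, hM⟩ := Finset.dvd_prod_of_mem N hx
  refine ⟨V, f ^ M, hzV, pow_ne_zero _ hf, fun y hy hy1 => ?_⟩
  obtain ⟨_, ⟨W, hW, rfl⟩, hyW, -⟩ := X.isBasis_affineOpens.exists_subset_of_mem_open
      (Set.mem_univ y) isOpen_univ
  have hne : Nonempty W := ⟨⟨y, hyW⟩⟩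
  have h3 := (krullData_affine X hn W hW).pow ⟨y, hyW, hy1⟩ hf M
  simp only at h3
  rw [h3, hVf y hy hy1, hM]
  push_cast
  ring

end scheme

end FJ
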