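import Pool.Agent.Lib.MP_400390_ag.Defs

/-!
# Dual bases over a Noether normalisation (Step 1 and Step 2)
-/

namespace FJ

open scoped BigOperators

/-- `A` is a finite free (or at least dual based) module over itself via the `q`-power map. -/
def FrobDB (q : ℕ) (A : Type*) [CommRing A] : Prop :=
  ∃ (n : ℕ) (μ : Fin n → A) (g : Fin n → A →+ A), (∀ i a b, g i (a ^ q * b) = a * g i b) ∧
    ∀ a, a = ∑ i, (g i a) ^ q * μ i

/-- A finite dual basis of the `A`-submodule `M` of `K`. -/
def HasDB (A : Type*) {K : Type*} [CommRing A] [Field K] [Algebra A K] (M : Submodule A K) : Prop :=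
  ∃ (n : ℕ) (m : Fin n → K) (f : Fin n → K → A), (∀ i, m i ∈ M) ∧
    (∀ i, ∀ x ∈ M, ∀ y ∈ M, f i (x + y) = f i x + f i y) ∧
    (∀ i a, ∀ x ∈ M, f i (a • x) = a * f i x) ∧
    ∀ x ∈ M, x = ∑ i, f i x • m i

theorem HasDB.of_fintype {A K κ : Type*} [CommRing A] [Field K] [Algebra A K] [Fintype κ]
    {M : Submodule A K} (m : κ → K) (f : κ → K → A) (hm : ∀ i, m i ∈ M)
    (hadd : ∀ i, ∀ x ∈ M, ∀ y ∈ M, f i (x + y) = f i x + f i y)
    (hsmul : ∀ i a, ∀ x ∈ M, f i (a • x) = a * f i x)
    (hsum : ∀ x ∈ M, x = ∑ i, f i x • m i) : HasDB A M := by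
  classical
  let e := (Fintype.equivFin κ).symm
  refine ⟨Fintype.card κ, m ∘ e, f ∘ e, fun i => hm _, fun i => hadd _, fun i => hsmul _, ?_⟩
  intro x hx
  conv_lhs => rw [hsum x hx]
  exact (Equiv.sum_comp e (fun i => f i x • m i)).symm

/-- If the identity of `M` factors through Frobenius twists of `N`, and `N` has a dual basis, so
does `M`. -/
theorem HasDB.push {A K : Type*} [CommRing A] [Field K] [Algebra A K] {q : ℕ}
    (hA : FrobDB q A) {N M : Submodule A K} (hN : HasDB A N) {l : ℕ}
    (α : Fin l → K → K) (β : Fin l → K →+ K)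
    (hα : ∀ i, ∀ x ∈ M, α i x ∈ N)
    (hαadd : ∀ i, ∀ x ∈ M, ∀ y ∈ M, α i (x + y) = α i x + α i y)
    (hαsmul : ∀ i (a : A), ∀ x ∈ M, α i (a • x) = a ^ q • α i x)
    (hβ : ∀ i, ∀ y ∈ N, β i y ∈ M) (hβpl : ∀ i, IsPL q (β i))
    (hsum : ∀ x ∈ M, ∑ i, β i (α i x) = x) : HasDB A M := by
  obtain ⟨nn, n, hh, hnmem, hhadd, hhsmul, hhsum⟩ := hN
  obtain ⟨k, μ, g, hg, hgsum⟩ := hA
  refine HasDB.of_fintype (κ := Fin l × Fin nn × Fin k)
    (fun t => β t.1 (μ t.2.2 • n t.2.1))
    (fun t x => g t.2.2 (hh t.2.1 (α t.1 x))) ?_ ?_ ?_ ?_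
  · rintro ⟨i, j, ν⟩
    exact hβ _ _ (N.smul_mem _ (hnmem _))
  · rintro ⟨i, j, ν⟩ x hx y hy
    simp only
    rw [hαadd i x hx y hy, hhadd j _ (hα i x hx) _ (hα i y hy), map_add]
  · rintro ⟨i, j, ν⟩ a x hx
    simp only
    rw [hαsmul i a x hx, hhsmul j _ _ (hα i x hx), hg]
  · intro x hx
    have key : ∀ i, β i (α i x) =
        ∑ j, ∑ ν, g ν (hh j (α i x)) • β i (μ ν • n j) := by
      intro i
      conv_lhs => rw [hhsum _ (hα i x hx), map_sum]
      refine Finset.sum_congr rfl fun j _ => ?_
      have h2 : hh j (α i x) • n j = ∑ ν, (g ν (hh j (α i x))) ^ q • (μ ν • n j) := by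
        conv_lhs => rw [hgsum (hh j (α i x)), Finset.sum_smul]
        refine Finset.sum_congr rfl fun ν _ => ?_
        rw [mul_smul]
      rw [h2, map_sum]
      refine Finset.sum_congr rfl fun ν _ => ?_
      simp only [Algebra.smul_def, map_pow]
      rw [hβpl]
    conv_lhs => rw [← hsum x hx]
    rw [Fintype.sum_prod_type]
    refine Finset.sum_congr rfl fun i _ => ?_
    rw [key i, Fintype.sum_prod_type]

/-- A submodule with an `A`-basis has a dual basis. -/
theorem HasDB.of_linearIndependent {A K : Type*} [CommRing A] [Field K] [Algebra A K] {r : ℕ}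
    {b : Fin r → K} (hb : LinearIndependent A b) : HasDB A (Submodule.span A (Set.range b)) := by
  classical
  have hex : ∀ x ∈ Submodule.span A (Set.range b), ∃ c : Fin r → A, ∑ i, c i • b i = x := by
    intro x hx
    exact (Submodule.mem_span_range_iff_exists_fun A).1 hx
  have huniq : ∀ c c' : Fin r → A, ∑ i, c i • b i = ∑ i, c' i • b i → c = c' := by
    intro c c' hcc
    have h1 := Fintype.linearIndependent_iff.1 hb (fun i => c i - c' i) (by
      simp only [sub_smul, Finset.sum_sub_distrib, hcc, sub_self])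
    ext i
    exact sub_eq_zero.1 (h1 i)
  let f : Fin r → K → A := fun i x =>
    if hx : x ∈ Submodule.span A (Set.range b) then (hex x hx).choose i else 0
  have hf : ∀ x (hx : x ∈ Submodule.span A (Set.range b)), ∑ i, f i x • b i = x := by
    intro x hx
    have : ∀ i, f i x = (hex x hx).choose i := fun i => dif_pos hx
    simp only [this]
    exact (hex x hx).choose_spec
  refine HasDB.of_fintype b f (fun i => Submodule.subset_span ⟨i, rfl⟩) ?_ ?_ ?_
  · intro i x hx y hy
    have := huniq (fun i => f i (x + y)) (fun i => f i x + f i y) (by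
      rw [hf _ (Submodule.add_mem _ hx hy)]
      simp only [add_smul, Finset.sum_add_distrib, hf x hx, hf y hy])
    exact congrFun this i
  · intro i a x hx
    have := huniq (fun i => f i (a • x)) (fun i => a * f i x) (by
      rw [hf _ (Submodule.smul_mem _ a hx)]
      simp only [mul_smul, ← Finset.smul_sum, hf x hx])
    exact congrFun this i
  · intro x hx
    exact (hf x hx).symm

section Step2

variable {A R K : Type*} [CommRing A] [CommRing R] [IsDomain R] [Field K] [Algebra A R]
  [Algebra R K] [Algebra A K] [IsScalarTower A R K] [IsFractionRing R K]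

open Polynomial

omit [IsDomain R] [IsFractionRing R K] [Algebra A R] [Algebra A K] [IsScalarTower A R K] in
theorem map_sum_of_add {M : Submodule R K} (F : K → A)
    (hadd : ∀ x ∈ M, ∀ y ∈ M, F (x + y) = F x + F y)
    {κ : Type*} (s : Finset κ) (x : κ → K) (hx : ∀ i ∈ s, x i ∈ M) :
    F (∑ i ∈ s, x i) = ∑ i ∈ s, F (x i) := by
  classical
  have h0 : F 0 = 0 := by
    have := hadd 0 M.zero_mem 0 M.zero_mem
    simpa using this
  induction s using Finset.induction_on with
  | empty => simpa using h0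
  | insert a s ha ih =>
    rw [Finset.sum_insert ha, Finset.sum_insert ha,
      hadd _ (hx a (Finset.mem_insert_self _ _)) _
        (Submodule.sum_mem _ fun i hi => hx i (Finset.mem_insert_of_mem hi)),
      ih fun i hi => hx i (Finset.mem_insert_of_mem hi)]

omit [IsFractionRing R K] in
/-- The synthetic-division functional `m ↦ ∑ β_l F (θ ^ l m)` commutes with `θ`. -/
theorem theta_step {θ : R} {f : A[X]} (hf : f.Monic)
    (hθ : aeval θ f = 0) {M : Submodule R K} (F : K → A)
    (hadd : ∀ x ∈ M, ∀ y ∈ M, F (x + y) = F x + F y)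
    (hsmul : ∀ (a : A), ∀ x ∈ M, F (a • x) = a * F x) (g : R[X])
    (hg : f.map (algebraMap A R) = (X - C θ) * g) {x : K} (hx : x ∈ M) :
    ∑ l ∈ Finset.range f.natDegree, g.coeff l * algebraMap A R (F (θ ^ (l + 1) • x)) =
      θ * ∑ l ∈ Finset.range f.natDegree, g.coeff l * algebraMap A R (F (θ ^ l • x)) := by
  have hcoef : ∀ l, algebraMap A R (f.coeff (l + 1)) = g.coeff l - θ * g.coeff (l + 1) := by
    intro l
    rw [← coeff_map, hg, sub_mul, coeff_sub, coeff_X_mul, coeff_C_mul]
  have hcoef0 : algebraMap A R (f.coeff 0) = - (θ * g.coeff 0) := by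
    rw [← coeff_map, hg, sub_mul, coeff_sub, mul_coeff_zero, coeff_X_zero, zero_mul, coeff_C_mul,
      zero_sub]
  have hg0 : g ≠ 0 := by
    rintro rfl
    rw [mul_zero] at hg
    exact (hf.map (algebraMap A R)).ne_zero hg
  have hdeg : f.natDegree = g.natDegree + 1 := by
    have h1 := hf.natDegree_map (algebraMap A R)
    rw [hg, natDegree_mul (X_sub_C_ne_zero θ) hg0, natDegree_X_sub_C] at h1
    omega
  have hGr : g.coeff f.natDegree = 0 := coeff_eq_zero_of_natDegree_lt (by omega)
  have hMmem : ∀ l, θ ^ l • x ∈ M := fun l => M.smul_mem _ hx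
  have hMmem' : ∀ (a : A) (l : ℕ), a • (θ ^ l • x) ∈ M := by
    intro a l
    rw [← algebraMap_smul R a]
    exact M.smul_mem _ (hMmem l)
  have hsum0 : ∑ l ∈ Finset.range (f.natDegree + 1),
      algebraMap A R (f.coeff l) * algebraMap A R (F (θ ^ l • x)) = 0 := by
    have h1 : F (∑ l ∈ Finset.range (f.natDegree + 1), f.coeff l • (θ ^ l • x)) = F 0 := by
      congr 1
      have h2 : ∑ l ∈ Finset.range (f.natDegree + 1), f.coeff l • (θ ^ l • x) =
          (aeval θ f) • x := by
        rw [aeval_eq_sum_range, Finset.sum_smul]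
        refine Finset.sum_congr rfl fun l _ => ?_
        rw [smul_assoc]
      rw [h2, hθ, zero_smul]
    rw [map_sum_of_add F hadd _ _ (fun l _ => hMmem' _ l)] at h1
    have h0 : F 0 = 0 := by
      have := hadd 0 M.zero_mem 0 M.zero_mem
      simpa using this
    rw [h0] at h1
    have h3 := congrArg (algebraMap A R) h1
    rw [map_sum, map_zero] at h3
    rw [← h3]
    refine Finset.sum_congr rfl fun l _ => ?_
    rw [hsmul _ _ (hMmem l), map_mul]
  rw [Finset.sum_range_succ', hcoef0] at hsum0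
  have h4 : ∑ l ∈ Finset.range f.natDegree,
        algebraMap A R (f.coeff (l + 1)) * algebraMap A R (F (θ ^ (l + 1) • x)) =
      ∑ l ∈ Finset.range f.natDegree, g.coeff l * algebraMap A R (F (θ ^ (l + 1) • x)) -
      θ * ∑ l ∈ Finset.range f.natDegree,
        g.coeff (l + 1) * algebraMap A R (F (θ ^ (l + 1) • x)) := by
    rw [Finset.mul_sum, ← Finset.sum_sub_distrib]
    refine Finset.sum_congr rfl fun l _ => ?_
    rw [hcoef]
    ring
  have h5 : ∑ l ∈ Finset.range (f.natDegree + 1), g.coeff l * algebraMap A R (F (θ ^ l • x)) =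
      ∑ l ∈ Finset.range f.natDegree, g.coeff (l + 1) * algebraMap A R (F (θ ^ (l + 1) • x)) +
        g.coeff 0 * algebraMap A R (F (θ ^ 0 • x)) := Finset.sum_range_succ' _ _
  rw [Finset.sum_range_succ, hGr, zero_mul, add_zero] at h5
  rw [h4] at hsum0
  rw [h5]
  linear_combination hsum0

/-- **Step 2.**  If `θ` generates the fraction field and `f` is a monic equation of `θ` over `A`,
then `f'(θ)` lies in `M * (R : M)` for every nonzero `R`-submodule `M` of `K` with a dual basis over
`A`. -/
theorem derivative_mem {θ : R} {f : A[X]} (hf : f.Monic) (hθ : aeval θ f = 0)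
    (hgen : ∀ r : R, ∃ a : A, algebraMap A R a ≠ 0 ∧ ∃ g : A[X],
      algebraMap A R a * r = aeval θ g)
    {M : Submodule R K} (hM0 : M ≠ ⊥) (hM : HasDB A (M.restrictScalars A)) :
    ∃ (n : ℕ) (m w : Fin n → K), (∀ i, m i ∈ M) ∧
      (∀ i, ∀ x ∈ M, ∃ r : R, algebraMap R K r = w i * x) ∧
      ∑ i, m i * w i = algebraMap R K (aeval θ (derivative f)) := by
  obtain ⟨n, m, F, hm, hadd, hsmul, hsum⟩ := hM
  simp only [Submodule.restrictScalars_mem] at hm hadd hsmul hsum
  obtain ⟨m0, hm0, hm00⟩ := M.ne_bot_iff.1 hM0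
  have hroot : (f.map (algebraMap A R)).IsRoot θ := by
    rw [IsRoot.def, eval_map_algebraMap]
    exact hθ
  obtain ⟨g, hg⟩ := dvd_iff_isRoot.2 hroot
  have hsmulθ : ∀ (a : A), ∀ x ∈ M, a • x ∈ M := by
    intro a x hx
    rw [← algebraMap_smul R a]
    exact M.smul_mem _ hx
  -- the functionals
  let ψ : Fin n → K → R := fun i x =>
    ∑ l ∈ Finset.range f.natDegree, g.coeff l * algebraMap A R (F i (θ ^ l • x))
  have hψadd : ∀ i, ∀ x ∈ M, ∀ y ∈ M, ψ i (x + y) = ψ i x + ψ i y := by
    intro i x hx y hy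
    simp only [ψ, ← Finset.sum_add_distrib, ← mul_add, ← map_add]
    refine Finset.sum_congr rfl fun l _ => ?_
    rw [smul_add, hadd i _ (M.smul_mem _ hx) _ (M.smul_mem _ hy)]
  have hψA : ∀ i (a : A), ∀ x ∈ M, ψ i (a • x) = algebraMap A R a * ψ i x := by
    intro i a x hx
    simp only [ψ, Finset.mul_sum]
    refine Finset.sum_congr rfl fun l _ => ?_
    rw [smul_comm, hsmul i a _ (M.smul_mem _ hx), map_mul]
    ring
  have hψθ : ∀ i, ∀ x ∈ M, ψ i (θ • x) = θ * ψ i x := by
    intro i x hx
    have h1 := theta_step hf hθ (F i) (hadd i) (hsmul i) g hg hx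
    simp only [ψ]
    rw [← h1]
    refine Finset.sum_congr rfl fun l _ => ?_
    rw [pow_succ, mul_smul]
  have hψpow : ∀ i (l : ℕ), ∀ x ∈ M, ψ i (θ ^ l • x) = θ ^ l * ψ i x := by
    intro i l
    induction l with
    | zero => intro x _; simp
    | succ l ih =>
      intro x hx
      rw [pow_succ, mul_smul, ih _ (M.smul_mem _ hx), hψθ i x hx]
      ring
  have hψ0 : ∀ i, ψ i 0 = 0 := by
    intro i
    have := hψadd i 0 M.zero_mem 0 M.zero_mem
    simpa using this
  have hψpoly : ∀ i (P : A[X]), ∀ x ∈ M, ψ i ((aeval θ P) • x) = aeval θ P * ψ i x := by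
    intro i P x hx
    induction P using Polynomial.induction_on' with
    | add P Q hP hQ =>
      rw [map_add, add_smul, hψadd i _ (M.smul_mem _ hx) _ (M.smul_mem _ hx), hP, hQ]
      ring
    | monomial l a =>
      rw [aeval_monomial, mul_smul, algebraMap_smul, hψA i a _ (M.smul_mem _ hx), hψpow i l x hx]
      ring
  have hψR : ∀ i (r : R), ∀ x ∈ M, ψ i (r • x) = r * ψ i x := by
    intro i r x hx
    obtain ⟨a, ha, P, hP⟩ := hgen r
    have h1 := hψpoly i P x hx
    rw [← hP, mul_smul, algebraMap_smul, hψA i a _ (M.smul_mem _ hx), mul_assoc] at h1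
    exact mul_left_cancel₀ ha h1
  have hwx : ∀ i, ∀ x ∈ M, algebraMap R K (ψ i m0) / m0 * x = algebraMap R K (ψ i x) := by
    intro i x hx
    obtain ⟨a, b, hb, hab⟩ := IsFractionRing.div_surjective (A := R) (x / m0)
    have hb0 : algebraMap R K b ≠ 0 := by
      rw [Ne, IsFractionRing.to_map_eq_zero_iff]
      exact nonZeroDivisors.ne_zero hb
    have h1 : b • x = a • m0 := by
      rw [Algebra.smul_def, Algebra.smul_def]
      field_simp at hab
      linear_combination -hab
    have h2 : b * ψ i x = a * ψ i m0 := by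
      rw [← hψR i b x hx, h1, hψR i a m0 hm0]
    have h3 := congrArg (algebraMap R K) h2
    rw [map_mul, map_mul] at h3
    have h4 : x = algebraMap R K a / algebraMap R K b * m0 := by
      rw [hab]
      field_simp
    have h5 : algebraMap R K (ψ i m0) / m0 * x =
        algebraMap R K (ψ i m0) / m0 * (algebraMap R K a / algebraMap R K b * m0) := by rw [← h4]
    rw [h5]
    field_simp
    linear_combination -h3
  refine ⟨n, m, fun i => algebraMap R K (ψ i m0) / m0, hm, ?_, ?_⟩
  · intro i x hx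
    exact ⟨ψ i x, (hwx i x hx).symm⟩
  · have h1 : ∀ x ∈ M, (∑ i, m i * (algebraMap R K (ψ i m0) / m0)) * x =
        algebraMap R K (eval θ g) * x := by
      intro x hx
      rw [Finset.sum_mul]
      have h2 : ∀ i ∈ Finset.univ, m i * (algebraMap R K (ψ i m0) / m0) * x =
          ∑ l ∈ Finset.range f.natDegree,
            algebraMap R K (g.coeff l) * (F i (θ ^ l • x) • m i) := by
        intro i _
        rw [mul_assoc, hwx i x hx]
        simp only [ψ, map_sum, Finset.mul_sum, map_mul]
        refine Finset.sum_congr rfl fun l _ => ?_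
        rw [← IsScalarTower.algebraMap_apply A R K, Algebra.smul_def (F i (θ ^ l • x)) (m i)]
        ring
      rw [Finset.sum_congr rfl h2, Finset.sum_comm]
      have h3 : ∀ l ∈ Finset.range f.natDegree,
          ∑ i, algebraMap R K (g.coeff l) * (F i (θ ^ l • x) • m i) =
            algebraMap R K (g.coeff l * θ ^ l) * x := by
        intro l _
        rw [← Finset.mul_sum, ← hsum _ (M.smul_mem _ hx), Algebra.smul_def, map_mul]
        ring
      rw [Finset.sum_congr rfl h3, ← Finset.sum_mul, ← map_sum]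
      congr 2
      have hg0 : g ≠ 0 := by
        rintro rfl
        rw [mul_zero] at hg
        exact (hf.map (algebraMap A R)).ne_zero hg
      have hdeg : f.natDegree = g.natDegree + 1 := by
        have h1 := hf.natDegree_map (algebraMap A R)
        rw [hg, natDegree_mul (X_sub_C_ne_zero θ) hg0, natDegree_X_sub_C] at h1
        omega
      rw [eval_eq_sum_range, hdeg]
    have h2 := mul_right_cancel₀ hm00 (h1 m0 hm0)
    rw [h2]
    congr 1
    have h3 : aeval θ (derivative f) = eval θ (derivative (f.map (algebraMap A R))) := by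
      rw [derivative_map, eval_map_algebraMap]
    rw [h3, hg, derivative_mul, eval_add, eval_mul, eval_mul]
    simp

end Step2

end FJ
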