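import Pool.Agent.Lib.MP_400390_ag.Noether

/-!
# Finiteness of integral closures for algebras of finite type over a perfect field

(module G3 of MP_400390_ag)
-/

namespace FJ

open Polynomial

theorem isSeparable_of_eval {F L : Type*} [Field F] [Field L] [Algebra F L] (θ : L) (f : F[X])
    (h1 : aeval θ f = 0) (h2 : aeval θ (derivative f) ≠ 0) : IsSeparable F θ := by
  have hf : f ≠ 0 := by
    rintro rfl
    simp at h2
  have halg : IsIntegral F θ := IsAlgebraic.isIntegral ⟨f, hf, h1⟩
  obtain ⟨q, hq⟩ := minpoly.dvd F θ h1
  have h3 : derivative (minpoly F θ) ≠ 0 := by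
    intro h4
    apply h2
    rw [hq, derivative_mul, h4, zero_mul, zero_add, map_mul, minpoly.aeval, zero_mul]
  exact (separable_iff_derivative_ne_zero (minpoly.irreducible halg)).2 h3

open FractionRing in
theorem finite_closure_frac (k S L : Type*) [Field k] [PerfectField k] [CommRing S] [IsDomain S]
    [Algebra k S] [Algebra.FiniteType k S] [Field L] [Algebra S L] [IsFractionRing S L] :
    ∃ c : Finset L, ∀ x : L, IsIntegral S x → x ∈ Submodule.span S (c : Set L) := by
  classical
  obtain ⟨d, ψ, hinj, hfin, θ, f, hmon, hf1, hf2, -, hgen⟩ := exists_separable_noether k S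
  let A := MvPolynomial (Fin d) k
  let algAS : Algebra A S := (ψ : A →+* S).toAlgebra
  let algAL : Algebra A L := ((algebraMap S L).comp (ψ : A →+* S)).toAlgebra
  have tower : IsScalarTower A S L := IsScalarTower.of_algebraMap_eq fun _ => rfl
  have hSL : Function.Injective (algebraMap S L) := IsFractionRing.injective S L
  have hAL : Function.Injective (algebraMap A L) := hSL.comp hinj
  have hff : FaithfulSMul A L := (faithfulSMul_iff_algebraMap_injective A L).2 hAL
  let F := FractionRing A
  let algFL : Algebra F L := FractionRing.liftAlgebra A L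
  have tower2 : IsScalarTower A F L := FractionRing.isScalarTower_liftAlgebra A L
  -- θ is separable
  have hθ : IsSeparable F (algebraMap S L θ) := by
    apply isSeparable_of_eval _ (f.map (algebraMap A F))
    · rw [aeval_map_algebraMap, aeval_algebraMap_apply]
      have : aeval θ f = 0 := hf1
      rw [this, map_zero]
    · rw [derivative_map, aeval_map_algebraMap, aeval_algebraMap_apply]
      have h3 : aeval θ (derivative f) ≠ 0 := hf2
      rw [Ne, map_eq_zero_iff _ hSL]
      exact h3
  have hmem : ∀ s : S, algebraMap S L s ∈ IntermediateField.adjoin F {algebraMap S L θ} := by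
    intro s
    obtain ⟨a, ha, g, hg⟩ := hgen s
    have h1 : algebraMap A L a * algebraMap S L s = aeval (algebraMap S L θ) (g.map (algebraMap A F)) := by
      rw [aeval_map_algebraMap, aeval_algebraMap_apply]
      have h2 : aeval θ g = ψ a * s := hg.symm
      rw [h2, map_mul]
      rfl
    have h3 : algebraMap A L a ≠ 0 := by rwa [Ne, map_eq_zero_iff _ hAL]
    have h4 : algebraMap S L s = (algebraMap A L a)⁻¹ *
        aeval (algebraMap S L θ) (g.map (algebraMap A F)) := by
      rw [← h1, inv_mul_cancel_left₀ h3]
    rw [h4]
    refine mul_mem (inv_mem ?_) ?_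
    · rw [IsScalarTower.algebraMap_apply A F L]
      exact IntermediateField.algebraMap_mem _ _
    · have h5 : aeval (algebraMap S L θ) (g.map (algebraMap A F)) ∈
          Algebra.adjoin F {algebraMap S L θ} := by
        exact aeval_mem_adjoin_singleton _ _
      exact IntermediateField.algebra_adjoin_le_adjoin _ _ h5
  have htop : IntermediateField.adjoin F {algebraMap S L θ} = ⊤ := by
    rw [eq_top_iff]
    intro z _
    obtain ⟨a, b, hb, rfl⟩ := IsFractionRing.div_surjective (A := S) z
    exact div_mem (hmem a) (hmem b)
  have hsep : Algebra.IsSeparable F L := by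
    have h1 : Algebra.IsSeparable F (IntermediateField.adjoin F {algebraMap S L θ}) :=
      (IntermediateField.isSeparable_adjoin_simple_iff_isSeparable F L).2 hθ
    rw [htop] at h1
    exact AlgEquiv.Algebra.isSeparable IntermediateField.topEquiv
  have hfd : FiniteDimensional F L := by
    have h1 : FiniteDimensional F (IntermediateField.adjoin F {algebraMap S L θ}) :=
      IntermediateField.adjoin.finiteDimensional hθ.isIntegral
    rw [htop] at h1
    exact IntermediateField.topEquiv.toLinearEquiv.finiteDimensional
  have hfinA : Module.Finite A (integralClosure A L) :=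
    IsIntegralClosure.finite A F L (integralClosure A L)
  have hfg : (Subalgebra.toSubmodule (integralClosure A L)).FG :=
    Module.Finite.iff_fg.1 hfinA
  obtain ⟨c, hc⟩ := hfg
  have hint : Algebra.IsIntegral A S := by
    have : (algebraMap A S).IsIntegral := hfin.to_isIntegral
    exact ⟨fun x => this x⟩
  refine ⟨c, fun x hx => ?_⟩
  have h1 : IsIntegral A x := isIntegral_trans x hx
  have h2 : x ∈ Submodule.span A (c : Set L) := by
    rw [hc]
    exact h1
  exact Submodule.span_le_restrictScalars A S (c : Set L) h2

theorem finite_closure (k R K L : Type*) [Field k] [PerfectField k] [CommRing R] [IsDomain R]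
    [Algebra k R] [Algebra.FiniteType k R] [Field K] [Algebra R K] [IsFractionRing R K]
    [Field L] [Algebra K L] [FiniteDimensional K L] [Algebra R L] [IsScalarTower R K L] :
    ∃ c : Finset L, ∀ x : L, IsIntegral R x → x ∈ Submodule.span R (c : Set L) := by
  classical
  have hRL : Function.Injective (algebraMap R L) := by
    rw [IsScalarTower.algebraMap_eq R K L]
    exact (algebraMap K L).injective.comp (IsFractionRing.injective R K)
  let b := Module.finBasis K L
  obtain ⟨y, hy, hyb⟩ := exists_integral_multiples R K (Finset.univ.image b)
  let s : Set L := Set.range fun i => y • b i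
  have hs : s.Finite := Set.finite_range _
  let S := Algebra.adjoin R s
  have hfinS : Module.Finite R S := by
    apply Algebra.finite_adjoin_of_finite_of_isIntegral hs
    rintro _ ⟨i, rfl⟩
    exact hyb _ (Finset.mem_image_of_mem _ (Finset.mem_univ _))
  let algkS : Algebra k S := ((algebraMap R S).comp (algebraMap k R)).toAlgebra
  have tower : IsScalarTower k R S := IsScalarTower.of_algebraMap_eq fun _ => rfl
  have hft : Algebra.FiniteType k S := Algebra.FiniteType.trans (S := R) inferInstance inferInstance
  have hSL : Function.Injective (algebraMap S L) := Subtype.val_injective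
  have hfs : FaithfulSMul S L := (faithfulSMul_iff_algebraMap_injective S L).2 hSL
  have hfr : IsFractionRing S L := by
    apply IsFractionRing.of_field
    intro z
    have key : ∃ r : R, r ≠ 0 ∧ r • z ∈ S := by
      have hz : z ∈ Submodule.span K (Set.range b) := by
        rw [b.span_eq]
        trivial
      induction hz using Submodule.span_induction with
      | mem x hx =>
        obtain ⟨i, rfl⟩ := hx
        exact ⟨y, hy, Algebra.subset_adjoin ⟨i, rfl⟩⟩
      | zero => exact ⟨1, one_ne_zero, by simp⟩
      | add x x' _ _ hx hx' =>
        obtain ⟨r, hr, hrx⟩ := hx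
        obtain ⟨r', hr', hrx'⟩ := hx'
        refine ⟨r * r', mul_ne_zero hr hr', ?_⟩
        have : (r * r') • (x + x') = r' • (r • x) + r • (r' • x') := by
          simp only [Algebra.smul_def, map_mul]
          ring
        rw [this]
        exact add_mem (S.smul_mem hrx _) (S.smul_mem hrx' _)
      | smul c x _ hx =>
        obtain ⟨r, hr, hrx⟩ := hx
        obtain ⟨p, q, hq, rfl⟩ := IsFractionRing.div_surjective (A := R) c
        have hq0 : q ≠ 0 := nonZeroDivisors.ne_zero hq
        refine ⟨q * r, mul_ne_zero hq0 hr, ?_⟩
        have : (q * r) • (algebraMap R K p / algebraMap R K q) • x = p • (r • x) := by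
          have hq1 : algebraMap R K q ≠ 0 := by
            rwa [Ne, IsFractionRing.to_map_eq_zero_iff]
          have hq2 : algebraMap R L q ≠ 0 := by rwa [Ne, map_eq_zero_iff _ hRL]
          simp only [Algebra.smul_def, map_mul, map_div₀, ← IsScalarTower.algebraMap_apply]
          field_simp
        rw [this]
        exact S.smul_mem hrx _
    obtain ⟨r, hr, hrz⟩ := key
    refine ⟨⟨r • z, hrz⟩, algebraMap R S r, ?_⟩
    have hr2 : algebraMap R L r ≠ 0 := by rwa [Ne, map_eq_zero_iff _ hRL]
    rw [← IsScalarTower.algebraMap_apply]
    change z = (r • z) / _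
    rw [Algebra.smul_def, mul_div_cancel_left₀ _ hr2]
  obtain ⟨c, hc⟩ := finite_closure_frac k S L
  have hN : IsNoetherianRing R := Algebra.FiniteType.isNoetherianRing k R
  let M : Submodule S L := Submodule.span S (c : Set L)
  have hM : Module.Finite S M := Module.Finite.span_of_finite S (Finset.finite_toSet c)
  have hM' : Module.Finite R M := Module.Finite.trans S M
  let N : Submodule R L := Subalgebra.toSubmodule (integralClosure R L)
  have hNM : N ≤ M.restrictScalars R := by
    intro x hx
    have h1 : IsIntegral R x := hx
    exact hc x h1.tower_top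
  have hMfg : (M.restrictScalars R).FG := Module.Finite.iff_fg.1 hM'
  have hNfg : N.FG := by
    have : IsNoetherian R (M.restrictScalars R) := by
      have := isNoetherian_of_isNoetherianRing_of_finite R M
      exact this
    exact isNoetherian_submodule.1 this N hNM
  obtain ⟨e, he⟩ := hNfg
  exact ⟨e, fun x hx => by rw [he]; exact hx⟩

/-- The integral closure of a localisation. -/
theorem finite_closure_atPrime (k R K L O : Type*) [Field k] [PerfectField k] [CommRing R]
    [IsDomain R] [Algebra k R] [Algebra.FiniteType k R] [Field K] [Algebra R K] [IsFractionRing R K]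
    [Field L] [Algebra K L] [FiniteDimensional K L] [Algebra R L] [IsScalarTower R K L]
    (P : Ideal R) [P.IsPrime] [CommRing O] [Algebra R O] [IsLocalization.AtPrime O P]
    [Algebra O L] [IsScalarTower R O L] : Module.Finite O (integralClosure O L) := by
  classical
  obtain ⟨c, hc⟩ := finite_closure k R K L
  let N : Submodule O L := Subalgebra.toSubmodule (integralClosure O L)
  have key : N ≤ Submodule.span O (c : Set L) := by
    intro x hx
    have hx' : IsIntegral O x := hx
    obtain ⟨m, hm⟩ := IsIntegral.exists_multiple_integral_of_isLocalization P.primeCompl x hx'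
    have h1 := hc _ hm
    have h2 : (m : R) • x ∈ Submodule.span O (c : Set L) :=
      Submodule.span_le_restrictScalars R O (c : Set L) h1
    have h3 : IsUnit (algebraMap R O m) := IsLocalization.map_units O m
    obtain ⟨v, hv⟩ := h3
    have h4 : x = (v⁻¹ : Oˣ) • ((m : R) • x) := by
      rw [← algebraMap_smul O (m : R) x, ← hv, Units.smul_def, smul_smul, Units.inv_mul, one_smul]
    rw [h4]
    exact Submodule.smul_mem _ _ h2
  have hNR : IsNoetherianRing R := Algebra.FiniteType.isNoetherianRing k R
  have hNO : IsNoetherianRing O := IsLocalization.isNoetherianRing P.primeCompl O hNR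
  have hM : Module.Finite O (Submodule.span O (c : Set L)) :=
    Module.Finite.span_of_finite O (Finset.finite_toSet c)
  have h5 : IsNoetherian O (Submodule.span O (c : Set L)) :=
    isNoetherian_of_isNoetherianRing_of_finite O _
  exact Module.Finite.iff_fg.2 (isNoetherian_submodule.1 h5 N key)

end FJ
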