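import Pool.Agent.Lib.MP_400390_ag.Geometry

/-!
# Definitions for the final statement of MP_400390_ag

`X` is an integral locally noetherian scheme.  A Weil divisor is given by its coefficients at the
points of codimension one (`Order.coheight x = 1`); `Scheme.ord f x` is the order of vanishing.
-/

namespace FJ

open AlgebraicGeometry CategoryTheory

universe u

variable {X : Scheme.{u}} [IsIntegral X] [IsLocallyNoetherian X]

/-- The sections of `O_X(D)` over `U`, as rational functions. -/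
def secs (D : X → ℤ) (U : X.Opens) : Set X.functionField :=
  {f | f ≠ 0 → ∀ x ∈ U, Order.coheight x = 1 → -D x ≤ Scheme.ord f x}

/-- `Hom(F^e_* O_U(D), O_U)`: the `p ^ (-e)`-linear maps on rational functions which map the
sections of `O_X(D)` over `U` to regular functions. -/
def FHom (p e : ℕ) (D : X → ℤ) (U : X.Opens) : Set (X.functionField →+ X.functionField) :=
  {φ | (∀ a b, φ (a ^ p ^ e * b) = a * φ b) ∧ ∀ f ∈ secs D U, φ f ∈ secs 0 U}

variable (X) in
/-- `X` is strongly `F`-regular: on every nonempty affine open `U`, for every nonzero function `c`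
some `φ ∈ Hom(F^e_* O_U, O_U)`, `e ≥ 1`, maps `c` to `1`. -/
def IsStronglyFRegular (p : ℕ) : Prop :=
  ∀ U : X.Opens, IsAffineOpen U → Nonempty U → ∀ c ∈ secs (0 : X → ℤ) U, c ≠ 0 →
    ∃ e : ℕ, 0 < e ∧ ∃ φ ∈ FHom p e 0 U, φ c = 1

/-- The ideal `J` of `Γ(X, U)` is stable under `Hom(F^e_* O_U(⌈(p^e - 1) Δ⌉), O_U)`, `e ≥ 1`. -/
def IsCompat (p : ℕ) (Δ : X → ℝ) (U : X.Opens) [Nonempty U] (J : Ideal Γ(X, U)) : Prop :=
  ∀ e : ℕ, 0 < e → ∀ φ ∈ FHom p e (fun x => ⌈((p : ℝ) ^ e - 1) * Δ x⌉) U, ∀ a ∈ J, ∃ b ∈ J,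
    algebraMap Γ(X, U) X.functionField b = φ (algebraMap Γ(X, U) X.functionField a)

/-- `J` is the test ideal `τ(U, Δ)`: the smallest nonzero compatible ideal. -/
def IsTau (p : ℕ) (Δ : X → ℝ) (U : X.Opens) [Nonempty U] (J : Ideal Γ(X, U)) : Prop :=
  IsLeast {I : Ideal Γ(X, U) | I ≠ ⊥ ∧ IsCompat p Δ U I} J

/-- The ideal sheaf `J` is the test ideal `τ(X, Δ)`: the smallest nonzero ideal sheaf which is
stable under `Hom(F^e_* O_X(⌈(p^e - 1) Δ⌉), O_X)`, `e ≥ 1` (on every affine open subset). -/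
def IsTauSheaf (p : ℕ) (Δ : X → ℝ) (J : X.IdealSheafData) : Prop :=
  IsLeast {I : X.IdealSheafData | I ≠ ⊥ ∧
    ∀ (U : X.affineOpens) (_ : Nonempty U.1), IsCompat p Δ U.1 (I.ideal U)} J

/-- The `ℚ`-divisor `Z` is `ℚ`-Cartier: some positive multiple is locally the divisor of a rational
function. -/
def IsQCartierDiv (Z : X → ℚ) : Prop :=
  ∃ m : ℕ, 0 < m ∧ ∀ x : X, ∃ (V : X.Opens) (f : X.functionField), x ∈ V ∧ f ≠ 0 ∧
    ∀ y ∈ V, Order.coheight y = 1 → (Scheme.ord f y : ℚ) = m * Z y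

/-- A Weil divisor: on every affine open subset only finitely many coefficients are nonzero. -/
def LocallyFiniteDiv (D : X → ℤ) : Prop :=
  ∀ U : X.Opens, IsAffineOpen U → {x | x ∈ U ∧ Order.coheight x = 1 ∧ D x ≠ 0}.Finite

/-- The structure map `k → Γ(X, U)` of a `k`-scheme. -/
noncomputable def structMap {k : Type u} [Field k] {X : Scheme.{u}} (s : X ⟶ Spec (.of k))
    (U : X.Opens) : k →+* Γ(X, U) :=
  ((Scheme.ΓSpecIso (.of k)).inv ≫ s.app ⊤ ≫ X.presheaf.map (homOfLE le_top).op).hom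

/-- `D` is a canonical divisor of the `k`-variety `X`: for every nonempty affine open `U` and some
Noether normalisation `ψ : A = k[x_1, …, x_d] → R = Γ(X, U)`, the `R`-module of sections of
`O_X(D)` over `U` is isomorphic to `Hom_A(R, A)`. -/
def IsCanonicalDiv {k : Type u} [Field k] (s : X ⟶ Spec (.of k)) (D : X → ℤ) : Prop :=
  ∀ U : X.Opens, IsAffineOpen U → ∀ _ : Nonempty U,
    {x | x ∈ U ∧ Order.coheight x = 1 ∧ D x ≠ 0}.Finite ∧
    ∃ (d : ℕ) (ψ : MvPolynomial (Fin d) k →+* Γ(X, U)), Function.Injective ψ ∧ ψ.Finite ∧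
      (∀ a, ψ (MvPolynomial.C a) = structMap s U a) ∧
      ∃ Θ : X.functionField → Γ(X, U) → MvPolynomial (Fin d) k,
        Set.BijOn Θ (secs D U)
          {g | (∀ x y, g (x + y) = g x + g y) ∧ ∀ a x, g (ψ a * x) = a * g x} ∧
        (∀ w ∈ secs D U, ∀ w' ∈ secs D U, Θ (w + w') = Θ w + Θ w') ∧
        ∀ w ∈ secs D U, ∀ r : Γ(X, U),
          Θ (algebraMap Γ(X, U) X.functionField r * w) = fun x => Θ w (r * x)

variable (X) in
/-- The nonempty affine open subsets of `X`. -/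
abbrev Aff : Type u := {U : X.Opens // IsAffineOpen U ∧ Nonempty U}

instance (U : Aff X) : Nonempty U.1 := U.2.2

end FJ
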