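import Pool.Agent.Lib.MP_400390_ag.Defs

/-!
# Test ideals, jumping numbers, trace maps, canonical divisors: definitions
-/

namespace FJ

open scoped BigOperators

variable {R K ι : Type*} [CommRing R] [Field K] [Algebra R K] {ord : ι → K → ℤ}

/-- The ideal `J` is stable under all
`φ ∈ Hom(F^e_* R(⌈(p^e - 1) Δ⌉), R)`, `e ≥ 1`. -/
def TestCompatible (p : ℕ) (h : KrullData R K ι ord) (Δ : ι → ℝ) (J : Ideal R) : Prop :=
  ∀ e : ℕ, 0 < e → ∀ φ : K →+ K, IsPL (p ^ e) φ →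
    Maps h φ (fun P => ⌈((p : ℝ) ^ e - 1) * Δ P⌉) 0 →
      ∀ x ∈ J, ∃ y ∈ J, algebraMap R K y = φ (algebraMap R K x)

/-- `J` is the test ideal `τ(R, Δ)`: the smallest nonzero compatible ideal. -/
def IsTestIdeal (p : ℕ) (h : KrullData R K ι ord) (Δ : ι → ℝ) (J : Ideal R) : Prop :=
  IsLeast {I : Ideal R | I ≠ ⊥ ∧ TestCompatible p h Δ I} J

/-- The positive real `t` is a jumping number of the family `τ`. -/
def IsJump {T : Type*} (τ : ℝ → T) (t : ℝ) : Prop :=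
  0 < t ∧ ∀ ε, 0 < ε → ε ≤ t → τ t ≠ τ (t - ε)

/-- `κ` is a `p⁻¹`-linear map `K → K` with divisor `Δ`: `κ` maps `R(Δ)` to `R`, sharply at every
prime divisor. -/
structure IsTraceMap (p : ℕ) (h : KrullData R K ι ord) (κ : K →+ K) (Δ : ι → ℤ) : Prop where
  pl : IsPL p κ
  ne_zero : κ ≠ 0
  fin : {P | Δ P ≠ 0}.Finite
  maps : Maps h κ Δ 0
  sharp : ∀ P, ∃ x : K, κ x ≠ 0 ∧ -Δ P - 1 ≤ ord P x ∧ ord P (κ x) < 0

/-- `D` is a canonical divisor of the `k`-algebra `R`: for a Noether normalisation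
`A = k[x_1, …, x_d] → R` the `R`-module `R(D)` is isomorphic to `Hom_A(R, A)`. -/
def IsCanonical (k : Type*) [Field k] [Algebra k R] (h : KrullData R K ι ord) (D : ι → ℤ) : Prop :=
  {P | D P ≠ 0}.Finite ∧
    ∃ (d : ℕ) (ψ : MvPolynomial (Fin d) k →ₐ[k] R), Function.Injective ψ ∧
      (ψ : MvPolynomial (Fin d) k →+* R).Finite ∧
      ∃ Θ : K → R → MvPolynomial (Fin d) k,
        (∀ w ∈ h.RD D, ∀ x y, Θ w (x + y) = Θ w x + Θ w y) ∧
        (∀ w ∈ h.RD D, ∀ a x, Θ w (ψ a * x) = a * Θ w x) ∧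
        (∀ w ∈ h.RD D, ∀ w' ∈ h.RD D, ∀ x, Θ (w + w') x = Θ w x + Θ w' x) ∧
        (∀ w ∈ h.RD D, ∀ r x, Θ (algebraMap R K r * w) x = Θ w (r * x)) ∧
        (∀ w ∈ h.RD D, (∀ x, Θ w x = 0) → w = 0) ∧
        ∀ f : R → MvPolynomial (Fin d) k, (∀ x y, f (x + y) = f x + f y) →
          (∀ a x, f (ψ a * x) = a * f x) → ∃ w ∈ h.RD D, Θ w = f

/-- The order of vanishing of `x ∈ K = Frac R` along the height one prime `P`:
`length (R_P / a) - length (R_P / b)` for `x = a / b`. -/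
noncomputable def ordP (R K : Type*) [CommRing R] [IsDomain R] [Field K] [Algebra R K]
    [IsFractionRing R K] (P : {P : PrimeSpectrum R // P.asIdeal.height = 1}) (x : K) : ℤ :=
  ((Ring.ord (Localization.AtPrime P.1.asIdeal)
      (algebraMap R _ (IsLocalization.sec (nonZeroDivisors R) x).1)).toNat : ℤ) -
    (Ring.ord (Localization.AtPrime P.1.asIdeal)
      (algebraMap R _ (IsLocalization.sec (nonZeroDivisors R) x).2)).toNat

end FJ
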