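import Pool.Agent.Lib.MP_400390_ag.FinalDefs
import Pool.Agent.Lib.MP_400390_ag.TestDefs

/-!
# From the jumping numbers of the affine open subsets to the jumping numbers of the scheme
-/

namespace FJ

open AlgebraicGeometry CategoryTheory

universe u

theorem ideal_eq_of_isEmpty {X : Scheme.{u}} {U : X.Opens} (hU : ¬ Nonempty U)
    (I J : Ideal Γ(X, U)) : I = J := by
  have hbot : U = ⊥ := by
    ext x
    simp only [TopologicalSpace.Opens.coe_bot, Set.mem_empty_iff_false, iff_false]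
    intro hx
    exact hU ⟨⟨x, hx⟩⟩
  subst hbot
  have h1 : ∀ x : Γ(X, (⊥ : X.Opens)), x = 0 := fun x => Subsingleton.elim x 0
  refine Ideal.ext fun x => ?_
  rw [h1 x]
  exact ⟨fun _ => J.zero_mem, fun _ => I.zero_mem⟩

/-- The ideal sheaf given by ideals on the nonempty affine open subsets. -/
noncomputable def sheafOf {X : Scheme.{u}} [IsIntegral X] [IsLocallyNoetherian X]
    (I : ∀ U : Aff X, Ideal Γ(X, U.1))
    (hI : ∀ (U W : Aff X) (f : Γ(X, U.1)) (_ : W.1 = X.basicOpen f) (hle : W.1 ≤ U.1),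
      I W = (I U).map (X.presheaf.map (homOfLE hle).op).hom) : X.IdealSheafData := by
  classical
  exact
  { ideal := fun U => if h : Nonempty U.1 then I ⟨U.1, U.2, h⟩ else ⊤
    map_ideal_basicOpen := by
      intro U f
      by_cases hW : Nonempty (X.affineBasicOpen f).1
      · have hU : Nonempty U.1 := by
          obtain ⟨x, hx⟩ := hW
          exact ⟨x, X.basicOpen_le f hx⟩
        rw [dif_pos hU, dif_pos hW]
        exact (hI ⟨U.1, U.2, hU⟩ ⟨(X.affineBasicOpen f).1, (X.affineBasicOpen f).2, hW⟩ f rfl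
          (X.basicOpen_le f)).symm
      · exact ideal_eq_of_isEmpty hW _ _ }

theorem sheafOf_ideal {X : Scheme.{u}} [IsIntegral X] [IsLocallyNoetherian X]
    (I : ∀ U : Aff X, Ideal Γ(X, U.1)) (hI) (U : X.affineOpens) (h : Nonempty U.1) :
    (sheafOf I hI).ideal U = I ⟨U.1, U.2, h⟩ := by
  unfold sheafOf
  exact dif_pos h

theorem global_jump {X : Scheme.{u}} [IsIntegral X] [IsLocallyNoetherian X] [CompactSpace X]
    (τ : ℝ → ∀ U : Aff X, Ideal Γ(X, U.1))
    (hmono : ∀ U s t, 0 ≤ s → s ≤ t → τ t U ≤ τ s U)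
    (hloc : ∀ t, 0 ≤ t → ∀ (U W : Aff X) (f : Γ(X, U.1)) (_ : W.1 = X.basicOpen f)
      (hle : W.1 ≤ U.1), τ t W = (τ t U).map (X.presheaf.map (homOfLE hle).op).hom)
    (hfin : ∀ U (M : ℝ), {t | IsJump (fun t => τ t U) t ∧ t ≤ M}.Finite)
    (hrat : ∀ U t, IsJump (fun t => τ t U) t → ∃ r : ℚ, (r : ℝ) = t)
    (hconst : ∀ U s t, 0 ≤ s → s ≤ t →
      (∀ u, IsJump (fun t => τ t U) u → u ≤ s ∨ t < u) → τ s U = τ t U) :
    (∀ M : ℝ, {t | IsJump τ t ∧ t ≤ M}.Finite) ∧ (∀ t, IsJump τ t → ∃ r : ℚ, (r : ℝ) = t) ∧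
      (∀ s t, 0 ≤ s → s ≤ t → (∀ u, IsJump τ u → u ≤ s ∨ t < u) → τ s = τ t) ∧
      ∃ r : ℚ, (r : ℝ) = sSup {t : ℝ | 0 ≤ t ∧ ∀ U, τ t U = ⊤} := by
  classical
  -- a finite affine cover
  have h1 : ∀ x : X, ∃ U : Aff X, x ∈ U.1 := by
    intro x
    obtain ⟨_, ⟨U, hU, rfl⟩, hxU, -⟩ := X.isBasis_affineOpens.exists_subset_of_mem_open
      (Set.mem_univ x) isOpen_univ
    exact ⟨⟨U, hU, ⟨⟨x, hxU⟩⟩⟩, hxU⟩
  choose U hU using h1
  obtain ⟨T, hT⟩ := isCompact_univ.elim_finite_subcover (fun x => ((U x).1 : Set X))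
    (fun x => (U x).1.2) (fun x _ => Set.mem_iUnion.2 ⟨x, hU x⟩)
  have key : ∀ a b, 0 ≤ a → 0 ≤ b → (∀ x ∈ T, τ a (U x) = τ b (U x)) → τ a = τ b := by
    intro a b ha hb hab
    have h2 : sheafOf (τ a) (hloc a ha) = sheafOf (τ b) (hloc b hb) := by
      refine Scheme.IdealSheafData.ext_of_iSup_eq_top
        (fun x : T => (⟨(U x.1).1, (U x.1).2.1⟩ : X.affineOpens)) ?_ ?_
      · rw [eq_top_iff]
        intro z _
        obtain ⟨x, hx, hzx⟩ := Set.mem_iUnion₂.1 (hT (Set.mem_univ z))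
        exact TopologicalSpace.Opens.mem_iSup.2 ⟨⟨x, hx⟩, hzx⟩
      · intro x
        rw [sheafOf_ideal _ _ _ (U x.1).2.2, sheafOf_ideal _ _ _ (U x.1).2.2]
        exact hab x.1 x.2
    funext V
    have h3 := sheafOf_ideal (τ a) (hloc a ha) ⟨V.1, V.2.1⟩ V.2.2
    have h4 := sheafOf_ideal (τ b) (hloc b hb) ⟨V.1, V.2.1⟩ V.2.2
    rw [h2] at h3
    exact h3.symm.trans h4
  have hjump1 : ∀ t, IsJump τ t → ∃ x ∈ T, IsJump (fun t => τ t (U x)) t := by
    rintro t ⟨ht, h⟩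
    by_contra hcon
    push Not at hcon
    have h2 : ∀ x ∈ T, ∃ ε, 0 < ε ∧ ε ≤ t ∧ τ t (U x) = τ (t - ε) (U x) := by
      intro x hx
      by_contra hcon'
      push Not at hcon'
      exact hcon x hx ⟨ht, fun ε hε hεt => hcon' ε hε hεt⟩
    have h3 : ∀ T' : Finset X, T' ⊆ T → ∃ ε, 0 < ε ∧ ε ≤ t ∧
        ∀ x ∈ T', τ t (U x) = τ (t - ε) (U x) := by
      intro T'
      induction T' using Finset.induction_on with
      | empty => exact fun _ => ⟨t, ht, le_rfl, by simp⟩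
      | insert y T' hy ih =>
        intro hsub
        obtain ⟨ε, hε, hεt, hεx⟩ := ih (fun z hz => hsub (Finset.mem_insert_of_mem hz))
        obtain ⟨δ, hδ, hδt, hδy⟩ := h2 y (hsub (Finset.mem_insert_self _ _))
        have hsmall : ∀ V η, min ε δ ≤ η → η ≤ t → τ t V = τ (t - η) V →
            τ t V = τ (t - min ε δ) V := by
          intro V η h4 h5 h6
          refine le_antisymm (hmono V _ _ (sub_nonneg.2 (h4.trans h5)) ?_) ?_
          · have := lt_min hε hδ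
            linarith
          · rw [h6]
            exact hmono V _ _ (sub_nonneg.2 h5) (by linarith)
        refine ⟨min ε δ, lt_min hε hδ, (min_le_left _ _).trans hεt, ?_⟩
        intro z hz
        rcases Finset.mem_insert.1 hz with rfl | hz
        · exact hsmall _ δ (min_le_right _ _) hδt hδy
        · exact hsmall _ ε (min_le_left _ _) hεt (hεx z hz)
    obtain ⟨ε, hε, hεt, hεx⟩ := h3 T subset_rfl
    exact h ε hε hεt (key t (t - ε) ht.le (sub_nonneg.2 hεt) hεx)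
  have hjump2 : ∀ V t, IsJump (fun t => τ t V) t → IsJump τ t := by
    rintro V t ⟨ht, h⟩
    exact ⟨ht, fun ε hε hεt h4 => h ε hε hεt (congrFun h4 V)⟩
  have g1 : ∀ M : ℝ, {t | IsJump τ t ∧ t ≤ M}.Finite := by
    intro M
    have h2 : (⋃ x ∈ T, {t | IsJump (fun t => τ t (U x)) t ∧ t ≤ M}).Finite :=
      Set.Finite.biUnion T.finite_toSet (fun x _ => hfin (U x) M)
    refine h2.subset ?_
    rintro t ⟨ht, htM⟩
    obtain ⟨x, hx, hxt⟩ := hjump1 t ht
    exact Set.mem_iUnion₂.2 ⟨x, hx, hxt, htM⟩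
  have g2 : ∀ t, IsJump τ t → ∃ r : ℚ, (r : ℝ) = t := by
    intro t ht
    obtain ⟨x, _, hxt⟩ := hjump1 t ht
    exact hrat _ t hxt
  have g3 : ∀ s t, 0 ≤ s → s ≤ t → (∀ u, IsJump τ u → u ≤ s ∨ t < u) → τ s = τ t := by
    intro s t hs hst hu
    funext V
    exact hconst V s t hs hst (fun u hu' => hu u (hjump2 V u hu'))
  refine ⟨g1, g2, g3, ?_⟩
  set S : Set ℝ := {t : ℝ | 0 ≤ t ∧ ∀ U, τ t U = ⊤} with hS
  have hdown : ∀ a b, 0 ≤ a → a ≤ b → b ∈ S → a ∈ S := by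
    intro a b ha hab hb
    refine ⟨ha, fun V => ?_⟩
    have h2 := hmono V a b ha hab
    rw [hb.2 V] at h2
    exact top_le_iff.1 h2
  rcases S.eq_empty_or_nonempty with hSe | hSne
  · exact ⟨0, by rw [hSe, Real.sSup_empty]; simp⟩
  by_cases hbdd : BddAbove S
  swap
  · exact ⟨0, by rw [Real.sSup_of_not_bddAbove hbdd]; simp⟩
  set c := sSup S with hc
  have hc0 : 0 ≤ c := by
    obtain ⟨a, ha⟩ := hSne
    exact ha.1.trans (le_csSup hbdd ha)
  rcases hc0.eq_or_lt with hc0' | hcpos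
  · exact ⟨0, by rw [← hc0']; simp⟩
  have hbelow : ∀ a, 0 ≤ a → a < c → a ∈ S := by
    intro a ha hac
    obtain ⟨b, hb, hab⟩ := exists_lt_of_lt_csSup hSne hac
    exact hdown a b ha hab.le hb
  -- a point above `c` without jumps in between
  obtain ⟨b, hcb, hb⟩ : ∃ b, c < b ∧ ∀ u, IsJump τ u → u ≤ c ∨ b < u := by
    have h2 : ({t | IsJump τ t ∧ t ≤ c + 1} ∩ Set.Ioi c).Finite :=
      (g1 (c + 1)).subset Set.inter_subset_left
    rcases h2.toFinset.eq_empty_or_nonempty with he | hne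
    · refine ⟨c + 1, by linarith, fun u hu => ?_⟩
      by_contra hcon
      push Not at hcon
      have h3 : u ∈ h2.toFinset := by
        rw [Set.Finite.mem_toFinset]
        exact ⟨⟨hu, hcon.2⟩, hcon.1⟩
      rw [he] at h3
      exact absurd h3 (Finset.notMem_empty _)
    · set d := h2.toFinset.min' hne with hd
      have hdm : d ∈ h2.toFinset := Finset.min'_mem _ _
      rw [Set.Finite.mem_toFinset] at hdm
      have hcd : c < d := hdm.2
      refine ⟨(c + d) / 2, by linarith, fun u hu => ?_⟩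
      by_contra hcon
      push Not at hcon
      have h3 : u ∈ h2.toFinset := by
        rw [Set.Finite.mem_toFinset]
        refine ⟨⟨hu, ?_⟩, hcon.1⟩
        have : d ≤ c + 1 := hdm.1.2
        linarith [hcon.2]
      have h4 : d ≤ u := Finset.min'_le _ _ h3
      linarith [hcon.2]
  have hcS : c ∉ S := by
    intro h2
    have h3 := g3 c b hc0 hcb.le hb
    have h4 : b ∈ S := ⟨hc0.trans hcb.le, fun V => by rw [← h3]; exact h2.2 V⟩
    exact absurd (le_csSup hbdd h4) (not_le.2 hcb)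
  refine g2 c ⟨hcpos, fun ε hε hεc h2 => hcS ⟨hc0, fun V => ?_⟩⟩
  rw [h2]
  exact (hbelow (c - ε) (sub_nonneg.2 hεc) (by linarith)).2 V

end FJ
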