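import Mathlib

/-!
# Local domains dominating a discrete valuation ring, in a finite extension

(module G3 of MP_400390_ag)
-/

namespace FJ

open IsLocalRing

section

variable (O K L : Type*) [CommRing O] [IsDomain O] [IsDiscreteValuationRing O] [Field K]
  [Algebra O K] [IsFractionRing O K] [Field L] [Algebra K L] [Algebra O L] [IsScalarTower O K L]
  [FiniteDimensional K L] (B : Type*) [CommRing B] [IsDomain B] [Algebra B L]
  [Algebra O B] [IsScalarTower O B L]

omit [IsDiscreteValuationRing O] in
include K L in
theorem comap_ne_bot (hBL : Function.Injective (algebraMap B L)) (P : Ideal B) (hP : P ≠ ⊥) :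
    P.comap (algebraMap O B) ≠ ⊥ := by
  obtain ⟨b, hbP, hb⟩ := Submodule.exists_mem_ne_zero_of_ne_bot hP
  have h1 : IsAlgebraic O (algebraMap B L b) :=
    (IsFractionRing.isAlgebraic_iff O K L).2 (Algebra.IsAlgebraic.isAlgebraic _)
  have h2 : IsAlgebraic O b := (isAlgebraic_algebraMap_iff hBL).1 h1
  obtain ⟨r, hr, hbr⟩ := h2.exists_nonzero_dvd (mem_nonZeroDivisors_of_ne_zero hb)
  intro hbot
  apply hr
  have h3 : r ∈ P.comap (algebraMap O B) := P.mem_of_dvd hbr hbP
  rwa [hbot, Ideal.mem_bot] at h3

variable {O} in
theorem eq_zero_of_forall_pow_dvd {t : O} (ht : Irreducible t) {c : O} (h : ∀ n, t ^ n ∣ c) :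
    c = 0 := by
  by_contra hc
  obtain ⟨n, u, rfl⟩ := IsDiscreteValuationRing.eq_unit_mul_pow_irreducible hc ht
  obtain ⟨d, hd⟩ := h (n + 1)
  have h1 : t ^ n * u = t ^ n * (t * d) := by rw [mul_comm, hd]; ring
  have h2 := mul_left_cancel₀ (pow_ne_zero n ht.ne_zero) h1
  apply ht.not_isUnit
  exact isUnit_of_dvd_unit ⟨d, h2⟩ u.isUnit

omit [FiniteDimensional K L] in
/-- Elements of `B` which are linearly independent modulo `t` are linearly independent. -/
theorem linInd_of_mod (hOL : Function.Injective (algebraMap O L))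
    (hBL : Function.Injective (algebraMap B L)) {t : O} (ht : Irreducible t)
    {ι : Type*} [Fintype ι] (b : ι → B)
    (h : ∀ c : ι → O, algebraMap O B t ∣ ∑ i, algebraMap O B (c i) * b i → ∀ i, t ∣ c i) :
    LinearIndependent K fun i => algebraMap B L (b i) := by
  rw [← LinearIndependent.iff_fractionRing (R := O), Fintype.linearIndependent_iff]
  intro c hc i
  apply eq_zero_of_forall_pow_dvd ht
  have hOB : Function.Injective (algebraMap O B) := by
    rw [IsScalarTower.algebraMap_eq O B L] at hOL
    exact Function.Injective.of_comp hOL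
  have hc' : ∑ i, algebraMap O B (c i) * b i = 0 := by
    apply hBL
    rw [map_zero, ← hc, map_sum]
    refine Finset.sum_congr rfl fun i _ => ?_
    rw [map_mul, ← IsScalarTower.algebraMap_apply, Algebra.smul_def]
  have key : ∀ n, ∃ d : ι → O, ∀ i, c i = t ^ n * d i := by
    intro n
    induction n with
    | zero => exact ⟨c, fun i => by simp⟩
    | succ n ih =>
      obtain ⟨d, hd⟩ := ih
      have h1 : ∑ i, algebraMap O B (d i) * b i = 0 := by
        have h2 : algebraMap O B (t ^ n) * ∑ i, algebraMap O B (d i) * b i = 0 := by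
          rw [← hc', Finset.mul_sum]
          refine Finset.sum_congr rfl fun i _ => ?_
          rw [hd i, map_mul]
          ring
        rcases mul_eq_zero.1 h2 with h3 | h3
        · exfalso
          rw [← map_zero (algebraMap O B)] at h3
          exact pow_ne_zero n ht.ne_zero (hOB h3)
        · exact h3
      have h4 := h d (by rw [h1]; exact dvd_zero _)
      choose e he using h4
      exact ⟨e, fun i => by rw [hd i, he i, pow_succ]; ring⟩
  intro n
  obtain ⟨d, hd⟩ := key n
  exact ⟨d i, hd i⟩

include K L in
/-- `B / t B` is artinian. -/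
theorem artinian_quot (hOL : Function.Injective (algebraMap O L))
    (hBL : Function.Injective (algebraMap B L)) :
    IsArtinianRing (B ⧸ (maximalIdeal O).map (algebraMap O B)) := by
  classical
  obtain ⟨t, ht⟩ := IsDiscreteValuationRing.exists_irreducible O
  have htm : maximalIdeal O = Ideal.span {t} := ht.maximalIdeal_eq
  have hmem : ∀ x : B, x ∈ (maximalIdeal O).map (algebraMap O B) ↔ algebraMap O B t ∣ x := by
    intro x
    rw [htm, Ideal.map_span, Set.image_singleton, Ideal.mem_span_singleton]
  have hmem' : ∀ x : O, x ∈ maximalIdeal O ↔ t ∣ x := by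
    intro x
    rw [htm, Ideal.mem_span_singleton]
  let : Field (O ⧸ maximalIdeal O) := Ideal.Quotient.field _
  have hrank : Module.rank (O ⧸ maximalIdeal O) (B ⧸ (maximalIdeal O).map (algebraMap O B)) ≤
      (Module.finrank K L : ℕ) := by
    apply rank_le
    intro s hs
    have hlift : ∀ i : s, ∃ b : B, Ideal.Quotient.mk _ b = (i : B ⧸ (maximalIdeal O).map
      (algebraMap O B)) := fun i => Ideal.Quotient.mk_surjective _
    choose b hb using hlift
    have h1 : LinearIndependent K fun i => algebraMap B L (b i) := by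
      apply linInd_of_mod O K L B hOL hBL ht
      intro c hc i
      have h2 : ∑ i, (Ideal.Quotient.mk (maximalIdeal O) (c i)) •
          (i : B ⧸ (maximalIdeal O).map (algebraMap O B)) = 0 := by
        have h3 : ∑ i, (Ideal.Quotient.mk (maximalIdeal O) (c i)) •
            (i : B ⧸ (maximalIdeal O).map (algebraMap O B)) =
            Ideal.Quotient.mk _ (∑ i, algebraMap O B (c i) * b i) := by
          rw [map_sum]
          refine Finset.sum_congr rfl fun i _ => ?_
          rw [map_mul, hb i, Algebra.smul_def]
          rfl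
        rw [h3, Ideal.Quotient.eq_zero_iff_mem]
        exact (hmem _).2 hc
      have h4 := (Fintype.linearIndependent_iff.1 hs) _ h2 i
      rwa [Ideal.Quotient.eq_zero_iff_mem, hmem'] at h4
    have h5 := h1.fintype_card_le_finrank
    rwa [Fintype.card_coe] at h5
  have hfin : Module.Finite (O ⧸ maximalIdeal O) (B ⧸ (maximalIdeal O).map (algebraMap O B)) := by
    rw [← Module.rank_lt_aleph0_iff]
    exact lt_of_le_of_lt hrank (Cardinal.natCast_lt_aleph0)
  have h6 : IsArtinian (O ⧸ maximalIdeal O) (B ⧸ (maximalIdeal O).map (algebraMap O B)) :=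
    inferInstance
  exact isArtinian_of_tower (O ⧸ maximalIdeal O) h6

include K L in
/-- The nonzero primes of a local domain dominating `O` in a finite extension. -/
theorem eq_maximalIdeal_of_dominates [IsLocalRing B] [IsLocalHom (algebraMap O B)]
    (hBL : Function.Injective (algebraMap B L)) (P : Ideal B) [P.IsPrime] (hP : P ≠ ⊥) :
    P = maximalIdeal B := by
  have hOL : Function.Injective (algebraMap O L) := by
    rw [IsScalarTower.algebraMap_eq O K L]
    exact (algebraMap K L).injective.comp (IsFractionRing.injective O K)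
  have h1 := comap_ne_bot O K L B hBL P hP
  have h2 : (P.comap (algebraMap O B)).IsPrime := inferInstance
  have h3 : P.comap (algebraMap O B) = maximalIdeal O :=
    eq_maximalIdeal (h2.isMaximal h1)
  have h4 : (maximalIdeal O).map (algebraMap O B) ≤ P := by
    rw [← h3]
    exact Ideal.map_comap_le
  have h5 := artinian_quot O K L B hOL hBL
  have h6 : (P.map (Ideal.Quotient.mk ((maximalIdeal O).map (algebraMap O B)))).IsPrime :=
    Ideal.map_isPrime_of_surjective Ideal.Quotient.mk_surjective (by
      rw [Ideal.mk_ker]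
      exact h4)
  have h7 : (P.map (Ideal.Quotient.mk ((maximalIdeal O).map (algebraMap O B)))).IsMaximal :=
    IsArtinianRing.isMaximal_of_isPrime _
  have h8 : P.IsMaximal := by
    have := Ideal.comap_isMaximal_of_surjective
      (Ideal.Quotient.mk ((maximalIdeal O).map (algebraMap O B))) Ideal.Quotient.mk_surjective
      (K := P.map (Ideal.Quotient.mk ((maximalIdeal O).map (algebraMap O B))))
    rwa [Ideal.comap_map_of_surjective' _ Ideal.Quotient.mk_surjective, Ideal.mk_ker,
      sup_eq_left.2 h4] at this
  exact eq_maximalIdeal h8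

omit [IsDomain B] in
include L in
theorem not_isField_of_dominates [IsLocalHom (algebraMap O B)] (hOL : Function.Injective (algebraMap O L)) :
    ¬ IsField B := by
  intro hB
  obtain ⟨t, ht⟩ := IsDiscreteValuationRing.exists_irreducible O
  have hOB : Function.Injective (algebraMap O B) := by
    rw [IsScalarTower.algebraMap_eq O B L] at hOL
    exact Function.Injective.of_comp hOL
  apply ht.not_isUnit
  apply isUnit_of_map_unit (algebraMap O B)
  let := hB.toField
  rw [isUnit_iff_ne_zero, Ne, map_eq_zero_iff _ hOB]
  exact ht.ne_zero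

end

theorem dvr_of_regular (B : Type*) [CommRing B] [IsDomain B] [IsRegularLocalRing B]
    (hnf : ¬ IsField B) (h : ∀ P : Ideal B, P.IsPrime → P ≠ ⊥ → P = maximalIdeal B) :
    IsDiscreteValuationRing B := by
  rw [← IsLocalRing.finrank_CotangentSpace_eq_one_iff]
  have h1 : ringKrullDim B = 1 :=
    ringKrullDim_eq_one_iff_of_isLocalRing_isDomain.2 ⟨hnf, fun x hx => by
      rw [Ideal.radical_eq_sInf]
      refine le_sInf fun J hJ => ?_
      rw [h J hJ.2 (by
        rintro rfl
        apply hx
        have := hJ.1
        rwa [Ideal.span_singleton_le_iff_mem, Ideal.mem_bot] at this)]⟩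
  have h2 := (IsRegularLocalRing.iff_finrank_cotangentSpace B).1 inferInstance
  rw [h1] at h2
  exact_mod_cast h2

theorem dvr_of_normal (A : Type*) [CommRing A] [IsDomain A] [IsLocalRing A] [IsNoetherianRing A]
    [IsIntegrallyClosed A] (h : ringKrullDim A = 1) : IsDiscreteValuationRing A := by
  have hnf : ¬ IsField A := (ringKrullDim_eq_one_iff_of_isLocalRing_isDomain.1 h).1
  have hK : Ring.KrullDimLE 1 A := Ring.krullDimLE_iff.2 (by rw [h]; rfl)
  have h2 : IsIntegrallyClosed A ∧ ∀ P : Ideal A, P ≠ ⊥ → P.IsPrime → P = maximalIdeal A :=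
    ⟨inferInstance, fun P hP hP' =>
        eq_maximalIdeal (Ring.krullDimLE_one_iff_of_noZeroDivisors.1 hK P hP hP')⟩
  have h3 : (IsIntegrallyClosed A ∧ ∀ P : Ideal A, P ≠ ⊥ → P.IsPrime → P = maximalIdeal A) ↔
      IsPrincipalIdealRing A :=
    (tfae_of_isNoetherianRing_of_isLocalRing_of_isDomain A).out 3 0
  have h1 : IsPrincipalIdealRing A := h3.1 h2
  exact { h1 with not_a_field' := isField_iff_maximalIdeal_eq.not.1 hnf }

end FJ
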