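import Mathlib

/-!
# The norm formula for the discrete valuations above a discrete valuation ring

(module G3 of MP_400390_ag, algebraic part)
-/

namespace FJ

open IsLocalRing

section oo

variable (B : Type*) {K : Type*} [CommRing B] [IsDomain B] [IsDiscreteValuationRing B]
  [Field K] [Algebra B K] [IsFractionRing B K]

/-- The integer valued order function of a discrete valuation ring on its fraction field. -/
noncomputable def oo (f : K) : ℤ :=
  Multiplicative.toAdd ((Ring.ordFrac B f).unzeroD 1)

variable {B}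

theorem oo_eq_iff {f : K} (hf : f ≠ 0) {n : ℤ} :
    oo B f = n ↔ Ring.ordFrac B f = (Multiplicative.ofAdd n : Multiplicative ℤ) := by
  have h0 : Ring.ordFrac B f ≠ 0 := (map_ne_zero _).2 hf
  obtain ⟨m, hm⟩ := WithZero.ne_zero_iff_exists.1 h0
  rw [oo, ← hm]
  simp only [WithZero.unzeroD_coe, WithZero.coe_inj]
  constructor
  · rintro rfl; rfl
  · rintro rfl; rfl

theorem ordFrac_eq {f : K} (hf : f ≠ 0) :
    Ring.ordFrac B f = (Multiplicative.ofAdd (oo B f) : Multiplicative ℤ) :=
  (oo_eq_iff hf).1 rfl

theorem oo_mul {f g : K} (hf : f ≠ 0) (hg : g ≠ 0) : oo B (f * g) = oo B f + oo B g := by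
  rw [oo_eq_iff (mul_ne_zero hf hg), map_mul, ordFrac_eq hf, ordFrac_eq hg]
  rfl

theorem oo_one : oo B (1 : K) = 0 := by
  rw [oo_eq_iff one_ne_zero, map_one]
  rfl

theorem oo_inv {f : K} (hf : f ≠ 0) : oo B f⁻¹ = - oo B f := by
  have := oo_mul (B := B) hf (inv_ne_zero hf)
  rw [mul_inv_cancel₀ hf, oo_one] at this
  omega

theorem oo_pow {f : K} (hf : f ≠ 0) (n : ℕ) : oo B (f ^ n) = n * oo B f := by
  induction n with
  | zero => simp [oo_one]
  | succ n ih => rw [pow_succ, oo_mul (pow_ne_zero _ hf) hf, ih]; push_cast; ring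

theorem oo_zpow {f : K} (hf : f ≠ 0) (n : ℤ) : oo B (f ^ n) = n * oo B f := by
  cases n with
  | ofNat n => simpa using oo_pow hf n
  | negSucc n =>
    rw [zpow_negSucc, oo_inv (pow_ne_zero _ hf), oo_pow hf, Int.negSucc_eq]
    push_cast
    ring

theorem oo_prod {ι : Type*} (s : Finset ι) {f : ι → K} (hf : ∀ i ∈ s, f i ≠ 0) :
    oo B (∏ i ∈ s, f i) = ∑ i ∈ s, oo B (f i) := by
  classical
  induction s using Finset.induction_on with
  | empty => simp [oo_one]
  | insert i s hi ih =>
    rw [Finset.prod_insert hi, Finset.sum_insert hi,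
      oo_mul (hf i (Finset.mem_insert_self _ _))
        (Finset.prod_ne_zero_iff.2 fun j hj => hf j (Finset.mem_insert_of_mem hj)),
      ih fun j hj => hf j (Finset.mem_insert_of_mem hj)]

theorem oo_unit {b : B} (hb : IsUnit b) : oo B (algebraMap B K b) = 0 := by
  rw [oo_eq_iff (by
    rw [Ne, IsFractionRing.to_map_eq_zero_iff]
    exact hb.ne_zero), Ring.ordFrac_of_isUnit hb]
  rfl

theorem oo_irreducible {b : B} (hb : Irreducible b) : oo B (algebraMap B K b) = 1 := by
  rw [oo_eq_iff (by
    rw [Ne, IsFractionRing.to_map_eq_zero_iff]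
    exact hb.ne_zero), Ring.ordFrac_irreducible hb]
  rfl

omit [IsDomain B] [IsDiscreteValuationRing B] in
theorem algebraMap_ne_zero {b : B} (hb : b ≠ 0) : algebraMap B K b ≠ 0 := by
  rwa [Ne, IsFractionRing.to_map_eq_zero_iff]

theorem oo_algebraMap_nonneg (b : B) : 0 ≤ oo B (algebraMap B K b) := by
  by_cases hb : b = 0
  · subst hb
    simp [oo]
  · obtain ⟨ϖ, hϖ⟩ := IsDiscreteValuationRing.exists_irreducible B
    obtain ⟨n, u, rfl⟩ := IsDiscreteValuationRing.eq_unit_mul_pow_irreducible hb hϖ
    rw [map_mul, map_pow, oo_mul (algebraMap_ne_zero u.ne_zero)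
      (pow_ne_zero _ (algebraMap_ne_zero hϖ.ne_zero)), oo_unit u.isUnit,
      oo_pow (algebraMap_ne_zero hϖ.ne_zero), oo_irreducible hϖ]
    simp

theorem oo_algebraMap_pos {b : B} (hb : b ≠ 0) (hb' : ¬ IsUnit b) :
    0 < oo B (algebraMap B K b) := by
  obtain ⟨ϖ, hϖ⟩ := IsDiscreteValuationRing.exists_irreducible B
  obtain ⟨n, u, rfl⟩ := IsDiscreteValuationRing.eq_unit_mul_pow_irreducible hb hϖ
  rw [map_mul, map_pow, oo_mul (algebraMap_ne_zero u.ne_zero)
    (pow_ne_zero _ (algebraMap_ne_zero hϖ.ne_zero)), oo_unit u.isUnit,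
    oo_pow (algebraMap_ne_zero hϖ.ne_zero), oo_irreducible hϖ]
  have : n ≠ 0 := by
    rintro rfl
    apply hb'
    simp
  have : (0 : ℤ) < n := by exact_mod_cast Nat.pos_of_ne_zero this
  linarith

/-- Elements of order zero are units. -/
theorem exists_unit_of_oo_eq_zero {f : K} (hf : f ≠ 0) (h : oo B f = 0) :
    ∃ b : B, IsUnit b ∧ algebraMap B K b = f := by
  have h1 : Ring.ordFrac B (1 : K) = Ring.ordFrac B f := by
    rw [ordFrac_eq hf, h, map_one]
    rfl
  obtain ⟨u, hu⟩ := Ring.associated_of_ordFrac_eq (R := B) (1 : K) f h1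
  refine ⟨u, u.isUnit, ?_⟩
  rw [← hu, Units.smul_def, Algebra.smul_def, mul_one]

theorem exists_of_oo_nonneg {f : K} (hf : f ≠ 0) (h : 0 ≤ oo B f) :
    ∃ b : B, algebraMap B K b = f := by
  obtain ⟨ϖ, hϖ⟩ := IsDiscreteValuationRing.exists_irreducible B
  have hϖ0 : algebraMap B K ϖ ≠ 0 := algebraMap_ne_zero hϖ.ne_zero
  obtain ⟨n, hn⟩ := Int.eq_ofNat_of_zero_le h
  obtain ⟨b, hb, hbf⟩ := exists_unit_of_oo_eq_zero (B := B) (f := f * (algebraMap B K ϖ ^ n)⁻¹)
    (mul_ne_zero hf (inv_ne_zero (pow_ne_zero _ hϖ0))) (by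
      rw [oo_mul hf (inv_ne_zero (pow_ne_zero _ hϖ0)), oo_inv (pow_ne_zero _ hϖ0), oo_pow hϖ0,
        oo_irreducible hϖ, hn]
      simp)
  refine ⟨b * ϖ ^ n, ?_⟩
  rw [map_mul, map_pow, hbf, inv_mul_cancel_right₀ (pow_ne_zero _ hϖ0)]

theorem oo_eq_ord {b : B} (hb : b ≠ 0) :
    ((oo B (algebraMap B K b)).toNat : ℕ∞) = Ring.ord B b := by
  obtain ⟨ϖ, hϖ⟩ := IsDiscreteValuationRing.exists_irreducible B
  obtain ⟨n, u, rfl⟩ := IsDiscreteValuationRing.eq_unit_mul_pow_irreducible hb hϖ
  rw [map_mul, map_pow, oo_mul (algebraMap_ne_zero u.ne_zero)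
    (pow_ne_zero _ (algebraMap_ne_zero hϖ.ne_zero)), oo_unit u.isUnit,
    oo_pow (algebraMap_ne_zero hϖ.ne_zero), oo_irreducible hϖ,
    Ring.ord_mul_of_isUnit_left u.isUnit, Ring.ord_pow (mem_nonZeroDivisors_of_ne_zero hϖ.ne_zero),
    Ring.ord_of_irreducible hϖ]
  simp

end oo

section norm

variable {O S : Type*} [CommRing O] [IsDomain O] [IsDiscreteValuationRing O]
  [CommRing S] [IsDomain S] [Algebra O S] [Module.Finite O S] [Module.Free O S]

/-- `length_O (S / g S) = ord (N g)`. -/
theorem ord_norm {g : S} (hg : g ≠ 0) :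
    Ring.ord O (Algebra.norm O g) = Module.length O (S ⧸ Ideal.span {g}) := by
  classical
  let b := Module.Free.chooseBasis O S
  have hI := Ideal.span_singleton_eq_bot.not.2 hg
  rw [Ring.ord_eq_of_associated (associated_norm_prod_smith b hg),
    (Ideal.quotientEquivPiSpan (Ideal.span {g}) b hI).length_eq, Module.length_pi_of_fintype]
  have key : ∀ (s : Finset (Module.Free.ChooseBasisIndex O S)),
      Ring.ord O (∏ i ∈ s, Ideal.smithCoeffs b _ hI i) =
        ∑ i ∈ s, Module.length O (O ⧸ Ideal.span {Ideal.smithCoeffs b _ hI i}) := by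
    intro s
    induction s using Finset.induction_on with
    | empty => simp
    | insert i s hi ih =>
      rw [Finset.prod_insert hi, Finset.sum_insert hi, Ring.ord_mul _ (by
        apply mem_nonZeroDivisors_of_ne_zero
        exact Finset.prod_ne_zero_iff.2 fun j _ => Ideal.smithCoeffs_ne_zero b _ hI j), ih]
      rfl
  exact key _

end norm

section semilocal

variable (O K L S : Type*) [CommRing O] [IsDomain O] [IsDiscreteValuationRing O] [Field K]
  [Algebra O K] [IsFractionRing O K] [Field L] [Algebra K L] [Algebra O L] [IsScalarTower O K L]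
  [FiniteDimensional K L] [CommRing S] [IsDomain S] [Algebra O S] [Algebra S L]
  [IsScalarTower O S L] [IsIntegralClosure S O L] [Module.Finite O S]

include O K L in
theorem isDedekindDomain_S : IsDedekindDomain S :=
  have : IsFractionRing S L := IsIntegralClosure.isFractionRing_of_finite_extension O K L S
  have : Algebra.IsIntegral O S := IsIntegralClosure.isIntegral_algebra O L
  have h1 : IsNoetherianRing S := isNoetherian_of_tower O (isNoetherian_of_isNoetherianRing_of_finite O S)
  { h1, Ring.DimensionLEOne.of_isIntegral O S,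
    (isIntegrallyClosed_iff L).mpr fun {x} hx =>
      ⟨IsIntegralClosure.mk' S x (isIntegral_trans (R := O) _ hx),
        IsIntegralClosure.algebraMap_mk' _ _ _⟩ with : IsDedekindDomain S }

set_option linter.unusedSectionVars false in
omit [Module.Finite O S] [IsDomain S] in
include K L in
theorem comap_maximal (q : Ideal S) (hq : q.IsMaximal) :
    q.comap (algebraMap O S) = maximalIdeal O := by
  have : Algebra.IsIntegral O S := IsIntegralClosure.isIntegral_algebra O L
  exact IsLocalRing.eq_maximalIdeal (Ideal.isMaximal_comap_of_isIntegral_of_isMaximal q)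

include O K L in
theorem finite_maximals : {I : Ideal S | I.IsMaximal}.Finite := by
  have := isDedekindDomain_S O K L S
  have : Algebra.IsIntegral O S := IsIntegralClosure.isIntegral_algebra O L
  have htf : Module.IsTorsionFree O L := .trans_faithfulSMul O K L
  have htf' : Module.IsTorsionFree O S := IsIntegralClosure.isTorsionFree O L
  refine (IsDedekindDomain.primesOver_finite (maximalIdeal O) S).subset ?_
  intro q hq
  exact ⟨hq.isPrime, ⟨(comap_maximal O K L S q hq).symm⟩⟩

include O K L in
theorem isPrincipal_S : IsPrincipalIdealRing S :=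
  have := isDedekindDomain_S O K L S
  IsPrincipalIdealRing.of_finite_maximals (finite_maximals O K L S)


end semilocal

section factor

variable {S L : Type*} [CommRing S] [IsDomain S] [IsPrincipalIdealRing S] [Field L] [Algebra S L]
  [IsFractionRing S L]

/-- The generator of a maximal ideal. -/
noncomputable def pq (q : {q : Ideal S // q.IsMaximal}) : S := Submodule.IsPrincipal.generator q.1

omit [IsDomain S] in
theorem span_pq (q : {q : Ideal S // q.IsMaximal}) : Ideal.span {pq q} = q.1 :=
  Ideal.span_singleton_generator q.1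

theorem pq_prime (hS : ¬ IsField S) (q : {q : Ideal S // q.IsMaximal}) : Prime (pq q) := by
  have hq : q.1 ≠ ⊥ := Ring.ne_bot_of_isMaximal_of_not_isField q.2 hS
  have h1 : pq q ≠ 0 := by
    intro h0
    apply hq
    rw [← span_pq q, h0, Ideal.span_singleton_eq_bot]
  rw [← Ideal.span_singleton_prime h1, span_pq]
  exact q.2.isPrime

theorem exists_factor_int [Fintype {q : Ideal S // q.IsMaximal}] (a : S)
    (ha : a ≠ 0) :
    ∃ (u : S) (n : {q : Ideal S // q.IsMaximal} → ℕ), IsUnit u ∧ a = u * ∏ q, pq q ^ n q := by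
  classical
  induction a using UniqueFactorizationMonoid.induction_on_prime with
  | h₁ => exact absurd rfl ha
  | h₂ a hu => exact ⟨a, 0, hu, by simp⟩
  | h₃ a p ha0 hp ih =>
    obtain ⟨u, n, hu, hn⟩ := ih ha0
    have hmax : (Ideal.span {p}).IsMaximal := by
      have hprime : (Ideal.span {p}).IsPrime := (Ideal.span_singleton_prime hp.ne_zero).2 hp
      exact hprime.isMaximal (by
        rw [Ne, Ideal.span_singleton_eq_bot]
        exact hp.ne_zero)
    set q : {q : Ideal S // q.IsMaximal} := ⟨Ideal.span {p}, hmax⟩ with hq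
    have hass : Associated (pq q) p := by
      rw [← Ideal.span_singleton_eq_span_singleton, span_pq]
    obtain ⟨v, hv⟩ := hass
    let e : {q : Ideal S // q.IsMaximal} → ℕ := Pi.single q 1
    refine ⟨v * u, fun q' => n q' + e q', v.isUnit.mul hu, ?_⟩
    have h1 : ∏ q', pq q' ^ (n q' + e q') = (∏ q', pq q' ^ n q') * pq q := by
      simp only [pow_add, Finset.prod_mul_distrib]
      congr 1
      rw [Finset.prod_eq_single q]
      · simp [e]
      · intro b _ hb
        simp [e, Pi.single_eq_of_ne hb]
      · simp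
    rw [h1, hn, ← hv]
    ring

theorem exists_factor (hS : ¬ IsField S) [Fintype {q : Ideal S // q.IsMaximal}] (g : L)
    (hg : g ≠ 0) :
    ∃ (u : S) (n : {q : Ideal S // q.IsMaximal} → ℤ), IsUnit u ∧
      g = algebraMap S L u * ∏ q, algebraMap S L (pq q) ^ n q := by
  classical
  obtain ⟨a, b, hb, rfl⟩ := IsFractionRing.div_surjective (A := S) g
  have hb0 : b ≠ 0 := nonZeroDivisors.ne_zero hb
  have ha0 : a ≠ 0 := by
    rintro rfl
    simp at hg
  obtain ⟨u, n, hu, hn⟩ := exists_factor_int a ha0
  obtain ⟨v, m, hv, hm⟩ := exists_factor_int b hb0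
  obtain ⟨v', hv'⟩ := hv
  refine ⟨u * (v'⁻¹ : Sˣ), fun q => (n q : ℤ) - m q, hu.mul (Units.isUnit _), ?_⟩
  have hpq : ∀ q, algebraMap S L (pq q) ≠ 0 := fun q => by
    rw [Ne, IsFractionRing.to_map_eq_zero_iff]
    exact (pq_prime hS q).ne_zero
  have hv0 : algebraMap S L v ≠ 0 := by
    rw [Ne, IsFractionRing.to_map_eq_zero_iff, ← hv']
    exact v'.ne_zero
  have h1 : algebraMap S L ((v'⁻¹ : Sˣ) : S) = (algebraMap S L v)⁻¹ := by
    refine eq_inv_of_mul_eq_one_left ?_
    rw [← map_mul, ← hv', Units.inv_mul, map_one]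
  have h2 : ∏ q, algebraMap S L (pq q) ^ ((n q : ℤ) - m q) =
      (∏ q, algebraMap S L (pq q) ^ n q) / ∏ q, algebraMap S L (pq q) ^ m q := by
    rw [← Finset.prod_div_distrib]
    refine Finset.prod_congr rfl fun q _ => ?_
    rw [zpow_sub₀ (hpq q), zpow_natCast, zpow_natCast]
  have hm0 : ∏ q, algebraMap S L (pq q) ^ m q ≠ 0 :=
    Finset.prod_ne_zero_iff.2 fun q _ => pow_ne_zero _ (hpq q)
  rw [h2, map_mul, h1, hn, hm]
  simp only [map_mul, map_prod, map_pow]
  field_simp

end factor

section dominate

variable {O K L S : Type*} [CommRing O] [IsDomain O] [IsDiscreteValuationRing O] [Field K]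
  [Algebra O K] [IsFractionRing O K] [Field L] [Algebra K L] [Algebra O L] [IsScalarTower O K L]
  [FiniteDimensional K L] [CommRing S] [IsDomain S] [Algebra O S] [Algebra S L]
  [IsScalarTower O S L] [IsIntegralClosure S O L] [Module.Finite O S]
  (B : Type*) [CommRing B] [IsDomain B] [IsDiscreteValuationRing B] [Algebra B L]
  [IsFractionRing B L] [Algebra O B] [IsScalarTower O B L]

set_option linter.unusedSectionVars false in
include O in
theorem exists_lift (s : S) : ∃ b : B, algebraMap B L b = algebraMap S L s := by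
  have h1 : IsIntegral B (algebraMap S L s) := by
    have h2 : IsIntegral O (algebraMap S L s) := by
      have := IsIntegralClosure.isIntegral O L s
      exact this.algebraMap
    exact h2.tower_top
  exact (isIntegrallyClosed_iff L).1 inferInstance h1

variable (O L S) in
/-- The inclusion of `S` in `B`. -/
noncomputable def jj : S →+* B where
  toFun s := (exists_lift (O := O) (L := L) B s).choose
  map_one' := by
    apply IsFractionRing.injective B L
    rw [(exists_lift (O := O) (L := L) B 1).choose_spec, map_one, map_one]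
  map_mul' a b := by
    apply IsFractionRing.injective B L
    rw [(exists_lift (O := O) (L := L) B (a * b)).choose_spec, map_mul, map_mul,
      (exists_lift (O := O) (L := L) B a).choose_spec,
      (exists_lift (O := O) (L := L) B b).choose_spec]
  map_zero' := by
    apply IsFractionRing.injective B L
    rw [(exists_lift (O := O) (L := L) B 0).choose_spec, map_zero, map_zero]
  map_add' a b := by
    apply IsFractionRing.injective B L
    rw [(exists_lift (O := O) (L := L) B (a + b)).choose_spec, map_add, map_add,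
      (exists_lift (O := O) (L := L) B a).choose_spec,
      (exists_lift (O := O) (L := L) B b).choose_spec]

theorem jj_spec (s : S) : algebraMap B L (jj O L S B s) = algebraMap S L s :=
  (exists_lift (O := O) (L := L) B s).choose_spec

variable [IsLocalHom (algebraMap O B)]

variable (O L S) in
/-- The centre of `B` on `S`. -/
noncomputable def qB : Ideal S := (maximalIdeal B).comap (jj O L S B)

omit [IsLocalHom (algebraMap O B)] in
theorem jj_comp : (jj O L S B).comp (algebraMap O S) = algebraMap O B := by
  ext a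
  apply IsFractionRing.injective B L
  rw [RingHom.comp_apply, jj_spec, ← IsScalarTower.algebraMap_apply,
    ← IsScalarTower.algebraMap_apply]

variable (O K L S) in
set_option linter.unusedSectionVars false in
omit B [CommRing B] [IsDomain B] [IsDiscreteValuationRing B] [Algebra B L]
  [IsFractionRing B L] [Algebra O B] [IsScalarTower O B L] [IsLocalHom (algebraMap O B)] in
include O K L in
theorem not_isField_S : ¬ IsField S := by
  intro hS
  have : Algebra.IsIntegral O S := IsIntegralClosure.isIntegral_algebra O L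
  have hinj : Function.Injective (algebraMap O S) := by
    have h1 : Function.Injective (algebraMap O L) := by
      rw [IsScalarTower.algebraMap_eq O K L]
      exact (algebraMap K L).injective.comp (IsFractionRing.injective O K)
    rw [IsScalarTower.algebraMap_eq O S L] at h1
    exact Function.Injective.of_comp h1
  exact IsDiscreteValuationRing.not_isField O
    (isField_of_isIntegral_of_isField hinj hS)

include K in
theorem qB_maximal : (qB O L S B).IsMaximal := by
  have hD := isDedekindDomain_S O K L S
  have hp : (qB O L S B).IsPrime := Ideal.IsPrime.comap _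
  refine hp.isMaximal ?_
  intro hbot
  obtain ⟨ϖ, hϖ⟩ := IsDiscreteValuationRing.exists_irreducible O
  have h1 : algebraMap O S ϖ ∈ qB O L S B := by
    rw [qB, Ideal.mem_comap, ← RingHom.comp_apply, jj_comp, mem_maximalIdeal, mem_nonunits_iff]
    intro hu
    exact hϖ.not_isUnit (isUnit_of_map_unit (algebraMap O B) _ hu)
  rw [hbot, Submodule.mem_bot] at h1
  have hinj : Function.Injective (algebraMap O L) := by
    rw [IsScalarTower.algebraMap_eq O K L]
    exact (algebraMap K L).injective.comp (IsFractionRing.injective O K)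
  apply hϖ.ne_zero
  apply hinj
  rw [IsScalarTower.algebraMap_apply O S L, h1, map_zero, map_zero]

omit [IsLocalHom (algebraMap O B)] in
/-- The order at `B` of the generators. -/
theorem oo_pq [IsPrincipalIdealRing S] [IsFractionRing S L]
    [Fintype {q : Ideal S // q.IsMaximal}] (hS : ¬ IsField S)
    (hqm : (qB O L S B).IsMaximal) (q : {q : Ideal S // q.IsMaximal}) [Decidable (q.1 = qB O L S B)] :
    oo B (algebraMap S L (pq q)) = if q.1 = qB O L S B then 1 else 0 := by
  classical
  have hpq0 : ∀ q, algebraMap S L (pq q) ≠ 0 := fun q => by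
    rw [Ne, IsFractionRing.to_map_eq_zero_iff]
    exact (pq_prime hS q).ne_zero
  have hjne : ∀ q, jj O L S B (pq q) ≠ 0 := by
    intro q h0
    apply hpq0 q
    rw [← jj_spec (O := O) B, h0, map_zero]
  have hne : ∀ q : {q : Ideal S // q.IsMaximal}, q.1 ≠ qB O L S B →
      oo B (algebraMap S L (pq q)) = 0 := by
    intro q hq
    rw [← jj_spec (O := O) B]
    apply oo_unit
    by_contra hu
    apply hq
    have h1 : pq q ∈ qB O L S B := hu
    refine q.2.eq_of_le hqm.ne_top ?_
    rw [← span_pq q, Ideal.span_singleton_le_iff_mem]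
    exact h1
  have hunit : ∀ u : S, IsUnit u → oo B (algebraMap S L u) = 0 := by
    intro u hu
    rw [← jj_spec (O := O) B]
    exact oo_unit (hu.map _)
  split_ifs with h
  · have hpos : 0 < oo B (algebraMap S L (pq q)) := by
      rw [← jj_spec (O := O) B]
      apply oo_algebraMap_pos (hjne q)
      have h1 : pq q ∈ qB O L S B := by
        rw [← h, ← span_pq q]
        exact Ideal.mem_span_singleton_self _
      exact h1
    obtain ⟨ϖ, hϖ⟩ := IsDiscreteValuationRing.exists_irreducible B
    obtain ⟨u, n, hu, hn⟩ := exists_factor (S := S) hS (algebraMap B L ϖ)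
      (algebraMap_ne_zero hϖ.ne_zero)
    have h2 := oo_irreducible (K := L) hϖ
    rw [hn, oo_mul (by
      rw [Ne, IsFractionRing.to_map_eq_zero_iff]
      exact hu.ne_zero) (Finset.prod_ne_zero_iff.2 fun q _ => zpow_ne_zero _ (hpq0 q)),
      hunit u hu, zero_add, oo_prod _ (fun q _ => zpow_ne_zero _ (hpq0 q)),
      Finset.sum_eq_single q] at h2
    · rw [oo_zpow (hpq0 q)] at h2
      exact Int.eq_one_of_dvd_one hpos.le ⟨n q, by rw [mul_comm, h2]⟩
    · intro q' _ hq'
      rw [oo_zpow (hpq0 q'), hne q' (by
        rw [← h]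
        exact fun h3 => hq' (Subtype.ext h3)), mul_zero]
    · simp
  · exact hne q h

omit [IsLocalHom (algebraMap O B)] in
/-- The order at `B` in terms of the factorisation. -/
theorem oo_factor [IsPrincipalIdealRing S] [IsFractionRing S L]
    [Fintype {q : Ideal S // q.IsMaximal}] (hS : ¬ IsField S)
    (hqm : (qB O L S B).IsMaximal) {u : S} (hu : IsUnit u)
    (n : {q : Ideal S // q.IsMaximal} → ℤ) :
    oo B (algebraMap S L u * ∏ q, algebraMap S L (pq q) ^ n q) = n ⟨qB O L S B, hqm⟩ := by
  classical
  have hpq0 : ∀ q, algebraMap S L (pq q) ≠ 0 := fun q => by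
    rw [Ne, IsFractionRing.to_map_eq_zero_iff]
    exact (pq_prime hS q).ne_zero
  have hunit : oo B (algebraMap S L u) = 0 := by
    rw [← jj_spec (O := O) B]
    exact oo_unit (hu.map _)
  rw [oo_mul (by
      rw [Ne, IsFractionRing.to_map_eq_zero_iff]
      exact hu.ne_zero) (Finset.prod_ne_zero_iff.2 fun q _ => zpow_ne_zero _ (hpq0 q)),
      hunit, zero_add, oo_prod _ (fun q _ => zpow_ne_zero _ (hpq0 q)),
      Finset.sum_eq_single ⟨qB O L S B, hqm⟩]
  · rw [oo_zpow (hpq0 _), oo_pq B hS hqm, if_pos rfl, mul_one]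
  · intro q _ hq
    rw [oo_zpow (hpq0 _), oo_pq B hS hqm, if_neg (fun h => hq (Subtype.ext h)), mul_zero]
  · simp

omit [IsLocalHom (algebraMap O B)] in
/-- The residue field of `B` is `S / q_B`. -/
theorem residue_comp_jj_surjective [IsPrincipalIdealRing S] [IsFractionRing S L]
    [Fintype {q : Ideal S // q.IsMaximal}] (hS : ¬ IsField S)
    (hqm : (qB O L S B).IsMaximal) :
    Function.Surjective ((residue B).comp (jj O L S B)) := by
  classical
  intro x
  obtain ⟨b, rfl⟩ := IsLocalRing.residue_surjective x
  by_cases hb : IsUnit b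
  · have hb0 : algebraMap B L b ≠ 0 := algebraMap_ne_zero hb.ne_zero
    obtain ⟨u, n, hu, hn⟩ := exists_factor (S := S) hS (algebraMap B L b) hb0
    have h1 := oo_unit (K := L) hb
    rw [hn, oo_factor B hS hqm hu] at h1
    -- numerator and denominator
    set N : S := u * ∏ q, pq q ^ (n q).toNat with hN
    set D : S := ∏ q, pq q ^ (- n q).toNat with hD
    have hpq0 : ∀ q, algebraMap S L (pq q) ≠ 0 := fun q => by
      rw [Ne, IsFractionRing.to_map_eq_zero_iff]
      exact (pq_prime hS q).ne_zero
    have hDq : D ∉ qB O L S B := by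
      rw [hD]
      intro hmem
      have hpr := hqm.isPrime
      obtain ⟨q, -, hq⟩ := (Ideal.IsPrime.prod_mem_iff (hp := hpr)).1 hmem
      by_cases hqq : q.1 = qB O L S B
      · have : n q = 0 := by
          have : q = ⟨qB O L S B, hqm⟩ := Subtype.ext hqq
          rw [this]
          exact h1
        rw [this] at hq
        simp only [neg_zero, Int.toNat_zero, pow_zero] at hq
        exact hqm.ne_top ((Ideal.eq_top_iff_one _).2 hq)
      · have h2 := hpr.mem_of_pow_mem _ hq
        apply hqq
        refine q.2.eq_of_le hqm.ne_top ?_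
        rw [← span_pq q, Ideal.span_singleton_le_iff_mem]
        exact h2
    have hbND : algebraMap B L b * algebraMap S L D = algebraMap S L N := by
      rw [hn, hN, hD, map_mul, map_prod, map_prod, mul_assoc, ← Finset.prod_mul_distrib]
      congr 1
      refine Finset.prod_congr rfl fun q _ => ?_
      rw [map_pow, map_pow, ← zpow_natCast, ← zpow_natCast, ← zpow_add₀ (hpq0 q)]
      congr 1
      omega
    have hbND' : b * jj O L S B D = jj O L S B N := by
      apply IsFractionRing.injective B L
      rw [map_mul, jj_spec, jj_spec, hbND]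
    obtain ⟨D', c, hc, hDc⟩ : ∃ D' : S, ∃ c ∈ qB O L S B, D' * D + c = 1 := by
      have h3 := (Ideal.IsMaximal.exists_inv hqm hDq)
      obtain ⟨D', c, hc, h4⟩ := h3
      exact ⟨D', c, hc, h4⟩
    refine ⟨N * D', ?_⟩
    have h5 : b - jj O L S B (N * D') ∈ maximalIdeal B := by
      have h6 : b - jj O L S B (N * D') = b * jj O L S B c := by
        have h7 : jj O L S B c = 1 - jj O L S B D' * jj O L S B D := by
          rw [← map_mul, ← map_one (jj O L S B), ← map_sub]
          congr 1
          rw [← hDc]
          ring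
        rw [h7, map_mul, ← hbND']
        ring
      rw [h6]
      exact Ideal.mul_mem_left _ _ hc
    rw [RingHom.comp_apply, eq_comm, ← sub_eq_zero, ← map_sub, residue_eq_zero_iff]
    exact h5
  · refine ⟨0, ?_⟩
    rw [map_zero, eq_comm, residue_eq_zero_iff]
    exact hb

variable (O L S) in
/-- The map of `S` to the residue field of `B`. -/
noncomputable def resJ : S →ₐ[O] ResidueField B :=
  { (residue B).comp (jj O L S B) with
    commutes' := fun a => by
      change residue B (jj O L S B (algebraMap O S a)) = _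
      rw [← RingHom.comp_apply (jj O L S B), jj_comp]
      rfl }

omit [IsLocalHom (algebraMap O B)] in
theorem ker_resJ : RingHom.ker (resJ O L S B) = qB O L S B := by
  ext s
  rw [RingHom.mem_ker, qB, Ideal.mem_comap, ← residue_eq_zero_iff]
  rfl

theorem length_quot_qB [IsPrincipalIdealRing S] [IsFractionRing S L]
    [Fintype {q : Ideal S // q.IsMaximal}] (hS : ¬ IsField S)
    (hqm : (qB O L S B).IsMaximal) :
    Module.Finite (ResidueField O) (ResidueField B) ∧
    Module.length O (S ⧸ qB O L S B) =
      Module.finrank (ResidueField O) (ResidueField B) := by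
  have hsurj : Function.Surjective (resJ O L S B) := residue_comp_jj_surjective B hS hqm
  have e := Ideal.quotientKerAlgEquivOfSurjective hsurj
  have e1 : (S ⧸ qB O L S B) ≃ₗ[O] ResidueField B :=
    (Ideal.quotientEquivAlgOfEq O (ker_resJ (O := O) (L := L) (S := S) B)).symm.toLinearEquiv.trans
      e.toLinearEquiv
  have h1 : Module.Finite O (ResidueField B) :=
    Module.Finite.of_surjective e1.toLinearMap e1.surjective
  have h2 : Module.Finite (ResidueField O) (ResidueField B) :=
    Module.Finite.of_restrictScalars_finite O _ _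
  refine ⟨h2, ?_⟩
  rw [e1.length_eq, Module.length_eq_of_surjective (M := ResidueField B)
      (IsLocalRing.residue_surjective (R := O)), Module.length_eq_finrank]

end dominate

section normorder

variable {O K L S : Type*} [CommRing O] [IsDomain O] [IsDiscreteValuationRing O] [Field K]
  [Algebra O K] [IsFractionRing O K] [Field L] [Algebra K L] [Algebra O L] [IsScalarTower O K L]
  [FiniteDimensional K L] [CommRing S] [IsDomain S] [Algebra O S] [Algebra S L]
  [IsScalarTower O S L] [IsIntegralClosure S O L] [Module.Finite O S]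

omit [IsDomain S] in
variable (O K L S) in
theorem norm_algebraMap_S (s : S) : Algebra.norm K (algebraMap S L s) =
    algebraMap O K (Algebra.norm O s) := by
  have htf : Module.IsTorsionFree O L := .trans_faithfulSMul O K L
  have htf' : Module.IsTorsionFree O S := IsIntegralClosure.isTorsionFree O L
  have hfree : Module.Free O S := inferInstance
  have : IsLocalization (Algebra.algebraMapSubmonoid S (nonZeroDivisors O)) L :=
    IsIntegralClosure.isLocalization O K L S
  exact Algebra.norm_localization O (nonZeroDivisors O) s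

variable (O K L S) in
/-- The order of the norm of an element of `S`. -/
theorem oo_norm (s : S) (hs : s ≠ 0) :
    ((oo O (Algebra.norm K (algebraMap S L s))).toNat : ℕ∞) =
      Module.length O (S ⧸ Ideal.span {s}) := by
  have htf : Module.IsTorsionFree O L := .trans_faithfulSMul O K L
  have htf' : Module.IsTorsionFree O S := IsIntegralClosure.isTorsionFree O L
  have hfree : Module.Free O S := inferInstance
  have h0 : Algebra.norm O s ≠ 0 := (Algebra.norm_ne_zero_iff).2 hs
  rw [norm_algebraMap_S O K L S, oo_eq_ord h0, ord_norm hs]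

omit [IsDomain S] in
variable (O K L S) in
theorem oo_norm_nonneg (s : S) : 0 ≤ oo O (Algebra.norm K (algebraMap S L s)) := by
  rw [norm_algebraMap_S O K L S]
  exact oo_algebraMap_nonneg _

variable (K S) in
theorem oo_norm_pq (B : Type*) [CommRing B] [IsDomain B] [IsDiscreteValuationRing B] [Algebra B L]
    [IsFractionRing B L] [Algebra O B] [IsScalarTower O B L] [IsLocalHom (algebraMap O B)]
    [IsPrincipalIdealRing S] [IsFractionRing S L]
    [Fintype {q : Ideal S // q.IsMaximal}] (hS : ¬ IsField S)
    (hqm : (qB O L S B).IsMaximal) :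
    oo O (Algebra.norm K (algebraMap S L (pq ⟨qB O L S B, hqm⟩))) =
      Module.finrank (ResidueField O) (ResidueField B) := by
  have h1 := oo_norm O K L S (pq ⟨qB O L S B, hqm⟩) (pq_prime hS _).ne_zero
  rw [(Ideal.quotientEquivAlgOfEq O (span_pq ⟨qB O L S B, hqm⟩)).toLinearEquiv.length_eq,
    (length_quot_qB B hS hqm).2] at h1
  have h2 := oo_norm_nonneg O K L S (pq ⟨qB O L S B, hqm⟩)
  have h3 : (oo O (Algebra.norm K (algebraMap S L (pq ⟨qB O L S B, hqm⟩)))).toNat =
      Module.finrank (ResidueField O) (ResidueField B) := by exact_mod_cast h1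
  omega

omit [IsDomain S] in
variable (O K) in
theorem oo_norm_unit (u : S) (hu : IsUnit u) :
    oo O (Algebra.norm K (algebraMap S L u)) = 0 := by
  rw [norm_algebraMap_S O K L S]
  exact oo_unit (hu.map _)

end normorder

section main

theorem norm_zpow {K L : Type*} [Field K] [Field L] [Algebra K L] [FiniteDimensional K L] {x : L}
    (hx : x ≠ 0) (n : ℤ) : Algebra.norm K (x ^ n) = Algebra.norm K x ^ n := by
  cases n with
  | ofNat n => simp
  | negSucc n =>
    rw [zpow_negSucc, zpow_negSucc, ← map_pow]
    refine eq_inv_of_mul_eq_one_left ?_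
    rw [← map_mul, inv_mul_cancel₀ (pow_ne_zero _ hx), map_one]

theorem mem_nonunits_valuationSubring {L Γ : Type*} [Field L] [LinearOrderedCommGroupWithZero Γ]
    (v : Valuation L Γ) (x : L) : x ∈ v.valuationSubring.nonunits ↔ v x < 1 := by
  rw [ValuationSubring.mem_nonunits_iff_or, Valuation.mem_valuationSubring_iff]
  by_cases hx : x = 0
  · simp [hx]
  · have hv : 0 < v x := zero_lt_iff.2 ((Valuation.ne_zero_iff v).2 hx)
    rw [map_inv₀, not_le, one_lt_inv₀ hv]
    simp [hx]

variable {O K L : Type*} [CommRing O] [IsDomain O] [IsDiscreteValuationRing O] [Field K]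
  [Algebra O K] [IsFractionRing O K] [Field L] [Algebra K L] [Algebra O L] [IsScalarTower O K L]
  [FiniteDimensional K L] [Module.Finite O (integralClosure O L)]
  {ι : Type*} (B : ι → Type*) [∀ i, CommRing (B i)] [∀ i, IsDomain (B i)]
  [∀ i, IsDiscreteValuationRing (B i)] [∀ i, Algebra (B i) L] [∀ i, IsFractionRing (B i) L]
  [∀ i, Algebra O (B i)] [∀ i, IsScalarTower O (B i) L] [∀ i, IsLocalHom (algebraMap O (B i))]

variable (O K) in
/-- A family of discrete valuation rings of `L` dominating `O`, one in each valuation ring of `L`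
dominating `O`: existence of an element with prescribed orders, and the order of its norm. -/
theorem exists_prescribed_orders
    (hsurj : ∀ V : ValuationSubring L, (∀ a : O, algebraMap O L a ∈ V) →
      (∀ a ∈ maximalIdeal O, algebraMap O L a ∈ V.nonunits) →
      ∃ i, (∀ b : B i, algebraMap (B i) L b ∈ V) ∧
        ∀ b : B i, ¬ IsUnit b → algebraMap (B i) L b ∈ V.nonunits)
    (hinj : ∀ i j, (∀ b : B i, ∃ b' : B j, algebraMap (B j) L b' = algebraMap (B i) L b) → i = j)
    (n : ι → ℤ) :
    Finite ι ∧ ∃ g : L, g ≠ 0 ∧ (∀ i, oo (B i) g = n i) ∧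
      oo O (Algebra.norm K g) =
        ∑ᶠ i, (Module.finrank (ResidueField O) (ResidueField (B i)) : ℤ) * n i := by
  classical
  let S := integralClosure O L
  have hD := isDedekindDomain_S O K L S
  have hP := isPrincipal_S O K L S
  have hS := not_isField_S O K L S
  have hfr : IsFractionRing S L := IsIntegralClosure.isFractionRing_of_finite_extension O K L S
  have hfin : Finite {q : Ideal S // q.IsMaximal} := (finite_maximals O K L S).to_subtype
  have := Fintype.ofFinite {q : Ideal S // q.IsMaximal}
  have hqm : ∀ i, (qB O L S (B i)).IsMaximal := fun i => qB_maximal (K := K) (B i)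
  have hpq0 : ∀ q, algebraMap S L (pq q) ≠ 0 := fun q => by
    rw [Ne, IsFractionRing.to_map_eq_zero_iff]
    exact (pq_prime hS q).ne_zero
  let e : ι → {q : Ideal S // q.IsMaximal} := fun i => ⟨qB O L S (B i), hqm i⟩
  have he : Function.Bijective e := by
    constructor
    · intro i j hij
      apply hinj
      intro b
      by_cases hb : b = 0
      · exact ⟨0, by rw [hb, map_zero, map_zero]⟩
      · have hb0 : algebraMap (B i) L b ≠ 0 := algebraMap_ne_zero hb
        obtain ⟨u, m, hu, hm⟩ := exists_factor (S := S) hS _ hb0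
        apply exists_of_oo_nonneg hb0
        have h1 := oo_algebraMap_nonneg (K := L) b
        rw [hm, oo_factor (B i) hS (hqm i) hu] at h1
        rw [hm, oo_factor (B j) hS (hqm j) hu]
        have : (⟨qB O L S (B i), hqm i⟩ : {q : Ideal S // q.IsMaximal}) =
          ⟨qB O L S (B j), hqm j⟩ := hij
        rw [← this]
        exact h1
    · intro q
      have hq0 : q.1 ≠ ⊥ := Ring.ne_bot_of_isMaximal_of_not_isField q.2 hS
      let v : IsDedekindDomain.HeightOneSpectrum S := ⟨q.1, q.2.isPrime, hq0⟩
      obtain ⟨i, hi1, hi2⟩ := hsurj (v.valuation L).valuationSubring (by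
        intro a
        rw [Valuation.mem_valuationSubring_iff, IsScalarTower.algebraMap_apply O S L]
        exact v.valuation_le_one _) (by
        intro a ha
        rw [mem_nonunits_valuationSubring, IsScalarTower.algebraMap_apply O S L,
          v.valuation_lt_one_iff_mem, ← Ideal.mem_comap]
        have h1 : v.asIdeal.comap (algebraMap O S) = maximalIdeal O :=
          comap_maximal O K L S q.1 q.2
        rw [h1]
        exact ha)
      refine ⟨i, ?_⟩
      apply Subtype.ext
      change qB O L S (B i) = q.1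
      refine (hqm i).eq_of_le q.2.ne_top ?_
      intro s hs
      have h1 := hi2 (jj O L S (B i) s) hs
      rw [jj_spec, mem_nonunits_valuationSubring, v.valuation_lt_one_iff_mem] at h1
      exact h1
  let E : ι ≃ {q : Ideal S // q.IsMaximal} := Equiv.ofBijective e he
  have hι : Finite ι := Finite.of_equiv _ E.symm
  have := Fintype.ofFinite ι
  refine ⟨hι, algebraMap S L 1 * ∏ q, algebraMap S L (pq q) ^ n (E.symm q), ?_, ?_, ?_⟩
  · rw [map_one, one_mul]
    exact Finset.prod_ne_zero_iff.2 fun q _ => zpow_ne_zero _ (hpq0 q)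
  · intro i
    rw [oo_factor (B i) hS (hqm i) isUnit_one]
    congr 1
    exact E.symm_apply_apply i
  · have hN0 : ∀ q, Algebra.norm K (algebraMap S L (pq q)) ≠ 0 := fun q =>
      Algebra.norm_ne_zero_iff.2 (hpq0 q)
    rw [map_one, one_mul, map_prod, oo_prod _ (fun q _ => by
      rw [norm_zpow (hpq0 q)]
      exact zpow_ne_zero _ (hN0 q)), finsum_eq_sum_of_fintype, ← E.sum_comp]
    refine Finset.sum_congr rfl fun i _ => ?_
    rw [norm_zpow (hpq0 _), oo_zpow (hN0 _), E.symm_apply_apply]
    have h1 := oo_norm_pq K S (B i) hS (hqm i)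
    have h2 : E i = ⟨qB O L S (B i), hqm i⟩ := rfl
    rw [h2, h1, mul_comm]

end main

end FJ
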