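import Pool.Agent.Lib.MP_400390_ag.Geometry
import Pool.Agent.Lib.MP_400390_ag.Center
import Pool.Agent.Lib.MP_400390_ag.NormForm
import Pool.Agent.Lib.MP_400390_ag.KrullAk
import Pool.Agent.Lib.MP_400390_ag.FinClosure

/-!
# Local equations over a point of codimension one

(module G3 of MP_400390_ag)
-/

namespace FJ

open AlgebraicGeometry CategoryTheory IsLocalRing

universe u

section maps

variable {X Y : Scheme.{u}} [IsIntegral X] [IsIntegral Y]

/-- The map of stalks at a point `y` over `x`. -/
noncomputable def stMap (π : Y ⟶ X) {x : X} {y : Y} (hy : π y = x) :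
    X.presheaf.stalk x →+* Y.presheaf.stalk y :=
  (X.presheaf.stalkSpecializes (specializes_of_eq hy) ≫ π.stalkMap y).hom

omit [IsIntegral X] [IsIntegral Y] in
theorem stMap_rfl (π : Y ⟶ X) (y : Y) : stMap π (rfl : π y = π y) = (π.stalkMap y).hom := by
  rw [stMap, TopCat.Presheaf.stalkSpecializes_refl, Category.id_comp]

omit [IsIntegral X] [IsIntegral Y] in
theorem isLocalHom_stMap (π : Y ⟶ X) {x : X} {y : Y} (hy : π y = x) :
    IsLocalHom (stMap π hy) := by
  subst hy
  rw [stMap_rfl]
  infer_instance

theorem ffMap_algebraMap (π : Y ⟶ X) (h : π (genericPoint Y) = genericPoint X) {x : X} {y : Y}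
    (hy : π y = x) (a : X.presheaf.stalk x) :
    ffMap π h (algebraMap (X.presheaf.stalk x) X.functionField a) =
      algebraMap (Y.presheaf.stalk y) Y.functionField (stMap π hy a) := by
  subst hy
  rw [stMap_rfl]
  have h1 : X.presheaf.stalkSpecializes ((genericPoint_spec X).specializes trivial) ≫
      X.presheaf.stalkSpecializes (specializes_of_eq h) ≫ π.stalkMap (genericPoint Y) =
      π.stalkMap y ≫ Y.presheaf.stalkSpecializes ((genericPoint_spec Y).specializes trivial) := by
    rw [TopCat.Presheaf.stalkSpecializes_comp_assoc]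
    exact Scheme.Hom.stalkSpecializes_stalkMap π _ _ _
  exact congrArg (fun z => z.hom a) h1

theorem finite_ffMap (π : Y ⟶ X) (h : π (genericPoint Y) = genericPoint X)
    (hf : (π.stalkMap (genericPoint Y)).hom.Finite) : (ffMap π h).Finite := by
  have h1 : (X.presheaf.stalkSpecializes (specializes_of_eq h)).hom.Finite := by
    apply RingHom.Finite.of_surjective
    intro a
    refine ⟨X.presheaf.stalkSpecializes (specializes_of_eq h.symm) a, ?_⟩
    have h2 : X.presheaf.stalkSpecializes (specializes_of_eq h.symm) ≫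
        X.presheaf.stalkSpecializes (specializes_of_eq h) = 𝟙 _ := by
      rw [TopCat.Presheaf.stalkSpecializes_comp]
      exact TopCat.Presheaf.stalkSpecializes_refl _ _
    exact congrArg (fun z => z.hom a) h2
  have h3 : ffMap π h = (π.stalkMap (genericPoint Y)).hom.comp
      (X.presheaf.stalkSpecializes (specializes_of_eq h)).hom := rfl
  rw [h3]
  exact hf.comp h1

omit [IsIntegral X] in
theorem eq_of_germ_isUnit {U : X.Opens} (hU : IsAffineOpen U) {p q : X} (hp : p ∈ U) (hq : q ∈ U)
    (h : ∀ r : Γ(X, U), IsUnit (X.presheaf.germ U p hp r) ↔ IsUnit (X.presheaf.germ U q hq r)) :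
    p = q := by
  have key : ∀ (p : X) (hp : p ∈ U) (r : Γ(X, U)), r ∉ (hU.primeIdealOf ⟨p, hp⟩).asIdeal ↔
      IsUnit (X.presheaf.germ U p hp r) := by
    intro p hp r
    let alg := TopCat.Presheaf.algebra_section_stalk X.presheaf (⟨p, hp⟩ : U)
    have h1 := hU.isLocalization_stalk ⟨p, hp⟩
    exact (IsLocalization.AtPrime.isUnit_to_map_iff (X.presheaf.stalk p)
      (hU.primeIdealOf ⟨p, hp⟩).asIdeal r).symm
  have h2 : hU.primeIdealOf ⟨p, hp⟩ = hU.primeIdealOf ⟨q, hq⟩ := by
    apply PrimeSpectrum.ext
    ext r
    have := (key p hp r).trans ((h r).trans (key q hq r).symm)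
    exact not_iff_not.1 this
  have h3 := hU.fromSpec_primeIdealOf ⟨p, hp⟩
  have h4 := hU.fromSpec_primeIdealOf ⟨q, hq⟩
  rw [h2] at h3
  exact h3.symm.trans h4

end maps

section fibre

variable {X Y : Scheme.{u}} [IsIntegral X] [IsIntegral Y]

theorem not_mem_nonunits_of_isUnit {A L : Type*} [CommRing A] [Field L] (f : A →+* L)
    (V : ValuationSubring L) (hf : ∀ a, f a ∈ V) {a : A} (ha : IsUnit a) :
    f a ∉ V.nonunits := by
  obtain ⟨b, hb⟩ := ha.exists_right_inv
  intro h1
  rw [ValuationSubring.mem_nonunits_iff] at h1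
  have h2 : V.valuation (f b) ≤ 1 := (V.valuation_le_one_iff _).2 (hf b)
  have h3 : V.valuation (f a) * V.valuation (f b) = 1 := by
    rw [← map_mul, ← map_mul, hb, map_one, map_one]
  have h4 : V.valuation (f a) * V.valuation (f b) < 1 := mul_lt_one_of_lt_of_le h1 h2
  rw [h3] at h4
  exact lt_irrefl _ h4

/-- A valuation ring dominating the local ring at `x` has a centre over `x`. -/
theorem exists_point (π : Y ⟶ X) [IsProper π] (h : π (genericPoint Y) = genericPoint X)
    (x : X) (V : ValuationSubring Y.functionField)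
    (hV1 : ∀ a : X.presheaf.stalk x,
      ffMap π h (algebraMap (X.presheaf.stalk x) X.functionField a) ∈ V)
    (hV2 : ∀ a ∈ maximalIdeal (X.presheaf.stalk x),
      ffMap π h (algebraMap (X.presheaf.stalk x) X.functionField a) ∈ V.nonunits) :
    ∃ y : Y, π y = x ∧
      (∀ b : Y.presheaf.stalk y, algebraMap (Y.presheaf.stalk y) Y.functionField b ∈ V) ∧
      ∀ b : Y.presheaf.stalk y, ¬ IsUnit b →
        algebraMap (Y.presheaf.stalk y) Y.functionField b ∈ V.nonunits := by
  obtain ⟨_, ⟨U, hU, rfl⟩, hxU, -⟩ := X.isBasis_affineOpens.exists_subset_of_mem_open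
    (Set.mem_univ x) isOpen_univ
  have hxU' : x ∈ U := hxU
  have hηX : genericPoint X ∈ U :=
    ((genericPoint_spec X).specializes trivial).mem_open U.isOpen hxU'
  have hη : genericPoint Y ∈ π ⁻¹ᵁ U := by
    change π (genericPoint Y) ∈ U
    rw [h]
    exact hηX
  have hη' : π (genericPoint Y) ∈ U := hη
  -- compatibility
  have hcomp : ∀ (p : X) (hp : p ∈ U) (r : Γ(X, U)),
      algebraMap (X.presheaf.stalk p) X.functionField (X.presheaf.germ U p hp r) =
        X.presheaf.germ U (genericPoint X) hηX r := by
    intro p hp r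
    have h1 : X.presheaf.germ U p hp ≫
        X.presheaf.stalkSpecializes ((genericPoint_spec X).specializes trivial) =
        X.presheaf.germ U (genericPoint X) hηX := TopCat.Presheaf.germ_stalkSpecializes _ _ _
    exact congrArg (fun z => z.hom r) h1
  have hpull : ∀ r : Γ(X, U), pullFun π U hη r = ffMap π h (X.presheaf.germ U (genericPoint X) hηX r) := by
    intro r
    have h0 : X.presheaf.germ U _ hη' ≫ π.stalkMap (genericPoint Y) =
      π.app U ≫ Y.presheaf.germ (π ⁻¹ᵁ U) (genericPoint Y) hη :=
      Scheme.Hom.germ_stalkMap π U _ hη'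
    have h1 : X.presheaf.germ U (genericPoint X) hηX ≫
        X.presheaf.stalkSpecializes (specializes_of_eq h) ≫ π.stalkMap (genericPoint Y) =
        π.app U ≫ Y.presheaf.germ (π ⁻¹ᵁ U) (genericPoint Y) hη := by
      rw [TopCat.Presheaf.germ_stalkSpecializes_assoc, h0]
    exact (congrArg (fun z => z.hom r) h1).symm
  obtain ⟨y, hyU, hy1, hy2⟩ := exists_center π hU hη V (by
    intro r
    rw [hpull, ← hcomp x hxU']
    exact hV1 _)
  refine ⟨y, ?_, hy1, hy2⟩
  apply eq_of_germ_isUnit hU hyU hxU'
  intro r
  have e1 : ffMap π h (algebraMap (X.presheaf.stalk x) X.functionField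
      (X.presheaf.germ U x hxU' r)) =
      algebraMap (Y.presheaf.stalk y) Y.functionField
        (π.stalkMap y (X.presheaf.germ U (π y) hyU r)) := by
    rw [hcomp x hxU', ← hcomp (π y) hyU, ffMap_algebraMap π h (rfl : π y = π y), stMap_rfl]
  constructor
  · intro hr
    by_contra hn
    have h1 := hV2 _ ((mem_maximalIdeal _).2 hn)
    rw [e1] at h1
    exact not_mem_nonunits_of_isUnit (algebraMap (Y.presheaf.stalk y) Y.functionField) V hy1
      (hr.map (π.stalkMap y).hom) h1
  · intro hr
    by_contra hn
    have h2 : ¬ IsUnit (π.stalkMap y (X.presheaf.germ U (π y) hyU r)) := by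
      intro h3
      exact hn (isUnit_of_map_unit (π.stalkMap y).hom _ h3)
    have h1 := hy2 _ h2
    rw [← e1] at h1
    exact not_mem_nonunits_of_isUnit
      ((ffMap π h).comp (algebraMap (X.presheaf.stalk x) X.functionField)) V hV1 hr h1

/-- Points of the fibre are determined by their local rings. -/
theorem eq_of_stalk_le (π : Y ⟶ X) [IsSeparated π] (h : π (genericPoint Y) = genericPoint X)
    {x : X} {y z : Y} (hy : π y = x) (hz : π z = x)
    [IsDiscreteValuationRing (Y.presheaf.stalk y)] [IsDiscreteValuationRing (Y.presheaf.stalk z)]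
    (hle : ∀ b : Y.presheaf.stalk y, ∃ b' : Y.presheaf.stalk z,
      algebraMap (Y.presheaf.stalk z) Y.functionField b' =
        algebraMap (Y.presheaf.stalk y) Y.functionField b) : y = z := by
  classical
  choose j0 hj0 using hle
  have hinjz : Function.Injective (algebraMap (Y.presheaf.stalk z) Y.functionField) :=
    IsFractionRing.injective _ _
  let j : Y.presheaf.stalk y →+* Y.presheaf.stalk z :=
    { toFun := j0
      map_one' := by
        apply hinjz
        rw [hj0, map_one, map_one]
      map_mul' := fun a b => by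
        apply hinjz
        rw [hj0, map_mul, map_mul, hj0, hj0]
      map_zero' := by
        apply hinjz
        rw [hj0, map_zero, map_zero]
      map_add' := fun a b => by
        apply hinjz
        rw [hj0, map_add, map_add, hj0, hj0] }
  have hj : ∀ b, algebraMap (Y.presheaf.stalk z) Y.functionField (j b) =
      algebraMap (Y.presheaf.stalk y) Y.functionField b := hj0
  -- `j` is local
  have hjl : IsLocalHom j := by
    constructor
    intro b hb
    by_contra hnb
    have hb0 : b ≠ 0 := by
      rintro rfl
      rw [map_zero] at hb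
      exact not_isUnit_zero hb
    obtain ⟨c, hc⟩ := IsDiscreteValuationRing.exists_irreducible (Y.presheaf.stalk z)
    have hc0 : algebraMap (Y.presheaf.stalk z) Y.functionField c ≠ 0 :=
      algebraMap_ne_zero hc.ne_zero
    have hb1 : algebraMap (Y.presheaf.stalk y) Y.functionField b ≠ 0 := algebraMap_ne_zero hb0
    have hpos := oo_algebraMap_pos (K := Y.functionField) hb0 hnb
    set f := (algebraMap (Y.presheaf.stalk z) Y.functionField c)⁻¹ with hf
    have hf0 : f ≠ 0 := inv_ne_zero hc0
    set n := (-(oo (Y.presheaf.stalk y) f)).toNat with hn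
    obtain ⟨d, hd⟩ := exists_of_oo_nonneg (B := Y.presheaf.stalk y)
      (f := algebraMap (Y.presheaf.stalk y) Y.functionField b ^ n * f)
      (mul_ne_zero (pow_ne_zero _ hb1) hf0) (by
        rw [oo_mul (pow_ne_zero _ hb1) hf0, oo_pow hb1]
        have h1 : -(oo (Y.presheaf.stalk y) f) ≤ n := Int.self_le_toNat _
        have h2 : (n : ℤ) * 1 ≤ n * oo (Y.presheaf.stalk y)
            (algebraMap (Y.presheaf.stalk y) Y.functionField b) :=
          mul_le_mul_of_nonneg_left hpos (Int.natCast_nonneg n)
        linarith)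
    have h3 : j d * c = j b ^ n := by
      apply hinjz
      rw [map_mul, map_pow, hj, hj, hd, hf, mul_assoc, inv_mul_cancel₀ hc0, mul_one]
    apply hc.not_isUnit
    have h4 : IsUnit (j d * c) := by
      rw [h3]
      exact hb.pow n
    exact isUnit_of_mul_isUnit_right h4
  -- the two morphisms
  let ι : Spec (.of Y.functionField) ⟶ Spec (.of (Y.presheaf.stalk z)) :=
    Spec.map (CommRingCat.ofHom (algebraMap (Y.presheaf.stalk z) Y.functionField))
  let l₁ : Spec (.of (Y.presheaf.stalk z)) ⟶ Y := Y.fromSpecStalk z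
  let l₂ : Spec (.of (Y.presheaf.stalk z)) ⟶ Y :=
    Spec.map (CommRingCat.ofHom j) ≫ Y.fromSpecStalk y
  let i₁ : Spec (.of Y.functionField) ⟶ Y := Y.fromSpecStalk (genericPoint Y)
  have hl₁ : ι ≫ l₁ = i₁ :=
    Scheme.SpecMap_stalkSpecializes_fromSpecStalk ((genericPoint_spec Y).specializes trivial)
  have hl₂ : ι ≫ l₂ = i₁ := by
    have h1 : CommRingCat.ofHom j ≫
        CommRingCat.ofHom (algebraMap (Y.presheaf.stalk z) Y.functionField) =
        Y.presheaf.stalkSpecializes ((genericPoint_spec Y).specializes trivial) := by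
      ext b
      exact hj b
    simp only [ι, l₂, i₁]
    rw [← Spec.map_comp_assoc, h1]
    exact Scheme.SpecMap_stalkSpecializes_fromSpecStalk _
  have hstalk : ∀ (w : Y) (hw : π w = x), Y.fromSpecStalk w ≫ π =
      Spec.map (CommRingCat.ofHom (stMap π hw)) ≫ X.fromSpecStalk x := by
    intro w hw
    rw [← Scheme.SpecMap_stalkMap_fromSpecStalk,
      ← Scheme.SpecMap_stalkSpecializes_fromSpecStalk (specializes_of_eq hw),
      ← Spec.map_comp_assoc]
    rfl
  have hπ : l₂ ≫ π = l₁ ≫ π := by
    simp only [l₁, l₂]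
    rw [Category.assoc, hstalk y hy, hstalk z hz, ← Spec.map_comp_assoc]
    congr 2
    ext a
    apply hinjz
    have e1 := hj (stMap π hy a)
    rw [← ffMap_algebraMap π h hy, ffMap_algebraMap π h hz] at e1
    exact e1
  have hsub := IsSeparated.valuativeCriterion π
    { R := Y.presheaf.stalk z, K := Y.functionField, i₁ := i₁, i₂ := l₁ ≫ π,
      commSq := ⟨by rw [← hl₁, Category.assoc]⟩ }
  have hl : l₁ = l₂ := by
    have := @Subsingleton.elim _ hsub ⟨l₁, hl₁, rfl⟩ ⟨l₂, hl₂, hπ⟩
    exact congrArg CommSq.LiftStruct.l this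
  have h1 : l₁ (closedPoint (Y.presheaf.stalk z)) = z := Scheme.fromSpecStalk_closedPoint
  have h2 : l₂ (closedPoint (Y.presheaf.stalk z)) = y := by
    have h3 : Spec.map (CommRingCat.ofHom j) (closedPoint (Y.presheaf.stalk z)) =
        closedPoint (Y.presheaf.stalk y) := by
      exact IsLocalRing.comap_closedPoint j
    have h4 : l₂ (closedPoint (Y.presheaf.stalk z)) =
        Y.fromSpecStalk y (Spec.map (CommRingCat.ofHom j) (closedPoint (Y.presheaf.stalk z))) := rfl
    rw [h4, h3]
    exact Scheme.fromSpecStalk_closedPoint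
  rw [← h1, hl, h2]

end fibre

section degree

theorem finrank_congr_toAlgebra {A B : Type*} [Field A] [Field B] (f g : A →+* B) (h : f = g) :
    @Module.finrank A B _ _ f.toAlgebra.toModule = @Module.finrank A B _ _ g.toAlgebra.toModule := by
  subst h
  rfl

theorem finrank_residue {A B : Type*} [CommRing A] [CommRing B] [IsLocalRing A] [IsLocalRing B]
    [Algebra A B] [IsLocalHom (algebraMap A B)] :
    Module.finrank (ResidueField A) (ResidueField B) =
      @Module.finrank (ResidueField A) (ResidueField B) _ _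
        (ResidueField.map (algebraMap A B)).toAlgebra.toModule := by
  have : (ResidueField.instModule : Module (ResidueField A) (ResidueField B)) =
      (ResidueField.map (algebraMap A B)).toAlgebra.toModule := by
    apply Module.ext'
    intro r m
    have h1 : ∀ (r : ResidueField A) (m : ResidueField B),
        r • m = ResidueField.map (algebraMap A B) r * m := by
      intro r m
      exact Algebra.smul_def r m
    exact h1 r m
  rw [this]

theorem residueDegree_eq {X Y : Scheme.{u}} (π : Y ⟶ X) {x : X} {y : Y} (hy : π y = x) :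
    letI : Algebra (X.presheaf.stalk x) (Y.presheaf.stalk y) := (stMap π hy).toAlgebra
    haveI : IsLocalHom (algebraMap (X.presheaf.stalk x) (Y.presheaf.stalk y)) :=
      isLocalHom_stMap π hy
    π.residueDegree y = Module.finrank (ResidueField (X.presheaf.stalk x))
      (ResidueField (Y.presheaf.stalk y)) := by
  subst hy
  have h1 := stMap_rfl π y
  have hl : IsLocalHom (stMap π (rfl : π y = π y)) := isLocalHom_stMap π rfl
  have h2 : ResidueField.map (stMap π (rfl : π y = π y)) =
      ResidueField.map (π.stalkMap y).hom := by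
    congr 1
  let alg : Algebra (X.presheaf.stalk (π y)) (Y.presheaf.stalk y) :=
    (stMap π (rfl : π y = π y)).toAlgebra
  have hl' : IsLocalHom (algebraMap (X.presheaf.stalk (π y)) (Y.presheaf.stalk y)) := hl
  exact (finrank_congr_toAlgebra _ _ h2.symm).trans
    (finrank_residue (A := X.presheaf.stalk (π y)) (B := Y.presheaf.stalk y)).symm

theorem ord_eq_oo {X : Scheme.{u}} [IsIntegral X] [IsLocallyNoetherian X] (x : X)
    (hx : Order.coheight x = 1) [IsDiscreteValuationRing (X.presheaf.stalk x)]
    (f : X.functionField) : Scheme.ord f x = oo (X.presheaf.stalk x) f := by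
  rw [Scheme.ord_eq_ordHom_of_coheight_eq_one hx]
  rfl

theorem coheight_eq_one {X : Scheme.{u}} [IsIntegral X] (x : X)
    [IsDiscreteValuationRing (X.presheaf.stalk x)] : Order.coheight x = 1 := by
  have h1 := IsDiscreteValuationRing.ringKrullDim_eq_one (X.presheaf.stalk x)
  rw [ringKrullDim_stalk_eq_coheight] at h1
  exact_mod_cast h1

theorem finite_integralClosure_stalk (k : Type u) [Field k] [PerfectField k] {X : Scheme.{u}}
    [IsIntegral X] (s : X ⟶ Spec (.of k)) [LocallyOfFiniteType s] (x : X) (E : Type u) [Field E]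
    [Algebra X.functionField E] [FiniteDimensional X.functionField E]
    [Algebra (X.presheaf.stalk x) E] [IsScalarTower (X.presheaf.stalk x) X.functionField E] :
    Module.Finite (X.presheaf.stalk x) (integralClosure (X.presheaf.stalk x) E) := by
  obtain ⟨_, ⟨U, hU, rfl⟩, hxU, -⟩ := X.isBasis_affineOpens.exists_subset_of_mem_open
    (Set.mem_univ x) isOpen_univ
  have hxU' : x ∈ U := hxU
  have hne : Nonempty U := ⟨⟨x, hxU'⟩⟩
  have hfr := functionField_isFractionRing_of_isAffineOpen X U hU
  let alg1 := TopCat.Presheaf.algebra_section_stalk X.presheaf (⟨x, hxU'⟩ : U)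
  have hloc := hU.isLocalization_stalk ⟨x, hxU'⟩
  have tower1 : IsScalarTower Γ(X, U) (X.presheaf.stalk x) X.functionField :=
    functionField_isScalarTower X U ⟨x, hxU'⟩
  let alg2 : Algebra Γ(X, U) E :=
    ((algebraMap X.functionField E).comp (algebraMap Γ(X, U) X.functionField)).toAlgebra
  have tower2 : IsScalarTower Γ(X, U) X.functionField E := .of_algebraMap_eq fun _ => rfl
  have tower3 : IsScalarTower Γ(X, U) (X.presheaf.stalk x) E := .of_algebraMap_eq fun r => by
    rw [IsScalarTower.algebraMap_apply (X.presheaf.stalk x) X.functionField E,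
      ← IsScalarTower.algebraMap_apply Γ(X, U) (X.presheaf.stalk x) X.functionField]
    rfl
  let φ : k →+* Γ(X, U) := ((Scheme.ΓSpecIso (.of k)).inv ≫ s.appLE ⊤ U (by simp)).hom
  have hφ : φ.FiniteType := by
    have h1 : (s.appLE ⊤ U (by simp)).hom.FiniteType :=
      s.finiteType_appLE (isAffineOpen_top _) hU _
    have h2 : (Scheme.ΓSpecIso (.of k)).inv.hom.FiniteType := by
      apply RingHom.FiniteType.of_surjective
      exact (ConcreteCategory.bijective_of_isIso (Scheme.ΓSpecIso (.of k)).inv).2
    exact h1.comp h2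
  let algk : Algebra k Γ(X, U) := φ.toAlgebra
  have hft : Algebra.FiniteType k Γ(X, U) := hφ
  exact finite_closure_atPrime k Γ(X, U) X.functionField E (X.presheaf.stalk x)
    (hU.primeIdealOf ⟨x, hxU'⟩).asIdeal

end degree

/-- MODULE (G3) -/
theorem exists_local_equation (k : Type u) [Field k] [PerfectField k] {X Y : Scheme.{u}}
    [IsIntegral X] [IsLocallyNoetherian X] (s : X ⟶ Spec (.of k)) [LocallyOfFiniteType s]
    (hn : ∀ x : X, IsIntegrallyClosed (X.presheaf.stalk x)) [IsIntegral Y]
    [IsLocallyNoetherian Y] (π : Y ⟶ X) (hπ : IsRegularAlteration π)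
    (h : π (genericPoint Y) = genericPoint X) (L : CDiv Y) (x : X)
    (hx : Order.coheight x = 1) :
    ∃ g : Y.functionField, g ≠ 0 ∧ (∀ y : Y, π y = x → UnitAt y (L.eqn y / g)) ∧
      letI := (ffMap π h).toAlgebra
      Scheme.ord (Algebra.norm X.functionField g) x = pushCoeff π L x := by
  have hprop := hπ.proper
  let O := X.presheaf.stalk x
  let K := X.functionField
  let E := Y.functionField
  have hnx := hn x
  have hO : IsDiscreteValuationRing (X.presheaf.stalk x) :=
    dvr_of_normal _ (by rw [ringKrullDim_stalk_eq_coheight, hx]; rfl)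
  let algKE : Algebra X.functionField Y.functionField := (ffMap π h).toAlgebra
  let algOE : Algebra (X.presheaf.stalk x) Y.functionField :=
    ((ffMap π h).comp (algebraMap (X.presheaf.stalk x) X.functionField)).toAlgebra
  have tower : IsScalarTower (X.presheaf.stalk x) X.functionField Y.functionField :=
    .of_algebraMap_eq fun _ => rfl
  have hfd : FiniteDimensional X.functionField Y.functionField := finite_ffMap π h hπ.finite
  have hfc : Module.Finite (X.presheaf.stalk x)
      (integralClosure (X.presheaf.stalk x) Y.functionField) :=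
    finite_integralClosure_stalk k s x Y.functionField
  let B : {y : Y // π y = x} → Type u := fun i => Y.presheaf.stalk i.1
  let algOB : ∀ i : {y : Y // π y = x}, Algebra (X.presheaf.stalk x) (Y.presheaf.stalk i.1) :=
    fun i => (stMap π i.2).toAlgebra
  have towerB : ∀ i : {y : Y // π y = x},
      IsScalarTower (X.presheaf.stalk x) (Y.presheaf.stalk i.1) Y.functionField := fun i =>
    .of_algebraMap_eq fun a => ffMap_algebraMap π h i.2 a
  have hloc : ∀ i : {y : Y // π y = x},
      IsLocalHom (algebraMap (X.presheaf.stalk x) (Y.presheaf.stalk i.1)) := fun i =>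
    isLocalHom_stMap π i.2
  have hOE : Function.Injective (algebraMap (X.presheaf.stalk x) Y.functionField) :=
    (ffMap π h).injective.comp (IsFractionRing.injective _ _)
  have hdvr : ∀ i : {y : Y // π y = x}, IsDiscreteValuationRing (Y.presheaf.stalk i.1) := by
    intro i
    have h1 := hπ.regular i.1
    have h2 : Function.Injective (algebraMap (Y.presheaf.stalk i.1) Y.functionField) :=
      IsFractionRing.injective _ _
    refine dvr_of_regular _ ?_ ?_
    · exact not_isField_of_dominates (X.presheaf.stalk x) Y.functionField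
        (Y.presheaf.stalk i.1) hOE
    · intro P hP hP0
      exact eq_maximalIdeal_of_dominates (X.presheaf.stalk x) X.functionField Y.functionField
        (Y.presheaf.stalk i.1) h2 P hP0
  obtain ⟨hfin, g, hg0, hg, hgN⟩ := exists_prescribed_orders (X.presheaf.stalk x)
    X.functionField (L := Y.functionField) (fun i : {y : Y // π y = x} => Y.presheaf.stalk i.1)
    (by
      intro V hV1 hV2
      obtain ⟨y, hy, h1, h2⟩ := exists_point π h x V hV1 hV2
      exact ⟨⟨y, hy⟩, h1, h2⟩)
    (by
      intro i j hij
      exact Subtype.ext (eq_of_stalk_le π h i.2 j.2 hij))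
    (fun i => oo (Y.presheaf.stalk i.1) (L.eqn i.1))
  refine ⟨g, hg0, ?_, ?_⟩
  · intro y hy
    have := hdvr ⟨y, hy⟩
    have h1 : oo (Y.presheaf.stalk y) (L.eqn y / g) = 0 := by
      rw [div_eq_mul_inv, oo_mul (L.ne_zero y) (inv_ne_zero hg0), oo_inv hg0]
      have := hg ⟨y, hy⟩
      simp only at this
      rw [this]
      ring
    exact exists_unit_of_oo_eq_zero (div_ne_zero (L.ne_zero y) hg0) h1
  · rw [ord_eq_oo x hx, hgN, pushCoeff]
    have hcoh : ∀ i : {y : Y // π y = x}, Order.coheight i.1 = 1 := fun i => by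
      have := hdvr i
      exact coheight_eq_one i.1
    let e : {y : Y // π y = x} ≃ {y : Y // π y = x ∧ Order.coheight y = 1} :=
      { toFun := fun i => ⟨i.1, i.2, hcoh i⟩
        invFun := fun i => ⟨i.1, i.2.1⟩
        left_inv := fun _ => rfl
        right_inv := fun _ => rfl }
    rw [← finsum_comp_equiv e]
    refine finsum_congr fun i => ?_
    have hi := hdvr i
    rw [show (e i).1 = i.1 from rfl, residueDegree_eq π i.2, ord_eq_oo i.1 (hcoh i)]

end FJ
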