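import Pool.Agent.Lib.MP_400390_ag.DivGlue
import Pool.Agent.Lib.MP_400390_ag.LocalEq
import Pool.Agent.Lib.MP_400390_ag.GlobJump

/-!
# MP_400390_ag: assembly of the final theorem
-/

namespace FJ

open AlgebraicGeometry CategoryTheory

universe u

/-- A numerically `ℚ`-Cartier canonical divisor of a strongly `F`-regular variety is `ℚ`-Cartier
on affine opens. -/
theorem qCartier_canonical (k : Type u) [Field k] [IsAlgClosed k] (p : ℕ) [Fact p.Prime]
    [CharP k p] {X : Scheme.{u}} [IsIntegral X] [IsLocallyNoetherian X] (s : X ⟶ Spec (.of k))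
    [LocallyOfFiniteType s] (hn : ∀ x : X, IsIntegrallyClosed (X.presheaf.stalk x))
    (hF : IsStronglyFRegular X p) (D : X → ℤ)
    (hfin : LocallyFiniteDiv D)
    (hnum : NumQCartier X D) {U : X.Opens} (hU : IsAffineOpen U) [Nonempty U] :
    QCartier (krullData_affine X hn U hU)
      (fun x : {x : X // x ∈ U ∧ Order.coheight x = 1} => D x.1) := by
  obtain ⟨Y, hY, hYn, π, hπ, m, L, hm, hL, hpush⟩ := hnum
  have hsurj : Surjective π := hπ.surjective
  have h := map_genericPoint π hsurj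
  have heq : (fun x : {x : X // x ∈ U ∧ Order.coheight x = 1} => pushCoeff π L x.1) =
      m • (fun x : {x : X // x ∈ U ∧ Order.coheight x = 1} => D x.1) := by
    funext x
    rw [hpush x.1 x.2.2]
    simp
  have hDfin : {x : {x : X // x ∈ U ∧ Order.coheight x = 1} | D x.1 ≠ 0}.Finite := by
    refine Set.Finite.of_finite_image (f := fun x => x.1) ((hfin U hU).subset ?_)
      (Subtype.val_injective.injOn)
    rintro _ ⟨⟨x, hxU, hx⟩, hDx, rfl⟩
    exact ⟨hxU, hx, hDx⟩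
  have hfin' : {x : {x : X // x ∈ U ∧ Order.coheight x = 1} | pushCoeff π L x.1 ≠ 0}.Finite := by
    refine hDfin.subset ?_
    intro x hx h0
    exact hx (by rw [hpush x.1 x.2.2, h0, mul_zero])
  have hinf : Infinite k := IsAlgClosed.instInfinite
  have hAC := asymptoticallyCartier_of_numTrivial k s hn hπ h L hL
    (fun x hx => exists_local_equation k s hn π hπ h L x hx) U hU hfin'
  let : Algebra k Γ(X, U) := (structMap s U).toAlgebra
  have hft : Algebra.FiniteType k Γ(X, U) := finiteType_structMap s U hU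
  have hfr := functionField_isFractionRing_of_isAffineOpen X U hU
  have hQ := qCartier_of_asymptoticallyCartier k p (krullData_affine X hn U hU)
    (stronglyFRegular_of_scheme hn hU hF) hfin' hAC
  rw [heq] at hQ
  exact QCartier.of_nsmul _ hm hQ

theorem isTestIdeal_anti {R K ι : Type*} [CommRing R] [Field K] [Algebra R K] {ord : ι → K → ℤ}
    {p : ℕ} (hp : p.Prime) {h : KrullData R K ι ord} {Δ Δ' : ι → ℝ} (hΔ : ∀ P, Δ P ≤ Δ' P)
    {J J' : Ideal R} (hJ : IsTestIdeal p h Δ J) (hJ' : IsTestIdeal p h Δ' J') : J' ≤ J := by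
  refine hJ'.2 ⟨hJ.1.1, ?_⟩
  intro e he φ hφ hφm x hx
  refine hJ.1.2 e he φ hφ ?_ x hx
  intro f hf
  refine hφm f (h.RD_mono ?_ hf)
  intro P
  refine Int.ceil_le_ceil ?_
  refine mul_le_mul_of_nonneg_left (hΔ P) ?_
  have h1 : (1 : ℝ) ≤ (p : ℝ) ^ e := one_le_pow₀ (by exact_mod_cast hp.one_lt.le)
  linarith

theorem isJump_div {T : Type*} (τ : ℝ → T) {m : ℝ} (hm : 0 < m) (t : ℝ) :
    IsJump (fun t => τ (t / m)) t ↔ IsJump τ (t / m) := by
  constructor
  · rintro ⟨ht, h⟩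
    refine ⟨div_pos ht hm, fun ε hε hεt => ?_⟩
    have h1 := h (ε * m) (mul_pos hε hm) ((le_div_iff₀ hm).1 hεt)
    have h2 : (t - ε * m) / m = t / m - ε := by
      field_simp
    simp only [h2] at h1
    exact h1
  · rintro ⟨ht, h⟩
    refine ⟨(div_pos_iff_of_pos_right hm).1 ht, fun ε hε hεt => ?_⟩
    have h1 := h (ε / m) (div_pos hε hm) (div_le_div_of_nonneg_right hεt hm.le)
    have h2 : (t - ε) / m = t / m - ε / m := sub_div _ _ _
    simp only [h2]
    exact h1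

theorem isTau_div_iff {p : ℕ} {X : Scheme.{u}} [IsIntegral X] [IsLocallyNoetherian X]
    (hn : ∀ x : X, IsIntegrallyClosed (X.presheaf.stalk x)) {Z : X → ℚ} {Z' : X → ℤ} {m : ℕ}
    (hm : 0 < m) (hZZ' : ∀ x, Order.coheight x = 1 → (Z' x : ℚ) = m * Z x) {U : X.Opens}
    (hU : IsAffineOpen U) [Nonempty U] (t : ℝ) (J : Ideal Γ(X, U)) :
    IsTau p (fun x => t * (Z x : ℝ)) U J ↔
      IsTestIdeal p (krullData_affine X hn U hU) (fun P => t / m * (Z' P.1 : ℝ)) J := by
  have hm' : (0 : ℝ) < m := by exact_mod_cast hm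
  have hm0 : (m : ℝ) ≠ 0 := hm'.ne'
  rw [isTau_iff hn hU]
  have h6 : (fun P : {x : X // x ∈ U ∧ Order.coheight x = 1} => t / m * (Z' P.1 : ℝ)) =
      fun P => t * (Z P.1 : ℝ) := by
    funext P
    have h7 : (Z' P.1 : ℝ) = m * Z P.1 := by
      have := congrArg (fun q : ℚ => (q : ℝ)) (hZZ' P.1 P.2.2)
      push_cast at this
      exact this
    rw [h7]
    field_simp
  rw [h6]

/-- Jumping numbers on an affine open subset. -/
theorem jumping_affine (k : Type u) [Field k] [IsAlgClosed k] (p : ℕ) [Fact p.Prime]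
    [CharP k p] {X : Scheme.{u}} [IsIntegral X] [IsLocallyNoetherian X] (s : X ⟶ Spec (.of k))
    [LocallyOfFiniteType s] (hn : ∀ x : X, IsIntegrallyClosed (X.presheaf.stalk x))
    (hF : IsStronglyFRegular X p) (D : X → ℤ) (hD : IsCanonicalDiv s D)
    (hnum : NumQCartier X D) {Z : X → ℚ} {Z' : X → ℤ} {m : ℕ} (hm : 0 < m)
    (hZZ' : ∀ x, Order.coheight x = 1 → (Z' x : ℚ) = m * Z x) (hZ0 : ∀ x, 0 ≤ Z' x)
    (hZ : LocPrincipal X Z') {U : X.Opens} (hU : IsAffineOpen U) [Nonempty U] :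
    ∃ τ : ℝ → Ideal Γ(X, U), (∀ t, 0 ≤ t → IsTau p (fun x => t * (Z x : ℝ)) U (τ t)) ∧
      (∀ M : ℝ, {t | IsJump τ t ∧ t ≤ M}.Finite) ∧
      (∀ t, IsJump τ t → ∃ r : ℚ, (r : ℝ) = t) ∧
      ∀ s t, 0 ≤ s → s ≤ t → (∀ u, IsJump τ u → u ≤ s ∨ t < u) → τ s = τ t := by
  let : Algebra k Γ(X, U) := (structMap s U).toAlgebra
  have hft : Algebra.FiniteType k Γ(X, U) := finiteType_structMap s U hU
  have hfr := functionField_isFractionRing_of_isAffineOpen X U hU
  have hcan := isCanonical_of_scheme hn hU s hD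
  obtain ⟨κ, hκ⟩ := exists_traceMap k p (krullData_affine X hn U hU) hcan
  have hQ := qCartier_canonical k p s hn hF D (fun V hV => by
    rcases isEmpty_or_nonempty V with hVe | hVn
    · have h0 : {x | x ∈ V ∧ Order.coheight x = 1 ∧ D x ≠ 0} = ∅ := by
        refine Set.eq_empty_iff_forall_notMem.2 ?_
        rintro x ⟨hx, _⟩
        exact hVe.elim ⟨x, hx⟩
      rw [h0]
      exact Set.finite_empty
    · exact (hD V hV hVn).1) hnum hU
  have hQ' := QCartier.neg _ (QCartier.nsmul _ hQ (p - 1))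
  have hp : p.Prime := Fact.out
  obtain ⟨τ, h1, h2, h3, h4⟩ := jumping_numbers k p (krullData_affine X hn U hU)
    (stronglyFRegular_of_scheme hn hU hF) hκ hQ' (fun x => Z' x.1)
    (finite_support_of_locPrincipal hn hU hZ) (fun x => hZ0 x.1)
    (qCartier_of_locPrincipal hn hU hZ)
  have hm' : (0 : ℝ) < m := by exact_mod_cast hm
  have hm0 : (m : ℝ) ≠ 0 := hm'.ne'
  refine ⟨fun t => τ (t / m), ?_, ?_, ?_, ?_⟩
  · intro t ht
    exact (isTau_div_iff hn hm hZZ' hU t _).2 (h1 (t / m) (div_nonneg ht hm'.le))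
  · intro M
    have h5 := Set.Finite.image (fun t => t * (m : ℝ)) (h2 (M / m))
    refine h5.subset ?_
    rintro t ⟨ht, htM⟩
    refine ⟨t / m, ⟨(isJump_div τ hm' t).1 ht, div_le_div_of_nonneg_right htM hm'.le⟩, ?_⟩
    field_simp
  · intro t ht
    obtain ⟨r, hr⟩ := h3 _ ((isJump_div τ hm' t).1 ht)
    refine ⟨r * m, ?_⟩
    push_cast
    rw [hr]
    field_simp
  · intro a b ha hab hu
    refine h4 (a / m) (b / m) (div_nonneg ha hm'.le) (div_le_div_of_nonneg_right hab hm'.le) ?_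
    intro u hu'
    have h5 : IsJump (fun t => τ (t / m)) (u * m) := by
      rw [isJump_div τ hm']
      rwa [mul_div_cancel_right₀ _ hm0]
    rcases hu _ h5 with h6 | h6
    · exact Or.inl ((le_div_iff₀ hm').2 h6)
    · exact Or.inr ((div_lt_iff₀ hm').2 h6)

theorem ideal_ne_bot {X : Scheme.{u}} [IsIntegral X] {I : X.IdealSheafData} (hI : I ≠ ⊥)
    (U : X.affineOpens) (hU : Nonempty U.1) : I.ideal U ≠ ⊥ := by
  intro h0
  apply hI
  refine Scheme.IdealSheafData.ext ?_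
  funext V
  by_cases hV : Nonempty V.1
  · obtain ⟨x, hxU⟩ := hU
    obtain ⟨y, hyV⟩ := hV
    have hgU : genericPoint X ∈ U.1 :=
      ((genericPoint_spec X).mem_open_set_iff U.1.2).2 ⟨x, trivial, hxU⟩
    have hgV : genericPoint X ∈ V.1 :=
      ((genericPoint_spec X).mem_open_set_iff V.1.2).2 ⟨y, trivial, hyV⟩
    obtain ⟨f, hfU, hf⟩ := U.2.exists_basicOpen_le (V := V.1) ⟨_, hgV⟩ hgU
    let W : X.affineOpens := ⟨X.basicOpen f, U.2.basicOpen f⟩
    have hWU : W ≤ U := X.basicOpen_le f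
    have hWV : W ≤ V := hfU
    have h1 := I.map_ideal hWU
    rw [h0, Ideal.map_bot] at h1
    have h2 := I.ideal_le_comap_ideal hWV
    rw [← h1, ← RingHom.ker_eq_comap_bot] at h2
    have hne : Nonempty W.1 := ⟨⟨_, hf⟩⟩
    have h3 := map_injective_of_isIntegral X
      (homOfLE (X := X.Opens) (show W.1 ≤ V.1 from hWV))
    have h4 := (RingHom.injective_iff_ker_eq_bot _).1 h3
    exact le_bot_iff.1 (h2.trans h4.le)
  · exact ideal_eq_of_isEmpty hV _ _

/-- Every numerically `ℚ`-Cartier divisor of a strongly `F`-regular variety is `ℚ`-Cartier. -/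
theorem isQCartierDiv_of_numQCartier (k : Type u) [Field k] [IsAlgClosed k] (p : ℕ)
    [Fact p.Prime] [CharP k p] {X : Scheme.{u}} [IsIntegral X] [IsLocallyNoetherian X]
    (s : X ⟶ Spec (.of k)) [LocallyOfFiniteType s] [QuasiCompact s]
    (hn : ∀ x : X, IsIntegrallyClosed (X.presheaf.stalk x)) (hF : IsStronglyFRegular X p)
    {D : X → ℤ} (hfin : LocallyFiniteDiv D) (hnum : NumQCartier X D) :
    IsQCartierDiv (fun x => (D x : ℚ)) := by
  have hcomp : CompactSpace X := QuasiCompact.compactSpace_of_compactSpace s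
  exact isQCartierDiv_of_qCartier hn
    (fun U hU _ => qCartier_canonical k p s hn hF D hfin hnum hU)

/-- The main theorem. -/
theorem main (k : Type u) [Field k] [IsAlgClosed k] (p : ℕ) [Fact p.Prime]
    [CharP k p] (X : Scheme.{u}) [IsIntegral X] [IsLocallyNoetherian X] (s : X ⟶ Spec (.of k))
    [LocallyOfFiniteType s] [QuasiCompact s]
    (hn : ∀ x : X, IsIntegrallyClosed (X.presheaf.stalk x))
    (hF : IsStronglyFRegular X p) (D : X → ℤ) (hD : IsCanonicalDiv s D)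
    (hnum : NumQCartier X D) (Z : X → ℚ) (hZ0 : ∀ x, 0 ≤ Z x) (hZ : IsQCartierDiv Z) :
    ∃ τ : ℝ → X.IdealSheafData,
      (∀ t, 0 ≤ t → IsTauSheaf p (fun x => t * (Z x : ℝ)) (τ t)) ∧
      (∀ M : ℝ, {t | IsJump τ t ∧ t ≤ M}.Finite) ∧
      (∀ t, IsJump τ t → ∃ r : ℚ, (r : ℝ) = t) ∧
      (∀ s t, 0 ≤ s → s ≤ t → (∀ u, IsJump τ u → u ≤ s ∨ t < u) → τ s = τ t) ∧
      ∃ r : ℚ, (r : ℝ) = sSup {t : ℝ | 0 ≤ t ∧ τ t = ⊤} := by
  classical
  have hp : p.Prime := Fact.out
  have hcomp : CompactSpace X := QuasiCompact.compactSpace_of_compactSpace s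
  obtain ⟨m, Z', hm, hZZ', hZ0', hZ'⟩ := exists_locPrincipal hZ0 hZ
  have hm' : (0 : ℝ) < m := by exact_mod_cast hm
  have hm0 : (m : ℝ) ≠ 0 := hm'.ne'
  choose σ h1 h2 h3 h4 using fun U : Aff X =>
    jumping_affine k p s hn hF D hD hnum hm hZZ' hZ0' hZ' U.2.1
  let τ : ℝ → ∀ U : Aff X, Ideal Γ(X, U.1) := fun t U => σ U t
  have hmono : ∀ (U : Aff X) (s t : ℝ), 0 ≤ s → s ≤ t → τ t U ≤ τ s U := by
    intro U a b ha hab
    have h5 := (isTau_iff hn U.2.1 p _ _).1 (h1 U a ha)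
    have h6 := (isTau_iff hn U.2.1 p _ _).1 (h1 U b (ha.trans hab))
    refine isTestIdeal_anti hp ?_ h5 h6
    intro P
    have h7 : (0 : ℝ) ≤ Z P.1 := by exact_mod_cast hZ0 P.1
    exact mul_le_mul_of_nonneg_right hab h7
  have hloc : ∀ t, 0 ≤ t → ∀ (U W : Aff X) (f : Γ(X, U.1)) (_ : W.1 = X.basicOpen f)
      (hle : W.1 ≤ U.1), τ t W = (τ t U).map (X.presheaf.map (homOfLE hle).op).hom := by
    rintro t ht U ⟨W, hW1, hW2⟩ f hWf hle
    simp only at hWf
    subst hWf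
    have hU : IsAffineOpen U.1 := U.2.1
    let : Algebra k Γ(X, U.1) := (structMap s U.1).toAlgebra
    have hft : Algebra.FiniteType k Γ(X, U.1) := finiteType_structMap s U.1 hU
    have hfr := functionField_isFractionRing_of_isAffineOpen X U.1 hU
    obtain ⟨κ, hκ⟩ := exists_traceMap k p (krullData_affine X hn U.1 hU)
      (isCanonical_of_scheme hn hU s hD)
    have hU' : Nonempty (X.basicOpen f) := hW2
    exact (testIdeal_basicOpen X k p hn U.1 hU f hW1 (stronglyFRegular_of_scheme hn hU hF) hκ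
      (finite_support_of_locPrincipal hn hU hZ') hZ0' (div_nonneg ht hm'.le)
      ((isTau_div_iff hn hm hZZ' hU t _).1 (h1 U t ht))
      ((isTau_div_iff hn hm hZZ' hW1 t _).1 (h1 ⟨X.basicOpen f, hW1, hW2⟩ t ht))).symm
  obtain ⟨g1, g2, g3, g4⟩ := global_jump τ hmono hloc h2 h3 h4
  let S : ℝ → X.IdealSheafData := fun t =>
    if ht : 0 ≤ t then sheafOf (τ t) (hloc t ht) else ⊥
  have hS : ∀ t (ht : 0 ≤ t), S t = sheafOf (τ t) (hloc t ht) := fun t ht => dif_pos ht
  have hSideal : ∀ t (ht : 0 ≤ t) (U : X.affineOpens) (hU : Nonempty U.1),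
      (S t).ideal U = τ t ⟨U.1, U.2, hU⟩ := by
    intro t ht U hU
    rw [hS t ht]
    exact sheafOf_ideal _ _ U hU
  have hSeq : ∀ a b, 0 ≤ a → 0 ≤ b → (S a = S b ↔ τ a = τ b) := by
    intro a b ha hb
    constructor
    · intro h
      funext U
      have h5 := hSideal a ha ⟨U.1, U.2.1⟩ U.2.2
      have h6 := hSideal b hb ⟨U.1, U.2.1⟩ U.2.2
      rw [h] at h5
      exact h5.symm.trans h6
    · intro h
      refine Scheme.IdealSheafData.ext ?_
      funext U
      by_cases hU : Nonempty U.1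
      · rw [hSideal a ha U hU, hSideal b hb U hU, h]
      · exact ideal_eq_of_isEmpty hU _ _
  have hjump : ∀ t, IsJump S t ↔ IsJump τ t := by
    intro t
    constructor
    · rintro ⟨ht, h⟩
      refine ⟨ht, fun ε hε hεt h5 => h ε hε hεt ?_⟩
      exact (hSeq _ _ ht.le (sub_nonneg.2 hεt)).2 h5
    · rintro ⟨ht, h⟩
      refine ⟨ht, fun ε hε hεt h5 => h ε hε hεt ?_⟩
      exact (hSeq _ _ ht.le (sub_nonneg.2 hεt)).1 h5
  refine ⟨S, ?_, ?_, ?_, ?_, ?_⟩
  · intro t ht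
    have hX : Nonempty X := inferInstance
    obtain ⟨x₀⟩ := hX
    obtain ⟨_, ⟨U₀, hU₀, rfl⟩, hxU₀, -⟩ := X.isBasis_affineOpens.exists_subset_of_mem_open
      (Set.mem_univ x₀) isOpen_univ
    refine ⟨⟨?_, ?_⟩, ?_⟩
    · intro h5
      have h6 := hSideal t ht ⟨U₀, hU₀⟩ ⟨⟨x₀, hxU₀⟩⟩
      rw [h5] at h6
      exact (h1 ⟨U₀, hU₀, ⟨⟨x₀, hxU₀⟩⟩⟩ t ht).1.1 h6.symm
    · intro U hU
      rw [hSideal t ht U hU]
      exact (h1 ⟨U.1, U.2, hU⟩ t ht).1.2
    · rintro I ⟨hI0, hI⟩ U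
      by_cases hU : Nonempty U.1
      · rw [hSideal t ht U hU]
        exact (h1 ⟨U.1, U.2, hU⟩ t ht).2 ⟨ideal_ne_bot hI0 U hU, hI U hU⟩
      · exact (ideal_eq_of_isEmpty hU _ _).le
  · intro M
    simp only [hjump]
    exact g1 M
  · intro t ht
    exact g2 t ((hjump t).1 ht)
  · intro a b ha hab hu
    rw [hSeq a b ha (ha.trans hab)]
    exact g3 a b ha hab (fun u hu' => hu u ((hjump u).2 hu'))
  · obtain ⟨r, hr⟩ := g4
    refine ⟨r, hr.trans ?_⟩
    congr 1
    ext t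
    simp only [Set.mem_ofPred_eq, and_congr_right_iff]
    intro ht
    constructor
    · intro h
      refine Scheme.IdealSheafData.ext ?_
      funext U
      by_cases hU : Nonempty U.1
      · rw [hSideal t ht U hU, h]
        rfl
      · exact ideal_eq_of_isEmpty hU _ _
    · intro h U
      have h5 := hSideal t ht ⟨U.1, U.2.1⟩ U.2.2
      rw [h] at h5
      exact h5.symm

end FJ
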