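import Pool.Agent.Lib.MP_400390_ag.DualBasis

/-!
# Frobenius of polynomial rings over a perfect field has a finite dual basis
-/

namespace FJ

open scoped BigOperators
open Polynomial

theorem FrobDB.of_ringEquiv {q : ℕ} {A B : Type*} [CommRing A] [CommRing B] (e : A ≃+* B)
    (h : FrobDB q A) : FrobDB q B := by
  obtain ⟨n, μ, g, hg, hs⟩ := h
  refine ⟨n, fun i => e (μ i),
    fun i => (e : A →+* B).toAddMonoidHom.comp ((g i).comp (e.symm : B →+* A).toAddMonoidHom),
    ?_, ?_⟩
  · intro i a b
    simp [hg]
  · intro a
    have := congrArg e (hs (e.symm a))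
    simpa using this

theorem FrobDB.of_fintype {A κ : Type*} [CommRing A] [Fintype κ] {q : ℕ}
    (μ : κ → A) (g : κ → A →+ A) (hg : ∀ i a b, g i (a ^ q * b) = a * g i b)
    (hs : ∀ a, a = ∑ i, (g i a) ^ q * μ i) : FrobDB q A := by
  classical
  let e := (Fintype.equivFin κ).symm
  refine ⟨Fintype.card κ, μ ∘ e, g ∘ e, fun i => hg _, ?_⟩
  intro a
  conv_lhs => rw [hs a]
  exact (Equiv.sum_comp e (fun i => (g i a) ^ q * μ i)).symm

theorem FrobDB.field (k : Type*) [Field k] (p : ℕ) [Fact p.Prime] [CharP k p] [PerfectField k]
    (e : ℕ) : FrobDB (p ^ e) k := by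
  have : ExpChar k p := ExpChar.prime Fact.out
  have : PerfectRing k p := PerfectField.toPerfectRing p
  refine FrobDB.of_fintype (κ := Unit) (fun _ => 1)
    (fun _ => ((iterateFrobeniusEquiv k p e).symm : k →+* k).toAddMonoidHom) ?_ ?_
  · intro _ a b
    have : (iterateFrobeniusEquiv k p e).symm (a ^ p ^ e) = a := by
      rw [RingEquiv.symm_apply_eq]
      exact (iterateFrobeniusEquiv_apply k p e a).symm
    simp [map_mul, this, -map_pow]
  · intro a
    simp only [Finset.univ_unique, Finset.sum_singleton, mul_one]
    have := iterateFrobeniusEquiv_apply k p e ((iterateFrobeniusEquiv k p e).symm a)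
    rw [RingEquiv.apply_symm_apply] at this
    exact this

theorem FrobDB.polynomial {A : Type*} [CommRing A] {p e : ℕ} [Fact p.Prime] [CharP A p]
    (h : FrobDB (p ^ e) A) : FrobDB (p ^ e) A[X] := by
  have : ExpChar A p := ExpChar.prime Fact.out
  obtain ⟨n, μ, g, hg, hs⟩ := h
  set q := p ^ e with hq
  have hq0 : 0 < q := pow_pos (Nat.Prime.pos Fact.out) _
  -- the coefficient functionals
  let G0 : Fin n → Fin q → A[X] → A[X] := fun i j P =>
    ∑ m ∈ Finset.range (P.natDegree + 1), monomial m (g i (P.coeff (q * m + j)))
  have hG0 : ∀ i j P m, (G0 i j P).coeff m = g i (P.coeff (q * m + j)) := by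
    intro i j P m
    simp only [G0, finsetSum_coeff, coeff_monomial]
    rw [Finset.sum_ite_eq' (Finset.range (P.natDegree + 1)) m]
    split_ifs with hm
    · rfl
    · have : P.natDegree < q * m + j := by
        have h1 : P.natDegree < m := by
          have := Finset.mem_range.not.1 hm
          omega
        have h2 : m ≤ q * m := Nat.le_mul_of_pos_left m hq0
        omega
      rw [coeff_eq_zero_of_natDegree_lt this, map_zero]
  let G : Fin n → Fin q → A[X] →+ A[X] := fun i j =>
    { toFun := G0 i j
      map_zero' := by
        ext m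
        rw [hG0, coeff_zero, map_zero, coeff_zero]
      map_add' := by
        intro P Q
        ext m
        rw [coeff_add, hG0, hG0, hG0, coeff_add, map_add] }
  have hG : ∀ i j P m, (G i j P).coeff m = g i (P.coeff (q * m + j)) := hG0
  have hmon : ∀ i j (l : ℕ) (a : A), G i j (monomial l a) =
      if l % q = j then monomial (l / q) (g i a) else 0 := by
    intro i j l a
    ext m
    rw [hG, coeff_monomial]
    have hj := j.2
    by_cases h1 : l = q * m + j
    · have h2 : l % q = j := by
        rw [h1, Nat.mul_add_mod, Nat.mod_eq_of_lt hj]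
      have h3 : l / q = m := by
        rw [h1, Nat.mul_add_div hq0, Nat.div_eq_of_lt hj, add_zero]
      rw [if_pos h1, if_pos h2, h3, coeff_monomial, if_pos rfl]
    · rw [if_neg h1, map_zero]
      split_ifs with h2
      · rw [coeff_monomial, if_neg]
        intro h3
        apply h1
        rw [← h3, ← h2, Nat.div_add_mod]
      · rw [coeff_zero]
  refine FrobDB.of_fintype (κ := Fin n × Fin q) (fun t => C (μ t.1) * X ^ (t.2 : ℕ))
    (fun t => G t.1 t.2) ?_ ?_
  · rintro ⟨i, j⟩ P Q
    simp only
    induction Q using Polynomial.induction_on' with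
    | add Q₁ Q₂ h1 h2 => rw [mul_add, map_add, h1, h2, map_add, mul_add]
    | monomial l b =>
      induction P using Polynomial.induction_on' with
      | add P₁ P₂ h1 h2 =>
        have h3 : (P₁ + P₂) ^ q = P₁ ^ q + P₂ ^ q := by
          rw [hq]
          exact add_pow_expChar_pow P₁ P₂ p e
        rw [h3, add_mul, map_add, h1, h2, add_mul]
      | monomial r a =>
        rw [monomial_pow, monomial_mul_monomial, hmon, hmon]
        have h1 : (r * q + l) % q = l % q := by
          rw [add_comm, Nat.add_mul_mod_self_right]
        have h2 : (r * q + l) / q = r + l / q := by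
          rw [add_comm, Nat.add_mul_div_right _ _ hq0, add_comm]
        rw [h1]
        split_ifs with h3
        · rw [monomial_mul_monomial, hg, h2]
        · rw [mul_zero]
  · intro P
    rw [Fintype.sum_prod_type]
    simp only
    induction P using Polynomial.induction_on' with
    | add P₁ P₂ h1 h2 =>
      conv_lhs => rw [h1, h2]
      rw [← Finset.sum_add_distrib]
      refine Finset.sum_congr rfl fun i _ => ?_
      rw [← Finset.sum_add_distrib]
      refine Finset.sum_congr rfl fun j _ => ?_
      rw [map_add]
      have h3 : ((G i j) P₁ + (G i j) P₂) ^ q = (G i j) P₁ ^ q + (G i j) P₂ ^ q := by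
        rw [hq]
        exact add_pow_expChar_pow _ _ p e
      rw [h3, add_mul]
    | monomial l a =>
      have h1 : ∀ i, ∑ j : Fin q, (G i j (monomial l a)) ^ q * (C (μ i) * X ^ (j : ℕ)) =
          monomial l ((g i a) ^ q * μ i) := by
        intro i
        rw [Finset.sum_eq_single (⟨l % q, Nat.mod_lt _ hq0⟩ : Fin q)]
        · rw [hmon, if_pos rfl, monomial_pow, C_mul_X_pow_eq_monomial, monomial_mul_monomial]
          have h2 : l / q * q + l % q = l := by
            rw [mul_comm]
            exact Nat.div_add_mod l q
          simp only [h2]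
        · intro j _ hj
          rw [hmon, if_neg, zero_pow hq0.ne', zero_mul]
          intro h2
          apply hj
          ext
          exact h2.symm
        · intro h2
          exact (h2 (Finset.mem_univ _)).elim
      rw [Finset.sum_congr rfl fun i _ => h1 i, ← map_sum, ← hs a]

theorem FrobDB.mvPolynomial (k : Type*) [Field k] (p : ℕ) [Fact p.Prime] [CharP k p]
    [PerfectField k] (e d : ℕ) : FrobDB (p ^ e) (MvPolynomial (Fin d) k) := by
  induction d with
  | zero =>
    exact FrobDB.of_ringEquiv (MvPolynomial.isEmptyRingEquiv k (Fin 0)).symm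
      (FrobDB.field k p e)
  | succ d ih =>
    exact FrobDB.of_ringEquiv (MvPolynomial.finSuccEquiv k d).toRingEquiv.symm
      (FrobDB.polynomial ih)

end FJ
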