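import Pool.Agent.Lib.MP_400390_ag.TestIdeal

/-!
# Gauge boundedness

(module B of MP_400390_ag, part 3)
-/

open MvPolynomial

namespace FJ

open scoped BigOperators

section gauge

variable {k K : Type*} [Field k] [Field K] [Algebra k K] {d n : ℕ}

/-- elements of degree at most `D`. -/
def VV (ρ : MvPolynomial (Fin d) k →ₐ[k] K) (w : Fin n → K) (D : ℕ) : Submodule k K :=
  Submodule.span k (Set.image2 (fun (β : Fin d →₀ ℕ) (i : Fin n) => ρ (monomial β 1) * w i)
    {β | β.degree ≤ D} Set.univ)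

variable (ρ : MvPolynomial (Fin d) k →ₐ[k] K) (w : Fin n → K)

theorem VV_finite (D : ℕ) : Module.Finite k (VV ρ w D) := by
  rw [VV]
  exact Module.Finite.span_of_finite k
    (Set.Finite.image2 _ (Finsupp.finite_of_degree_le D) Set.finite_univ)

theorem VV_mono {D D' : ℕ} (h : D ≤ D') : VV ρ w D ≤ VV ρ w D' := by
  apply Submodule.span_mono
  rintro _ ⟨β, hβ, i, hi, rfl⟩
  have hβ' : β.degree ≤ D := hβ
  exact ⟨β, hβ'.trans h, i, hi, rfl⟩

theorem mul_VV {D m : ℕ} {a : MvPolynomial (Fin d) k} (ha : a.totalDegree ≤ m) {x : K}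
    (hx : x ∈ VV ρ w D) : ρ a * x ∈ VV ρ w (D + m) := by
  induction hx using Submodule.span_induction with
  | mem x hx =>
    obtain ⟨β, hβ, i, -, rfl⟩ := hx
    rw [a.as_sum, map_sum, Finset.sum_mul]
    refine Submodule.sum_mem _ fun γ hγ => ?_
    have hγm : γ.degree ≤ m := le_trans (le_totalDegree hγ) ha
    have h1 : ρ (monomial γ (coeff γ a)) * (ρ (monomial β 1) * w i) =
        coeff γ a • (ρ (monomial (γ + β) 1) * w i) := by
      rw [← mul_assoc, ← map_mul, monomial_mul, mul_one, Algebra.smul_def, ← mul_assoc,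
        ← AlgHom.commutes ρ, ← map_mul, algebraMap_eq, C_mul_monomial, mul_one]
    simp only
    rw [h1]
    refine Submodule.smul_mem _ _ (Submodule.subset_span ⟨γ + β, ?_, i, trivial, rfl⟩)
    have h2 : β.degree ≤ D := hβ
    simp only [Set.mem_ofPred_eq, map_add]
    omega
  | zero => simp
  | add x y _ _ hx hy => rw [mul_add]; exact add_mem hx hy
  | smul c x _ hx => rw [mul_smul_comm]; exact Submodule.smul_mem _ _ hx

theorem gen_mem_VV (a : MvPolynomial (Fin d) k) (i : Fin n) :
    ρ a * w i ∈ VV ρ w a.totalDegree := by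
  have h1 : w i ∈ VV ρ w 0 := by
    refine Submodule.subset_span ⟨0, by simp, i, trivial, ?_⟩
    have : (monomial 0 (1 : k) : MvPolynomial (Fin d) k) = 1 := rfl
    simp [this]
  have := mul_VV ρ w (le_refl a.totalDegree) h1
  rwa [zero_add] at this

/-- `p`-division of exponents. -/
theorem exp_div {p : ℕ} (hp : 0 < p) (β : Fin d →₀ ℕ) : ∃ β' α : Fin d →₀ ℕ,
    β = p • β' + α ∧ p * β'.degree ≤ β.degree ∧ α.degree ≤ d * p := by
  classical
  refine ⟨Finsupp.equivFunOnFinite.symm fun j => β j / p,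
    Finsupp.equivFunOnFinite.symm fun j => β j % p, ?_, ?_, ?_⟩
  · ext j
    simp [Nat.div_add_mod]
  · rw [Finsupp.degree_eq_sum, Finsupp.degree_eq_sum, Finset.mul_sum]
    refine Finset.sum_le_sum fun j _ => ?_
    rw [Finsupp.equivFunOnFinite_symm_apply_apply]
    exact Nat.mul_div_le _ _
  · rw [Finsupp.degree_eq_sum]
    calc ∑ j, (Finsupp.equivFunOnFinite.symm fun j => β j % p) j ≤ ∑ _j : Fin d, p := by
          refine Finset.sum_le_sum fun j _ => ?_
          rw [Finsupp.equivFunOnFinite_symm_apply_apply]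
          exact (Nat.mod_lt _ hp).le
      _ = d * p := by simp

variable {p : ℕ} {κ : K →+ K}

/-- contraction -/
theorem contraction (hp : p.Prime) [CharP k p] [PerfectField k] (hκ : IsPL p κ) (C : Finset K)
    (hC : ∀ c ∈ C, ∀ D, ∀ x ∈ VV ρ w D, ∃ D', κ (c * x) ∈ VV ρ w D') :
    ∃ M : ℕ, ∀ c ∈ C, ∀ D, ∀ x ∈ VV ρ w D, κ (c * x) ∈ VV ρ w (D / p + M) := by
  classical
  have : Fact p.Prime := ⟨hp⟩
  have : ExpChar k p := ExpChar.prime hp
  have : PerfectRing k p := PerfectField.toPerfectRing p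
  have hfin := Finsupp.finite_of_degree_le (σ := Fin d) (d * p)
  set B := hfin.toFinset with hB
  -- the bound
  have h1 : ∀ c ∈ C, ∀ α : Fin d →₀ ℕ, ∀ i : Fin n, ∃ D',
      κ (c * (ρ (monomial α 1) * w i)) ∈ VV ρ w D' := fun c hc α i =>
    hC c hc _ _ (gen_mem_VV ρ w (monomial α 1) i)
  choose! F hF using h1
  refine ⟨∑ c ∈ C, ∑ α ∈ B, ∑ i, F c α i, ?_⟩
  intro c hc D x hx
  induction hx using Submodule.span_induction with
  | mem x hx =>
    obtain ⟨β, hβ, i, -, rfl⟩ := hx
    obtain ⟨β', α, rfl, hβ', hα⟩ := exp_div hp.pos β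
    have h2 : κ (c * (ρ (monomial (p • β' + α) 1) * w i)) =
        ρ (monomial β' 1) * κ (c * (ρ (monomial α 1) * w i)) := by
      rw [← hκ, ← map_pow, monomial_pow, one_pow]
      congr 1
      have : (monomial (p • β' + α) (1 : k)) = monomial (p • β') 1 * monomial α 1 := by
        rw [monomial_mul, mul_one]
      rw [this, map_mul]
      ring
    simp only
    rw [h2, add_comm]
    have hβD : (p • β' + α).degree ≤ D := hβ
    have h3 : β'.degree ≤ D / p := by
      rw [Nat.le_div_iff_mul_le hp.pos, mul_comm]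
      exact hβ'.trans hβD
    refine mul_VV ρ w ((totalDegree_monomial_le _ _).trans h3) ?_
    refine VV_mono ρ w ?_ (hF c hc α i)
    have hαB : α ∈ B := by simpa [hB] using hα
    calc F c α i ≤ ∑ i, F c α i :=
          Finset.single_le_sum (f := fun i => F c α i) (fun _ _ => Nat.zero_le _)
            (Finset.mem_univ i)
      _ ≤ ∑ α ∈ B, ∑ i, F c α i :=
          Finset.single_le_sum (f := fun α => ∑ i, F c α i) (fun _ _ => Nat.zero_le _) hαB
      _ ≤ _ := Finset.single_le_sum (f := fun c => ∑ α ∈ B, ∑ i, F c α i)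
            (fun _ _ => Nat.zero_le _) hc
  | zero => simp
  | add x y _ _ hx hy => rw [mul_add, map_add]; exact add_mem hx hy
  | smul a x _ hx =>
    obtain ⟨b, hb⟩ := (PerfectRing.bijective_frobenius (R := k) (p := p)).2 a
    simp only at hb
    have h4 : κ (c * a • x) = b • κ (c * x) := by
      rw [Algebra.smul_def, Algebra.smul_def, ← hb, map_pow, ← hκ]
      congr 1
      ring
    rw [h4]
    exact Submodule.smul_mem _ _ hx

/-- `M` is generated by its elements of degree at most `D`. -/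
def Good (D : ℕ) (M : Set K) : Prop :=
  ∀ x ∈ M, x ∈ AddSubgroup.closure {y | ∃ (a : MvPolynomial (Fin d) k) (v : K), v ∈ M ∧
    v ∈ VV ρ w D ∧ y = ρ a * v}

variable {R : Type*} [CommRing R] [Algebra R K]

theorem Good.img_scale (hp : p.Prime) [CharP k p] [PerfectField k] (hκ : IsPL p κ)
    (hρ : ∀ a, ∃ r : R, algebraMap R K r = ρ a) {c : K} {C D : ℕ}
    (hc : ∀ D, ∀ x ∈ VV ρ w D, κ (c * x) ∈ VV ρ w (D / p + C))
    (hD : (D + d * p) / p + C ≤ D) {M : Submodule R K} (hM : Good ρ w D (M : Set K))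
    {N : Submodule R K} (hN : ∀ y, y ∈ N ↔ ∃ x ∈ M, κ (c * x) = y) :
    Good ρ w D (N : Set K) := by
  classical
  have : Fact p.Prime := ⟨hp⟩
  have : ExpChar k p := ExpChar.prime hp
  have : PerfectRing k p := PerfectField.toPerfectRing p
  intro y hy
  obtain ⟨x, hx, rfl⟩ := (hN y).1 hy
  have hx' := hM x hx
  clear hy hx
  induction hx' using AddSubgroup.closure_induction with
  | mem x hx =>
    obtain ⟨a, v, hvM, hvD, rfl⟩ := hx
    rw [a.as_sum, map_sum, Finset.sum_mul, Finset.mul_sum, map_sum]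
    refine sum_mem fun γ hγ => ?_
    obtain ⟨b, hb⟩ := (PerfectRing.bijective_frobenius (R := k) (p := p)).2 (coeff γ a)
    simp only at hb
    obtain ⟨β', α, hγ', -, hα⟩ := exp_div hp.pos γ
    have h1 : (monomial γ (coeff γ a)) = monomial β' b ^ p * monomial α 1 := by
      rw [monomial_pow, monomial_mul, mul_one, ← hγ', ← hb]
    have h2 : κ (c * (ρ (monomial γ (coeff γ a)) * v)) =
        ρ (monomial β' b) * κ (c * (ρ (monomial α 1) * v)) := by
      rw [← hκ, h1, map_mul ρ, map_pow ρ]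
      congr 1
      ring
    rw [h2]
    refine AddSubgroup.subset_closure ⟨monomial β' b, κ (c * (ρ (monomial α 1) * v)), ?_, ?_, rfl⟩
    · obtain ⟨r, hr⟩ := hρ (monomial α 1)
      refine (hN _).2 ⟨_, ?_, rfl⟩
      rw [← hr, ← Algebra.smul_def]
      exact M.smul_mem _ hvM
    · refine VV_mono ρ w hD (hc _ _ ?_)
      exact mul_VV ρ w ((totalDegree_monomial_le _ _).trans hα) hvD
  | zero => simp
  | add x y _ _ hx hy => rw [mul_add, map_add]; exact add_mem hx hy
  | neg x _ hx => rw [mul_neg, map_neg]; exact neg_mem hx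

theorem Good.iSup {D : ℕ} {J : Sort*} {M : J → Submodule R K}
    (hM : ∀ j, Good ρ w D (M j : Set K)) : Good ρ w D ((⨆ j, M j : Submodule R K) : Set K) := by
  intro x hx
  have hx' : x ∈ ⨆ j, M j := hx
  clear hx
  induction hx' using Submodule.iSup_induction' with
  | mem j x hx =>
    refine AddSubgroup.closure_mono ?_ (hM j x hx)
    rintro y ⟨a, v, hv, hvD, rfl⟩
    exact ⟨a, v, (le_iSup M j) hv, hvD, rfl⟩
  | zero => simp
  | add x y _ _ hx hy => exact add_mem hx hy

/-- Good submodules are determined by their elements of degree at most `D`. -/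
theorem Good.le {D : ℕ} (hρ : ∀ a, ∃ r : R, algebraMap R K r = ρ a) {M N : Submodule R K}
    (hM : Good ρ w D (M : Set K)) (hMN : ∀ v ∈ M, v ∈ VV ρ w D → v ∈ N) : M ≤ N := by
  intro x hx
  have hx' := hM x hx
  clear hx
  induction hx' using AddSubgroup.closure_induction with
  | mem x hx =>
    obtain ⟨a, v, hvM, hvD, rfl⟩ := hx
    obtain ⟨r, hr⟩ := hρ a
    rw [← hr, ← Algebra.smul_def]
    exact N.smul_mem _ (hMN v hvM hvD)
  | zero => exact N.zero_mem
  | add x y _ _ hx hy => exact N.add_mem hx hy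
  | neg x _ hx => exact N.neg_mem hx

/-- A chain of good submodules is finite. -/
theorem finite_of_chain {D : ℕ} (hρ : ∀ a, ∃ r : R, algebraMap R K r = ρ a)
    (hkR : ∀ c : k, ∃ r : R, algebraMap R K r = algebraMap k K c)
    (𝒯 : Set (Submodule R K)) (hgood : ∀ M ∈ 𝒯, Good ρ w D (M : Set K))
    (hchain : ∀ M ∈ 𝒯, ∀ N ∈ 𝒯, M ≤ N ∨ N ≤ M) : 𝒯.Finite := by
  classical
  have hfin := VV_finite ρ w D
  -- trace on `V D`
  let tr : Submodule R K → Submodule k (VV ρ w D) := fun M =>
    { carrier := {x | (x : K) ∈ M}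
      zero_mem' := M.zero_mem
      add_mem' := fun ha hb => M.add_mem ha hb
      smul_mem' := by
        intro c x hx
        obtain ⟨r, hr⟩ := hkR c
        have : ((c • x : VV ρ w D) : K) = r • (x : K) := by
          rw [Algebra.smul_def, hr, ← Algebra.smul_def]
          rfl
        change ((c • x : VV ρ w D) : K) ∈ M
        rw [this]
        exact M.smul_mem _ hx }
  have htr : ∀ M ∈ 𝒯, ∀ N ∈ 𝒯, Module.finrank k (tr M) = Module.finrank k (tr N) → M ≤ N → N ≤ M := by
    intro M hM N hN heq hle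
    have h1 : tr M ≤ tr N := fun x hx => hle hx
    have h2 : tr M = tr N := Submodule.eq_of_le_of_finrank_eq h1 heq
    refine Good.le ρ w hρ (hgood N hN) ?_
    intro v hv hvD
    have h3 : (⟨v, hvD⟩ : VV ρ w D) ∈ tr N := hv
    rw [← h2] at h3
    exact h3
  refine Set.Finite.of_injOn (f := fun M => Module.finrank k (tr M))
    (t := Set.Iic (Module.finrank k (VV ρ w D))) ?_ ?_ (Set.finite_Iic _)
  · intro M hM
    exact Submodule.finrank_le _
  · intro M hM N hN heq
    rcases hchain M hM N hN with h | h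
    · exact le_antisymm h (htr M hM N hN heq h)
    · exact le_antisymm (htr N hN M hM heq.symm h) h

end gauge

end FJ
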