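import Pool.Agent.Lib.MP_400390_ag.FrobPoly
import Pool.Agent.Lib.MP_400390_ag.TestDefs

/-!
# Every `p^(-e)`-linear map is `τ (c ·)`
-/

namespace FJ

open scoped BigOperators

/-- dimension count -/
theorem gen_of_spanning {K : Type*} [Field K] {p e : ℕ} [Fact p.Prime] [CharP K p]
    (hs : ∃ (n : ℕ) (s : Fin n → K), ∀ x : K, ∃ c : Fin n → K, x = ∑ i, c i ^ p ^ e * s i)
    {τ : K →+ K} (hτ : IsPL (p ^ e) τ) (hτ0 : τ ≠ 0) {φ : K →+ K} (hφ : IsPL (p ^ e) φ) :
    ∃ c : K, ∀ x, φ x = τ (c * x) := by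
  classical
  have : ExpChar K p := ExpChar.prime Fact.out
  obtain ⟨n, s, hs⟩ := hs
  let F := (iterateFrobenius K p e).fieldRange
  have hF : ∀ a : K, a ^ p ^ e ∈ F := fun a => ⟨a, iterateFrobenius_def p e a⟩
  have hfin : Module.Finite F K := by
    refine ⟨⟨Finset.univ.image s, ?_⟩⟩
    rw [eq_top_iff]
    rintro x -
    obtain ⟨c, hc⟩ := hs x
    rw [hc]
    refine Submodule.sum_mem _ fun i _ => ?_
    have h1 : c i ^ p ^ e * s i = (⟨c i ^ p ^ e, hF (c i)⟩ : F) • s i := rfl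
    rw [h1]
    exact Submodule.smul_mem _ _ (Submodule.subset_span (by simp))
  let b := Module.finBasis F K
  set m := Module.finrank F K with hm
  -- coordinates
  have hcoord : ∀ x : K, ∃ c : Fin m → K, x = ∑ i, c i ^ p ^ e * b i := by
    intro x
    have h1 : ∀ i, ∃ c : K, c ^ p ^ e = (b.repr x i : K) := by
      intro i
      obtain ⟨c, hc⟩ := (b.repr x i).2
      exact ⟨c, by rw [← iterateFrobenius_def p e c]; exact hc⟩
    choose c hc using h1
    refine ⟨c, ?_⟩
    conv_lhs => rw [← b.sum_repr x]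
    refine Finset.sum_congr rfl fun i _ => ?_
    rw [hc]
    rfl
  have hindep : ∀ c : Fin m → K, ∑ i, c i ^ p ^ e * b i = 0 → c = 0 := by
    intro c hc
    have h1 := Fintype.linearIndependent_iff.1 b.linearIndependent
      (fun i => (⟨c i ^ p ^ e, hF (c i)⟩ : F)) hc
    funext i
    have h2 := congrArg Subtype.val (h1 i)
    exact pow_eq_zero_iff (pow_ne_zero _ (Nat.Prime.ne_zero Fact.out)) |>.1 h2
  have hτs : ∀ (χ : K →+ K), IsPL (p ^ e) χ → ∀ (c : Fin m → K) (y : K),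
      χ ((∑ i, c i ^ p ^ e * b i) * y) = ∑ i, c i * χ (b i * y) := by
    intro χ hχ c y
    rw [Finset.sum_mul, map_sum]
    refine Finset.sum_congr rfl fun i _ => ?_
    rw [mul_assoc, hχ]
  let M : Matrix (Fin m) (Fin m) K := fun i j => τ (b i * b j)
  have hdet : M.det ≠ 0 := by
    intro hdet
    obtain ⟨v, hv0, hv⟩ := Matrix.exists_vecMul_eq_zero_iff.2 hdet
    set c := ∑ i, v i ^ p ^ e * b i with hc
    have hc0 : c ≠ 0 := fun h0 => hv0 (hindep v h0)
    have h1 : ∀ j, τ (c * b j) = 0 := by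
      intro j
      rw [hc, hτs τ hτ]
      exact congrFun hv j
    have h2 : ∀ x, τ (c * x) = 0 := by
      intro x
      obtain ⟨d, hd⟩ := hcoord x
      rw [hd, mul_comm, hτs τ hτ]
      refine Finset.sum_eq_zero fun i _ => ?_
      rw [mul_comm (b i), h1, mul_zero]
    apply hτ0
    ext x
    have := h2 (c⁻¹ * x)
    rw [mul_inv_cancel_left₀ hc0] at this
    simpa using this
  have hunit : IsUnit M.det := isUnit_iff_ne_zero.2 hdet
  set v : Fin m → K := Matrix.vecMul (fun j => φ (b j)) M⁻¹ with hv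
  have hvM : Matrix.vecMul v M = fun j => φ (b j) := by
    rw [hv, Matrix.vecMul_vecMul, Matrix.nonsing_inv_mul _ hunit, Matrix.vecMul_one]
  refine ⟨∑ i, v i ^ p ^ e * b i, fun x => ?_⟩
  have h1 : ∀ j, τ ((∑ i, v i ^ p ^ e * b i) * b j) = φ (b j) := by
    intro j
    rw [hτs τ hτ]
    exact congrFun hvM j
  obtain ⟨d, hd⟩ := hcoord x
  have h2 : φ x = ∑ i, d i * φ (b i) := by
    have := hτs φ hφ d 1
    rw [mul_one, ← hd] at this
    simpa using this
  rw [h2]
  conv_rhs => rw [hd, mul_comm, hτs τ hτ]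
  refine Finset.sum_congr rfl fun i _ => ?_
  rw [mul_comm (b i), h1]

/-- `K` is finite over `K^q`. -/
theorem exists_spanning' (k : Type*) [Field k] [PerfectField k] (p : ℕ) [Fact p.Prime] [CharP k p]
    (R K : Type*) [CommRing R] [IsDomain R] [Algebra k R] [Algebra.FiniteType k R] [Field K]
    [Algebra R K] [IsFractionRing R K] [CharP K p] (e : ℕ) :
    ∃ (n : ℕ) (s : Fin n → K), ∀ x : K, ∃ c : Fin n → K, x = ∑ i, c i ^ p ^ e * s i := by
  classical
  have : ExpChar K p := ExpChar.prime Fact.out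
  obtain ⟨d, ψ, hψ, hfin⟩ := exists_finite_inj_algHom_of_fg k R
  obtain ⟨l, μ, g, hg, hgs⟩ := FrobDB.mvPolynomial k p e d
  obtain ⟨W, hW⟩ : ∃ W : Finset R, ∀ r : R, ∃ c : R → MvPolynomial (Fin d) k,
      r = ∑ w ∈ W, ψ (c w) * w := by
    let _ := ψ.toRingHom.toAlgebra
    have hfin : Module.Finite (MvPolynomial (Fin d) k) R := hfin
    obtain ⟨W, hW⟩ := hfin.fg_top
    refine ⟨W, fun r => ?_⟩
    have hr : r ∈ Submodule.span (MvPolynomial (Fin d) k) (W : Set R) := hW ▸ Submodule.mem_top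
    obtain ⟨c, -, hc⟩ := Submodule.mem_span_finset.1 hr
    exact ⟨c, hc.symm⟩
  have hq0 : p ^ e ≠ 0 := pow_ne_zero _ (Nat.Prime.ne_zero Fact.out)
  have key : ∀ x : K, ∃ c : W × Fin l → K,
      x = ∑ t, c t ^ p ^ e * algebraMap R K (ψ (μ t.2) * t.1) := by
    intro x
    obtain ⟨r, s, hs, hrs⟩ := IsFractionRing.div_surjective (A := R) x
    have hs0 : algebraMap R K s ≠ 0 := by
      rw [Ne, IsFractionRing.to_map_eq_zero_iff]
      exact nonZeroDivisors.ne_zero hs
    obtain ⟨c, hc⟩ := hW (r * s ^ (p ^ e - 1))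
    refine ⟨fun t => algebraMap R K (ψ (g t.2 (c t.1))) / algebraMap R K s, ?_⟩
    have h2 : x = algebraMap R K (r * s ^ (p ^ e - 1)) / algebraMap R K s ^ p ^ e := by
      rw [← hrs, map_mul, map_pow, div_eq_div_iff hs0 (pow_ne_zero _ hs0)]
      have : algebraMap R K s ^ p ^ e = algebraMap R K s ^ (p ^ e - 1) * algebraMap R K s := by
        rw [← pow_succ, Nat.sub_add_cancel (Nat.pos_of_ne_zero hq0)]
      rw [this]
      ring
    rw [h2, div_eq_iff (pow_ne_zero _ hs0), hc, Finset.sum_mul, Fintype.sum_prod_type, map_sum,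
      ← Finset.sum_coe_sort W]
    refine Finset.sum_congr rfl fun w _ => ?_
    have h3 : ψ (c w) = ∑ i, ψ (g i (c w)) ^ p ^ e * ψ (μ i) := by
      conv_lhs => rw [hgs (c w)]
      rw [map_sum]
      refine Finset.sum_congr rfl fun i _ => ?_
      rw [map_mul, map_pow]
    rw [h3, Finset.sum_mul, map_sum]
    refine Finset.sum_congr rfl fun i _ => ?_
    rw [div_pow, mul_assoc, map_mul, map_pow]
    field_simp
  let E := (Fintype.equivFin (W × Fin l)).symm
  refine ⟨Fintype.card (W × Fin l), fun i => algebraMap R K (ψ (μ (E i).2) * (E i).1), ?_⟩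
  intro x
  obtain ⟨c, hc⟩ := key x
  refine ⟨c ∘ E, ?_⟩
  conv_lhs => rw [hc]
  exact (Equiv.sum_comp E
    (fun t => c t ^ p ^ e * algebraMap R K (ψ (μ t.2) * t.1))).symm

end FJ
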