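import Pool.Agent.Lib.MP_400390_ag.Torsion

/-!
# Norms, valuations and integral dependence

From sections on a generically finite cover to `AsymptoticallyCartier` downstairs.
-/

namespace FJ

open scoped BigOperators
open Polynomial

section integral

variable {R Ω : Type*} [CommRing R] [Field Ω] [Algebra R Ω]

/-- Elements of the subring generated by `R` and the `a i / z` have bounded denominators. -/
theorem exists_pow_mul_mem {κ : Type*} (a : κ → Ω) {z : Ω} (hz : z ≠ 0) {b : Ω}
    (hb : b ∈ Subring.closure (Set.range (algebraMap R Ω) ∪ Set.range fun i => a i / z)) :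
    ∃ N : ℕ, z ^ N * b ∈ (Submodule.span R (Set.range a) ⊔ Submodule.span R {z}) ^ N := by
  set Q := Submodule.span R (Set.range a) ⊔ Submodule.span R {z} with hQ
  have hzQ : z ∈ Q := (le_sup_right : _ ≤ Q) (Submodule.mem_span_singleton_self z)
  have hmono : ∀ {b : Ω} {N N' : ℕ}, N ≤ N' → z ^ N * b ∈ Q ^ N → z ^ N' * b ∈ Q ^ N' := by
    intro b N N' hNN' hb
    obtain ⟨m, rfl⟩ := Nat.exists_eq_add_of_le hNN'
    rw [pow_add, pow_add, mul_right_comm]
    exact Submodule.mul_mem_mul hb (Submodule.pow_mem_pow _ hzQ m)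
  induction hb using Subring.closure_induction with
  | mem x hx =>
    rcases hx with ⟨r, rfl⟩ | ⟨i, rfl⟩
    · refine ⟨0, ?_⟩
      rw [pow_zero, pow_zero, one_mul]
      exact Submodule.algebraMap_mem r
    · refine ⟨1, ?_⟩
      rw [pow_one, pow_one, mul_div_cancel₀ _ hz]
      exact (le_sup_left : _ ≤ Q) (Submodule.subset_span ⟨i, rfl⟩)
  | zero => exact ⟨0, by simp⟩
  | one =>
    refine ⟨0, ?_⟩
    rw [pow_zero, pow_zero, one_mul]
    exact Submodule.one_le.1 le_rfl
  | add x y _ _ hx hy =>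
    obtain ⟨N, hN⟩ := hx
    obtain ⟨N', hN'⟩ := hy
    refine ⟨max N N', ?_⟩
    rw [mul_add]
    exact Submodule.add_mem _ (hmono (le_max_left _ _) hN) (hmono (le_max_right _ _) hN')
  | neg x _ hx =>
    obtain ⟨N, hN⟩ := hx
    refine ⟨N, ?_⟩
    rw [mul_neg]
    exact Submodule.neg_mem _ hN
  | mul x y _ _ hx hy =>
    obtain ⟨N, hN⟩ := hx
    obtain ⟨N', hN'⟩ := hy
    refine ⟨N + N', ?_⟩
    rw [pow_add, pow_add, mul_mul_mul_comm]
    exact Submodule.mul_mem_mul hN hN'

/-- Valuative criterion of integral dependence on the submodule spanned by the `a i`. -/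
theorem exists_pow_mem_of_valuations {κ : Type*} (a : κ → Ω) {z : Ω} (hz : z ≠ 0)
    (H : ∀ V : ValuationSubring Ω, (∀ r : R, algebraMap R Ω r ∈ V) →
      ∃ i, a i ≠ 0 ∧ z / a i ∈ V) :
    ∃ N : ℕ, z ^ (N + 1) ∈ Submodule.span R (Set.range a) *
      (Submodule.span R (Set.range a) ⊔ Submodule.span R {z}) ^ N := by
  set M := Submodule.span R (Set.range a) with hM
  set Q := M ⊔ Submodule.span R {z} with hQ
  have hzQ : z ∈ Q := (le_sup_right : _ ≤ Q) (Submodule.mem_span_singleton_self z)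
  set B := Subring.closure (Set.range (algebraMap R Ω) ∪ Set.range fun i => a i / z) with hB
  have haB : ∀ i, a i / z ∈ B := fun i => Subring.subset_closure (Or.inr ⟨i, rfl⟩)
  let I : Ideal B := Ideal.span (Set.range fun i => (⟨a i / z, haB i⟩ : B))
  have hI : I = ⊤ := by
    by_contra hI
    obtain ⟨V, hBV, hIV⟩ := Ideal.image_subset_nonunits_valuationSubring I hI
    obtain ⟨i, hi0, hi⟩ := H V fun r => hBV (Subring.subset_closure (Or.inl ⟨r, rfl⟩))
    have h1 : a i / z ∈ V.nonunits := hIV ⟨⟨a i / z, haB i⟩, Ideal.subset_span ⟨i, rfl⟩, rfl⟩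
    have h2 : (z / a i)⁻¹ ∈ V.nonunits := by rwa [inv_div]
    rcases V.inv_mem_nonunits_iff.1 h2 with h3 | h3
    · exact (div_ne_zero hz hi0) h3
    · exact h3 hi
  have key : ∀ b ∈ I, ∃ N : ℕ, z ^ (N + 1) * (b : Ω) ∈ M * Q ^ N := by
    intro b hb
    have hmono : ∀ {b : Ω} {N N' : ℕ}, N ≤ N' → z ^ (N + 1) * b ∈ M * Q ^ N →
        z ^ (N' + 1) * b ∈ M * Q ^ N' := by
      intro b N N' hNN' hb
      obtain ⟨m, rfl⟩ := Nat.exists_eq_add_of_le hNN'
      have h1 : z ^ (N + m + 1) * b = z ^ (N + 1) * b * z ^ m := by ring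
      rw [h1, pow_add, ← mul_assoc]
      exact Submodule.mul_mem_mul hb (Submodule.pow_mem_pow _ hzQ m)
    induction hb using Submodule.span_induction with
    | mem x hx =>
      obtain ⟨i, rfl⟩ := hx
      refine ⟨0, ?_⟩
      have h1 : z ^ (0 + 1) * (a i / z) = a i := by
        rw [zero_add, pow_one, mul_div_cancel₀ _ hz]
      simp only [h1, pow_zero, mul_one]
      exact Submodule.subset_span ⟨i, rfl⟩
    | zero => exact ⟨0, by simp⟩
    | add x y _ _ hx hy =>
      obtain ⟨N, hN⟩ := hx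
      obtain ⟨N', hN'⟩ := hy
      refine ⟨max N N', ?_⟩
      rw [Subring.coe_add, mul_add]
      exact Submodule.add_mem _ (hmono (le_max_left _ _) hN) (hmono (le_max_right _ _) hN')
    | smul c x _ hx =>
      obtain ⟨N, hN⟩ := hx
      obtain ⟨N', hN'⟩ := exists_pow_mul_mem (R := R) a hz c.2
      refine ⟨N + N', ?_⟩
      have h1 : z ^ (N + N' + 1) * ((c • x : B) : Ω) = z ^ (N + 1) * (x : Ω) * (z ^ N' * (c : Ω)) := by
        rw [smul_eq_mul, Subring.coe_mul]
        ring
      rw [h1, pow_add, ← mul_assoc]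
      exact Submodule.mul_mem_mul hN hN'
  obtain ⟨N, hN⟩ := key 1 (hI ▸ Submodule.mem_top)
  refine ⟨N, ?_⟩
  simpa using hN

theorem pow_sup_le (M : Submodule R Ω) (z : Ω) (n : ℕ) :
    (M ⊔ Submodule.span R {z}) ^ (n + 1) ≤
      M * (M ⊔ Submodule.span R {z}) ^ n ⊔ Submodule.span R {z ^ (n + 1)} := by
  induction n with
  | zero => simp
  | succ n ih =>
    set Q := M ⊔ Submodule.span R {z} with hQ
    calc Q ^ (n + 1 + 1) = Q * Q ^ (n + 1) := by rw [pow_succ']
      _ = M * Q ^ (n + 1) ⊔ Submodule.span R {z} * Q ^ (n + 1) := by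
        rw [hQ, Submodule.sup_mul]
      _ ≤ M * Q ^ (n + 1) ⊔ Submodule.span R {z ^ (n + 1 + 1)} := by
        refine sup_le le_sup_left ?_
        refine (mul_le_mul' le_rfl ih).trans ?_
        rw [Submodule.mul_sup]
        refine sup_le ?_ ?_
        · refine le_trans ?_ le_sup_left
          rw [← mul_assoc, mul_comm (Submodule.span R {z}) M, mul_assoc]
          refine mul_le_mul' le_rfl ?_
          rw [pow_succ']
          exact mul_le_mul' le_sup_right le_rfl
        · refine le_trans ?_ le_sup_right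
          rw [Submodule.span_mul_span, Set.singleton_mul_singleton, ← pow_succ']

theorem pow_succ_le_of_mem {M : Submodule R Ω} {z : Ω} {N : ℕ}
    (h : z ^ (N + 1) ∈ M * (M ⊔ Submodule.span R {z}) ^ N) (l : ℕ) :
    (M ⊔ Submodule.span R {z}) ^ (N + l) ≤ M ^ l * (M ⊔ Submodule.span R {z}) ^ N := by
  set Q := M ⊔ Submodule.span R {z} with hQ
  have h1 : Q ^ (N + 1) ≤ M * Q ^ N := by
    refine (pow_sup_le M z N).trans (sup_le le_rfl ?_)
    rw [Submodule.span_singleton_le_iff_mem]
    exact h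
  induction l with
  | zero => simp
  | succ l ih =>
    calc Q ^ (N + (l + 1)) = Q ^ (N + l) * Q := by rw [← add_assoc, pow_succ]
      _ ≤ M ^ l * Q ^ N * Q := mul_le_mul' ih le_rfl
      _ = M ^ l * Q ^ (N + 1) := by rw [mul_assoc, ← pow_succ]
      _ ≤ M ^ l * (M * Q ^ N) := mul_le_mul' le_rfl h1
      _ = M ^ (l + 1) * Q ^ N := by rw [← mul_assoc, ← pow_succ]

/-- If `z` is integral over the submodule `M ⊆ R`, then `b * z ^ l ∈ M ^ l` for a fixed `b ≠ 0`. -/
theorem exists_mul_pow_mem {κ : Type*} (a : κ → Ω) {z : Ω} (hz : z ≠ 0)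
    (H : ∀ V : ValuationSubring Ω, (∀ r : R, algebraMap R Ω r ∈ V) →
      ∃ i, a i ≠ 0 ∧ z / a i ∈ V)
    (ha : ∀ i, a i ∈ (1 : Submodule R Ω)) (hz1 : z ∈ (1 : Submodule R Ω)) :
    ∃ N : ℕ, ∀ l : ℕ, z ^ N * z ^ l ∈ (Submodule.span R (Set.range a)) ^ l := by
  obtain ⟨N, hN⟩ := exists_pow_mem_of_valuations a hz H
  refine ⟨N, fun l => ?_⟩
  have h1 := pow_succ_le_of_mem hN l
  have hQ : Submodule.span R (Set.range a) ⊔ Submodule.span R {z} ≤ 1 := by
    refine sup_le (Submodule.span_le.2 ?_) ((Submodule.span_singleton_le_iff_mem _ _).2 hz1)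
    rintro _ ⟨i, rfl⟩
    exact ha i
  have hQN : (Submodule.span R (Set.range a) ⊔ Submodule.span R {z}) ^ N ≤ 1 := by
    calc _ ≤ (1 : Submodule R Ω) ^ N := pow_le_pow_left' hQ N
      _ = 1 := one_pow N
  have h2 : z ^ (N + l) ∈ (Submodule.span R (Set.range a) ⊔ Submodule.span R {z}) ^ (N + l) :=
    Submodule.pow_mem_pow _
      ((le_sup_right : _ ≤ Submodule.span R (Set.range a) ⊔ Submodule.span R {z})
        (Submodule.mem_span_singleton_self z)) _
  have h3 := h1 h2
  rw [pow_add] at h3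
  have h4 : (Submodule.span R (Set.range a)) ^ l *
      (Submodule.span R (Set.range a) ⊔ Submodule.span R {z}) ^ N ≤
        (Submodule.span R (Set.range a)) ^ l := by
    calc _ ≤ (Submodule.span R (Set.range a)) ^ l * 1 := mul_le_mul' le_rfl hQN
      _ = _ := mul_one _
  exact h4 h3

end integral

section generic

variable {k K' : Type*} [Field k] [Field K'] [Algebra k K']

/-- The combination `∑ t ^ i * x i`. -/
def comb {a : ℕ} (x : Fin a → K') (t : k) : K' := ∑ i : Fin a, algebraMap k K' t ^ (i : ℕ) * x i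

/-- For all but finitely many `t ∈ k`, the combination `∑ t ^ i * x i` has minimal value at `V`. -/
theorem finite_bad (V : ValuationSubring K') (hk : ∀ t : k, algebraMap k K' t ∈ V) {a : ℕ}
    (x : Fin a → K') (hx : ∀ i, x i ≠ 0) :
    {t : k | ¬ ∀ i, comb x t ≠ 0 ∧ x i / comb x t ∈ V}.Finite := by
  classical
  rcases Nat.eq_zero_or_pos a with rfl | ha
  · have : {t : k | ¬ ∀ i : Fin 0, comb x t ≠ 0 ∧ x i / comb x t ∈ V} = ∅ := by
      ext t
      simp
    rw [this]
    exact Set.finite_empty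
  have : Nonempty (Fin a) := ⟨⟨0, ha⟩⟩
  obtain ⟨i0, hi0⟩ : ∃ i0, ∀ i, x i / x i0 ∈ V := by
    obtain ⟨i0, hi0⟩ := Finite.exists_max (fun i => V.valuation (x i))
    refine ⟨i0, fun i => ?_⟩
    rw [← V.valuation_le_one_iff, map_div₀]
    exact div_le_one_of_le₀ (hi0 i) zero_le
  let u : Fin a → V := fun i => ⟨x i / x i0, hi0 i⟩
  let kV : k →+* V := (algebraMap k K').codRestrict V.toSubring hk
  let res : V →+* IsLocalRing.ResidueField V := IsLocalRing.residue V
  let P : (IsLocalRing.ResidueField V)[X] := ∑ i : Fin a, monomial (i : ℕ) (res (u i))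
  have hP0 : P ≠ 0 := by
    intro h0
    have h1 := congrArg (fun Q => Q.coeff (i0 : ℕ)) h0
    simp only [P, finsetSum_coeff, coeff_monomial, coeff_zero] at h1
    rw [Finset.sum_eq_single i0] at h1
    · rw [if_pos rfl] at h1
      have h2 : u i0 = 1 := by
        ext
        exact div_self (hx i0)
      rw [h2, map_one] at h1
      exact one_ne_zero h1
    · intro j _ hj
      rw [if_neg]
      intro h2
      exact hj (Fin.ext h2)
    · intro h2
      exact (h2 (Finset.mem_univ _)).elim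
  have hinj : Function.Injective (res.comp kV) := (res.comp kV).injective
  have hfin : {t : k | (res.comp kV) t ∈ P.roots.toFinset}.Finite :=
    (P.roots.toFinset.finite_toSet).preimage hinj.injOn
  refine hfin.subset ?_
  intro t ht
  by_contra hcon
  apply ht
  have hev : P.eval ((res.comp kV) t) ≠ 0 := by
    intro h0
    apply hcon
    simp only [Set.mem_ofPred_eq, Multiset.mem_toFinset]
    exact (mem_roots hP0).2 h0
  let w : V := ∑ i : Fin a, kV t ^ (i : ℕ) * u i
  have hw : res w = P.eval ((res.comp kV) t) := by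
    simp only [w, P, map_sum, eval_finsetSum, eval_monomial, map_mul, map_pow,
      RingHom.comp_apply]
    exact Finset.sum_congr rfl fun i _ => mul_comm _ _
  have hwunit : IsUnit w := by
    by_contra hw0
    apply hev
    rw [← hw]
    exact (IsLocalRing.residue_eq_zero_iff w).2 ((IsLocalRing.mem_maximalIdeal w).2 hw0)
  have hcomb : comb x t = x i0 * (w : K') := by
    simp only [comb, w]
    rw [AddSubmonoidClass.coe_finsetSum, Finset.mul_sum]
    refine Finset.sum_congr rfl fun i _ => ?_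
    have h1 : ((kV t ^ (i : ℕ) * u i : V) : K') =
        algebraMap k K' t ^ (i : ℕ) * (x i / x i0) := rfl
    rw [h1]
    field_simp [hx i0]
  obtain ⟨w', hw'⟩ := hwunit.exists_right_inv
  have hww : (w : K') * (w' : K') = 1 := by
    have := congrArg (fun v : V => (v : K')) hw'
    exact this
  have hw0 : (w : K') ≠ 0 := left_ne_zero_of_mul_eq_one hww
  intro i
  refine ⟨by rw [hcomb]; exact mul_ne_zero (hx i0) hw0, ?_⟩
  have h1 : x i / comb x t = (x i / x i0) * (w' : K') := by
    rw [hcomb, div_mul_eq_div_div, div_eq_iff hw0, mul_assoc, mul_comm (w' : K'), hww, mul_one]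
  rw [h1]
  exact V.mul_mem _ _ (hi0 i) w'.2

end generic

section norm

variable {K K' Ω : Type*} [Field K] [Field K'] [Field Ω] [Algebra K K'] [Algebra K Ω]
  [FiniteDimensional K K'] [IsAlgClosed Ω]

/-- If all conjugates of `u` lie in the valuation ring `V`, so does its norm. -/
theorem norm_mem (V : ValuationSubring Ω) (u : K')
    (hu : ∀ σ : K' →ₐ[K] Ω, σ u ∈ V) : algebraMap K Ω (Algebra.norm K u) ∈ V := by
  classical
  let A : ValuationSubring K := V.comap (algebraMap K Ω)
  have hint : IsIntegral A u := by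
    have hmonic : (minpoly K u).Monic := minpoly.monic (Algebra.IsIntegral.isIntegral u)
    have hsplit : (minpoly K u).map (algebraMap K Ω) =
        (((minpoly K u).aroots Ω).map fun a => X - C a).prod := by
      have h1 := (IsAlgClosed.splits ((minpoly K u).map (algebraMap K Ω))).eq_prod_roots
      rw [(hmonic.map (algebraMap K Ω)).leadingCoeff, C_1, one_mul] at h1
      exact h1
    have hroots : ∀ ρ ∈ (minpoly K u).aroots Ω, ρ ∈ V := by
      intro ρ hρ
      have h1 : ρ ∈ (minpoly K u).rootSet Ω := by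
        rw [Polynomial.rootSet_def, Finset.mem_coe, Multiset.mem_toFinset]
        exact hρ
      rw [← Algebra.IsAlgebraic.range_eval_eq_rootSet_minpoly Ω u] at h1
      obtain ⟨σ, rfl⟩ := h1
      exact hu σ
    have hlift : (minpoly K u).map (algebraMap K Ω) ∈ Polynomial.lifts V.toSubring.subtype := by
      rw [hsplit]
      refine Subsemiring.multiset_prod_mem _ _ ?_
      intro Q hQ
      obtain ⟨ρ, hρ, rfl⟩ := Multiset.mem_map.1 hQ
      rw [Polynomial.mem_lifts]
      exact ⟨X - C ⟨ρ, hroots ρ hρ⟩, by simp⟩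
    have hcoef : ∀ n, (minpoly K u).coeff n ∈ A := by
      intro n
      rw [Polynomial.lifts_iff_coeff_lifts] at hlift
      obtain ⟨v, hv⟩ := hlift n
      rw [coeff_map] at hv
      change algebraMap K Ω _ ∈ V
      rw [← hv]
      exact v.2
    have hlift' : minpoly K u ∈ Polynomial.lifts (algebraMap A K) := by
      rw [Polynomial.lifts_iff_coeff_lifts]
      intro n
      exact ⟨⟨_, hcoef n⟩, rfl⟩
    obtain ⟨Q, hQ, _, hQm⟩ := Polynomial.lifts_and_natDegree_eq_and_monic hlift' hmonic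
    refine ⟨Q, hQm, ?_⟩
    have h1 : eval₂ (algebraMap A K') u Q = aeval u (Q.map (algebraMap A K)) := by
      rw [aeval_def, eval₂_map]
      rfl
    rw [h1, hQ, minpoly.aeval]
  have h1 : IsIntegral A (Algebra.norm K u) := Algebra.isIntegral_norm K hint
  obtain ⟨w, hw⟩ := IsIntegrallyClosed.isIntegral_iff.1 h1
  have h2 : Algebra.norm K u ∈ A := by
    rw [← hw]
    exact w.2
  exact h2

end norm

section cover

variable {R K ι : Type*} [CommRing R] [Field K] [Algebra R K] {ord : ι → K → ℤ}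

/-- The valuation ring of the prime divisor `P`. -/
def KrullData.valRing (h : KrullData R K ι ord) (P : ι) : ValuationSubring K where
  carrier := {w | w ≠ 0 → 0 ≤ ord P w}
  mul_mem' := by
    intro a b ha hb hab
    have ha0 := left_ne_zero_of_mul hab
    have hb0 := right_ne_zero_of_mul hab
    rw [h.mul P _ _ ha0 hb0]
    exact add_nonneg (ha ha0) (hb hb0)
  one_mem' := fun _ => (h.one P).ge
  add_mem' := by
    intro a b ha hb hab
    by_cases ha0 : a = 0
    · subst ha0
      rw [zero_add] at hab ⊢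
      exact hb hab
    by_cases hb0 : b = 0
    · subst hb0
      rw [add_zero] at hab ⊢
      exact ha hab
    exact le_trans (le_min (ha ha0) (hb hb0)) (h.add P a b ha0 hb0 hab)
  zero_mem' := fun hx => (hx rfl).elim
  neg_mem' := by
    intro a ha ha0
    have ha0' : a ≠ 0 := neg_ne_zero.1 ha0
    have h1 : ord P (-1 : K) = 0 := by
      have h2 := h.mul P (-1) (-1) (by simp) (by simp)
      rw [neg_mul_neg, one_mul, h.one] at h2
      omega
    have h2 : -a = -1 * a := by ring
    rw [h2, h.mul P _ _ (by simp) ha0', h1, zero_add]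
    exact ha ha0'
  mem_or_inv_mem' := by
    intro a
    by_cases ha0 : a = 0
    · left
      intro hx
      exact (hx ha0).elim
    rcases le_total 0 (ord P a) with h1 | h1
    · left
      exact fun _ => h1
    · right
      intro _
      rw [h.inv P ha0]
      omega

theorem KrullData.mem_valRing (h : KrullData R K ι ord) (P : ι) {w : K} :
    w ∈ h.valRing P ↔ (w ≠ 0 → 0 ≤ ord P w) := Iff.rfl

/-- Extension of the valuation ring of `P` to an overfield. -/
theorem KrullData.exists_extension (h : KrullData R K ι ord) (P : ι) (Ω : Type*) [Field Ω]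
    [Algebra K Ω] : ∃ V : ValuationSubring Ω, ∀ w : K, algebraMap K Ω w ∈ V ↔
      (w ≠ 0 → 0 ≤ ord P w) := by
  obtain ⟨t, ht0, ht⟩ := h.unif P
  let A : Subring Ω := (h.valRing P).toSubring.map (algebraMap K Ω)
  have hinj : Function.Injective (algebraMap K Ω) := (algebraMap K Ω).injective
  have htA : algebraMap K Ω t ∈ A := ⟨t, fun _ => by rw [ht]; norm_num, rfl⟩
  let I : Ideal A := Ideal.span {⟨algebraMap K Ω t, htA⟩}
  have hI : I ≠ ⊤ := by
    intro hI
    have h1 := Ideal.span_singleton_eq_top.1 hI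
    obtain ⟨⟨b, hb⟩, hb1⟩ := h1.exists_right_inv
    obtain ⟨w, hw, rfl⟩ := hb
    have h2 : algebraMap K Ω t * algebraMap K Ω w = 1 := congrArg (fun v : A => (v : Ω)) hb1
    rw [← map_mul, ← map_one (algebraMap K Ω)] at h2
    have h3 := hinj h2
    have hw0 : w ≠ 0 := right_ne_zero_of_mul_eq_one h3
    have h4 := h.mul P t w ht0 hw0
    rw [h3, h.one, ht] at h4
    have h5 : 0 ≤ ord P w := hw hw0
    omega
  obtain ⟨V, hAV, hIV⟩ := Ideal.image_subset_nonunits_valuationSubring I hI
  have htV : algebraMap K Ω t ∈ V.nonunits :=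
    hIV ⟨⟨algebraMap K Ω t, htA⟩, Ideal.subset_span rfl, rfl⟩
  refine ⟨V, fun w => ⟨?_, fun hw => hAV ⟨w, hw, rfl⟩⟩⟩
  intro hwV hw0
  by_contra hneg
  push Not at hneg
  have h1 : algebraMap K Ω (w⁻¹ / t) ∈ V := by
    refine hAV ⟨w⁻¹ / t, fun _ => ?_, rfl⟩
    rw [div_eq_mul_inv, h.mul P _ _ (inv_ne_zero hw0) (inv_ne_zero ht0), h.inv P hw0,
      h.inv P ht0, ht]
    omega
  have h2 : (algebraMap K Ω t)⁻¹ ∈ V := by
    have h3 : (algebraMap K Ω t)⁻¹ = algebraMap K Ω w * algebraMap K Ω (w⁻¹ / t) := by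
      rw [← map_mul, ← map_inv₀]
      congr 1
      field_simp
    rw [h3]
    exact V.mul_mem _ _ hwV h1
  have h3 : ((algebraMap K Ω t)⁻¹)⁻¹ ∈ V.nonunits := by rwa [inv_inv]
  rcases V.inv_mem_nonunits_iff.1 h3 with h4 | h4
  · rw [inv_eq_zero, map_eq_zero] at h4
    exact ht0 h4
  · exact h4 h2

theorem KrullData.RD_ne_bot (h : KrullData R K ι ord) {E : ι → ℤ} (hE : {Q | E Q ≠ 0}.Finite) :
    h.RD E ≠ ⊥ := by
  rw [Submodule.ne_bot_iff]
  rcases isEmpty_or_nonempty ι with hι | ⟨⟨P⟩⟩
  · exact ⟨1, fun _ P => (hι.false P).elim, one_ne_zero⟩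
  · obtain ⟨t, ht0, ht⟩ := h.unif P
    have hu : t ^ (-E P) ≠ 0 := zpow_ne_zero _ ht0
    obtain ⟨s, hs0, _, hs⟩ := h.exists_mul_mem P hE (x := t ^ (-E P))
      (fun _ => by rw [h.zpow P ht0, ht]; omega)
    exact ⟨_, hs, mul_ne_zero hs0 hu⟩

end cover

section main

variable (k : Type*) {R K K' ι : Type*} [Field k] [Infinite k] [CommRing R] [IsDomain R]
  [Algebra k R] [Field K] [Algebra R K] [IsFractionRing R K] [Field K'] [Algebra K K']
  [FiniteDimensional K K'] [Algebra R K'] [IsScalarTower R K K'] {ord : ι → K → ℤ}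

include k in
/-- One step: sections upstairs with small common divisor give the power condition downstairs. -/
theorem cover_step (h : KrullData R K ι ord) (D : ι → ℤ) (g : ι → K') (hg0 : ∀ P, g P ≠ 0)
    (hg : ∀ P, ord P (Algebra.norm K (g P)) = D P) {c : R} (hc : c ≠ 0) (n : ℕ) {a b : ℕ}
    (x : Fin a → K') (y : Fin b → K') (hx0 : ∀ i, x i ≠ 0) (hy0 : ∀ j, y j ≠ 0)
    (hP : ∀ P (V : ValuationSubring K'),
      (∀ w : K, algebraMap K K' w ∈ V ↔ (w ≠ 0 → 0 ≤ ord P w)) →
        (∀ i, x i * g P ^ n ∈ V) ∧ ∀ j, y j / g P ^ n ∈ V)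
    (hV : ∀ V : ValuationSubring K', (∀ r : R, algebraMap R K' r ∈ V) →
      ∃ i j, algebraMap R K' c / (x i * y j) ∈ V) :
    ∃ e : K, e ≠ 0 ∧ ∀ l : ℕ, e * algebraMap R K (c ^ (Module.finrank K K' * l)) ∈
      h.RD ((l * n) • D) * h.RD (-((l * n) • D)) := by
  classical
  let : Algebra k K' := ((algebraMap R K').comp (algebraMap k R)).toAlgebra
  have hkK' : ∀ t : k, algebraMap k K' t = algebraMap R K' (algebraMap k R t) := fun _ => rfl
  let Ω := AlgebraicClosure K'
  have hRK : Function.Injective (algebraMap R K) := IsFractionRing.injective R K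
  have hRΩ : ∀ r : R, algebraMap R Ω r = algebraMap K Ω (algebraMap R K r) := fun r =>
    IsScalarTower.algebraMap_apply R K Ω r
  have hRK' : ∀ r : R, algebraMap R K' r = algebraMap K K' (algebraMap R K r) := fun r =>
    IsScalarTower.algebraMap_apply R K K' r
  have hKΩ : Function.Injective (algebraMap K Ω) := (algebraMap K Ω).injective
  set d := Module.finrank K K' with hd
  -- norms of combinations
  have hxmem : ∀ t : k, Algebra.norm K (comb x t) ∈ h.RD (n • D) := by
    intro t hne P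
    obtain ⟨V, hV'⟩ := h.exists_extension P Ω
    have hcomb0 : comb x t ≠ 0 := by
      intro h0
      apply hne
      rw [h0, Algebra.norm_zero]
    have hu : ∀ σ : K' →ₐ[K] Ω, σ (comb x t * g P ^ n) ∈ V := by
      intro σ
      let Vσ : ValuationSubring K' := V.comap (σ : K' →+* Ω)
      have hVσ : ∀ w : K, algebraMap K K' w ∈ Vσ ↔ (w ≠ 0 → 0 ≤ ord P w) := by
        intro w
        rw [← hV']
        change σ (algebraMap K K' w) ∈ V ↔ _
        rw [σ.commutes]
      have h1 := (hP P Vσ hVσ).1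
      have h2 : comb x t * g P ^ n ∈ Vσ := by
        rw [comb, Finset.sum_mul]
        refine sum_mem fun i _ => ?_
        rw [mul_assoc]
        refine Vσ.mul_mem _ _ ?_ (h1 i)
        refine pow_mem ?_ _
        rw [hkK', hRK', hVσ]
        intro hne'
        exact (h.mem _ hne').2 ⟨_, rfl⟩ P
      exact h2
    have h1 := norm_mem V _ hu
    rw [hV', map_mul, map_pow] at h1
    have hg0' : Algebra.norm K (g P) ≠ 0 := Algebra.norm_ne_zero_iff.2 (hg0 P)
    have h2 := h1 (mul_ne_zero hne (pow_ne_zero _ hg0'))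
    rw [h.mul P _ _ hne (pow_ne_zero _ hg0'), h.pow P hg0', hg] at h2
    simp only [Pi.smul_apply, nsmul_eq_mul]
    omega
  have hymem : ∀ t : k, Algebra.norm K (comb y t) ∈ h.RD (-(n • D)) := by
    intro t hne P
    obtain ⟨V, hV'⟩ := h.exists_extension P Ω
    have hcomb0 : comb y t ≠ 0 := by
      intro h0
      apply hne
      rw [h0, Algebra.norm_zero]
    have hu : ∀ σ : K' →ₐ[K] Ω, σ (comb y t / g P ^ n) ∈ V := by
      intro σ
      let Vσ : ValuationSubring K' := V.comap (σ : K' →+* Ω)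
      have hVσ : ∀ w : K, algebraMap K K' w ∈ Vσ ↔ (w ≠ 0 → 0 ≤ ord P w) := by
        intro w
        rw [← hV']
        change σ (algebraMap K K' w) ∈ V ↔ _
        rw [σ.commutes]
      have h1 := (hP P Vσ hVσ).2
      have h2 : comb y t / g P ^ n ∈ Vσ := by
        rw [comb, Finset.sum_div]
        refine sum_mem fun i _ => ?_
        rw [mul_div_assoc]
        refine Vσ.mul_mem _ _ ?_ (h1 i)
        refine pow_mem ?_ _
        rw [hkK', hRK', hVσ]
        intro hne'
        exact (h.mem _ hne').2 ⟨_, rfl⟩ P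
      exact h2
    have h1 := norm_mem V _ hu
    have hg0' : Algebra.norm K (g P) ≠ 0 := Algebra.norm_ne_zero_iff.2 (hg0 P)
    have hnorm : Algebra.norm K (comb y t / g P ^ n) =
        Algebra.norm K (comb y t) * (Algebra.norm K (g P) ^ n)⁻¹ := by
      rw [eq_mul_inv_iff_mul_eq₀ (pow_ne_zero _ hg0'), ← map_pow, ← map_mul,
        div_mul_cancel₀ _ (pow_ne_zero _ (hg0 P))]
    rw [hV', hnorm] at h1
    have h2 := h1 (mul_ne_zero hne (inv_ne_zero (pow_ne_zero _ hg0')))
    rw [h.mul P _ _ hne (inv_ne_zero (pow_ne_zero _ hg0')), h.inv P (pow_ne_zero _ hg0'),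
      h.pow P hg0', hg] at h2
    have h3 : (-(n • D)) P = -(n * D P) := by simp
    rw [h3]
    omega
  -- the elements of `K`
  let aK : k × k → K := fun t => Algebra.norm K (comb x t.1) * Algebra.norm K (comb y t.2)
  have haK : ∀ t, aK t ∈ h.RD (n • D) * h.RD (-(n • D)) := fun t =>
    Submodule.mul_mem_mul (hxmem t.1) (hymem t.2)
  have haK0 : ∀ t, aK t ∈ h.RD 0 := by
    intro t
    have h1 := RD_mul_le h (haK t)
    rwa [add_neg_cancel] at h1
  have hone : ∀ w ∈ h.RD 0, algebraMap K Ω w ∈ (1 : Submodule R Ω) := by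
    intro w hw
    obtain ⟨r, rfl⟩ := h.mem_RD_zero.1 hw
    rw [← hRΩ]
    exact Submodule.algebraMap_mem r
  let z : K := algebraMap R K (c ^ d)
  have hz0 : z ≠ 0 := by
    simp only [z]
    rw [Ne, map_eq_zero_iff _ hRK]
    exact pow_ne_zero _ hc
  have hzΩ : algebraMap K Ω z ≠ 0 := by
    rw [Ne, map_eq_zero]
    exact hz0
  have hval : ∀ V : ValuationSubring Ω, (∀ r : R, algebraMap R Ω r ∈ V) →
      ∃ t, algebraMap K Ω (aK t) ≠ 0 ∧ algebraMap K Ω z / algebraMap K Ω (aK t) ∈ V := by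
    intro V hRV
    have hgood : ∀ {a : ℕ} (x : Fin a → K'), (∀ i, x i ≠ 0) → ∃ t : k, ∀ σ : K' →ₐ[K] Ω, ∀ i,
        comb x t ≠ 0 ∧ x i / comb x t ∈ V.comap (σ : K' →+* Ω) := by
      intro a x hx
      have hfin : (⋃ σ : K' →ₐ[K] Ω, {t : k | ¬ ∀ i, comb x t ≠ 0 ∧
          x i / comb x t ∈ V.comap (σ : K' →+* Ω)}).Finite := by
        refine Set.finite_iUnion fun σ => finite_bad _ ?_ x hx
        intro t
        change σ (algebraMap k K' t) ∈ V
        rw [hkK', hRK', σ.commutes, ← hRΩ]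
        exact hRV _
      obtain ⟨t, ht⟩ := hfin.infinite_compl.nonempty
      refine ⟨t, fun σ => ?_⟩
      by_contra hcon
      exact ht (Set.mem_iUnion.2 ⟨σ, hcon⟩)
    obtain ⟨t, ht⟩ := hgood x hx0
    obtain ⟨t', ht'⟩ := hgood y hy0
    have hVσ : ∀ σ : K' →ₐ[K] Ω, ∃ i j, algebraMap R K' c / (x i * y j) ∈
        V.comap (σ : K' →+* Ω) := by
      intro σ
      refine hV _ fun r => ?_
      change σ (algebraMap R K' r) ∈ V
      rw [hRK', σ.commutes, ← hRΩ]
      exact hRV _
    obtain ⟨σ0⟩ : Nonempty (K' →ₐ[K] Ω) := ⟨IsScalarTower.toAlgHom K K' Ω⟩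
    obtain ⟨i0, j0, -⟩ := hVσ σ0
    have hx0' : comb x t ≠ 0 := (ht σ0 i0).1
    have hy0' : comb y t' ≠ 0 := (ht' σ0 j0).1
    have hNx : Algebra.norm K (comb x t) ≠ 0 := Algebra.norm_ne_zero_iff.2 hx0'
    have hNy : Algebra.norm K (comb y t') ≠ 0 := Algebra.norm_ne_zero_iff.2 hy0'
    refine ⟨(t, t'), ?_, ?_⟩
    · rw [Ne, map_eq_zero]
      exact mul_ne_zero hNx hNy
    · have hu : ∀ σ : K' →ₐ[K] Ω, σ (algebraMap R K' c / (comb x t * comb y t')) ∈ V := by
        intro σ
        obtain ⟨i, j, hij⟩ := hVσ σ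
        have h1 : algebraMap R K' c / (comb x t * comb y t') =
            algebraMap R K' c / (x i * y j) * ((x i / comb x t) * (y j / comb y t')) := by
          have := hx0 i
          have := hy0 j
          field_simp
        have h2 : algebraMap R K' c / (comb x t * comb y t') ∈ V.comap (σ : K' →+* Ω) := by
          rw [h1]
          exact mul_mem hij (mul_mem (ht σ i).2 (ht' σ j).2)
        exact h2
      have h1 := norm_mem V _ hu
      have h2 : algebraMap K Ω (Algebra.norm K (algebraMap R K' c / (comb x t * comb y t'))) =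
          algebraMap K Ω z / algebraMap K Ω (aK (t, t')) := by
        rw [← map_div₀]
        congr 1
        rw [eq_div_iff (mul_ne_zero hNx hNy)]
        rw [← map_mul, ← map_mul, div_mul_cancel₀ _ (mul_ne_zero hx0' hy0'), hRK',
          Algebra.norm_algebraMap, ← hd]
        simp only [z]
        rw [map_pow]
      rw [← h2]
      exact h1
  obtain ⟨N, hN⟩ := exists_mul_pow_mem (R := R) (Ω := Ω) (fun t => algebraMap K Ω (aK t)) hzΩ hval
    (fun t => hone _ (haK0 t)) (hone _ (h.algebraMap_mem_RD_zero _))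
  refine ⟨z ^ N, pow_ne_zero _ hz0, fun l => ?_⟩
  have h1 := hN l
  have hspan : Submodule.span R (Set.range fun t => algebraMap K Ω (aK t)) =
      (Submodule.span R (Set.range aK)).map (IsScalarTower.toAlgHom R K Ω).toLinearMap := by
    rw [Submodule.map_span, ← Set.range_comp]
    rfl
  rw [hspan, ← Submodule.map_pow] at h1
  have h1' : algebraMap K Ω (z ^ N * z ^ l) ∈
      (Submodule.span R (Set.range aK) ^ l).map (IsScalarTower.toAlgHom R K Ω).toLinearMap := by
    rw [map_mul, map_pow, map_pow]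
    exact h1
  obtain ⟨w, hw, hw'⟩ := h1'
  have hw'' : w = z ^ N * z ^ l := hKΩ hw'
  rw [hw''] at hw
  have h2 : Submodule.span R (Set.range aK) ≤ h.RD (n • D) * h.RD (-(n • D)) := by
    rw [Submodule.span_le]
    rintro _ ⟨t, rfl⟩
    exact haK t
  have hRDpow : ∀ (E : ι → ℤ), h.RD E ^ l ≤ h.RD (l • E) := by
    intro E
    clear hw h1 hw'' hw'
    induction l with
    | zero =>
      rw [pow_zero, zero_smul, Submodule.one_le]
      exact h.mem_RD_zero.2 ⟨1, by simp⟩
    | succ l ih =>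
      rw [pow_succ, succ_nsmul]
      exact (mul_le_mul' ih le_rfl).trans (RD_mul_le h)
  have h3 : Submodule.span R (Set.range aK) ^ l ≤
      h.RD ((l * n) • D) * h.RD (-((l * n) • D)) := by
    refine (pow_le_pow_left' h2 l).trans ?_
    rw [mul_pow]
    have e1 : (l * n) • D = l • (n • D) := by rw [smul_smul]
    have e2 : -((l * n) • D) = l • (-(n • D)) := by rw [smul_neg, smul_smul]
    rw [e1, ← e1, e2, e1]
    exact mul_le_mul' (hRDpow _) (hRDpow _)
  have h4 : z ^ l = algebraMap R K (c ^ (d * l)) := by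
    simp only [z]
    rw [← map_pow, ← pow_mul]
  rw [← h4]
  exact h3 hw

include k in
/-- **Module G2.**  Sections upstairs with common divisors that are small compared with the
multiple give that the pushforward divisor is asymptotically Cartier. -/
theorem asymptoticallyCartier_of_cover (h : KrullData R K ι ord) (D : ι → ℤ)
    (hDfin : {P | D P ≠ 0}.Finite) (g : ι → K') (hg0 : ∀ P, g P ≠ 0)
    (hg : ∀ P, ord P (Algebra.norm K (g P)) = D P) {c : R} (hc : c ≠ 0)
    (H : ∀ m : ℕ, 0 < m → ∃ N : ℕ, 0 < N ∧ ∃ (a b : ℕ) (x : Fin a → K') (y : Fin b → K'),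
      (∀ i, x i ≠ 0) ∧ (∀ j, y j ≠ 0) ∧
      (∀ P (V : ValuationSubring K'),
        (∀ w : K, algebraMap K K' w ∈ V ↔ (w ≠ 0 → 0 ≤ ord P w)) →
          (∀ i, x i * g P ^ (N * m) ∈ V) ∧ ∀ j, y j / g P ^ (N * m) ∈ V) ∧
      ∀ V : ValuationSubring K', (∀ r : R, algebraMap R K' r ∈ V) →
        ∃ i j, algebraMap R K' (c ^ N) / (x i * y j) ∈ V) :
    AsymptoticallyCartier h D := by
  classical
  have hRK : Function.Injective (algebraMap R K) := IsFractionRing.injective R K
  have hcK : algebraMap R K c ≠ 0 := by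
    rw [Ne, map_eq_zero_iff _ hRK]
    exact hc
  set d := Module.finrank K K' with hd
  have hd0 : 0 < d := Module.finrank_pos
  refine ⟨algebraMap R K c, h.algebraMap_mem_RD_zero c, hcK, fun q hq => ?_⟩
  obtain ⟨N, hN0, a, b, x, y, hx0, hy0, hP, hV⟩ := H (d * q) (Nat.mul_pos hd0 hq)
  obtain ⟨e, he0, he⟩ := cover_step k h D g hg0 hg (pow_ne_zero N hc) (N * (d * q)) x y hx0 hy0
    hP hV
  set n := N * (d * q) with hn
  have hn0 : 0 < n := Nat.mul_pos hN0 (Nat.mul_pos hd0 hq)
  -- nonzero elements of the products for small remainders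
  have hfin : ∀ r : ℕ, {P | (r • D) P ≠ 0}.Finite := by
    intro r
    refine hDfin.subset ?_
    intro P hP
    simp only [Set.mem_ofPred_eq, Pi.smul_apply] at hP ⊢
    intro h0
    exact hP (by rw [h0, smul_zero])
  have hfin' : ∀ r : ℕ, {P | (-(r • D)) P ≠ 0}.Finite := by
    intro r
    refine (hfin r).subset ?_
    intro P hP
    simpa using hP
  have hrem : ∀ r : ℕ, ∃ f : R, f ≠ 0 ∧
      algebraMap R K f ∈ h.RD (r • D) * h.RD (-(r • D)) := by
    intro r
    obtain ⟨u, hu, hu0⟩ := (Submodule.ne_bot_iff _).1 (h.RD_ne_bot (hfin r))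
    obtain ⟨v, hv, hv0⟩ := (Submodule.ne_bot_iff _).1 (h.RD_ne_bot (hfin' r))
    have h1 : u * v ∈ h.RD 0 := by
      have := h.mul_mem_RD hu hv
      rwa [add_neg_cancel] at this
    obtain ⟨f, hf⟩ := h.mem_RD_zero.1 h1
    refine ⟨f, ?_, ?_⟩
    · rintro rfl
      rw [map_zero] at hf
      exact mul_ne_zero hu0 hv0 hf.symm
    · rw [hf]
      exact Submodule.mul_mem_mul hu hv
  choose f hf0 hf using hrem
  refine ⟨e * algebraMap R K (∏ r ∈ Finset.range n, f r), ?_, fun n' => ?_⟩
  · refine mul_ne_zero he0 ?_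
    rw [Ne, map_eq_zero_iff _ hRK]
    exact Finset.prod_ne_zero_iff.2 fun r _ => hf0 r
  · set l := n' / n with hl
    set r := n' % n with hr
    have hn' : n' = l * n + r := by
      rw [hl, hr, mul_comm]
      exact (Nat.div_add_mod n' n).symm
    have hr' : r ∈ Finset.range n := Finset.mem_range.2 (Nat.mod_lt _ hn0)
    have hle : N * (d * l) ≤ n' / q := by
      rw [Nat.le_div_iff_mul_le hq]
      calc N * (d * l) * q = l * n := by rw [hn]; ring
        _ ≤ n' := by omega
    obtain ⟨w, hw⟩ := Nat.exists_eq_add_of_le hle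
    have h1 := Submodule.mul_mem_mul (he l) (hf r)
    have h2 : h.RD ((l * n) • D) * h.RD (-((l * n) • D)) * (h.RD (r • D) * h.RD (-(r • D))) ≤
        h.RD (n' • D) * h.RD (-(n' • D)) := by
      rw [mul_mul_mul_comm]
      refine mul_le_mul' ?_ ?_
      · refine (RD_mul_le h).trans (le_of_eq ?_)
        rw [← add_smul, ← hn']
      · refine (RD_mul_le h).trans (le_of_eq ?_)
        rw [← neg_add, ← add_smul, ← hn']
    have h3 := h2 h1
    have h4 : e * algebraMap R K (∏ r ∈ Finset.range n, f r) * algebraMap R K c ^ (n' / q) =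
        ((∏ r ∈ (Finset.range n).erase r, f r) * c ^ w) •
          (e * algebraMap R K ((c ^ N) ^ (d * l)) * algebraMap R K (f r)) := by
      rw [Algebra.smul_def, hw, ← Finset.mul_prod_erase _ _ hr']
      simp only [map_mul, map_pow]
      ring
    rw [h4]
    exact Submodule.smul_mem _ _ h3

end main

end FJ
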