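import Pool.Agent.Lib.MP_400390_ag.Ample
import Pool.Agent.Lib.MP_400390_ag.KrullScheme
import Pool.Agent.Lib.MP_400390_ag.Norms
import Pool.Agent.Lib.MP_400390_ag.FinalDefs

/-!
# Numerically trivial divisors on alterations give asymptotically Cartier divisors
-/

namespace FJ

open AlgebraicGeometry CategoryTheory

universe u

section

variable {X Y : Scheme.{u}} [IsIntegral X] [IsIntegral Y] (π : Y ⟶ X)

theorem map_genericPoint (hs : Surjective π) : π (genericPoint Y) = genericPoint X := by
  obtain ⟨y, hy⟩ := hs.surj (genericPoint X)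
  have h1 : π (genericPoint Y) ⤳ genericPoint X := by
    rw [← hy]
    exact ((genericPoint_spec Y).specializes trivial).map π.continuous
  have h2 : genericPoint X ⤳ π (genericPoint Y) := (genericPoint_spec X).specializes trivial
  exact (h1.antisymm h2).eq

variable {π}

theorem generic_mem (h : π (genericPoint Y) = genericPoint X) (U : X.Opens) [Nonempty U] :
    genericPoint Y ∈ π ⁻¹ᵁ U := by
  have h1 : genericPoint X ∈ U :=
    ((genericPoint_spec X).mem_open_set_iff U.isOpen).mpr
      (by simpa using (inferInstance : Nonempty U))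
  have h2 : π (genericPoint Y) ∈ U := by rw [h]; exact h1
  exact h2

theorem pullFun_eq_ffMap (h : π (genericPoint Y) = genericPoint X) (U : X.Opens) [Nonempty U]
    (r : Γ(X, U)) :
    pullFun π U (generic_mem h U) r = ffMap π h (algebraMap Γ(X, U) X.functionField r) := by
  have hX : genericPoint X ∈ U :=
    ((genericPoint_spec X).mem_open_set_iff U.isOpen).mpr
      (by simpa using (inferInstance : Nonempty U))
  have hη : π (genericPoint Y) ∈ U := generic_mem h U
  have h1 : X.presheaf.germ U (genericPoint X) hX ≫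
      (X.presheaf.stalkSpecializes (specializes_of_eq h) ≫ π.stalkMap (genericPoint Y)) =
      π.app U ≫ Y.presheaf.germ (π ⁻¹ᵁ U) (genericPoint Y) (generic_mem h U) := by
    rw [← Category.assoc, X.presheaf.germ_stalkSpecializes]
    exact Scheme.Hom.germ_stalkMap π U _ hη
  exact (congrArg (fun z => z.hom r) h1).symm

theorem ffMap_finite (h : π (genericPoint Y) = genericPoint X)
    (hfin : (π.stalkMap (genericPoint Y)).hom.Finite) : (ffMap π h).Finite := by
  have h1 : (X.presheaf.stalkSpecializes (specializes_of_eq h)).hom.Finite := by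
    refine RingHom.Finite.of_surjective _ ?_
    intro a
    refine ⟨(X.presheaf.stalkSpecializes (specializes_of_eq h.symm)).hom a, ?_⟩
    have h2 : X.presheaf.stalkSpecializes (specializes_of_eq h.symm) ≫
        X.presheaf.stalkSpecializes (specializes_of_eq h) = 𝟙 _ := by
      rw [X.presheaf.stalkSpecializes_comp]
      exact X.presheaf.stalkSpecializes_refl _
    exact congrArg (fun z => z.hom a) h2
  exact hfin.comp h1

omit [IsIntegral X] in
theorem isUnit_germ_iff {U : X.Opens} (hU : IsAffineOpen U) (z : U) (r : Γ(X, U)) :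
    IsUnit (X.presheaf.germ U z z.2 r) ↔ r ∉ (hU.primeIdealOf z).asIdeal := by
  have hloc : IsLocalization.AtPrime (X.presheaf.stalk (z : X)) (hU.primeIdealOf z).asIdeal :=
    hU.isLocalization_stalk z
  exact IsLocalization.AtPrime.isUnit_to_map_iff (X.presheaf.stalk (z : X))
    (hU.primeIdealOf z).asIdeal r

omit [IsIntegral X] in
theorem algebraMap_stalkMap_germ {U : X.Opens} (hη : genericPoint Y ∈ π ⁻¹ᵁ U) (y : Y)
    (hy : π y ∈ U) (r : Γ(X, U)) :
    algebraMap (Y.presheaf.stalk y) Y.functionField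
      ((π.stalkMap y).hom (X.presheaf.germ U (π y) hy r)) = pullFun π U hη r := by
  have h1 : X.presheaf.germ U (π y) hy ≫ π.stalkMap y =
      π.app U ≫ Y.presheaf.germ (π ⁻¹ᵁ U) y hy := Scheme.Hom.germ_stalkMap π U y hy
  have h2 : (π.stalkMap y).hom (X.presheaf.germ U (π y) hy r) =
      Y.presheaf.germ (π ⁻¹ᵁ U) y hy ((π.app U).hom r) := congrArg (fun z => z.hom r) h1
  rw [h2]
  have h3 : Y.presheaf.germ (π ⁻¹ᵁ U) y hy ≫
      Y.presheaf.stalkSpecializes ((genericPoint_spec Y).specializes trivial) =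
      Y.presheaf.germ (π ⁻¹ᵁ U) (genericPoint Y) hη := Y.presheaf.germ_stalkSpecializes _ _
  exact congrArg (fun z => z.hom ((π.app U).hom r)) h3

/-- The image of the center of a valuation ring lying over the prime divisor `x` is `x`. -/
theorem center_image [IsLocallyNoetherian X] (hn : ∀ x : X, IsIntegrallyClosed (X.presheaf.stalk x))
    (h : π (genericPoint Y) = genericPoint X) {U : X.Opens} (hU : IsAffineOpen U) [Nonempty U]
    {x : X} (hxU : x ∈ U) (hx : Order.coheight x = 1) (V : ValuationSubring Y.functionField)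
    (hV : ∀ w : X.functionField, ffMap π h w ∈ V ↔ (w ≠ 0 → 0 ≤ Scheme.ord w x)) {y : Y}
    (hyU : π y ∈ U)
    (hy1 : ∀ a : Y.presheaf.stalk y, algebraMap (Y.presheaf.stalk y) Y.functionField a ∈ V)
    (hy2 : ∀ a : Y.presheaf.stalk y, ¬ IsUnit a →
      algebraMap (Y.presheaf.stalk y) Y.functionField a ∈ V.nonunits) : π y = x := by
  have hno : IsNoetherianRing Γ(X, U) := IsLocallyNoetherian.component_noetherian ⟨U, hU⟩
  have hic := isIntegrallyClosed_section X hn U hU
  have hfr := functionField_isFractionRing_of_isAffineOpen X U hU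
  have hinj := IsFractionRing.injective Γ(X, U) X.functionField
  have hP : (hU.primeIdealOf ⟨x, hxU⟩).asIdeal.height = 1 := by
    rw [height_primeIdealOf]
    exact hx
  have hK := krullData_affine X hn U hU
  let i : {x : X // x ∈ U ∧ Order.coheight x = 1} := ⟨x, hxU, hx⟩
  have hdvr := isDiscreteValuationRing_of_height_one (hU.primeIdealOf ⟨x, hxU⟩).asIdeal hP
  have hprime : hU.primeIdealOf ⟨π y, hyU⟩ = hU.primeIdealOf ⟨x, hxU⟩ := by
    ext r
    rw [← not_iff_not]
    by_cases hr0 : r = 0
    · subst hr0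
      simp
    have hw0 : algebraMap Γ(X, U) X.functionField r ≠ 0 := by rwa [Ne, map_eq_zero_iff _ hinj]
    have hord : Scheme.ord (algebraMap Γ(X, U) X.functionField r) x =
        (vP (hU.primeIdealOf ⟨x, hxU⟩).asIdeal r : ℤ) :=
      schemeOrd_eq_vP X U hU ⟨x, hxU⟩ hx hP hr0
    have hpull := algebraMap_stalkMap_germ (π := π) (generic_mem h U) y hyU r
    rw [pullFun_eq_ffMap] at hpull
    have hinvord := hK.inv i hw0
    simp only [i] at hinvord
    rw [← isUnit_germ_iff hU ⟨π y, hyU⟩ r]
    constructor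
    · intro hunit hmem
      have h1 : IsUnit ((π.stalkMap y).hom (X.presheaf.germ U (π y) hyU r)) :=
        hunit.map (π.stalkMap y).hom
      obtain ⟨b, hb⟩ := h1.exists_right_inv
      have h2 : ffMap π h (algebraMap Γ(X, U) X.functionField r)⁻¹ =
          algebraMap (Y.presheaf.stalk y) Y.functionField b := by
        have h3 := congrArg (algebraMap (Y.presheaf.stalk y) Y.functionField) hb
        rw [map_mul, map_one, hpull] at h3
        rw [map_inv₀]
        exact inv_eq_of_mul_eq_one_right h3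
      have h4 : ffMap π h (algebraMap Γ(X, U) X.functionField r)⁻¹ ∈ V := by
        rw [h2]
        exact hy1 b
      have h5 := (hV _).1 h4 (inv_ne_zero hw0)
      have h6 := vP_pos (hU.primeIdealOf ⟨x, hxU⟩).asIdeal hr0 hmem
      omega
    · intro hnmem
      by_contra hnunit
      have h1 : ¬ IsUnit ((π.stalkMap y).hom (X.presheaf.germ U (π y) hyU r)) := by
        intro h2
        exact hnunit (isUnit_of_map_unit (π.stalkMap y).hom _ h2)
      have h2 := hy2 _ h1
      rw [hpull] at h2
      have h3 := vP_eq_zero (hU.primeIdealOf ⟨x, hxU⟩).asIdeal hnmem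
      have h4 : ffMap π h (algebraMap Γ(X, U) X.functionField r)⁻¹ ∈ V := by
        rw [hV]
        intro _
        omega
      have h5 : (ffMap π h (algebraMap Γ(X, U) X.functionField r)⁻¹)⁻¹ ∈ V.nonunits := by
        rw [← map_inv₀, inv_inv]
        exact h2
      rcases V.inv_mem_nonunits_iff.1 h5 with h6 | h6
      · rw [map_eq_zero] at h6
        exact inv_ne_zero hw0 h6
      · exact h6 h4
  have h1 := hU.fromSpec_primeIdealOf ⟨π y, hyU⟩
  have h2 := hU.fromSpec_primeIdealOf ⟨x, hxU⟩
  rw [hprime] at h1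
  exact h1.symm.trans h2

/-- **Module G.**  A numerically trivial divisor on a regular alteration has an asymptotically
Cartier push-forward. -/
theorem asymptoticallyCartier_of_numTrivial (k : Type u) [Field k] [Infinite k]
    [IsLocallyNoetherian X] (s : X ⟶ Spec (.of k))
    (hn : ∀ x : X, IsIntegrallyClosed (X.presheaf.stalk x)) [IsLocallyNoetherian Y]
    (hπ : IsRegularAlteration π) (h : π (genericPoint Y) = genericPoint X) (L : CDiv Y)
    (hL : NumTrivial π L)
    (hEq : ∀ x : X, Order.coheight x = 1 → ∃ g : Y.functionField, g ≠ 0 ∧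
      (∀ y : Y, π y = x → UnitAt y (L.eqn y / g)) ∧
      letI := (ffMap π h).toAlgebra
      Scheme.ord (Algebra.norm X.functionField g) x = pushCoeff π L x)
    (U : X.Opens) (hU : IsAffineOpen U) [Nonempty U]
    (hfin : {x : {x : X // x ∈ U ∧ Order.coheight x = 1} | pushCoeff π L x.1 ≠ 0}.Finite) :
    AsymptoticallyCartier (krullData_affine X hn U hU)
      (fun x : {x : X // x ∈ U ∧ Order.coheight x = 1} => pushCoeff π L x.1) := by
  classical
  have hprop : IsProper π := hπ.proper
  have hη := generic_mem h U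
  have hfr := functionField_isFractionRing_of_isAffineOpen X U hU
  have hRK := IsFractionRing.injective Γ(X, U) X.functionField
  let : Algebra k Γ(X, U) := (structMap s U).toAlgebra
  let algK : Algebra X.functionField Y.functionField := (ffMap π h).toAlgebra
  let algR : Algebra Γ(X, U) Y.functionField := (pullFun π U hη).toAlgebra
  have htower : IsScalarTower Γ(X, U) X.functionField Y.functionField :=
    IsScalarTower.of_algebraMap_eq fun r => pullFun_eq_ffMap h U r
  have hfinK : FiniteDimensional X.functionField Y.functionField :=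
    ffMap_finite h hπ.finite
  have hinj : Function.Injective (pullFun π U hη) := by
    have h1 : Function.Injective (algebraMap Γ(X, U) Y.functionField) := by
      rw [IsScalarTower.algebraMap_eq Γ(X, U) X.functionField Y.functionField]
      exact (algebraMap X.functionField Y.functionField).injective.comp hRK
    exact h1
  have halg : ∀ f : Y.functionField, IsAlgebraic Γ(X, U) f := by
    intro f
    exact (IsFractionRing.isAlgebraic_iff Γ(X, U) X.functionField Y.functionField).2
      (Algebra.IsAlgebraic.isAlgebraic f)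
  obtain ⟨H, hH⟩ := hL
  have hT : IsCompact ((π ⁻¹ᵁ U : Y.Opens) : Set Y) :=
    QuasiCompact.isCompact_preimage (f := π) U U.isOpen hU.isCompact
  obtain ⟨c, hc0, hc⟩ := exists_bound_function π hη hinj halg hT H
  have hK := krullData_affine X hn U hU
  choose g hg0 hgu hgn using hEq
  refine asymptoticallyCartier_of_cover k hK _ hfin (K' := Y.functionField)
    (fun x => g x.1 x.2.2) (fun x => hg0 x.1 x.2.2) (fun x => hgn x.1 x.2.2)
    (pow_ne_zero 4 hc0) ?_
  intro m hm
  obtain ⟨N1, hN1, r1, s1, hs10, hs1, hs1'⟩ := (hH m U hU).exists_sections hT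
  obtain ⟨N2, hN2, r2, s2, hs20, hs2, hs2'⟩ := (hH (-m) U hU).exists_sections hT
  set C := pullFun π U hη c with hC
  have hC0 : C ≠ 0 := by
    rw [hC, Ne, map_eq_zero_iff _ hinj]
    exact hc0
  have hregV : ∀ {y : Y} {V : ValuationSubring Y.functionField} {f : Y.functionField},
      (∀ a : Y.presheaf.stalk y, algebraMap (Y.presheaf.stalk y) Y.functionField a ∈ V) →
      RegAt y f → f ∈ V := by
    rintro y V f hV ⟨a, rfl⟩
    exact hV a
  -- regularity of the powers
  have hpow1 : ∀ i, ∀ y ∈ π ⁻¹ᵁ U,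
      RegAt y (s1 i ^ N2 * (H.eqn y * L.eqn y ^ (m : ℤ)) ^ (N1 * N2)) := by
    intro i y hy
    have h1 := (hs1 i y hy).pow N2
    rw [mul_pow, ← pow_mul] at h1
    exact h1
  have hpow2 : ∀ j, ∀ y ∈ π ⁻¹ᵁ U,
      RegAt y (s2 j ^ N1 * (H.eqn y * L.eqn y ^ (-(m : ℤ))) ^ (N1 * N2)) := by
    intro j y hy
    have h1 := (hs2 j y hy).pow N1
    rw [mul_pow, ← pow_mul, mul_comm N2 N1] at h1
    exact h1
  refine ⟨N1 * N2, Nat.mul_pos hN1 hN2, r1, r2, fun i => C ^ (N1 * N2) * s1 i ^ N2,
    fun j => C ^ (N1 * N2) * s2 j ^ N1, fun i => mul_ne_zero (pow_ne_zero _ hC0)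
      (pow_ne_zero _ (hs10 i)), fun j => mul_ne_zero (pow_ne_zero _ hC0)
      (pow_ne_zero _ (hs20 j)), ?_, ?_⟩
  · rintro ⟨x, hxU, hx⟩ V hV
    have hV' : ∀ w : X.functionField, ffMap π h w ∈ V ↔ (w ≠ 0 → 0 ≤ Scheme.ord w x) := hV
    have hRV : ∀ r : Γ(X, U), pullFun π U hη r ∈ V := by
      intro r
      rw [pullFun_eq_ffMap h U r, hV']
      intro hne
      exact (hK.mem _ hne).2 ⟨r, rfl⟩ ⟨x, hxU, hx⟩
    obtain ⟨y, hyU, hy1, hy2⟩ := exists_center π hU hη V hRV
    have hyx : π y = x := center_image hn h hU hxU hx V hV' hyU hy1 hy2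
    have hu := hgu x hx y hyx
    have hH0 := H.ne_zero y
    have hL0 := L.ne_zero y
    have hg0' := hg0 x hx
    constructor
    · intro i
      refine hregV hy1 ?_
      have h1 := ((hpow1 i y hyU).mul ((hc y hyU).2.pow (N1 * N2))).mul
        (hu.inv.pow (N1 * N2 * m)).regAt
      have h2 : s1 i ^ N2 * (H.eqn y * L.eqn y ^ (m : ℤ)) ^ (N1 * N2) *
          (C / H.eqn y) ^ (N1 * N2) * (L.eqn y / g x hx)⁻¹ ^ (N1 * N2 * m) =
          C ^ (N1 * N2) * s1 i ^ N2 * g x hx ^ (N1 * N2 * m) := by
        rw [zpow_natCast, mul_pow, ← pow_mul, inv_div, div_pow, div_pow, mul_comm m (N1 * N2)]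
        field_simp
      rw [h2] at h1
      exact h1
    · intro j
      refine hregV hy1 ?_
      have h1 := ((hpow2 j y hyU).mul ((hc y hyU).2.pow (N1 * N2))).mul
        (hu.pow (N1 * N2 * m)).regAt
      have h2 : s2 j ^ N1 * (H.eqn y * L.eqn y ^ (-(m : ℤ))) ^ (N1 * N2) *
          (C / H.eqn y) ^ (N1 * N2) * (L.eqn y / g x hx) ^ (N1 * N2 * m) =
          C ^ (N1 * N2) * s2 j ^ N1 / g x hx ^ (N1 * N2 * m) := by
        rw [zpow_neg, zpow_natCast, mul_pow, inv_pow, ← pow_mul, div_pow, div_pow,
          mul_comm m (N1 * N2)]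
        field_simp
      rw [h2] at h1
      exact h1
  · intro V hRV
    obtain ⟨y, hyU, hy1, hy2⟩ := exists_center π hU hη V hRV
    obtain ⟨i, hi⟩ := hs1' y hyU
    obtain ⟨j, hj⟩ := hs2' y hyU
    refine ⟨i, j, hregV hy1 ?_⟩
    have h1 := ((hc y hyU).1.pow (2 * (N1 * N2))).mul
      ((hi.pow N2).inv.mul (hj.pow N1).inv).regAt
    have hH0 := H.ne_zero y
    have hL0 := L.ne_zero y
    have hs1i := hs10 i
    have hs2j := hs20 j
    have h2 : (C * H.eqn y) ^ (2 * (N1 * N2)) *
        (((s1 i * (H.comb L m).eqn y ^ N1) ^ N2)⁻¹ *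
          ((s2 j * (H.comb L (-m)).eqn y ^ N2) ^ N1)⁻¹) =
        algebraMap Γ(X, U) Y.functionField ((c ^ 4) ^ (N1 * N2)) /
          (C ^ (N1 * N2) * s1 i ^ N2 * (C ^ (N1 * N2) * s2 j ^ N1)) := by
      have h3 : algebraMap Γ(X, U) Y.functionField ((c ^ 4) ^ (N1 * N2)) =
          (C ^ 4) ^ (N1 * N2) := by
        rw [map_pow, map_pow]
        rfl
      have h4 : (H.comb L m).eqn y = H.eqn y * L.eqn y ^ m := by
        change H.eqn y * L.eqn y ^ (m : ℤ) = _
        rw [zpow_natCast]
      have h5 : (H.comb L (-m)).eqn y = H.eqn y * (L.eqn y ^ m)⁻¹ := by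
        change H.eqn y * L.eqn y ^ (-(m : ℤ)) = _
        rw [zpow_neg, zpow_natCast]
      rw [h3, h4, h5]
      simp only [mul_pow, inv_pow, ← pow_mul]
      field_simp
      ring
    rw [h2] at h1
    exact h1

end

end FJ
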