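import Mathlib

/-!
# Geometric definitions for MP_400390_ag

`X` and `Y` are integral schemes.  Weil divisors on `X` are functions on the points, supported on
points of codimension one; Cartier divisors are given by local equations in the function field.
-/

namespace FJ

open AlgebraicGeometry CategoryTheory

universe u

section basic

variable {Y : Scheme.{u}} [IsIntegral Y]

/-- The rational function `f` is regular at the point `y`. -/
def RegAt (y : Y) (f : Y.functionField) : Prop :=
  ∃ a : Y.presheaf.stalk y, algebraMap (Y.presheaf.stalk y) Y.functionField a = f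

/-- The rational function `f` is a unit at the point `y`. -/
def UnitAt (y : Y) (f : Y.functionField) : Prop :=
  ∃ a : Y.presheaf.stalk y, IsUnit a ∧ algebraMap (Y.presheaf.stalk y) Y.functionField a = f

variable (Y) in
/-- A Cartier divisor on an integral scheme: a local equation at each point, two local equations
differing by a unit near each point. -/
structure CDiv where
  eqn : Y → Y.functionField
  ne_zero : ∀ y, eqn y ≠ 0
  loc : ∀ y, ∃ V : Y.Opens, y ∈ V ∧ ∀ z ∈ V, UnitAt z (eqn z / eqn y)

theorem UnitAt.mul {y : Y} {f g : Y.functionField} (hf : UnitAt y f) (hg : UnitAt y g) :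
    UnitAt y (f * g) := by
  obtain ⟨a, ha, rfl⟩ := hf
  obtain ⟨b, hb, rfl⟩ := hg
  exact ⟨a * b, ha.mul hb, map_mul _ _ _⟩

theorem UnitAt.inv {y : Y} {f : Y.functionField} (hf : UnitAt y f) : UnitAt y f⁻¹ := by
  obtain ⟨a, ha, rfl⟩ := hf
  obtain ⟨b, hb⟩ := ha.exists_right_inv
  refine ⟨b, IsUnit.of_mul_eq_one a (by rw [mul_comm]; exact hb), ?_⟩
  have h1 := congrArg (algebraMap (Y.presheaf.stalk y) Y.functionField) hb
  rw [map_mul, map_one] at h1
  exact (inv_eq_of_mul_eq_one_right h1).symm

theorem UnitAt.one (y : Y) : UnitAt y (1 : Y.functionField) := ⟨1, isUnit_one, map_one _⟩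

theorem UnitAt.pow {y : Y} {f : Y.functionField} (hf : UnitAt y f) (n : ℕ) : UnitAt y (f ^ n) := by
  induction n with
  | zero => rw [pow_zero]; exact UnitAt.one y
  | succ n ih => rw [pow_succ]; exact ih.mul hf

theorem UnitAt.zpow {y : Y} {f : Y.functionField} (hf : UnitAt y f) (n : ℤ) :
    UnitAt y (f ^ n) := by
  cases n with
  | ofNat n => simpa using hf.pow n
  | negSucc n => rw [zpow_negSucc]; exact (hf.pow (n + 1)).inv

theorem UnitAt.regAt {y : Y} {f : Y.functionField} (hf : UnitAt y f) : RegAt y f := by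
  obtain ⟨a, _, ha⟩ := hf
  exact ⟨a, ha⟩

theorem RegAt.mul {y : Y} {f g : Y.functionField} (hf : RegAt y f) (hg : RegAt y g) :
    RegAt y (f * g) := by
  obtain ⟨a, rfl⟩ := hf
  obtain ⟨b, rfl⟩ := hg
  exact ⟨a * b, map_mul _ _ _⟩

theorem RegAt.pow {y : Y} {f : Y.functionField} (hf : RegAt y f) (n : ℕ) : RegAt y (f ^ n) := by
  obtain ⟨a, rfl⟩ := hf
  exact ⟨a ^ n, map_pow _ _ _⟩

/-- The Cartier divisor `H + m L`. -/
noncomputable def CDiv.comb (H L : CDiv Y) (m : ℤ) : CDiv Y where
  eqn y := H.eqn y * L.eqn y ^ m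
  ne_zero y := mul_ne_zero (H.ne_zero y) (zpow_ne_zero _ (L.ne_zero y))
  loc y := by
    obtain ⟨V, hV, hV'⟩ := H.loc y
    obtain ⟨W, hW, hW'⟩ := L.loc y
    refine ⟨V ⊓ W, ⟨hV, hW⟩, fun z hz => ?_⟩
    have h1 := (hV' z hz.1).mul ((hW' z hz.2).zpow m)
    rw [div_zpow, div_mul_div_comm] at h1
    exact h1

/-- `C` is ample on the open subset `T`: every point of `T` has an affine neighbourhood in `T` which
is the nonvanishing locus of a section over `T` of a positive multiple of `C`. -/
def AmpleOn (C : CDiv Y) (T : Y.Opens) : Prop :=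
  ∀ t ∈ T, ∃ (n : ℕ) (s : Y.functionField) (U : Y.Opens), 0 < n ∧
    (∀ y ∈ T, RegAt y (s * C.eqn y ^ n)) ∧ IsAffineOpen U ∧ t ∈ U ∧
      ∀ y, y ∈ U ↔ y ∈ T ∧ UnitAt y (s * C.eqn y ^ n)

end basic

section relative

variable {X Y : Scheme.{u}} [IsIntegral X] [IsIntegral Y]

/-- `C` is ample relative to `π : Y ⟶ X`. -/
def RelAmple (π : Y ⟶ X) (C : CDiv Y) : Prop :=
  ∀ U : X.Opens, IsAffineOpen U → AmpleOn C (π ⁻¹ᵁ U)

/-- `L` is numerically trivial relative to `π` (in the form of Kleiman's criterion): for some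
`π`-ample `H`, all `H + m L`, `m ∈ ℤ`, are `π`-ample. -/
def NumTrivial (π : Y ⟶ X) (L : CDiv Y) : Prop :=
  ∃ H : CDiv Y, ∀ m : ℤ, RelAmple π (H.comb L m)

/-- `π` is a regular alteration: proper, surjective, from a regular integral scheme, with finite
extension of function fields. -/
structure IsRegularAlteration (π : Y ⟶ X) : Prop where
  proper : IsProper π
  surjective : Surjective π
  regular : ∀ y : Y, IsRegularLocalRing (Y.presheaf.stalk y)
  finite : (π.stalkMap (genericPoint Y)).hom.Finite

/-- The multiplicity at the codimension one point `x` of the push-forward cycle `π_* L`. -/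
noncomputable def pushCoeff [IsLocallyNoetherian Y] (π : Y ⟶ X) (L : CDiv Y) (x : X) : ℤ :=
  ∑ᶠ y : {y : Y // π y = x ∧ Order.coheight y = 1},
    (π.residueDegree y.1 : ℤ) * Scheme.ord (L.eqn y.1) y.1

/-- The Weil divisor `D` (a function on the points of codimension one of `X`) is numerically
`ℚ`-Cartier: for a regular alteration `π : Y ⟶ X` and a numerically `π`-trivial `ℚ`-divisor
`(1/m) L` on `Y`, the push-forward of `(1/m) L` is `D`. -/
def NumQCartier (X : Scheme.{u}) [IsIntegral X] (D : X → ℤ) : Prop :=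
  ∃ (Y : Scheme.{u}) (_ : IsIntegral Y) (_ : IsLocallyNoetherian Y) (π : Y ⟶ X),
    IsRegularAlteration π ∧
    ∃ (m : ℕ) (L : CDiv Y), 0 < m ∧ NumTrivial π L ∧
      ∀ x : X, Order.coheight x = 1 → pushCoeff π L x = m * D x

end relative

/-- The map of function fields induced by a dominant morphism of integral schemes. -/
noncomputable def ffMap {X Y : Scheme.{u}} [IsIntegral X] [IsIntegral Y] (π : Y ⟶ X)
    (h : π (genericPoint Y) = genericPoint X) : X.functionField →+* Y.functionField :=
  (X.presheaf.stalkSpecializes (specializes_of_eq h) ≫ π.stalkMap (genericPoint Y)).hom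

end FJ
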