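import Pool.Agent.Lib.MP_400390_ag.TestDefs

/-!
# Jumps of decreasing functions of a real variable

(module B of MP_400390_ag, part 4)
-/

namespace FJ

theorem jumps_finite {α : Type*} (f : ℝ → α) (r : ℝ) (hfin : (f '' Set.Ico 0 r).Finite) :
    {t | IsJump f t ∧ t < r}.Finite := by
  refine Set.Finite.of_injOn (f := f) (t := f '' Set.Ico 0 r) ?_ ?_ hfin
  · rintro t ⟨ht, htr⟩
    exact ⟨t, ⟨ht.1.le, htr⟩, rfl⟩
  · rintro t ⟨ht, -⟩ t' ⟨ht', -⟩ heq
    rcases lt_trichotomy t t' with hlt | h | hlt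
    · exact absurd heq.symm (by
        have := ht'.2 (t' - t) (by linarith) (by have := ht.1; linarith)
        rwa [sub_sub_cancel] at this)
    · exact h
    · exact absurd heq (by
        have := ht.2 (t - t') (by linarith) (by have := ht'.1; linarith)
        rwa [sub_sub_cancel] at this)

theorem exists_reduce {U : Set ℝ} (hpos : ∀ t ∈ U, 0 < t) {r : ℝ} (hr : 0 < r)
    (hshift : ∀ t ∈ U, r < t → t - r ∈ U) (t : ℝ) (ht : t ∈ U) :
    ∃ m : ℕ, t - m * r ∈ U ∧ t - m * r ≤ r := by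
  obtain ⟨M, hM⟩ : ∃ M : ℕ, t ≤ (M + 1) * r := by
    obtain ⟨M, hM⟩ := exists_nat_ge (t / r)
    refine ⟨M, ?_⟩
    rw [div_le_iff₀ hr] at hM
    nlinarith
  induction M generalizing t with
  | zero => exact ⟨0, by simpa using ht, by simpa using hM⟩
  | succ M ih =>
    by_cases htr : t ≤ r
    · exact ⟨0, by simpa using ht, by simpa using htr⟩
    · push Not at htr
      obtain ⟨m, hm1, hm2⟩ := ih (t - r) (hshift t ht htr) (by push_cast at hM; linarith)
      refine ⟨m + 1, ?_, ?_⟩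
      · push_cast
        have : t - (m + 1) * r = t - r - m * r := by ring
        rw [this]
        exact hm1
      · push_cast
        linarith

theorem finite_le {U : Set ℝ} (hpos : ∀ t ∈ U, 0 < t) {r : ℝ} (hr : 0 < r)
    (hshift : ∀ t ∈ U, r < t → t - r ∈ U) (hfin : {t | t ∈ U ∧ t ≤ r}.Finite) (M : ℝ) :
    {t | t ∈ U ∧ t ≤ M}.Finite := by
  obtain ⟨m0, hm0⟩ := exists_nat_ge (M / r)
  have h1 : (⋃ m ∈ Set.Iic m0, (fun x : ℝ => x + m * r) '' {t | t ∈ U ∧ t ≤ r}).Finite :=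
    Set.Finite.biUnion (Set.finite_Iic _) fun m _ => hfin.image _
  refine h1.subset ?_
  rintro t ⟨ht, htM⟩
  obtain ⟨m, hm1, hm2⟩ := exists_reduce hpos hr hshift t ht
  refine Set.mem_biUnion (x := m) ?_ ⟨t - m * r, ⟨hm1, hm2⟩, by simp⟩
  have h2 := hpos _ hm1
  have h3 : (m : ℝ) ≤ m0 := by
    refine le_trans ?_ hm0
    rw [le_div_iff₀ hr]
    linarith
  exact_mod_cast h3

theorem rational_of_stable {U : Set ℝ} (hpos : ∀ t ∈ U, 0 < t) {r : ℕ} (hr : 0 < r)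
    (hshift : ∀ t ∈ U, (r : ℝ) < t → t - r ∈ U) (hfin : {t | t ∈ U ∧ t ≤ (r : ℝ)}.Finite)
    {p : ℕ} (hp : 1 < p) (hmul : ∀ t ∈ U, (p : ℝ) * t ∈ U) (t : ℝ) (ht : t ∈ U) :
    ∃ q : ℚ, (q : ℝ) = t := by
  have hr' : (0 : ℝ) < r := by exact_mod_cast hr
  have hpow : ∀ n : ℕ, (p : ℝ) ^ n * t ∈ U := by
    intro n
    induction n with
    | zero => simpa using ht
    | succ n ih =>
      have := hmul _ ih
      rwa [← mul_assoc, ← pow_succ'] at this
  choose m hm using fun n => exists_reduce hpos hr' hshift _ (hpow n)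
  obtain ⟨n, n', hne, heq⟩ : ∃ n n' : ℕ, n ≠ n' ∧
      (p : ℝ) ^ n * t - m n * r = (p : ℝ) ^ n' * t - m n' * r := by
    obtain ⟨n, -, n', -, hne, heq⟩ := Set.infinite_univ.exists_ne_map_eq_of_mapsTo
      (f := fun n : ℕ => (p : ℝ) ^ n * t - m n * r) (t := {t | t ∈ U ∧ t ≤ (r : ℝ)})
      (fun n _ => hm n) hfin
    exact ⟨n, n', hne, heq⟩
  refine ⟨((m n - m n') * r : ℚ) / ((p : ℚ) ^ n - (p : ℚ) ^ n'), ?_⟩
  have hpp : (p : ℝ) ^ n - (p : ℝ) ^ n' ≠ 0 := by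
    rw [sub_ne_zero]
    intro h
    have h1 : p ^ n = p ^ n' := by exact_mod_cast h
    exact hne (Nat.pow_right_injective hp h1)
  push_cast
  rw [div_eq_iff hpp]
  linarith

theorem const_of_no_jump {α : Type*} [PartialOrder α] {f : ℝ → α} (hf : Antitone f)
    (hright : ∀ t, 0 ≤ t → ∃ ε, 0 < ε ∧ f (t + ε) = f t) {s t : ℝ} (hs : 0 ≤ s) (hst : s ≤ t)
    (hno : ∀ u, IsJump f u → u ≤ s ∨ t < u) : f s = f t := by
  set A := {u | s ≤ u ∧ u ≤ t ∧ f u = f t} with hA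
  have hne : A.Nonempty := ⟨t, hst, le_rfl, rfl⟩
  have hbdd : BddBelow A := ⟨s, fun u hu => hu.1⟩
  set u0 := sInf A with hu0
  have hsu0 : s ≤ u0 := le_csInf hne fun u hu => hu.1
  have hu0t : u0 ≤ t := csInf_le hbdd ⟨hst, le_rfl, rfl⟩
  have hval : f u0 = f t := by
    obtain ⟨ε, hε, hfe⟩ := hright u0 (hs.trans hsu0)
    obtain ⟨a, haA, hlt⟩ := exists_lt_of_csInf_lt hne (show sInf A < u0 + ε by linarith)
    have h1 : f a ≤ f u0 := hf (csInf_le hbdd haA)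
    have h2 : f (u0 + ε) ≤ f a := hf hlt.le
    rw [hfe] at h2
    rw [le_antisymm h2 h1]
    exact haA.2.2
  rcases hsu0.eq_or_lt with h | h
  · rw [h]
    exact hval
  · exfalso
    have hnj : ¬ IsJump f u0 := by
      intro hj
      rcases hno u0 hj with h' | h'
      · linarith
      · linarith
    have hpos : 0 < u0 := lt_of_le_of_lt hs h
    have h1 : ∃ ε, 0 < ε ∧ ε ≤ u0 ∧ f u0 = f (u0 - ε) := by
      by_contra hcon
      push Not at hcon
      exact hnj ⟨hpos, hcon⟩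
    obtain ⟨ε, hε, hεu, hfe⟩ := h1
    set v := max (u0 - ε) s with hv
    have hvlt : v < u0 := max_lt (by linarith) h
    have h2 : f u0 ≤ f v := hf hvlt.le
    have h3 : f v ≤ f (u0 - ε) := hf (le_max_left _ _)
    rw [← hfe] at h3
    have hvA : v ∈ A := ⟨le_max_right _ _, hvlt.le.trans hu0t, by rw [le_antisymm h3 h2, hval]⟩
    exact absurd (csInf_le hbdd hvA) (not_le.2 hvlt)

end FJ
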