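import Pool.Agent.Lib.MP_400390_ag.Cart
import Pool.Agent.Lib.MP_400390_ag.Gauge
import Pool.Agent.Lib.MP_400390_ag.JumpReal

/-!
# Discreteness and rationality of `F`-jumping numbers

(module B of MP_400390_ag, part 5)
-/

open MvPolynomial

namespace FJ

open scoped BigOperators

section

variable {R K ι : Type*} [CommRing R] [Field K] [Algebra R K] {ord : ι → K → ℤ}
  {h : KrullData R K ι ord} {p : ℕ} {κ : K →+ K} {Δ : ι → ℤ}

theorem scale_pl {q : ℕ} {φ : K →+ K} (hφ : IsPL q φ) (c : K) : IsPL q (scale φ c) := by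
  intro a b
  rw [scale_apply, scale_apply, mul_left_comm, hφ]

/-- `κ(R(F) M) = ∑ κ(x_i M)`. -/
theorem img_mul_cart (hκ : IsPL p κ) {F : ι → ℤ} (hF : IsCart h F) :
    ∃ (m : ℕ) (x : Fin m → K), ∀ M : Submodule R K,
      img hκ (h.RD F * M) = ⨆ i, img (scale_pl hκ (x i)) M := by
  obtain ⟨m, x, y, hx, hy, hxy⟩ := hF
  refine ⟨m, x, fun M => le_antisymm ?_ ?_⟩
  · rintro _ ⟨z, hz, rfl⟩
    induction hz using Submodule.mul_induction_on' with
    | mem_mul_mem f hf t ht =>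
      have h1 : f * t = ∑ i, x i * (y i * f * t) := by
        calc f * t = (∑ i, x i * y i) * (f * t) := by rw [hxy, one_mul]
          _ = _ := by
            rw [Finset.sum_mul]
            exact Finset.sum_congr rfl fun i _ => by ring
      rw [h1, map_sum]
      refine Submodule.sum_mem _ fun i _ => ?_
      refine (le_iSup (fun i => img (scale_pl hκ (x i)) M) i) ⟨y i * f * t, ?_, rfl⟩
      have h2 : y i * f ∈ h.RD 0 := by
        refine h.RD_mono ?_ (h.mul_mem_RD (hy i) hf)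
        intro P
        simp
      obtain ⟨r, hr⟩ := h.mem_RD_zero.1 h2
      rw [← hr, ← Algebra.smul_def]
      exact M.smul_mem _ ht
    | add a _ b _ ha hb => rw [map_add]; exact Submodule.add_mem _ ha hb
  · refine iSup_le fun i => ?_
    rintro _ ⟨z, hz, rfl⟩
    exact ⟨x i * z, Submodule.mul_mem_mul (hx i) hz, rfl⟩

theorem TT_isJump_mul [CharP K p] (hp : p.Prime) (hκ : Generator p h κ Δ)
    (hF : StronglyFRegular p h) {Z : ι → ℤ} (hZ : ∀ P, 0 ≤ Z P) {B : ι → ℤ} {t : ℝ}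
    (ht : IsJump (TT hκ Z B) t) : IsJump (TT hκ Z (Δ + (p : ℤ) • B)) (p * t) := by
  have hp0 : (0 : ℝ) < p := by exact_mod_cast hp.pos
  refine ⟨mul_pos hp0 ht.1, fun ε hε hεt heq => ?_⟩
  refine ht.2 (ε / p) (by positivity) (by rwa [div_le_iff₀' hp0]) ?_
  rw [TT_eq_img hp hκ hF hZ B t, TT_eq_img hp hκ hF hZ B (t - ε / p)]
  have h1 : (p : ℝ) * (t - ε / p) = p * t - ε := by
    field_simp
  rw [h1]
  congr 1

theorem TT_isJump_twist [CharP K p] (hp : p.Prime) (hκ : Generator p h κ Δ) {F : ι → ℤ}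
    (hF : IsCart h F) {Z : ι → ℤ} {B : ι → ℤ} {t : ℝ}
    (ht : IsJump (TT hκ Z (B + F)) t) : IsJump (TT hκ Z B) t := by
  refine ⟨ht.1, fun ε hε hεt heq => ht.2 ε hε hεt ?_⟩
  rw [TT_twist hp hκ hF, TT_twist hp hκ hF, heq]

theorem TT_isJump_shift [CharP K p] (hp : p.Prime) (hκ : Generator p h κ Δ) {Z : ι → ℤ}
    {r : ℕ} (hr : IsCart h (r • Z)) {B : ι → ℤ} {t : ℝ} (hrt : (r : ℝ) < t)
    (ht : IsJump (TT hκ Z B) t) : IsJump (TT hκ Z B) (t - r) := by
  refine ⟨by linarith, fun ε hε hεt heq => ht.2 ε hε (by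
    have : (0 : ℝ) ≤ r := Nat.cast_nonneg _
    linarith) ?_⟩
  have key : ∀ u : ℝ, TT hκ Z B (u + r) = h.RD (-(r • Z)) * TT hκ Z B u := by
    intro u
    have h1 := TT_shift hκ Z B u (r : ℤ)
    rw [Int.cast_natCast] at h1
    rw [h1, sub_eq_add_neg, natCast_zsmul, TT_twist hp hκ hr.neg]
  have h2 : t = (t - r) + r := by ring
  have h3 : t - ε = (t - r - ε) + r := by ring
  rw [h3, key, ← heq, ← key, ← h2]

end

section assemble

variable {k R K ι : Type*} [Field k] [CommRing R] [IsDomain R] [Algebra k R] [Field K]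
  [Algebra R K] [IsFractionRing R K] [Algebra k K] [IsScalarTower k R K] {ord : ι → K → ℤ}
  {h : KrullData R K ι ord} {p : ℕ} {κ : K →+ K} {Δ : ι → ℤ}

omit [IsDomain R] [IsFractionRing R K] in
/-- A finitely generated submodule of `P` is good. -/
theorem exists_good {d n : ℕ} (ψ : MvPolynomial (Fin d) k →ₐ[k] R) (g : Fin n → R)
    (hg : ∀ r : R, ∃ a : Fin n → MvPolynomial (Fin d) k, r = ∑ i, ψ (a i) * g i)
    (w : Fin n → K) (M : Submodule R K) (hM : M.FG)
    (hMP : ∀ x ∈ M, ∃ D, x ∈ VV ((IsScalarTower.toAlgHom k R K).comp ψ) w D) :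
    ∃ D0 : ℕ, ∀ D, D0 ≤ D →
      Good ((IsScalarTower.toAlgHom k R K).comp ψ) w D (M : Set K) := by
  classical
  set ρ := (IsScalarTower.toAlgHom k R K).comp ψ with hρ
  obtain ⟨S, hS⟩ := hM
  have hSM : ∀ s ∈ S, s ∈ M := fun s hs => hS ▸ Submodule.subset_span hs
  have h1 : ∀ s ∈ S, ∀ i, ∃ D, algebraMap R K (g i) * s ∈ VV ρ w D := fun s hs i =>
    hMP _ (by rw [← Algebra.smul_def]; exact M.smul_mem _ (hSM s hs))
  choose! F hF using h1
  refine ⟨∑ s ∈ S, ∑ i, F s i, fun D hD x hx => ?_⟩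
  have hx' : x ∈ Submodule.span R (S : Set K) := hS ▸ hx
  obtain ⟨c, -, hc⟩ := Submodule.mem_span_finset.1 hx'
  rw [← hc]
  refine sum_mem fun s hs => ?_
  obtain ⟨a, ha⟩ := hg (c s)
  have h2 : c s • s = ∑ i, ρ (a i) * (algebraMap R K (g i) * s) := by
    rw [Algebra.smul_def, ha, map_sum, Finset.sum_mul]
    refine Finset.sum_congr rfl fun i _ => ?_
    rw [map_mul, mul_assoc]
    rfl
  rw [h2]
  refine sum_mem fun i _ => AddSubgroup.subset_closure
    ⟨a i, algebraMap R K (g i) * s, ?_, ?_, rfl⟩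
  · rw [← Algebra.smul_def]
    exact M.smul_mem _ (hSM s hs)
  · refine VV_mono ρ w ?_ (hF s hs i)
    calc F s i ≤ ∑ i, F s i :=
          Finset.single_le_sum (f := fun i => F s i) (fun _ _ => Nat.zero_le _)
            (Finset.mem_univ i)
      _ ≤ ∑ s ∈ S, ∑ i, F s i :=
          Finset.single_le_sum (f := fun s => ∑ i, F s i) (fun _ _ => Nat.zero_le _) hs
      _ ≤ D := hD

/-- `{⌈λ Z⌉ : 0 ≤ λ ≤ r}` is finite. -/
theorem finite_cl {Z : ι → ℤ} (hZ : ∀ P, 0 ≤ Z P) (hZfin : {P | Z P ≠ 0}.Finite) (r : ℕ) :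
    (cl Z '' Set.Icc (0 : ℝ) r).Finite := by
  classical
  let Zf : ι →₀ ℤ := Finsupp.ofSupportFinite Z (by
    have : Function.support Z = {P | Z P ≠ 0} := by ext; simp
    rw [this]
    exact hZfin)
  have h1 : ((fun f : ι →₀ ℤ => (f : ι → ℤ)) '' Set.Icc 0 (r • Zf)).Finite :=
    (Set.finite_Icc _ _).image _
  refine h1.subset ?_
  rintro _ ⟨l, ⟨hl0, hlr⟩, rfl⟩
  refine ⟨Finsupp.ofSupportFinite (cl Z l) (by
    have : Function.support (cl Z l) = {P | cl Z l P ≠ 0} := by ext; simp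
    rw [this]
    exact fin_cl hZfin l), ⟨?_, ?_⟩, rfl⟩
  · intro P
    have hZP : (0 : ℝ) ≤ Z P := by exact_mod_cast hZ P
    change 0 ≤ ⌈l * (Z P : ℝ)⌉
    exact Int.ceil_nonneg (by positivity)
  · intro P
    have hZP : (0 : ℝ) ≤ Z P := by exact_mod_cast hZ P
    change ⌈l * (Z P : ℝ)⌉ ≤ r • Z P
    rw [Int.ceil_le]
    simp only [nsmul_eq_mul, Int.cast_mul, Int.cast_natCast]
    gcongr

/-- The denominators `h0`. -/
theorem exists_h0 (hκ : Generator p h κ Δ) (N : ℕ) (C : Finset K) :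
    ∃ h0 : K, h0 ∈ h.RD 0 ∧ h0 ≠ 0 ∧ h0 ∈ h.RD (-((N : ℤ) • fun P => |Δ P|)) ∧
      ∀ c ∈ C, c * h0 ∈ h.RD Δ := by
  classical
  -- `e0 ∈ R(-(N+1)|Δ|)`
  have hfin : {P | ((-((N : ℤ) + 1)) • fun P => |Δ P|) P ≠ 0}.Finite := by
    refine fin_smul ?_ _
    refine hκ.fin.subset ?_
    intro P hP h0
    simp [h0] at hP
  obtain ⟨e0, he0, he0'⟩ := (Submodule.ne_bot_iff _).1 (RD_ne_bot (h := h) hfin)
  have key : ∀ C : Finset K, ∃ b : K, b ∈ h.RD 0 ∧ b ≠ 0 ∧ ∀ c ∈ C, c * b ∈ h.RD 0 := by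
    intro C
    induction C using Finset.induction_on with
    | empty => exact ⟨1, h.mem_RD_zero.2 ⟨1, by simp⟩, one_ne_zero, by simp⟩
    | insert c C _ ih =>
      obtain ⟨b, hb, hb0, hbC⟩ := ih
      obtain ⟨x, y, hy, hxy⟩ := IsFractionRing.div_surjective (A := R) c
      have hy0 : algebraMap R K y ≠ 0 := by
        rw [Ne, IsFractionRing.to_map_eq_zero_iff]
        exact nonZeroDivisors.ne_zero hy
      have hyR : algebraMap R K y ∈ h.RD 0 := h.algebraMap_mem_RD_zero y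
      refine ⟨algebraMap R K y * b, by simpa using h.mul_mem_RD hyR hb, mul_ne_zero hy0 hb0, ?_⟩
      intro c' hc'
      rcases Finset.mem_insert.1 hc' with rfl | hc'
      · have h1 : c' * (algebraMap R K y * b) = algebraMap R K x * b := by
          rw [← hxy]
          field_simp
        rw [h1]
        simpa using h.mul_mem_RD (h.algebraMap_mem_RD_zero x) hb
      · have h1 : c' * (algebraMap R K y * b) = algebraMap R K y * (c' * b) := by ring
        rw [h1]
        simpa using h.mul_mem_RD hyR (hbC c' hc')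
  obtain ⟨b, hb, hb0, hbC⟩ := key C
  have habs : ∀ P, 0 ≤ |Δ P| := fun P => abs_nonneg _
  refine ⟨e0 * b, ?_, mul_ne_zero he0' hb0, ?_, ?_⟩
  · refine h.RD_mono ?_ (h.mul_mem_RD he0 hb)
    intro P
    have := habs P
    simp only [Pi.add_apply, Pi.smul_apply, smul_eq_mul, Pi.zero_apply, add_zero]
    nlinarith [Nat.cast_nonneg (α := ℤ) N]
  · refine h.RD_mono ?_ (h.mul_mem_RD he0 hb)
    intro P
    have := habs P
    simp only [Pi.add_apply, Pi.smul_apply, smul_eq_mul, Pi.zero_apply, add_zero, Pi.neg_apply]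
    linarith
  · intro c hc
    have h1 : c * (e0 * b) = e0 * (c * b) := by ring
    rw [h1]
    refine h.RD_mono ?_ (h.mul_mem_RD he0 (hbC c hc))
    intro P
    have := habs P
    have h2 := neg_abs_le (Δ P)
    simp only [Pi.add_apply, Pi.smul_apply, smul_eq_mul, Pi.zero_apply, add_zero]
    nlinarith [Nat.cast_nonneg (α := ℤ) N]

/-- **Gauge boundedness of `T_e(jΔ, λ)`.** -/
theorem exists_bound [PerfectField k] [CharP k p] [CharP K p] [IsNoetherianRing R]
    (hp : p.Prime) (hκ : Generator p h κ Δ) {d n : ℕ} (ψ : MvPolynomial (Fin d) k →ₐ[k] R)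
    (g : Fin n → R) (hg : ∀ r : R, ∃ a : Fin n → MvPolynomial (Fin d) k, r = ∑ i, ψ (a i) * g i)
    {N r : ℕ} (hN : 0 < N) (hr : 0 < r) (hNΔ : IsCart h (N • Δ)) {Z : ι → ℤ}
    (hZ : ∀ P, 0 ≤ Z P) (hZfin : {P | Z P ≠ 0}.Finite) (hrZ : IsCart h (r • Z)) :
    ∃ (w : Fin n → K) (D : ℕ), ∀ (e j : ℕ), j < N → ∀ l : ℝ, 0 ≤ l → l < r →
      Good ((IsScalarTower.toAlgHom k R K).comp ψ) w D (T hκ Z e ((j : ℤ) • Δ) l : Set K) := by
  classical
  set ρ := (IsScalarTower.toAlgHom k R K).comp ψ with hρ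
  have hρR : ∀ a, ∃ r : R, algebraMap R K r = ρ a := fun a => ⟨ψ a, rfl⟩
  -- the finitely many Cartier divisors
  let F : ℕ × ℕ → ι → ℤ := fun ts => ((ts.1 : ℤ) • (N • Δ)) - ((ts.2 : ℤ) • (r • Z))
  have hF : ∀ ts, IsCart h (F ts) := fun ts => by
    have := (hNΔ.zsmul ts.1).add (hrZ.zsmul ts.2).neg
    rwa [← sub_eq_add_neg] at this
  choose m x hx using fun ts => img_mul_cart (h := h) hκ.pl (hF ts)
  set C : Finset K := (Finset.range (p + 1) ×ˢ Finset.range (p + 1)).biUnion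
    (fun ts => Finset.univ.image (x ts)) with hC
  obtain ⟨h0, h0R, h00, h0N, h0C⟩ := exists_h0 hκ N C
  let w : Fin n → K := fun i => algebraMap R K (g i) / h0
  -- characterisation of `P`
  have hP1 : ∀ y : K, h0 * y ∈ h.RD 0 → ∃ D, y ∈ VV ρ w D := by
    intro y hy
    obtain ⟨r', hr'⟩ := h.mem_RD_zero.1 hy
    obtain ⟨a, ha⟩ := hg r'
    refine ⟨∑ i, (a i).totalDegree, ?_⟩
    have h1 : y = ∑ i, ρ (a i) * w i := by
      have h2 : y = algebraMap R K r' / h0 := by
        rw [hr', mul_div_cancel_left₀ _ h00]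
      rw [h2, ha, map_sum, Finset.sum_div]
      refine Finset.sum_congr rfl fun i _ => ?_
      rw [map_mul, mul_div_assoc]
      rfl
    rw [h1]
    refine Submodule.sum_mem _ fun i _ => ?_
    refine VV_mono ρ w ?_ (gen_mem_VV ρ w (a i) i)
    exact Finset.single_le_sum (f := fun i => (a i).totalDegree) (fun _ _ => Nat.zero_le _)
      (Finset.mem_univ i)
  have hP2 : ∀ D, ∀ y ∈ VV ρ w D, h0 * y ∈ h.RD 0 := by
    intro D y hy
    induction hy using Submodule.span_induction with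
    | mem y hy =>
      obtain ⟨β, -, i, -, rfl⟩ := hy
      have h1 : h0 * (ρ (monomial β 1) * w i) = algebraMap R K (ψ (monomial β 1) * g i) := by
        simp only [w, map_mul]
        have h2 : ρ (monomial β 1) = algebraMap R K (ψ (monomial β 1)) := rfl
        rw [h2]
        field_simp
      simp only
      rw [h1]
      exact h.algebraMap_mem_RD_zero _
    | zero => rw [mul_zero]; exact Submodule.zero_mem _
    | add a b _ _ ha hb => rw [mul_add]; exact Submodule.add_mem _ ha hb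
    | smul c y _ hy =>
      have h1 : h0 * c • y = (algebraMap k R c) • (h0 * y) := by
        rw [Algebra.smul_def, Algebra.smul_def, ← IsScalarTower.algebraMap_apply]
        ring
      rw [h1]
      exact Submodule.smul_mem _ _ hy
  have hCP : ∀ c ∈ C, ∀ D, ∀ y ∈ VV ρ w D, ∃ D', κ (c * y) ∈ VV ρ w D' := by
    intro c hc D y hy
    refine hP1 _ ?_
    have h1 : c * y = (h0⁻¹) ^ p * (c * h0 * (h0 ^ (p - 2) * (h0 * y))) := by
      obtain ⟨q, rfl⟩ : ∃ q, p = q + 2 := ⟨p - 2, by have := hp.two_le; omega⟩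
      rw [Nat.add_sub_cancel]
      have h2 : h0⁻¹ ^ (q + 2) * h0 ^ (q + 2) = 1 := by
        rw [← mul_pow, inv_mul_cancel₀ h00, one_pow]
      calc c * y = (h0⁻¹ ^ (q + 2) * h0 ^ (q + 2)) * (c * y) := by rw [h2, one_mul]
        _ = _ := by ring
    rw [h1, hκ.pl, mul_inv_cancel_left₀ h00]
    have h2 : c * h0 * (h0 ^ (p - 2) * (h0 * y)) ∈ h.RD Δ := by
      have h3 : h0 ^ (p - 2) * (h0 * y) ∈ h.RD 0 := by
        have h4 := h.mul_mem_RD (h.pow_mem_RD h0R (p - 2)) (hP2 D y hy)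
        simpa using h4
      have h5 := h.mul_mem_RD (h0C c hc) h3
      simpa using h5
    have h6 : Maps h (scale κ 1) Δ 0 := by
      refine hκ.maps 1 _ _ ?_
      refine h.RD_mono ?_ (h.mem_RD_zero.2 ⟨1, by simp⟩)
      intro P
      simp
    simpa using h6 _ h2
  obtain ⟨C0, hC0⟩ := contraction ρ w hp hκ.pl C hCP
  -- the initial modules
  have hinit : ∀ E : ι → ℤ, (∀ P, E P ≤ ((N : ℤ) • fun P => |Δ P|) P) →
      ∃ D0 : ℕ, ∀ D, D0 ≤ D → Good ρ w D (h.RD E : Set K) := by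
    intro E hE
    have hEP : ∀ y ∈ h.RD E, h0 * y ∈ h.RD 0 := by
      intro y hy
      refine h.RD_mono ?_ (h.mul_mem_RD h0N hy)
      intro P
      have := hE P
      simp only [Pi.add_apply, Pi.neg_apply, Pi.zero_apply]
      linarith
    refine exists_good ψ g hg w (h.RD E) ?_ (fun y hy => hP1 y (hEP y hy))
    -- finite generation
    have hle : h.RD E ≤ Submodule.span R {h0⁻¹} := by
      intro y hy
      obtain ⟨r', hr'⟩ := h.mem_RD_zero.1 (hEP y hy)
      rw [Submodule.mem_span_singleton]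
      refine ⟨r', ?_⟩
      rw [Algebra.smul_def, hr']
      field_simp
    have hnoeth : IsNoetherian R (Submodule.span R {h0⁻¹}) :=
      isNoetherian_span_of_finite R (Set.finite_singleton _)
    exact Submodule.FG.of_le_of_isNoetherian hle
  have hinit2 : ∀ t : ℕ × (ι → ℤ), ∃ D0 : ℕ, (∀ P, 0 ≤ t.2 P) → t.1 ≤ N → ∀ D, D0 ≤ D →
      Good ρ w D (h.RD ((t.1 : ℤ) • Δ - t.2) : Set K) := by
    intro t
    by_cases ht : (∀ P, 0 ≤ t.2 P) ∧ t.1 ≤ N
    · obtain ⟨D0, hD0⟩ := hinit ((t.1 : ℤ) • Δ - t.2) (by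
        intro P
        have h1 := ht.1 P
        have h2 := le_abs_self (Δ P)
        have h3 : (t.1 : ℤ) ≤ N := by exact_mod_cast ht.2
        have h4 := abs_nonneg (Δ P)
        have h5 : (0 : ℤ) ≤ (t.1 : ℤ) := Int.natCast_nonneg _
        simp only [Pi.sub_apply, Pi.smul_apply, smul_eq_mul]
        nlinarith)
      exact ⟨D0, fun _ _ => hD0⟩
    · exact ⟨0, fun h1 h2 => absurd ⟨h1, h2⟩ ht⟩
  choose D1 hD1 using hinit2
  have hfinset := ((Set.finite_Iio N).prod (finite_cl hZ hZfin r))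
  obtain ⟨D0, hD0⟩ : ∃ D0 : ℕ, ∀ t ∈ Set.Iio N ×ˢ (cl Z '' Set.Icc (0 : ℝ) r), D1 t ≤ D0 := by
    refine ⟨∑ t ∈ hfinset.toFinset, D1 t, fun t ht => ?_⟩
    exact Finset.single_le_sum (f := D1) (fun _ _ => Nat.zero_le _) (by simpa using ht)
  refine ⟨w, D0 + 2 * (d + C0), ?_⟩
  set D := D0 + 2 * (d + C0) with hD
  have hDC : (D + d * p) / p + C0 ≤ D := by
    rw [Nat.add_mul_div_right _ _ hp.pos]
    have h1 : D / p ≤ D / 2 := Nat.div_le_div_left hp.two_le (by norm_num)
    have h2 : D / 2 * 2 ≤ D := Nat.div_mul_le_self _ _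
    omega
  intro e
  induction e with
  | zero =>
    intro j hj l hl0 hlr
    rw [T_zero]
    refine hD1 (j, cl Z l) ?_ hj.le D ?_
    · intro P
      have hZP : (0 : ℝ) ≤ Z P := by exact_mod_cast hZ P
      exact Int.ceil_nonneg (by positivity)
    · refine le_trans (hD0 _ ⟨hj, ⟨l, ⟨hl0, hlr.le⟩, rfl⟩⟩) (by omega)
  | succ e ih =>
    intro j hj l hl0 hlr
    have hr0 : (0 : ℝ) < r := by exact_mod_cast hr
    have hp0 : (0 : ℝ) < p := by exact_mod_cast hp.pos
    -- reduce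
    set j' := (1 + p * j) % N with hj'
    set t := (1 + p * j) / N with ht
    set s := ⌊(p : ℝ) * l / r⌋₊ with hs
    set l' := (p : ℝ) * l - r * s with hl'
    have hj'N : j' < N := Nat.mod_lt _ hN
    have hpl : 0 ≤ (p : ℝ) * l / r := by positivity
    have hs1 : (s : ℝ) ≤ (p : ℝ) * l / r := Nat.floor_le hpl
    have hs2 : (p : ℝ) * l / r < s + 1 := Nat.lt_floor_add_one _
    have hl'0 : 0 ≤ l' := by
      rw [le_div_iff₀ hr0] at hs1
      rw [hl']
      linarith
    have hl'r : l' < r := by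
      rw [div_lt_iff₀ hr0] at hs2
      rw [hl']
      linarith
    have hjt : N * t + j' = 1 + p * j := Nat.div_add_mod _ _
    have htp : t < p + 1 := by
      have h1 : N * t ≤ p * N := by
        have : p * j + p ≤ p * N := by
          calc p * j + p = p * (j + 1) := by ring
            _ ≤ p * N := Nat.mul_le_mul_left p hj
        have := hp.two_le
        omega
      have h2 : t ≤ p := by
        rw [mul_comm p N] at h1
        exact Nat.le_of_mul_le_mul_left h1 hN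
      omega
    have hsp : s < p + 1 := by
      have h1 : (s : ℝ) ≤ p := by
        refine hs1.trans ?_
        rw [div_le_iff₀ hr0]
        gcongr
      have : s ≤ p := by exact_mod_cast h1
      omega
    have hEq : T hκ Z e (Δ + (p : ℤ) • ((j : ℤ) • Δ)) (p * l) =
        h.RD (F (t, s)) * T hκ Z e ((j' : ℤ) • Δ) l' := by
      have h1 : (p : ℝ) * l = l' + ((r * s : ℤ) : ℝ) := by
        rw [hl']
        push_cast
        ring
      rw [h1, T_shift, ← T_twist hp hκ (hF (t, s))]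
      congr 1
      funext P
      have h2 : ((N * t + j' : ℕ) : ℤ) = ((1 + p * j : ℕ) : ℤ) := by rw [hjt]
      push_cast at h2
      simp only [F, Pi.sub_apply, Pi.add_apply, Pi.smul_apply, smul_eq_mul, nsmul_eq_mul,
        Pi.mul_apply, Pi.natCast_apply]
      linear_combination (-Δ P) * h2
    rw [T_succ, hEq, hx]
    refine Good.iSup ρ w fun i => ?_
    have hmem : x (t, s) i ∈ C := by
      rw [hC, Finset.mem_biUnion]
      exact ⟨(t, s), by simp [htp, hsp], by simp⟩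
    exact Good.img_scale ρ w hp hκ.pl hρR (fun D y hy => hC0 _ hmem D y hy) hDC
      (ih j' hj'N l' hl'0 hl'r) (fun y => Iff.rfl)

end assemble

/-- **Module (B): discreteness and rationality of the jumping numbers.** -/
theorem jumping_numbers (k : Type*) [Field k] [PerfectField k] (p : ℕ) [Fact p.Prime] [CharP k p]
    {R K ι : Type*} [CommRing R] [IsDomain R] [Algebra k R] [Algebra.FiniteType k R] [Field K]
    [Algebra R K] [IsFractionRing R K] {ord : ι → K → ℤ} (h : KrullData R K ι ord)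
    (hF : StronglyFRegular p h) {κ : K →+ K} {Δ : ι → ℤ} (hκ : IsTraceMap p h κ Δ)
    (hΔ : QCartier h Δ) (Z : ι → ℤ) (hZfin : {P | Z P ≠ 0}.Finite) (hZ0 : ∀ P, 0 ≤ Z P)
    (hZ : QCartier h Z) :
    ∃ τ : ℝ → Ideal R, (∀ t, 0 ≤ t → IsTestIdeal p h (fun P => t * (Z P : ℝ)) (τ t)) ∧
      (∀ M : ℝ, {t | IsJump τ t ∧ t ≤ M}.Finite) ∧
      (∀ t, IsJump τ t → ∃ r : ℚ, (r : ℝ) = t) ∧
      ∀ s t, 0 ≤ s → s ≤ t → (∀ u, IsJump τ u → u ≤ s ∨ t < u) → τ s = τ t := by
  classical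
  have hp : p.Prime := Fact.out
  let algkK : Algebra k K := ((algebraMap R K).comp (algebraMap k R)).toAlgebra
  have htower : IsScalarTower k R K := IsScalarTower.of_algebraMap_eq' rfl
  have hcharK : CharP K p := charP_of_injective_algebraMap (algebraMap k K).injective p
  have hnoeth : IsNoetherianRing R := Algebra.FiniteType.isNoetherianRing k R
  -- the generator
  have G : Generator p h κ Δ := generator_of_traceMap hp hκ (fun e τ φ hτ hτ0 hφ =>
    gen_of_spanning (exists_spanning' k p R K e) hτ hτ0 hφ)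
  -- Noether normalisation
  obtain ⟨d, ψ, hψinj, hψfin⟩ := exists_finite_inj_algHom_of_fg k R
  obtain ⟨n, g, hg⟩ : ∃ (n : ℕ) (g : Fin n → R), ∀ r : R,
      ∃ a : Fin n → MvPolynomial (Fin d) k, r = ∑ i, ψ (a i) * g i := by
    let _ := ψ.toRingHom.toAlgebra
    have hfin : Module.Finite (MvPolynomial (Fin d) k) R := hψfin
    obtain ⟨n, g, hg⟩ := Module.Finite.exists_fin (R := MvPolynomial (Fin d) k) (M := R)
    refine ⟨n, g, fun r => ?_⟩
    have hr : r ∈ Submodule.span (MvPolynomial (Fin d) k) (Set.range g) :=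
      hg ▸ Submodule.mem_top
    obtain ⟨c, hc⟩ := (Submodule.mem_span_range_iff_exists_fun _).1 hr
    exact ⟨c, hc.symm⟩
  obtain ⟨N, hN, hNΔ⟩ := hΔ
  obtain ⟨r, hr, hrZ⟩ := hZ
  have hcart : ∀ F : ι → ℤ, (1 : K) ∈ h.RD F * h.RD (-F) → IsCart h F := by
    intro F hF
    rw [isCart_iff]
    refine le_antisymm ?_ (Submodule.one_le.2 hF)
    rw [← RD_zero_eq_one (h := h)]
    refine RD_mul_le'.trans (h.RD_mono fun P => ?_)
    simp
  have hNΔ' : IsCart h (N • Δ) := hcart _ hNΔ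
  have hrZ' : IsCart h (r • Z) := hcart _ hrZ
  have hr0 : (0 : ℝ) < r := by exact_mod_cast hr
  obtain ⟨w, D, hgood⟩ := exists_bound hp G ψ g hg hN hr hNΔ' hZ0 hZfin hrZ'
  set ρ := (IsScalarTower.toAlgHom k R K).comp ψ with hρ
  -- finitely many values
  have hvals : ∀ j < N, (TT G Z ((j : ℤ) • Δ) '' Set.Ico (0 : ℝ) r).Finite := by
    intro j hj
    refine finite_of_chain ρ w (D := D) (fun a => ⟨ψ a, rfl⟩) (fun c => ⟨algebraMap k R c, rfl⟩)
      _ ?_ ?_
    · rintro _ ⟨l, ⟨hl0, hlr⟩, rfl⟩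
      exact Good.iSup ρ w fun e => hgood e j hj l hl0 hlr
    · rintro _ ⟨l, -, rfl⟩ _ ⟨l', -, rfl⟩
      rcases le_total l l' with hl | hl
      · exact Or.inr (TT_anti G hZ0 _ hl)
      · exact Or.inl (TT_anti G hZ0 _ hl)
  -- the set of all jumps
  set U : Set ℝ := {t | ∃ j : ℤ, IsJump (TT G Z (j • Δ)) t} with hU
  have hUpos : ∀ t ∈ U, 0 < t := fun t ⟨j, hj⟩ => hj.1
  have hUshift : ∀ t ∈ U, (r : ℝ) < t → t - r ∈ U := fun t ⟨j, hj⟩ hrt =>
    ⟨j, TT_isJump_shift hp G hrZ' hrt hj⟩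
  have hUmul : ∀ t ∈ U, (p : ℝ) * t ∈ U := by
    rintro t ⟨j, hj⟩
    refine ⟨1 + p * j, ?_⟩
    have h1 := TT_isJump_mul hp G hF hZ0 hj
    have h2 : (1 + p * j : ℤ) • Δ = Δ + (p : ℤ) • (j • Δ) := by
      rw [add_smul, one_smul, mul_smul]
    rw [h2]
    exact h1
  have hUfin : {t | t ∈ U ∧ t ≤ (r : ℝ)}.Finite := by
    have h1 : ((⋃ j ∈ Set.Iio N, {t | IsJump (TT G Z ((j : ℤ) • Δ)) t ∧ t < (r : ℝ)}) ∪
        {(r : ℝ)}).Finite :=
      (Set.Finite.biUnion (Set.finite_Iio N) fun j hj => jumps_finite _ _ (hvals j hj)).union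
        (Set.finite_singleton _)
    refine h1.subset ?_
    rintro t ⟨⟨j, hj⟩, htr⟩
    rcases htr.eq_or_lt with h2 | h2
    · exact Or.inr h2
    · refine Or.inl (Set.mem_biUnion (x := (j % N).toNat) ?_ ⟨?_, h2⟩)
      · have h3 := Int.emod_lt_of_pos j (show (0 : ℤ) < N by exact_mod_cast hN)
        have h4 := Int.emod_nonneg j (show (N : ℤ) ≠ 0 by exact_mod_cast hN.ne')
        simp only [Set.mem_Iio]
        omega
      · have h4 := Int.emod_nonneg j (show (N : ℤ) ≠ 0 by exact_mod_cast hN.ne')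
        have h5 : j • Δ = (((j % N).toNat : ℕ) : ℤ) • Δ + (j / N) • (N • Δ) := by
          rw [Int.toNat_of_nonneg h4]
          funext P
          simp only [Pi.add_apply, Pi.smul_apply, smul_eq_mul, nsmul_eq_mul, Pi.mul_apply,
            Pi.natCast_apply]
          have := Int.emod_add_mul_ediv j N
          linear_combination (-Δ P) * this
        rw [h5] at hj
        exact TT_isJump_twist hp G (hNΔ'.zsmul _) hj
  -- transfer to ideals
  let τ : ℝ → Ideal R := fun t => (TT G Z 0 t).comap (Algebra.linearMap R K)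
  have hmemτ : ∀ t x, x ∈ τ t ↔ algebraMap R K x ∈ TT G Z 0 t := fun t x => Iff.rfl
  have hTI : ∀ t, 0 ≤ t → IsTI p h Z t (TT G Z 0 t) := fun t ht =>
    isTI_TT hp G hF hZ0 hZfin ht
  have hTTτ : ∀ t, 0 ≤ t → TT G Z 0 t = Submodule.map (Algebra.linearMap R K) (τ t) := by
    intro t ht
    ext x
    constructor
    · intro hx
      obtain ⟨y, rfl⟩ := h.mem_RD_zero.1 ((hTI t ht).le hx)
      exact ⟨y, hx, rfl⟩
    · rintro ⟨y, hy, rfl⟩
      exact hy
  have hτinj : ∀ s t, 0 ≤ s → 0 ≤ t → (τ s = τ t ↔ TT G Z 0 s = TT G Z 0 t) := by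
    intro s t hs ht
    constructor
    · intro heq
      rw [hTTτ s hs, hTTτ t ht, heq]
    · intro heq
      change Submodule.comap _ _ = Submodule.comap _ _
      rw [heq]
  have hjump : ∀ t, IsJump τ t ↔ IsJump (TT G Z ((0 : ℤ) • Δ)) t := by
    intro t
    rw [zero_smul]
    refine and_congr_right fun ht => forall_congr' fun ε => forall_congr' fun hε =>
      forall_congr' fun hεt => ?_
    rw [Ne, Ne, hτinj t (t - ε) ht.le (by linarith)]
  refine ⟨τ, ?_, ?_, ?_, ?_⟩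
  · intro t ht
    have hT := hTI t ht
    refine ⟨⟨?_, ?_⟩, ?_⟩
    · intro hbot
      apply hT.ne
      rw [hTTτ t ht, hbot]
      simp
    · intro e he φ hφ hφm x hx
      have h1 : Maps h φ (cl Z (((p : ℝ) ^ e - 1) * t)) 0 := by
        have : cl Z (((p : ℝ) ^ e - 1) * t) = fun P => ⌈((p : ℝ) ^ e - 1) * (t * (Z P : ℝ))⌉ := by
          funext P
          simp only [cl, mul_assoc]
        rw [this]
        exact hφm
      have h2 := hT.stable e he φ hφ h1 _ hx
      obtain ⟨y, hy⟩ := h.mem_RD_zero.1 (hT.le h2)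
      exact ⟨y, by rw [hmemτ, hy]; exact h2, hy⟩
    · rintro I ⟨hI0, hIc⟩
      have h1 : TT G Z 0 t ≤ Submodule.map (Algebra.linearMap R K) I := by
        refine hT.min _ ?_ ?_ ?_
        · rintro _ ⟨y, -, rfl⟩
          exact h.algebraMap_mem_RD_zero y
        · intro hbot
          apply hI0
          rw [eq_bot_iff]
          intro x hx
          have h2 : algebraMap R K x ∈ Submodule.map (Algebra.linearMap R K) I := ⟨x, hx, rfl⟩
          rw [hbot, Submodule.mem_bot, IsFractionRing.to_map_eq_zero_iff] at h2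
          exact h2
        · intro e he φ hφ hφm x hx
          obtain ⟨x, hxI, rfl⟩ := hx
          have h1 : Maps h φ (fun P => ⌈((p : ℝ) ^ e - 1) * (t * (Z P : ℝ))⌉) 0 := by
            have : cl Z (((p : ℝ) ^ e - 1) * t) =
                fun P => ⌈((p : ℝ) ^ e - 1) * (t * (Z P : ℝ))⌉ := by
              funext P
              simp only [cl, mul_assoc]
            rw [← this]
            exact hφm
          obtain ⟨y, hyI, hy⟩ := hIc e he φ hφ h1 x hxI
          exact ⟨y, hyI, hy⟩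
      intro x hx
      obtain ⟨y, hyI, hy⟩ := h1 ((hmemτ t x).1 hx)
      have h2 : y = x := IsFractionRing.injective R K hy
      rw [← h2]
      exact hyI
  · intro M
    refine (finite_le hUpos hr0 hUshift hUfin M).subset ?_
    rintro t ⟨ht, htM⟩
    exact ⟨⟨0, (hjump t).1 ht⟩, htM⟩
  · intro t ht
    exact rational_of_stable hUpos hr hUshift hUfin hp.one_lt hUmul t ⟨0, (hjump t).1 ht⟩
  · intro s t hs hst hno
    rw [hτinj s t hs (hs.trans hst)]
    refine const_of_no_jump (f := TT G Z 0) (fun a b hab => TT_anti G hZ0 0 hab) ?_ hs hst ?_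
    · intro u hu
      exact TT_right hp G hF hZ0 hZfin hu
    · intro u hu
      refine hno u ((hjump u).2 ?_)
      rw [zero_smul]
      exact hu

end FJ

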