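import Mathlib

/-!
# Separable Noether normalisation

For a domain `R` of finite type over a perfect field `k` there is a finite injective
`ψ : k[X_1, …, X_d] → R` and `θ ∈ R`, `f` monic with `f(θ) = 0`, `f'(θ) ≠ 0` and
`Frac R = Frac k[X] (θ)`.
-/

open MvPolynomial

namespace FJ

namespace NN

variable {k R : Type*} [Field k] [CommRing R] [Algebra k R] {d : ℕ}

/-- `U φ ψ m`: the `ψ`-span of the `φ g`, `g` of total degree `≤ m`. -/
def U (φ ψ : MvPolynomial (Fin d) k →ₐ[k] R) (m : ℕ) : AddSubgroup R :=
  AddSubgroup.closure {r | ∃ (a g : MvPolynomial (Fin d) k), g.totalDegree ≤ m ∧ r = ψ a * φ g}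

variable (φ ψ : MvPolynomial (Fin d) k →ₐ[k] R)

theorem mem_U {g : MvPolynomial (Fin d) k} {m : ℕ} (hg : g.totalDegree ≤ m) : φ g ∈ U φ ψ m :=
  AddSubgroup.subset_closure ⟨1, g, hg, by simp⟩

theorem U_mono {m n : ℕ} (h : m ≤ n) : U φ ψ m ≤ U φ ψ n := by
  apply AddSubgroup.closure_mono
  rintro r ⟨a, g, hg, rfl⟩
  exact ⟨a, g, hg.trans h, rfl⟩

theorem smul_U {m : ℕ} (a : MvPolynomial (Fin d) k) {r : R} (hr : r ∈ U φ ψ m) :
    ψ a * r ∈ U φ ψ m := by
  induction hr using AddSubgroup.closure_induction with
  | mem x hx =>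
    obtain ⟨b, g, hg, rfl⟩ := hx
    exact AddSubgroup.subset_closure ⟨a * b, g, hg, by simp [mul_assoc]⟩
  | zero => simp
  | add x y _ _ hx hy => rw [mul_add]; exact add_mem hx hy
  | neg x _ hx => rw [mul_neg]; exact neg_mem hx

theorem mul_U {m n : ℕ} {g : MvPolynomial (Fin d) k} (hg : g.totalDegree ≤ n) {r : R}
    (hr : r ∈ U φ ψ m) : φ g * r ∈ U φ ψ (m + n) := by
  induction hr using AddSubgroup.closure_induction with
  | mem x hx =>
    obtain ⟨b, g', hg', rfl⟩ := hx
    refine AddSubgroup.subset_closure ⟨b, g * g', ?_, by simp; ring⟩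
    exact (totalDegree_mul _ _).trans (by omega)
  | zero => simp
  | add x y _ _ hx hy => rw [mul_add]; exact add_mem hx hy
  | neg x _ hx => rw [mul_neg]; exact neg_mem hx

/-- If `x^N ∈ U (N - 1)` for each coordinate then `U m ⊆ U E` for all `m`. -/
theorem U_le (N : Fin d → ℕ) (hN : ∀ i, 0 < N i)
    (hx : ∀ i, φ (X i) ^ (N i) ∈ U φ ψ (N i - 1)) (m : ℕ) : U φ ψ m ≤ U φ ψ (∑ i, N i) := by
  induction m using Nat.strong_induction_on with
  | _ m ih =>
    refine (AddSubgroup.closure_le _).2 ?_
    rintro r ⟨a, g, hg, rfl⟩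
    refine smul_U φ ψ a ?_
    rw [g.as_sum, map_sum]
    refine sum_mem fun γ hγ => ?_
    have hγm : γ.degree ≤ m := by
      refine le_trans ?_ hg
      exact le_totalDegree hγ
    by_cases hle : γ.degree ≤ ∑ i, N i
    · exact mem_U φ ψ ((totalDegree_monomial_le _ _).trans hle)
    · obtain ⟨i, hi⟩ : ∃ i, N i ≤ γ i := by
        by_contra hcon
        push Not at hcon
        apply hle
        rw [Finsupp.degree_eq_sum]
        exact Finset.sum_le_sum fun i _ => (hcon i).le
      have hγ' : γ = Finsupp.single i (N i) + (γ - Finsupp.single i (N i)) := by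
        ext j
        by_cases hj : j = i
        · subst hj
          simp
          omega
        · simp [Ne.symm hj]
      have hsplit : monomial γ (coeff γ g) =
          X i ^ (N i) * monomial (γ - Finsupp.single i (N i)) (coeff γ g) := by
        rw [X_pow_eq_monomial, monomial_mul, one_mul, ← hγ']
      have hdeg : (γ - Finsupp.single i (N i)).degree + N i = γ.degree := by
        conv_rhs => rw [hγ']
        rw [map_add, Finsupp.degree_single, add_comm]
      have h1 : φ (monomial (γ - Finsupp.single i (N i)) (coeff γ g)) * φ (X i) ^ (N i) ∈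
          U φ ψ ((N i - 1) + (γ - Finsupp.single i (N i)).degree) :=
        mul_U φ ψ (totalDegree_monomial_le _ _) (hx i)
      have h2 : (N i - 1) + (γ - Finsupp.single i (N i)).degree < m := by
        have := hN i
        omega
      rw [hsplit, map_mul, map_pow, mul_comm]
      exact ih _ h2 h1

/-- `z ^ j` is `(-1)^j x^(M j)` up to lower terms, where `z = y - x ^ M`. -/
theorem pow_mem {i : Fin d} {M : ℕ} {z : R} (hz : ψ (X i) = φ (X i) ^ M + z) (j : ℕ) :
    z ^ j ∈ U φ ψ (M * j) ∧
      z ^ (j + 1) - (-1) ^ (j + 1) * φ (X i) ^ (M * (j + 1)) ∈ U φ ψ (M * j) := by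
  have hx : ∀ n, (X i ^ n : MvPolynomial (Fin d) k).totalDegree ≤ n := fun n =>
    (totalDegree_pow _ _).trans (by rw [totalDegree_X, mul_one])
  have hz' : z = ψ (X i) - φ (X i) ^ M := by rw [hz]; ring
  have step : ∀ m (r : R), r ∈ U φ ψ m → z * r ∈ U φ ψ (m + M) := by
    intro m r hr
    rw [hz', sub_mul]
    refine sub_mem (U_mono φ ψ (by omega) (smul_U φ ψ _ hr)) ?_
    rw [← map_pow]
    exact mul_U φ ψ (hx M) hr
  induction j with
  | zero =>
    refine ⟨?_, ?_⟩
    · rw [pow_zero, ← map_one φ]
      exact mem_U φ ψ (by simp)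
    · have : z ^ (0 + 1) - (-1) ^ (0 + 1) * φ (X i) ^ (M * (0 + 1)) = ψ (X i) * φ 1 := by
        rw [hz']
        simp
      rw [this]
      exact smul_U φ ψ _ (mem_U φ ψ (by simp))
  | succ j ih =>
    have e1 : z ^ (j + 1) ∈ U φ ψ (M * (j + 1)) := by
      rw [pow_succ', mul_add, mul_one]
      exact step _ _ ih.1
    refine ⟨e1, ?_⟩
    have : z ^ (j + 1 + 1) - (-1) ^ (j + 1 + 1) * φ (X i) ^ (M * (j + 1 + 1)) =
        z * (z ^ (j + 1) - (-1) ^ (j + 1) * φ (X i) ^ (M * (j + 1))) +
          ψ (X i) * φ ((-1) ^ (j + 1) * X i ^ (M * (j + 1))) := by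
      rw [map_mul, map_pow, map_pow, map_neg, map_one, hz]
      ring
    rw [this]
    refine add_mem ?_ (smul_U φ ψ _ (mem_U φ ψ ?_))
    · rw [mul_add M j 1, mul_one]
      exact step _ _ ih.2
    · refine (totalDegree_mul _ _).trans ?_
      have h1 : ((-1) ^ (j + 1) : MvPolynomial (Fin d) k).totalDegree = 0 := by
        have : ((-1) ^ (j + 1) : MvPolynomial (Fin d) k) = C ((-1) ^ (j + 1)) := by simp
        rw [this, totalDegree_C]
      rw [h1, zero_add]
      exact hx _

/-- Perturbation of a Noether normalisation by high powers. -/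
theorem finite_perturb [Nontrivial R] (φ : MvPolynomial (Fin d) k →ₐ[k] R)
    (hφ : φ.toRingHom.Finite) (z : Fin d → R) :
    ∃ B : ℕ, ∀ M, B < M →
      (aeval (fun i => φ (X i) ^ M + z i) : MvPolynomial (Fin d) k →ₐ[k] R).toRingHom.Finite := by
  classical
  have hint : ∀ i, ∃ q : Polynomial (MvPolynomial (Fin d) k), q.Monic ∧
      q.eval₂ φ.toRingHom (z i) = 0 := fun i => hφ.to_isIntegral (z i)
  choose q hqm hq using hint
  refine ⟨∑ i, ∑ j ∈ Finset.range ((q i).natDegree + 1), ((q i).coeff j).totalDegree, ?_⟩
  intro M hM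
  set ψ : MvPolynomial (Fin d) k →ₐ[k] R := aeval (fun i => φ (X i) ^ M + z i) with hψ
  have hψX : ∀ i, ψ (X i) = φ (X i) ^ M + z i := fun i => by rw [hψ, aeval_X]
  have hdeg : ∀ i j, ((q i).coeff j).totalDegree < M := by
    intro i j
    by_cases hj : j ≤ (q i).natDegree
    · refine lt_of_le_of_lt ?_ hM
      refine le_trans ?_ (Finset.single_le_sum (f := fun i => ∑ j ∈ Finset.range
        ((q i).natDegree + 1), ((q i).coeff j).totalDegree) (fun _ _ => Nat.zero_le _)
        (Finset.mem_univ i))
      exact Finset.single_le_sum (f := fun j => ((q i).coeff j).totalDegree)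
        (fun _ _ => Nat.zero_le _) (Finset.mem_range.2 (by omega))
    · rw [Polynomial.coeff_eq_zero_of_natDegree_lt (by omega), totalDegree_zero]
      omega
  have hn : ∀ i, 0 < (q i).natDegree := by
    intro i
    by_contra hcon
    have h0 : (q i).natDegree = 0 := by omega
    have h1 : q i = 1 := Polynomial.eq_one_of_monic_natDegree_zero (hqm i) h0
    have h2 := hq i
    rw [h1, Polynomial.eval₂_one] at h2
    exact one_ne_zero h2
  have hM0 : 0 < M := by omega
  have key : ∀ i, φ (X i) ^ (M * (q i).natDegree) ∈ U φ ψ (M * (q i).natDegree - 1) := by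
    intro i
    obtain ⟨n, hn'⟩ : ∃ n, (q i).natDegree = n + 1 := ⟨(q i).natDegree - 1, by
      have := hn i; omega⟩
    have h1 := hq i
    rw [Polynomial.eval₂_eq_sum_range, hn', Finset.sum_range_succ, ← hn',
      (hqm i).coeff_natDegree, map_one, one_mul, hn'] at h1
    have h2 := (pow_mem φ ψ (hψX i) n).2
    have h3 : ∑ j ∈ Finset.range (n + 1), φ.toRingHom ((q i).coeff j) * z i ^ j ∈
        U φ ψ (M * n + (M - 1)) := by
      refine sum_mem fun j hj => ?_
      have hj' : j ≤ n := by simpa [Nat.lt_succ_iff] using hj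
      have h4 : φ ((q i).coeff j) * z i ^ j ∈
          U φ ψ (M * j + ((q i).coeff j).totalDegree) :=
        mul_U φ ψ le_rfl (pow_mem φ ψ (hψX i) j).1
      refine U_mono φ ψ ?_ h4
      have := hdeg i j
      have := Nat.mul_le_mul_left M hj'
      omega
    have h5 : (-1) ^ (n + 1) * φ (X i) ^ (M * (n + 1)) ∈ U φ ψ (M * n + (M - 1)) := by
      have : (-1) ^ (n + 1) * φ (X i) ^ (M * (n + 1)) =
          - (∑ j ∈ Finset.range (n + 1), φ.toRingHom ((q i).coeff j) * z i ^ j) -
          (z i ^ (n + 1) - (-1) ^ (n + 1) * φ (X i) ^ (M * (n + 1))) := by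
        linear_combination h1
      rw [this]
      exact sub_mem (neg_mem h3) (U_mono φ ψ (by omega) h2)
    have h6 : φ (X i) ^ (M * (n + 1)) ∈ U φ ψ (M * n + (M - 1)) := by
      rcases neg_one_pow_eq_or R (n + 1) with h | h
      · rw [h, one_mul] at h5
        exact h5
      · rw [h, neg_one_mul] at h5
        simpa using neg_mem h5
    rw [hn']
    refine U_mono φ ψ ?_ h6
    have : M * (n + 1) = M * n + M := by ring
    omega
  have hU : ∀ m, U φ ψ m ≤ U φ ψ (∑ i, M * (q i).natDegree) :=
    U_le φ ψ _ (fun i => Nat.mul_pos hM0 (hn i)) key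
  set E := ∑ i, M * (q i).natDegree with hE
  -- finiteness
  obtain ⟨W, hW⟩ : ∃ W : Finset R, ∀ r : R, ∃ c : R → MvPolynomial (Fin d) k,
      r = ∑ w ∈ W, φ (c w) * w := by
    let _ := φ.toRingHom.toAlgebra
    have hfin : Module.Finite (MvPolynomial (Fin d) k) R := hφ
    obtain ⟨W, hW⟩ := hfin.fg_top
    refine ⟨W, fun r => ?_⟩
    have hr : r ∈ Submodule.span (MvPolynomial (Fin d) k) (W : Set R) := hW ▸ Submodule.mem_top
    obtain ⟨c, -, hc⟩ := Submodule.mem_span_finset.1 hr
    exact ⟨c, hc.symm⟩
  let _ := ψ.toRingHom.toAlgebra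
  have hsm : ∀ (a : MvPolynomial (Fin d) k) (r : R), a • r = ψ a * r := fun a r => rfl
  have hfinset : {β : Fin d →₀ ℕ | β.degree ≤ E}.Finite := Finsupp.finite_of_degree_le E
  set B := hfinset.toFinset with hB
  let T : Submodule (MvPolynomial (Fin d) k) R :=
    Submodule.span _ (↑(Finset.image₂ (fun β w => φ (monomial β 1) * w) B W) : Set R)
  have hT1 : ∀ w ∈ W, ∀ r ∈ U φ ψ E, r * w ∈ T := by
    intro w hw r hr
    induction hr using AddSubgroup.closure_induction with
    | mem x hx =>
      obtain ⟨a, g, hg, rfl⟩ := hx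
      rw [mul_assoc, ← hsm]
      refine Submodule.smul_mem _ _ ?_
      rw [g.as_sum, map_sum, Finset.sum_mul]
      refine Submodule.sum_mem _ fun γ hγ => ?_
      have hγm : γ.degree ≤ E := le_trans (le_totalDegree hγ) hg
      have : φ (monomial γ (coeff γ g)) * w = (C (coeff γ g) : MvPolynomial (Fin d) k) •
          (φ (monomial γ 1) * w) := by
        rw [hsm]
        have h1 : ψ (C (coeff γ g)) = φ (C (coeff γ g)) := by
          rw [← algebraMap_eq, AlgHom.commutes, AlgHom.commutes]
        rw [h1, ← mul_assoc, ← map_mul, C_mul_monomial, mul_one]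
      rw [this]
      refine Submodule.smul_mem _ _ (Submodule.subset_span ?_)
      exact Finset.mem_coe.2 (Finset.mem_image₂.2 ⟨γ, by simpa [hB] using hγm, w, hw, rfl⟩)
    | zero => simp
    | add x y _ _ hx hy => rw [add_mul]; exact add_mem hx hy
    | neg x _ hx => rw [neg_mul]; exact neg_mem hx
  have hT : T = ⊤ := by
    rw [eq_top_iff]
    rintro r -
    obtain ⟨c, hc⟩ := hW r
    rw [hc]
    refine Submodule.sum_mem _ fun w hw => hT1 w hw _ ?_
    exact hU _ (mem_U φ ψ le_rfl)
  exact ⟨⟨_, hT⟩⟩

section diff

open KaehlerDifferential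

/-- The differentials of a separating set span `Ω`. -/
theorem span_D_of_sep {k K : Type*} [Field k] [Field K] [Algebra k K] (s : Set K)
    [Algebra.IsSeparable (IntermediateField.adjoin k s) K] :
    Submodule.span K (KaehlerDifferential.D k K '' s) = ⊤ := by
  set N := Submodule.span K (KaehlerDifferential.D k K '' s) with hN
  have h1 : ∀ l ∈ IntermediateField.adjoin k s, KaehlerDifferential.D k K l ∈ N := by
    intro l hl
    induction hl using IntermediateField.adjoin_induction with
    | mem x hx => exact Submodule.subset_span ⟨x, hx, rfl⟩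
    | algebraMap x => simp
    | add x y _ _ hx hy => rw [map_add]; exact N.add_mem hx hy
    | inv x _ hx =>
      by_cases h0 : x = 0
      · simp [h0]
      · have h2 : KaehlerDifferential.D k K (x * x⁻¹) = 0 := by
          rw [mul_inv_cancel₀ h0]
          simp
        rw [Derivation.leibniz] at h2
        have h3 : KaehlerDifferential.D k K x⁻¹ = -(x⁻¹ * x⁻¹) • KaehlerDifferential.D k K x := by
          have h4 : x • KaehlerDifferential.D k K x⁻¹ = -(x⁻¹ • KaehlerDifferential.D k K x) :=
            eq_neg_of_add_eq_zero_left h2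
          have h5 := congrArg (fun t => x⁻¹ • t) h4
          simp only [smul_smul, inv_mul_cancel₀ h0, one_smul, smul_neg] at h5
          rw [h5, neg_smul]
        rw [h3]
        exact N.smul_mem _ hx
    | mul x y _ _ hx hy =>
      rw [Derivation.leibniz]
      exact N.add_mem (N.smul_mem _ hy) (N.smul_mem _ hx)
  have h2 : ∀ t, KaehlerDifferential.mapBaseChange k (IntermediateField.adjoin k s) K t ∈ N := by
    intro t
    induction t with
    | zero => simp
    | tmul r u =>
      rw [mapBaseChange_tmul]
      refine N.smul_mem _ ?_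
      have hu : u ∈ Submodule.span (IntermediateField.adjoin k s)
          (Set.range (KaehlerDifferential.D k (IntermediateField.adjoin k s))) := by
        rw [span_range_derivation]
        exact Submodule.mem_top
      induction hu using Submodule.span_induction with
      | mem x hx =>
        obtain ⟨l, rfl⟩ := hx
        rw [KaehlerDifferential.map_D]
        exact h1 _ l.2
      | zero => simp
      | add x y _ _ hx hy => rw [map_add]; exact N.add_mem hx hy
      | smul a x _ hx =>
        rw [map_smul]
        exact N.smul_mem _ hx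
    | add x y hx hy =>
      rw [map_add]
      exact N.add_mem hx hy
  have := Algebra.FormallyUnramified.of_isSeparable (IntermediateField.adjoin k s) K
  rw [eq_top_iff]
  rintro w -
  have hw : KaehlerDifferential.map k (IntermediateField.adjoin k s) K K w = 0 :=
    Subsingleton.elim _ _
  obtain ⟨t, rfl⟩ :=
    (KaehlerDifferential.exact_mapBaseChange_map k (IntermediateField.adjoin k s) K w).1 hw
  exact h2 t

/-- The differentials of elements of `R` span `Ω_{K/k}`, `K = Frac R`. -/
theorem span_D_range {k R K : Type*} [Field k] [CommRing R] [IsDomain R] [Field K] [Algebra k K]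
    [Algebra R K] [IsFractionRing R K] :
    Submodule.span K (Set.range fun r : R => KaehlerDifferential.D k K (algebraMap R K r)) = ⊤ := by
  rw [eq_top_iff, ← span_range_derivation k K, Submodule.span_le]
  rintro _ ⟨x, rfl⟩
  obtain ⟨a, b, hb, rfl⟩ := IsFractionRing.div_surjective (A := R) x
  have hb0 : algebraMap R K b ≠ 0 := by
    simpa using nonZeroDivisors.ne_zero hb
  set N := Submodule.span K (Set.range fun r : R => KaehlerDifferential.D k K (algebraMap R K r))
    with hN
  have ha' : KaehlerDifferential.D k K (algebraMap R K a) ∈ N := Submodule.subset_span ⟨a, rfl⟩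
  have hb' : KaehlerDifferential.D k K (algebraMap R K b) ∈ N := Submodule.subset_span ⟨b, rfl⟩
  have h1 : algebraMap R K b • KaehlerDifferential.D k K (algebraMap R K a / algebraMap R K b) ∈
      N := by
    have h2 := Derivation.leibniz (KaehlerDifferential.D k K) (algebraMap R K b)
      (algebraMap R K a / algebraMap R K b)
    rw [mul_div_cancel₀ _ hb0] at h2
    rw [← sub_eq_iff_eq_add] at h2
    rw [← h2]
    exact N.sub_mem ha' (N.smul_mem _ hb')
  have h3 := N.smul_mem (algebraMap R K b)⁻¹ h1
  rwa [smul_smul, inv_mul_cancel₀ hb0, one_smul] at h3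

/-- Choice of `z`. -/
theorem exists_z {k R K : Type*} [Field k] [PerfectField k] [CommRing R] [IsDomain R] [Field K]
    [Algebra k K] [Algebra.EssFiniteType k K] [Algebra R K] [IsFractionRing R K] {d : ℕ}
    {x : Fin d → K} (hx : IsTranscendenceBasis k x) :
    ∃ z : Fin d → R, Submodule.span K
      (Set.range fun i => KaehlerDifferential.D k K (algebraMap R K (z i))) = ⊤ := by
  classical
  obtain ⟨s, hs, hsep⟩ := exists_isTranscendenceBasis_and_isSeparable_of_perfectField k K
  have hcard : s.card = d := by
    have := hs.lift_cardinalMk_eq hx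
    simpa using this
  have hspan := span_D_of_sep (k := k) (s : Set K)
  have hspan' : Submodule.span K
      (↑(s.image (KaehlerDifferential.D k K)) : Set (Ω[K⁄k])) = ⊤ := by
    rw [Finset.coe_image, hspan]
  have hfin : Module.Finite K (Ω[K⁄k]) := ⟨⟨_, hspan'⟩⟩
  have hrank : Module.finrank K (Ω[K⁄k]) ≤ d := by
    have h1 : Module.finrank K (Submodule.span K
        (↑(s.image (KaehlerDifferential.D k K)) : Set (Ω[K⁄k]))) ≤
        (s.image (KaehlerDifferential.D k K)).card := finrank_span_finset_le_card _
    rw [hspan', finrank_top] at h1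
    exact h1.trans (Finset.card_image_le.trans hcard.le)
  obtain ⟨b, hb1, hb2, hb3⟩ := exists_linearIndependent K
    (Set.range fun r : R => KaehlerDifferential.D k K (algebraMap R K r))
  rw [span_D_range] at hb2
  have hbfin : b.Finite := hb3.setFinite
  lift b to Finset (Ω[K⁄k]) using hbfin
  have hbcard : b.card ≤ d := by
    have := hb3.fintype_card_le_finrank
    simp only [Fintype.card_coe, SetLike.coe_sort_coe] at this
    omega
  choose! f hf using fun w (hw : w ∈ (b : Set (Ω[K⁄k]))) => hb1 hw
  let e := b.equivFin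
  refine ⟨fun i => if h : i.1 < b.card then f (e.symm ⟨i.1, h⟩ : b).1 else 0, ?_⟩
  rw [eq_top_iff, ← hb2]
  refine Submodule.span_mono ?_
  intro w hw
  have hw' : w ∈ b := hw
  refine ⟨⟨(e ⟨w, hw'⟩).1, lt_of_lt_of_le (e ⟨w, hw'⟩).2 hbcard⟩, ?_⟩
  simp only [Fin.is_lt, ↓reduceDIte, Fin.eta, Equiv.symm_apply_apply]
  exact hf w hw

end diff


/-- The primitive element part. -/
theorem exists_theta {k R : Type*} [Field k] [CommRing R] [IsDomain R] [Algebra k R]
    {d : ℕ} (ψ : MvPolynomial (Fin d) k →ₐ[k] R) (hinj : Function.Injective ψ)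
    (hfin : ψ.toRingHom.Finite) [Algebra.EssFiniteType k (FractionRing R)]
    (hspan : CharZero k ∨ Submodule.span (FractionRing R) (Set.range fun i =>
      KaehlerDifferential.D k (FractionRing R) (algebraMap R (FractionRing R) (ψ (X i)))) = ⊤) :
    ∃ (θ : R) (f : Polynomial (MvPolynomial (Fin d) k)), f.Monic ∧
      f.eval₂ ψ.toRingHom θ = 0 ∧ f.derivative.eval₂ ψ.toRingHom θ ≠ 0 ∧
      (∀ g : Polynomial (MvPolynomial (Fin d) k), g.degree < f.degree →
          g.eval₂ ψ.toRingHom θ = 0 → g = 0) ∧
      ∀ r : R, ∃ a : MvPolynomial (Fin d) k, a ≠ 0 ∧ ∃ g : Polynomial (MvPolynomial (Fin d) k),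
        ψ a * r = g.eval₂ ψ.toRingHom θ := by
  classical
  set A := MvPolynomial (Fin d) k with hA
  set K := FractionRing R with hK
  let algAR : Algebra A R := ψ.toRingHom.toAlgebra
  have hAR : algebraMap A R = ψ.toRingHom := rfl
  have : IsScalarTower k A R := IsScalarTower.of_algebraMap_eq' (by
    rw [hAR]; ext x; simp)
  have : Module.Finite A R := hfin
  have hfaith : FaithfulSMul A R := (faithfulSMul_iff_algebraMap_injective A R).2 hinj
  have : IsScalarTower A R K := inferInstance
  have : IsScalarTower k A K := inferInstance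
  have hinjK : Function.Injective (algebraMap A K) := by
    rw [IsScalarTower.algebraMap_eq A R K]
    exact (IsFractionRing.injective R K).comp hinj
  have hfaithK : FaithfulSMul A K := (faithfulSMul_iff_algebraMap_injective A K).2 hinjK
  set L := FractionRing A with hL
  let algLK : Algebra L K := FractionRing.liftAlgebra A K
  have : IsScalarTower A L K := FractionRing.isScalarTower_liftAlgebra A K
  have : IsScalarTower k L K := IsScalarTower.to₁₃₄ k A L K
  have hess : Algebra.EssFiniteType L K := Algebra.EssFiniteType.of_comp k L K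
  have halg : Algebra.IsAlgebraic A R := inferInstance
  have hsep : Algebra.IsSeparable L K := by
    rcases hspan with hchar | hspan
    · have hcharL : CharZero L := charZero_of_injective_algebraMap (algebraMap k L).injective
      have : Algebra.IsAlgebraic L K := by
        have h1 : Algebra.IsAlgebraic A K := (IsFractionRing.isAlgebraic_iff' A R K).1 halg
        exact Algebra.IsAlgebraic.extendScalars (FaithfulSMul.algebraMap_injective A L)
      infer_instance
    · have hun : Algebra.FormallyUnramified A K := by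
        refine ⟨?_⟩
        refine ⟨fun u v => ?_⟩
        suffices h : ∀ u : Ω[K⁄A], u = 0 by rw [h u, h v]
        intro u
        obtain ⟨w, rfl⟩ := KaehlerDifferential.map_surjective k A K u
        have hw : w ∈ Submodule.span K (Set.range fun i =>
          KaehlerDifferential.D k K (algebraMap R K (ψ (X i)))) := by
          rw [hspan]
          exact Submodule.mem_top
        induction hw using Submodule.span_induction with
        | mem x hx =>
          obtain ⟨i, rfl⟩ := hx
          rw [KaehlerDifferential.map_D]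
          have : algebraMap K K (algebraMap R K (ψ (X i))) = algebraMap A K (X i) := by
            rw [IsScalarTower.algebraMap_apply A R K]
            rfl
          rw [this]
          exact Derivation.map_algebraMap _ _
        | zero => simp
        | add x y _ _ hx hy => rw [map_add, hx, hy, add_zero]
        | smul a x _ hx => rw [map_smul, hx, smul_zero]
      have hunL : Algebra.FormallyUnramified L K :=
        Algebra.FormallyUnramified.of_restrictScalars A L K
      exact Algebra.FormallyUnramified.isSeparable L K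
  have hunL : Algebra.FormallyUnramified L K := Algebra.FormallyUnramified.of_isSeparable L K
  have hfinLK : Module.Finite L K := Algebra.FormallyUnramified.finite_of_free (R := L) (S := K)
  obtain ⟨α, hα⟩ := Field.exists_primitive_element L K
  obtain ⟨r, s, hs, hrs⟩ := IsFractionRing.div_surjective (A := R) α
  obtain ⟨θ, a, ha, hθ⟩ := (Algebra.IsAlgebraic.isAlgebraic (R := A) s).exists_smul_eq_mul r hs
  have hs0 : algebraMap R K s ≠ 0 := by simpa using nonZeroDivisors.ne_zero hs
  have ha0 : algebraMap A K a ≠ 0 := by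
    rw [Ne, ← map_zero (algebraMap A K)]
    exact fun h => ha (hinjK h)
  have hαθ : algebraMap A K a * α = algebraMap R K θ := by
    rw [← hrs]
    have h1 := congrArg (algebraMap R K) hθ
    rw [Algebra.smul_def, map_mul, map_mul, ← IsScalarTower.algebraMap_apply] at h1
    rw [mul_div_assoc', div_eq_iff hs0]
    linear_combination h1
  have hint : IsIntegral A θ := Algebra.IsIntegral.isIntegral θ
  have htop : Algebra.adjoin L {algebraMap R K θ} = ⊤ := by
    have h1 : IntermediateField.adjoin L {algebraMap R K θ} = ⊤ := by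
      rw [eq_top_iff, ← hα, IntermediateField.adjoin_le_iff, Set.singleton_subset_iff]
      have h2 : α = algebraMap L K (algebraMap A L a)⁻¹ * algebraMap R K θ := by
        rw [← hαθ, map_inv₀, ← IsScalarTower.algebraMap_apply, ← mul_assoc,
          inv_mul_cancel₀ ha0, one_mul]
      have h3 : algebraMap L K (algebraMap A L a)⁻¹ * algebraMap R K θ ∈
          IntermediateField.adjoin L {algebraMap R K θ} :=
        mul_mem (IntermediateField.algebraMap_mem _ _)
          (IntermediateField.mem_adjoin_simple_self L _)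
      rw [← h2] at h3
      exact h3
    rw [← IntermediateField.adjoin_eq_top_iff_of_isAlgebraic]
    · exact h1
    · intro x _
      exact Algebra.IsAlgebraic.isAlgebraic x
  have hmin := minpoly.isIntegrallyClosed_eq_field_fractions L K hint
  refine ⟨θ, minpoly A θ, minpoly.monic hint, minpoly.aeval A θ, ?_, ?_, ?_⟩
  · intro h0
    have h1 := (Algebra.IsSeparable.isSeparable L (algebraMap R K θ)).aeval_derivative_ne_zero
      (by exact minpoly.aeval L (algebraMap R K θ))
    apply h1
    rw [hmin, Polynomial.derivative_map, Polynomial.aeval_map_algebraMap,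
      Polynomial.aeval_algebraMap_apply]
    have h2 : Polynomial.aeval θ (Polynomial.derivative (minpoly A θ)) = 0 := h0
    rw [h2, map_zero]
  · intro g hg hg0
    by_contra hne
    have h1 := minpoly.IsIntegrallyClosed.degree_le_of_ne_zero (s := θ) hne hg0
    exact absurd h1 (not_le.2 hg)
  · intro r
    have hr : algebraMap R K r ∈ Algebra.adjoin L {algebraMap R K θ} := by
      rw [htop]
      exact Algebra.mem_top
    rw [Algebra.adjoin_singleton_eq_range_aeval] at hr
    obtain ⟨g, hg⟩ := hr
    obtain ⟨b, hb, hgb⟩ := IsLocalization.integerNormalization_spec (nonZeroDivisors A) g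
    refine ⟨b, nonZeroDivisors.ne_zero hb,
      IsLocalization.integerNormalization (nonZeroDivisors A) g, ?_⟩
    apply IsFractionRing.injective R K
    have h1 : ψ b = algebraMap A R b := rfl
    have h2 : Polynomial.eval₂ ψ.toRingHom θ
        (IsLocalization.integerNormalization (nonZeroDivisors A) g) =
        Polynomial.aeval θ (IsLocalization.integerNormalization (nonZeroDivisors A) g) := rfl
    rw [h2, ← Polynomial.aeval_algebraMap_apply, ← Polynomial.aeval_map_algebraMap L, hgb,
      map_mul, h1, ← IsScalarTower.algebraMap_apply, ← hg, Algebra.smul_def]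
    rw [IsScalarTower.algebraMap_apply A L (Polynomial L), map_mul]
    congr 1
    rw [← IsScalarTower.algebraMap_apply]
    simp [IsScalarTower.algebraMap_apply A L K]

end NN

open Polynomial in
/-- **Separable Noether normalisation.** -/
theorem exists_separable_noether (k R : Type*) [Field k] [PerfectField k] [CommRing R] [IsDomain R]
    [Algebra k R] [Algebra.FiniteType k R] :
    ∃ (d : ℕ) (ψ : MvPolynomial (Fin d) k →ₐ[k] R), Function.Injective ψ ∧
      (ψ : MvPolynomial (Fin d) k →+* R).Finite ∧
      ∃ (θ : R) (f : (MvPolynomial (Fin d) k)[X]), f.Monic ∧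
        eval₂ (ψ : MvPolynomial (Fin d) k →+* R) θ f = 0 ∧
        eval₂ (ψ : MvPolynomial (Fin d) k →+* R) θ (derivative f) ≠ 0 ∧
        (∀ g : (MvPolynomial (Fin d) k)[X], g.degree < f.degree →
          eval₂ (ψ : MvPolynomial (Fin d) k →+* R) θ g = 0 → g = 0) ∧
        ∀ r : R, ∃ a : MvPolynomial (Fin d) k, a ≠ 0 ∧ ∃ g : (MvPolynomial (Fin d) k)[X],
          ψ a * r = eval₂ (ψ : MvPolynomial (Fin d) k →+* R) θ g := by
  classical
  obtain ⟨d, φ, hφinj, hφfin⟩ := exists_finite_inj_algHom_of_fg k R
  have hφfin' : φ.toRingHom.Finite := hφfin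
  rcases CharP.exists' k with hchar | ⟨p, hp, hchar⟩
  · obtain ⟨θ, f, h⟩ := NN.exists_theta φ hφinj hφfin' (Or.inl hchar)
    exact ⟨d, φ, hφinj, hφfin', θ, f, h⟩
  set K := FractionRing R with hK
  have hcharR : CharP R p := charP_of_injective_algebraMap (algebraMap k R).injective p
  have hcharK : CharP K p := charP_of_injective_algebraMap (algebraMap k K).injective p
  -- transcendence basis
  have halg : ∀ χ : MvPolynomial (Fin d) k →ₐ[k] R, χ.toRingHom.Finite →
      Algebra.IsAlgebraic (Algebra.adjoin k (Set.range (fun i => algebraMap R K (χ (MvPolynomial.X i))))) K := by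
    intro χ hχ
    set S := Algebra.adjoin k (Set.range (fun i => algebraMap R K (χ (MvPolynomial.X i)))) with hS
    have hmem : ∀ g : MvPolynomial (Fin d) k, algebraMap R K (χ g) ∈ S := by
      intro g
      have h1 : algebraMap R K (χ g) = MvPolynomial.aeval (fun i => algebraMap R K (χ (MvPolynomial.X i))) g := by
        exact DFunLike.congr_fun
          (MvPolynomial.aeval_unique ((IsScalarTower.toAlgHom k R K).comp χ)) g
      rw [h1, hS, Algebra.adjoin_range_eq_range_aeval]
      exact ⟨g, rfl⟩
    have hR : ∀ r : R, IsAlgebraic S (algebraMap R K r) := by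
      intro r
      obtain ⟨f, hf, hfr⟩ := hχ.to_isIntegral r
      let j : MvPolynomial (Fin d) k →+* S :=
        ((algebraMap R K).comp χ.toRingHom).codRestrict S hmem
      apply IsIntegral.isAlgebraic
      refine ⟨f.map j, hf.map _, ?_⟩
      rw [Polynomial.eval₂_map]
      have hj : (algebraMap S K).comp j = (algebraMap R K).comp χ.toRingHom := by
        ext x <;> rfl
      rw [hj, ← Polynomial.hom_eval₂, hfr, map_zero]
    refine ⟨fun x => ?_⟩
    obtain ⟨a, b, hb, rfl⟩ := IsFractionRing.div_surjective (A := R) x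
    rw [div_eq_mul_inv]
    exact (hR a).mul (hR b).inv
  have hbasis : IsTranscendenceBasis k (fun i => algebraMap R K (φ (MvPolynomial.X i))) := by
    have := halg φ hφfin'
    refine (AlgebraicIndependent.isTranscendenceBasis_iff_isAlgebraic ?_).2 this
    rw [algebraicIndependent_iff_injective_aeval]
    have h1 : (MvPolynomial.aeval (fun i => algebraMap R K (φ (MvPolynomial.X i))) : MvPolynomial (Fin d) k →ₐ[k] K) =
        (IsScalarTower.toAlgHom k R K).comp φ :=
      (MvPolynomial.aeval_unique ((IsScalarTower.toAlgHom k R K).comp φ)).symm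
    rw [h1]
    exact (IsFractionRing.injective R K).comp hφinj
  obtain ⟨z, hz⟩ := NN.exists_z (R := R) hbasis
  obtain ⟨B, hB⟩ := NN.finite_perturb φ hφfin' z
  have hp : p.Prime := Fact.out
  have hM : B < p * (B + 1) := by
    have := hp.two_le
    nlinarith
  set ψ : MvPolynomial (Fin d) k →ₐ[k] R := MvPolynomial.aeval (fun i => φ (MvPolynomial.X i) ^ (p * (B + 1)) + z i) with hψ
  have hψfin : ψ.toRingHom.Finite := hB _ hM
  have hψX : ∀ i, ψ (MvPolynomial.X i) = φ (MvPolynomial.X i) ^ (p * (B + 1)) + z i := fun i => by rw [hψ, MvPolynomial.aeval_X]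
  have hψinj : Function.Injective ψ := by
    have := halg ψ hψfin
    have h1 : IsTranscendenceBasis k (fun i => algebraMap R K (ψ (MvPolynomial.X i))) := by
      refine Algebra.IsAlgebraic.isTranscendenceBasis_of_lift_le_trdeg_of_finite k _ ?_
      rw [← hbasis.lift_cardinalMk_eq_trdeg]
    have h2 := h1.1
    rw [algebraicIndependent_iff_injective_aeval] at h2
    have h3 : (MvPolynomial.aeval (fun i => algebraMap R K (ψ (MvPolynomial.X i))) : MvPolynomial (Fin d) k →ₐ[k] K) =
        (IsScalarTower.toAlgHom k R K).comp ψ :=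
      (MvPolynomial.aeval_unique ((IsScalarTower.toAlgHom k R K).comp ψ)).symm
    rw [h3] at h2
    intro u v huv
    apply h2
    change algebraMap R K (ψ u) = algebraMap R K (ψ v)
    rw [huv]
  refine ⟨d, ψ, hψinj, hψfin, ?_⟩
  refine NN.exists_theta ψ hψinj hψfin (Or.inr ?_)
  rw [← hz]
  congr 2
  ext i
  rw [hψX, map_add, map_add, map_pow, Derivation.leibniz_pow]
  have h0 : ((p * (B + 1) : ℕ) : K) = 0 := by
    rw [Nat.cast_mul, CharP.cast_eq_zero K p, zero_mul]
  rw [← Nat.cast_smul_eq_nsmul K, h0, zero_smul, zero_add]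

end FJ

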