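import Pool.Agent.Lib.MP_400390_ag.GeomAT
import Pool.Agent.Lib.MP_400390_ag.Assemble
import Pool.Agent.Lib.MP_400390_ag.Noether
import Pool.Agent.Lib.MP_400390_ag.Jumping
import Pool.Agent.Lib.MP_400390_ag.Canonical
import Pool.Agent.Lib.MP_400390_ag.FinalDefs

/-!
# From the scheme-level definitions to the ring-level theorems
-/

namespace FJ

open AlgebraicGeometry CategoryTheory

universe u

/-- **Claim A** for a domain of finite type over a perfect field. -/
theorem qCartier_of_asymptoticallyCartier (k : Type*) [Field k] [PerfectField k] (p : ℕ)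
    [Fact p.Prime] [CharP k p] {R K ι : Type*} [CommRing R] [IsDomain R] [Algebra k R]
    [Algebra.FiniteType k R] [Field K] [Algebra R K] [IsFractionRing R K] {ord : ι → K → ℤ}
    (h : KrullData R K ι ord) (hF : StronglyFRegular p h) {D : ι → ℤ}
    (hDfin : {P | D P ≠ 0}.Finite) (hD : AsymptoticallyCartier h D) : QCartier h D := by
  obtain ⟨d, ψ, hψ, hψf, θ, f, hf, hfθ, hf', hind, hgen⟩ := exists_separable_noether k R
  let : Algebra (MvPolynomial (Fin d) k) R := ψ.toRingHom.toAlgebra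
  let : Algebra (MvPolynomial (Fin d) k) K := ((algebraMap R K).comp ψ.toRingHom).toAlgebra
  have : IsScalarTower (MvPolynomial (Fin d) k) R K := IsScalarTower.of_algebraMap_eq fun _ => rfl
  have : Module.Finite (MvPolynomial (Fin d) k) R := hψf
  have hN : NoetherData (MvPolynomial (Fin d) k) R θ f :=
    { monic := hf
      root := hfθ
      indep := hind
      gen := by
        intro r
        obtain ⟨a, ha, g, hg⟩ := hgen r
        refine ⟨a, ?_, g, hg⟩
        intro h0
        exact ha (hψ (by rw [map_zero]; exact h0))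
      sep := hf' }
  have : CharP R p := by
    have := charP_of_injective_algebraMap (algebraMap k R).injective p
    exact this
  have : CharP K p := charP_of_injective_algebraMap (IsFractionRing.injective R K) p
  exact qCartier_of_noetherData hψ hN (fun e => FrobDB.mvPolynomial k p e d) h hF hDfin hD

section scheme

variable {X : Scheme.{u}} [IsIntegral X] [IsLocallyNoetherian X]
  (hn : ∀ x : X, IsIntegrallyClosed (X.presheaf.stalk x)) {U : X.Opens} (hU : IsAffineOpen U)
  [Nonempty U]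

theorem mem_secs_iff (D : X → ℤ) (f : X.functionField) :
    f ∈ secs D U ↔ f ∈ (krullData_affine X hn U hU).RD (fun x => D x.1) := by
  rw [KrullData.mem_RD]
  constructor
  · rintro hf hf0 ⟨x, hxU, hx⟩
    exact hf hf0 x hxU hx
  · intro hf hf0 x hxU hx
    exact hf hf0 ⟨x, hxU, hx⟩

theorem mem_FHom_iff (p e : ℕ) (D : X → ℤ) (φ : X.functionField →+ X.functionField) :
    φ ∈ FHom p e D U ↔
      IsPL (p ^ e) φ ∧ Maps (krullData_affine X hn U hU) φ (fun x => D x.1) 0 := by
  have h0 : ∀ f, f ∈ secs (0 : X → ℤ) U ↔ f ∈ (krullData_affine X hn U hU).RD 0 :=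
    fun f => mem_secs_iff hn hU 0 f
  constructor
  · rintro ⟨h1, h2⟩
    refine ⟨h1, fun f hf => ?_⟩
    exact (h0 _).1 (h2 f ((mem_secs_iff hn hU D f).2 hf))
  · rintro ⟨h1, h2⟩
    refine ⟨h1, fun f hf => ?_⟩
    exact (h0 _).2 (h2 f ((mem_secs_iff hn hU D f).1 hf))

theorem stronglyFRegular_of_scheme {p : ℕ} (hF : IsStronglyFRegular X p) :
    StronglyFRegular p (krullData_affine X hn U hU) := by
  intro c hc hc0
  obtain ⟨e, he, φ, hφ, hφc⟩ := hF U hU inferInstance c ((mem_secs_iff hn hU 0 c).2 hc) hc0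
  obtain ⟨h1, h2⟩ := (mem_FHom_iff hn hU p e 0 φ).1 hφ
  exact ⟨e, he, φ, h1, h2, hφc⟩

theorem isCompat_iff (p : ℕ) (Δ : X → ℝ) (J : Ideal Γ(X, U)) :
    IsCompat p Δ U J ↔ TestCompatible p (krullData_affine X hn U hU) (fun x => Δ x.1) J := by
  constructor
  · intro h e he φ hφ hφm a ha
    exact h e he φ ((mem_FHom_iff hn hU p e _ φ).2 ⟨hφ, hφm⟩) a ha
  · intro h e he φ hφ a ha
    obtain ⟨h1, h2⟩ := (mem_FHom_iff hn hU p e _ φ).1 hφ
    exact h e he φ h1 h2 a ha

theorem isTau_iff (p : ℕ) (Δ : X → ℝ) (J : Ideal Γ(X, U)) :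
    IsTau p Δ U J ↔ IsTestIdeal p (krullData_affine X hn U hU) (fun x => Δ x.1) J := by
  unfold IsTau IsTestIdeal
  simp only [isCompat_iff hn hU]

theorem isCanonical_of_scheme {k : Type u} [Field k] (s : X ⟶ Spec (.of k)) {D : X → ℤ}
    (hD : IsCanonicalDiv s D) :
    letI : Algebra k Γ(X, U) := (structMap s U).toAlgebra
    IsCanonical k (krullData_affine X hn U hU) (fun x => D x.1) := by
  let : Algebra k Γ(X, U) := (structMap s U).toAlgebra
  obtain ⟨hfin, d, ψ, hψ, hψf, hψC, Θ, hΘ, hΘadd, hΘsmul⟩ := hD U hU inferInstance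
  refine ⟨?_, d, { toRingHom := ψ, commutes' := hψC }, hψ, hψf, Θ, ?_, ?_, ?_, ?_, ?_, ?_⟩
  · refine Set.Finite.of_finite_image (f := fun x => x.1) (hfin.subset ?_)
      (Subtype.val_injective.injOn)
    rintro _ ⟨⟨x, hxU, hx⟩, hDx, rfl⟩
    exact ⟨hxU, hx, hDx⟩
  · intro w hw
    exact (hΘ.mapsTo ((mem_secs_iff hn hU D w).2 hw)).1
  · intro w hw
    exact (hΘ.mapsTo ((mem_secs_iff hn hU D w).2 hw)).2
  · intro w hw w' hw' x
    rw [hΘadd w ((mem_secs_iff hn hU D w).2 hw) w' ((mem_secs_iff hn hU D w').2 hw')]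
    rfl
  · intro w hw r x
    rw [hΘsmul w ((mem_secs_iff hn hU D w).2 hw) r]
  · intro w hw h0
    have h00 : (0 : X.functionField) ∈ secs D U := fun h => (h rfl).elim
    have h1 : Θ 0 = 0 := by
      have h2 := hΘadd 0 h00 0 h00
      rw [add_zero] at h2
      exact left_eq_add.1 h2
    refine hΘ.injOn ((mem_secs_iff hn hU D w).2 hw) h00 ?_
    rw [h1]
    funext x
    exact h0 x
  · intro f hf1 hf2
    obtain ⟨w, hw, hw'⟩ := hΘ.surjOn (show f ∈ {g | (∀ x y, g (x + y) = g x + g y) ∧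
      ∀ a x, g (ψ a * x) = a * g x} from ⟨hf1, hf2⟩)
    exact ⟨w, (mem_secs_iff hn hU D w).1 hw, hw'⟩

end scheme

end FJ
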