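import Pool.Agent.Lib.MP_400390_ag.TestDefs

/-!
# The prime divisors of a noetherian normal domain form a `KrullData`
-/

namespace FJ

open scoped BigOperators
open IsLocalRing

/-- A noetherian local normal domain, `a ≠ 0`, `c ∉ (a)` but `c 𝔪 ⊆ (a)`: then `𝔪` is principal. -/
theorem principal_of_annihilated (B : Type*) [CommRing B] [IsDomain B] [IsLocalRing B]
    [IsNoetherianRing B] [IsIntegrallyClosed B] {a c : B} (ha : a ≠ 0)
    (hc : c ∉ Ideal.span {a}) (hcm : ∀ m ∈ maximalIdeal B, c * m ∈ Ideal.span {a}) :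
    (maximalIdeal B).IsPrincipal := by
  classical
  have ha₁ : a ∈ maximalIdeal B := by
    by_contra hcon
    apply hc
    have : IsUnit a := by simpa using hcon
    rw [Ideal.span_singleton_eq_top.2 this]
    trivial
  have hb₃ : ∀ m ∈ maximalIdeal B, ∃ k : B, k * a = c * m := by
    intro m hm
    rw [← Ideal.mem_span_singleton']
    exact hcm m hm
  have hb₄ : c ≠ 0 := by
    rintro rfl
    exact hc (zero_mem _)
  let K := FractionRing B
  let x : K := algebraMap B K c / algebraMap B K a
  let M := Submodule.map (Algebra.linearMap B K) (maximalIdeal B)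
  have ha₃ : algebraMap B K a ≠ 0 := IsFractionRing.to_map_eq_zero_iff.not.mpr ha
  by_cases hx : ∀ y ∈ M, x * y ∈ M
  · have := isIntegral_of_smul_mem_submodule M ?_ ?_ x hx
    · obtain ⟨y, e⟩ := IsIntegrallyClosed.algebraMap_eq_of_integral this
      refine (hc (Ideal.mem_span_singleton'.mpr ⟨y, ?_⟩)).elim
      apply IsFractionRing.injective B K
      rw [map_mul, e, div_mul_cancel₀ _ ha₃]
    · rw [Submodule.ne_bot_iff]
      refine ⟨_, ⟨a, ha₁, rfl⟩, ?_⟩
      exact (IsFractionRing.to_map_eq_zero_iff (K := K)).not.mpr ha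
    · apply Submodule.FG.map
      exact IsNoetherian.noetherian _
  · have :
        (M.map (DistribSMul.toLinearMap B K x)).comap (Algebra.linearMap B K) = ⊤ := by
      contrapose! hx with h
      rintro m' ⟨m, hm, rfl : algebraMap B K m = m'⟩
      obtain ⟨k, hk⟩ := hb₃ m hm
      have hk' : x * algebraMap B K m = algebraMap B K k := by
        rw [← mul_div_right_comm, ← map_mul, ← hk, map_mul, mul_div_cancel_right₀ _ ha₃]
      exact ⟨k, le_maximalIdeal h ⟨_, ⟨_, hm, rfl⟩, hk'⟩, hk'.symm⟩
    obtain ⟨y, hy₁, hy₂⟩ : ∃ y ∈ maximalIdeal B, c * y = a := by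
      rw [Ideal.eq_top_iff_one, Submodule.mem_comap] at this
      obtain ⟨_, ⟨y, hy, rfl⟩, hy' : x * algebraMap B K y = algebraMap B K 1⟩ := this
      rw [map_one, ← mul_div_right_comm, div_eq_one_iff_eq ha₃, ← map_mul] at hy'
      exact ⟨y, hy, IsFractionRing.injective B K hy'⟩
    refine ⟨⟨y, ?_⟩⟩
    apply le_antisymm
    · intro m hm
      obtain ⟨k, hk⟩ := hb₃ m hm
      rw [← hy₂, mul_comm, mul_assoc] at hk
      rw [← mul_left_cancel₀ hb₄ hk, mul_comm]
      exact Ideal.mem_span_singleton'.mpr ⟨_, rfl⟩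
    · rwa [Submodule.span_le, Set.singleton_subset_iff]

section

variable {R : Type*} [CommRing R] [IsDomain R] [IsNoetherianRing R]

/-- Algebraic Hartogs: divisibility can be tested at height one primes. -/
theorem mem_span_of_height_one [IsIntegrallyClosed R] {a b : R} (ha : a ≠ 0)
    (h : ∀ P : Ideal R, ∀ _ : P.IsPrime, P.height = 1 → ∃ s : R, s ∉ P ∧ s * b ∈ Ideal.span {a}) :
    b ∈ Ideal.span {a} := by
  by_contra hb
  have hx : (Ideal.Quotient.mk (Ideal.span {a}) b : R ⧸ Ideal.span {a}) ≠ 0 := by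
    rwa [Ne, Ideal.Quotient.eq_zero_iff_mem]
  obtain ⟨P, hP, hle⟩ := exists_le_isAssociatedPrime_of_isNoetherianRing R
    (Ideal.Quotient.mk (Ideal.span {a}) b : R ⧸ Ideal.span {a}) hx
  have hPp := hP.isPrime
  rw [isAssociatedPrime_iff] at hP
  obtain ⟨_, y, hy⟩ := hP
  obtain ⟨c, rfl⟩ := Ideal.Quotient.mk_surjective y
  have hmem : ∀ r : R, r ∈ P ↔ r * c ∈ Ideal.span {a} := by
    intro r
    rw [hy, Submodule.mem_colon_singleton, Submodule.mem_bot]
    rw [← Ideal.Quotient.eq_zero_iff_mem, map_mul]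
    rfl
  have hmemb : ∀ r : R, r * b ∈ Ideal.span {a} → r ∈ P := by
    intro r hr
    apply hle
    rw [Submodule.mem_colon_singleton, Submodule.mem_bot]
    have := Ideal.Quotient.eq_zero_iff_mem.2 hr
    rw [map_mul] at this
    exact this
  have hdom : IsDomain (Localization.AtPrime P) :=
    IsLocalization.isDomain_localization (Ideal.primeCompl_le_nonZeroDivisors P)
  have hno : IsNoetherianRing (Localization.AtPrime P) :=
    IsLocalization.isNoetherianRing P.primeCompl _ inferInstance
  have hic : IsIntegrallyClosed (Localization.AtPrime P) :=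
    isIntegrallyClosed_of_isLocalization _ P.primeCompl (Ideal.primeCompl_le_nonZeroDivisors P)
  have hinj : Function.Injective (algebraMap R (Localization.AtPrime P)) :=
    IsLocalization.injective _ (Ideal.primeCompl_le_nonZeroDivisors P)
  set B := Localization.AtPrime P with hB
  have ha' : algebraMap R B a ≠ 0 := by
    rwa [Ne, map_eq_zero_iff _ hinj]
  have hprin : (maximalIdeal B).IsPrincipal := by
    refine principal_of_annihilated B (a := algebraMap R B a) (c := algebraMap R B c) ha' ?_ ?_
    · intro hcon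
      rw [← Set.image_singleton, ← Ideal.map_span,
        IsLocalization.algebraMap_mem_map_algebraMap_iff P.primeCompl] at hcon
      obtain ⟨s, hs, hsc⟩ := hcon
      exact hs ((hmem s).2 hsc)
    · intro m hm
      rw [← Localization.AtPrime.map_eq_maximalIdeal] at hm
      have h1 : algebraMap R B c * m ∈ Ideal.span {algebraMap R B c} * P.map (algebraMap R B) :=
        Ideal.mul_mem_mul (Ideal.mem_span_singleton_self _) hm
      rw [← Set.image_singleton, ← Ideal.map_span, ← Ideal.map_mul] at h1
      rw [← Set.image_singleton, ← Ideal.map_span]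
      refine Ideal.map_mono ?_ h1
      rw [Ideal.span_singleton_mul_le_iff]
      intro z hz
      rw [mul_comm]
      exact (hmem z).1 hz
  have hPbot : P ≠ ⊥ := by
    intro hbot
    have : a ∈ P := (hmem a).2 (Ideal.mul_mem_right _ _ (Ideal.mem_span_singleton_self a))
    rw [hbot] at this
    exact ha this
  have hnf : ¬ IsField B := by
    intro hf
    have h2 := IsLocalRing.isField_iff_maximalIdeal_eq.1 hf
    rw [← Localization.AtPrime.map_eq_maximalIdeal,
      Ideal.map_eq_bot_iff_of_injective hinj] at h2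
    exact hPbot h2
  have hdvr : IsDiscreteValuationRing B := ((IsDiscreteValuationRing.TFAE B hnf).out 4 0).1 hprin
  have hht : P.height = 1 := by
    have h3 := IsLocalization.AtPrime.ringKrullDim_eq_height P B
    rw [IsDiscreteValuationRing.ringKrullDim_eq_one B] at h3
    exact_mod_cast h3.symm
  obtain ⟨s, hs, hsb⟩ := h P hPp hht
  exact hs (hmemb s hsb)

/-- The local ring of a noetherian normal domain at a height one prime is a DVR. -/
theorem isDiscreteValuationRing_of_height_one [IsIntegrallyClosed R] (P : Ideal R) [P.IsPrime]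
    (hP : P.height = 1) : IsDiscreteValuationRing (Localization.AtPrime P) := by
  have hno : IsNoetherianRing (Localization.AtPrime P) :=
    IsLocalization.isNoetherianRing P.primeCompl _ inferInstance
  have hic : IsIntegrallyClosed (Localization.AtPrime P) :=
    isIntegrallyClosed_of_isLocalization _ P.primeCompl (Ideal.primeCompl_le_nonZeroDivisors P)
  have hinj : Function.Injective (algebraMap R (Localization.AtPrime P)) :=
    IsLocalization.injective _ (Ideal.primeCompl_le_nonZeroDivisors P)
  have hPbot : P ≠ ⊥ := Ideal.ne_bot_of_height_eq_one hP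
  have hnf : ¬ IsField (Localization.AtPrime P) := by
    intro hf
    have h2 := IsLocalRing.isField_iff_maximalIdeal_eq.1 hf
    rw [← Localization.AtPrime.map_eq_maximalIdeal,
      Ideal.map_eq_bot_iff_of_injective hinj] at h2
    exact hPbot h2
  have hdim : Ring.KrullDimLE 1 (Localization.AtPrime P) := by
    rw [Ring.krullDimLE_iff, IsLocalization.AtPrime.ringKrullDim_eq_height P, hP]
    rfl
  have hded : IsDedekindDomain (Localization.AtPrime P) := by
    have hdim1 : Ring.DimensionLEOne (Localization.AtPrime P) := by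
      refine ⟨fun hq hqp => ?_⟩
      exact Ring.krullDimLE_one_iff_of_noZeroDivisors.1 hdim _ hq hqp
    exact { hic with maximalOfPrime := hdim1.maximalOfPrime }
  exact ((IsDiscreteValuationRing.TFAE _ hnf).out 2 0).1 hded

/-- The valuation of an element of `R` at a height one prime. -/
noncomputable def vP (P : Ideal R) [P.IsPrime] (r : R) : ℕ :=
  (Ring.ord (Localization.AtPrime P) (algebraMap R _ r)).toNat

end

section

variable {R : Type*} [CommRing R] [IsDomain R]

theorem algebraMap_atPrime_ne_zero (P : Ideal R) [P.IsPrime] {r : R} (hr : r ≠ 0) :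
    algebraMap R (Localization.AtPrime P) r ≠ 0 := by
  have hinj : Function.Injective (algebraMap R (Localization.AtPrime P)) :=
    IsLocalization.injective _ (Ideal.primeCompl_le_nonZeroDivisors P)
  rwa [Ne, map_eq_zero_iff _ hinj]

variable (P : Ideal R) [P.IsPrime] [IsDiscreteValuationRing (Localization.AtPrime P)]

theorem ord_atPrime_ne_top {x : Localization.AtPrime P} (hx : x ≠ 0) :
    Ring.ord (Localization.AtPrime P) x ≠ ⊤ :=
  Ring.ord_ne_top (mem_nonZeroDivisors_of_ne_zero hx)

theorem vP_coe {r : R} (hr : r ≠ 0) :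
    ((vP P r : ℕ) : ℕ∞) = Ring.ord (Localization.AtPrime P) (algebraMap R _ r) :=
  ENat.natCast_toNat (ord_atPrime_ne_top P (algebraMap_atPrime_ne_zero P hr))

theorem vP_mul {a b : R} (ha : a ≠ 0) (hb : b ≠ 0) : vP P (a * b) = vP P a + vP P b := by
  have h := vP_coe P (mul_ne_zero ha hb)
  rw [map_mul, Ring.ord_mul _ (mem_nonZeroDivisors_of_ne_zero (algebraMap_atPrime_ne_zero P hb)),
    ← vP_coe P ha, ← vP_coe P hb] at h
  exact_mod_cast h

theorem vP_add {a b : R} (ha : a ≠ 0) (hb : b ≠ 0) (hab : a + b ≠ 0) :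
    min (vP P a) (vP P b) ≤ vP P (a + b) := by
  have h := Ring.ord_add (algebraMap R (Localization.AtPrime P) a) (algebraMap R _ b)
  rw [← map_add, ← vP_coe P ha, ← vP_coe P hb, ← vP_coe P hab] at h
  rcases min_le_iff.1 h with h | h
  · exact min_le_iff.2 (Or.inl (by exact_mod_cast h))
  · exact min_le_iff.2 (Or.inr (by exact_mod_cast h))

theorem vP_eq_zero {a : R} (ha : a ∉ P) : vP P a = 0 := by
  have h : IsUnit (algebraMap R (Localization.AtPrime P) a) :=
    IsLocalization.map_units (Localization.AtPrime P) (⟨a, ha⟩ : P.primeCompl)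
  rw [vP, Ring.ord_of_isUnit h]
  rfl

theorem vP_pos {a : R} (ha0 : a ≠ 0) (ha : a ∈ P) : 0 < vP P a := by
  rw [Nat.pos_iff_ne_zero]
  intro h0
  have h := vP_coe P ha0
  rw [h0, Nat.cast_zero, Ring.ord_eq_addVal, eq_comm,
    IsDiscreteValuationRing.addVal_eq_zero_iff] at h
  exact (IsLocalization.AtPrime.isUnit_to_map_iff (Localization.AtPrime P) P a).1 h ha

/-- Divisibility in the local ring. -/
theorem exists_mul_mem_of_vP_le {a b : R} (ha : a ≠ 0) (hb : b ≠ 0) (h : vP P a ≤ vP P b) :
    ∃ s : R, s ∉ P ∧ s * b ∈ Ideal.span {a} := by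
  have h1 : (vP P a : ℕ∞) ≤ vP P b := by exact_mod_cast h
  rw [vP_coe P ha, vP_coe P hb, Ring.ord_eq_addVal, Ring.ord_eq_addVal,
    IsDiscreteValuationRing.addVal_le_iff_dvd, ← Ideal.mem_span_singleton,
    ← Set.image_singleton, ← Ideal.map_span,
    IsLocalization.algebraMap_mem_map_algebraMap_iff P.primeCompl] at h1
  obtain ⟨s, hs, hsb⟩ := h1
  exact ⟨s, hs, hsb⟩

theorem exists_vP_eq_one : ∃ t : R, t ≠ 0 ∧ vP P t = 1 := by
  obtain ⟨ϖ, hϖ⟩ := IsDiscreteValuationRing.exists_irreducible (Localization.AtPrime P)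
  obtain ⟨⟨t, s⟩, hts⟩ := IsLocalization.surj P.primeCompl ϖ
  simp only at hts
  have ht : t ≠ 0 := by
    rintro rfl
    rw [map_zero, mul_eq_zero] at hts
    rcases hts with hts | hts
    · exact hϖ.ne_zero hts
    · exact algebraMap_atPrime_ne_zero P (fun h0 : (s : R) = 0 => s.2 (h0 ▸ P.zero_mem)) hts
  refine ⟨t, ht, ?_⟩
  have hs0 : (s : R) ≠ 0 := fun h0 : (s : R) = 0 => s.2 (h0 ▸ P.zero_mem)
  have h1 : ((vP P t : ℕ) : ℕ∞) = 1 := by
    rw [vP_coe P ht, ← hts, Ring.ord_mul _
      (mem_nonZeroDivisors_of_ne_zero (algebraMap_atPrime_ne_zero P hs0)),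
      Ring.ord_of_irreducible hϖ, ← vP_coe P hs0, vP_eq_zero P s.2]
    rfl
  exact_mod_cast h1

end

section

variable {R K : Type*} [CommRing R] [IsDomain R] [IsNoetherianRing R]
    [IsIntegrallyClosed R] [Field K] [Algebra R K] [IsFractionRing R K]

theorem ordP_eq (P : {P : PrimeSpectrum R // P.asIdeal.height = 1}) {a b : R} (ha : a ≠ 0)
    (hb : b ≠ 0) : ordP R K P (algebraMap R K a / algebraMap R K b) =
      (vP P.1.asIdeal a : ℤ) - vP P.1.asIdeal b := by
  have hdvr := isDiscreteValuationRing_of_height_one P.1.asIdeal P.2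
  set x : K := algebraMap R K a / algebraMap R K b with hx
  have hinj := IsFractionRing.injective R K
  have ha' : algebraMap R K a ≠ 0 := by rwa [Ne, map_eq_zero_iff _ hinj]
  have hb' : algebraMap R K b ≠ 0 := by rwa [Ne, map_eq_zero_iff _ hinj]
  have hsec := IsLocalization.sec_spec (nonZeroDivisors R) x
  set c := (IsLocalization.sec (nonZeroDivisors R) x).1 with hc
  set d := (IsLocalization.sec (nonZeroDivisors R) x).2 with hd
  have hd0 : (d : R) ≠ 0 := nonZeroDivisors.ne_zero d.2
  have hd' : algebraMap R K (d : R) ≠ 0 := by rwa [Ne, map_eq_zero_iff _ hinj]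
  have hx0 : x ≠ 0 := div_ne_zero ha' hb'
  have hc0 : c ≠ 0 := by
    intro h0
    rw [h0, map_zero] at hsec
    exact mul_ne_zero hx0 hd' hsec
  have hrel : a * (d : R) = b * c := by
    apply hinj
    rw [map_mul, map_mul, ← hsec, hx]
    field_simp
  have hv : vP P.1.asIdeal (a * (d : R)) = vP P.1.asIdeal (b * c) := by rw [hrel]
  rw [vP_mul _ ha hd0, vP_mul _ hb hc0] at hv
  have : ordP R K P x = (vP P.1.asIdeal c : ℤ) - vP P.1.asIdeal (d : R) := rfl
  rw [this]
  omega

theorem exists_frac (x : K) (hx : x ≠ 0) : ∃ a b : R, a ≠ 0 ∧ b ≠ 0 ∧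
    x = algebraMap R K a / algebraMap R K b := by
  obtain ⟨a, b, hb, rfl⟩ := IsFractionRing.div_surjective (A := R) x
  refine ⟨a, b, ?_, nonZeroDivisors.ne_zero hb, rfl⟩
  rintro rfl
  simp at hx

theorem ordP_algebraMap (P : {P : PrimeSpectrum R // P.asIdeal.height = 1}) {a : R} (ha : a ≠ 0) :
    ordP R K P (algebraMap R K a) = (vP P.1.asIdeal a : ℤ) := by
  have hdvr := isDiscreteValuationRing_of_height_one P.1.asIdeal P.2
  have h := ordP_eq (K := K) P ha one_ne_zero
  rw [map_one, div_one, vP_eq_zero P.1.asIdeal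
    ((Ideal.ne_top_iff_one _).1 P.1.isPrime.ne_top)] at h
  simpa using h

/-- MODULE (P) -/
theorem krullData (R K : Type*) [CommRing R] [IsDomain R] [IsNoetherianRing R]
    [IsIntegrallyClosed R] [Field K] [Algebra R K] [IsFractionRing R K] :
    KrullData R K {P : PrimeSpectrum R // P.asIdeal.height = 1} (ordP R K) where
  mul P x y hx hy := by
    have hdvr := isDiscreteValuationRing_of_height_one P.1.asIdeal P.2
    obtain ⟨a, b, ha, hb, rfl⟩ := exists_frac (R := R) x hx
    obtain ⟨c, d, hc, hd, rfl⟩ := exists_frac (R := R) y hy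
    rw [div_mul_div_comm, ← map_mul, ← map_mul, ordP_eq P ha hb, ordP_eq P hc hd,
      ordP_eq P (mul_ne_zero ha hc) (mul_ne_zero hb hd), vP_mul _ ha hc, vP_mul _ hb hd]
    push_cast
    ring
  add P x y hx hy hxy := by
    have hdvr := isDiscreteValuationRing_of_height_one P.1.asIdeal P.2
    have hinj := IsFractionRing.injective R K
    obtain ⟨a, b, ha, hb, rfl⟩ := exists_frac (R := R) x hx
    obtain ⟨c, d, hc, hd, rfl⟩ := exists_frac (R := R) y hy
    have hb' : algebraMap R K b ≠ 0 := by rwa [Ne, map_eq_zero_iff _ hinj]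
    have hd' : algebraMap R K d ≠ 0 := by rwa [Ne, map_eq_zero_iff _ hinj]
    have hsum : algebraMap R K a / algebraMap R K b + algebraMap R K c / algebraMap R K d =
        algebraMap R K (a * d + b * c) / algebraMap R K (b * d) := by
      rw [div_add_div _ _ hb' hd']
      simp only [map_add, map_mul]
    have hne : a * d + b * c ≠ 0 := by
      intro h0
      rw [hsum, h0, map_zero, zero_div] at hxy
      exact hxy rfl
    rw [hsum, ordP_eq P ha hb, ordP_eq P hc hd, ordP_eq P hne (mul_ne_zero hb hd)]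
    have h1 := vP_add P.1.asIdeal (mul_ne_zero ha hd) (mul_ne_zero hb hc) hne
    rw [vP_mul _ ha hd, vP_mul _ hb hc] at h1
    rw [vP_mul _ hb hd]
    push_cast
    omega
  mem x hx := by
    have hinj := IsFractionRing.injective R K
    constructor
    · intro h
      obtain ⟨a, b, ha, hb, rfl⟩ := exists_frac (R := R) x hx
      have hb' : algebraMap R K b ≠ 0 := by rwa [Ne, map_eq_zero_iff _ hinj]
      have hmem : a ∈ Ideal.span {b} := by
        refine mem_span_of_height_one hb ?_
        intro P hP hht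
        have hdvr := isDiscreteValuationRing_of_height_one P hht
        have h1 := h ⟨⟨P, hP⟩, hht⟩
        rw [ordP_eq _ ha hb] at h1
        exact exists_mul_mem_of_vP_le P hb ha (by
          simp only [sub_nonneg, Nat.cast_le] at h1
          exact h1)
      obtain ⟨r, rfl⟩ := Ideal.mem_span_singleton'.1 hmem
      refine ⟨r, ?_⟩
      rw [map_mul, mul_div_cancel_right₀ _ hb']
    · rintro ⟨r, rfl⟩ P
      have hr : r ≠ 0 := by
        rintro rfl
        exact hx (map_zero _)
      rw [ordP_algebraMap P hr]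
      positivity
  fin x hx := by
    obtain ⟨a, b, ha, hb, rfl⟩ := exists_frac (R := R) x hx
    have key : ∀ c : R, c ≠ 0 →
        {P : {P : PrimeSpectrum R // P.asIdeal.height = 1} | c ∈ P.1.asIdeal}.Finite := by
      intro c hc
      have hf := (Ideal.span {c}).finite_minimalPrimes_of_isNoetherianRing R
      refine Set.Finite.of_finite_image (f := fun P => P.1.asIdeal) (hf.subset ?_) ?_
      · rintro _ ⟨P, hP, rfl⟩
        have hfh : P.1.asIdeal.FiniteHeight := ⟨Or.inr (by rw [P.2]; exact ENat.one_ne_top)⟩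
        refine Ideal.mem_minimalPrimes_of_height_le
          ((Ideal.span_singleton_le_iff_mem _).2 hP) ?_
        rw [P.2]
        exact Ideal.one_le_height_span_singleton_of_mem_nonZeroDivisors
          (mem_nonZeroDivisors_of_ne_zero hc)
      · intro P _ Q _ hPQ
        exact Subtype.ext (PrimeSpectrum.ext hPQ)
    refine ((key a ha).union (key b hb)).subset ?_
    intro P hP
    have hdvr := isDiscreteValuationRing_of_height_one P.1.asIdeal P.2
    by_contra hcon
    simp only [Set.mem_union, Set.mem_ofPred_eq, not_or] at hcon hP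
    rw [ordP_eq P ha hb, vP_eq_zero _ hcon.1, vP_eq_zero _ hcon.2] at hP
    exact hP (by simp)
  sep P Q hPQ := by
    have hinj := IsFractionRing.injective R K
    have hdvr := isDiscreteValuationRing_of_height_one P.1.asIdeal P.2
    have hdvr' := isDiscreteValuationRing_of_height_one Q.1.asIdeal Q.2
    have hle : ¬ Q.1.asIdeal ≤ P.1.asIdeal := by
      intro hle
      have hfh : P.1.asIdeal.FiniteHeight := ⟨Or.inr (by rw [P.2]; exact ENat.one_ne_top)⟩
      have hfh' : Q.1.asIdeal.FiniteHeight := ⟨Or.inr (by rw [Q.2]; exact ENat.one_ne_top)⟩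
      have := Ideal.eq_of_le_of_height_le Q.1.asIdeal hle (by rw [P.2, Q.2])
      exact hPQ (Subtype.ext (PrimeSpectrum.ext this.symm))
    obtain ⟨s, hsQ, hsP⟩ := Set.not_subset.1 hle
    have hs0 : s ≠ 0 := by
      rintro rfl
      exact hsP P.1.asIdeal.zero_mem
    refine ⟨s, by rwa [Ne, map_eq_zero_iff _ hinj], ?_, ?_⟩
    · rw [ordP_algebraMap P hs0, vP_eq_zero _ hsP]
      rfl
    · rw [ordP_algebraMap Q hs0]
      exact_mod_cast vP_pos _ hs0 hsQ
  unif P := by
    have hinj := IsFractionRing.injective R K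
    have hdvr := isDiscreteValuationRing_of_height_one P.1.asIdeal P.2
    obtain ⟨t, ht0, ht⟩ := exists_vP_eq_one P.1.asIdeal
    refine ⟨algebraMap R K t, by rwa [Ne, map_eq_zero_iff _ hinj], ?_⟩
    rw [ordP_algebraMap P ht0, ht]
    rfl

end

end FJ
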