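import Pool.Agent.Lib.MP_400390_ag.FrobPoly

/-!
# Asymptotically Cartier divisors on strongly `F`-regular rings are `ℚ`-Cartier
-/

namespace FJ

open scoped BigOperators
open Polynomial

/-- The output of separable Noether normalisation: `A → R` and a generator `θ` of the extension of
fraction fields with its minimal polynomial `f`. -/
structure NoetherData (A R : Type*) [CommRing A] [CommRing R] [Algebra A R] (θ : R) (f : A[X]) :
    Prop where
  monic : f.Monic
  root : aeval θ f = 0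
  indep : ∀ g : A[X], g.degree < f.degree → aeval θ g = 0 → g = 0
  gen : ∀ r : R, ∃ a : A, algebraMap A R a ≠ 0 ∧ ∃ g : A[X], algebraMap A R a * r = aeval θ g
  sep : aeval θ (derivative f) ≠ 0

section general

variable {R K ι : Type*} [CommRing R] [Field K] [Algebra R K] {ord : ι → K → ℤ}
variable (h : KrullData R K ι ord)
include h

theorem mem_RD_neg {E : ι → ℤ} (hE : {Q | E Q ≠ 0}.Finite) {w : K}
    (hw : ∀ x ∈ h.RD E, w * x ∈ h.RD 0) : w ∈ h.RD (-E) := by
  intro hw0 P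
  obtain ⟨t, ht0, ht⟩ := h.unif P
  have hu : t ^ (-E P) ≠ 0 := zpow_ne_zero _ ht0
  have hord : ord P (t ^ (-E P)) = - E P := by rw [h.zpow P ht0, ht, mul_one]
  obtain ⟨s, hs0, hsP, hsx⟩ := h.exists_mul_mem P hE (x := t ^ (-E P)) (fun _ => hord.ge)
  have h1 := hw _ hsx (mul_ne_zero hw0 (mul_ne_zero hs0 hu)) P
  rw [h.mul P _ _ hw0 (mul_ne_zero hs0 hu), h.mul P _ _ hs0 hu, hsP, hord] at h1
  simp only [Pi.neg_apply, Pi.zero_apply] at h1 ⊢
  omega

theorem RD_mul_le {E E' : ι → ℤ} : h.RD E * h.RD E' ≤ h.RD (E + E') :=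
  Submodule.mul_le.2 fun _ hx _ hy => h.mul_mem_RD hx hy

omit h in
/-- Elements of a product of submodules as finite sums. -/
theorem mem_mul_iff_exists {M N : Submodule R K} {z : K} :
    z ∈ M * N ↔ ∃ (n : ℕ) (x y : Fin n → K), (∀ i, x i ∈ M) ∧ (∀ i, y i ∈ N) ∧
      z = ∑ i, x i * y i := by
  constructor
  · intro hz
    induction hz using Submodule.mul_induction_on' with
    | mem_mul_mem m hm n hn => exact ⟨1, fun _ => m, fun _ => n, fun _ => hm, fun _ => hn, by simp⟩
    | add a _ b _ ha hb =>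
      obtain ⟨n, x, y, hx, hy, rfl⟩ := ha
      obtain ⟨n', x', y', hx', hy', rfl⟩ := hb
      refine ⟨n + n', Fin.append x x', Fin.append y y', ?_, ?_, ?_⟩
      · intro i
        refine Fin.addCases (fun i => ?_) (fun i => ?_) i
        · rw [Fin.append_left]; exact hx i
        · rw [Fin.append_right]; exact hx' i
      · intro i
        refine Fin.addCases (fun i => ?_) (fun i => ?_) i
        · rw [Fin.append_left]; exact hy i
        · rw [Fin.append_right]; exact hy' i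
      · rw [Fin.sum_univ_add]
        simp
  · rintro ⟨n, x, y, hx, hy, rfl⟩
    exact Submodule.sum_mem _ fun i _ => Submodule.mul_mem_mul (hx i) (hy i)

end general

section dependence

variable {K : Type*} [Field K]

/-- If `K` is spanned by `n` elements over `K ^ q`, `n + 1` elements of `K` are dependent over
`K ^ q`. -/
theorem exists_dependence {p e n : ℕ} [Fact p.Prime] [CharP K p] (s : Fin n → K)
    (hs : ∀ x : K, ∃ c : Fin n → K, x = ∑ i, c i ^ p ^ e * s i) (X : Fin (n + 1) → K) :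
    ∃ l : Fin (n + 1) → K, l ≠ 0 ∧ ∑ j, l j ^ p ^ e * X j = 0 := by
  have : ExpChar K p := ExpChar.prime Fact.out
  choose c hc using hs
  obtain ⟨l, hl0, hl⟩ : ∃ l : Fin (n + 1) → K, l ≠ 0 ∧
      Matrix.mulVec (Matrix.of fun (i : Fin n) (j : Fin (n + 1)) => c (X j) i) l = 0 := by
    have hlt : Module.finrank K (Fin n → K) < Module.finrank K (Fin (n + 1) → K) := by simp
    have h1 := LinearMap.ker_ne_bot_of_finrank_lt
      (f := Matrix.mulVecLin (Matrix.of fun (i : Fin n) (j : Fin (n + 1)) => c (X j) i)) hlt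
    obtain ⟨l, hl, hl0⟩ := (Submodule.ne_bot_iff _).1 h1
    exact ⟨l, hl0, by simpa using hl⟩
  refine ⟨l, hl0, ?_⟩
  have h1 : ∀ j, l j ^ p ^ e * X j = ∑ i, (l j * c (X j) i) ^ p ^ e * s i := by
    intro j
    conv_lhs => rw [hc (X j), Finset.mul_sum]
    refine Finset.sum_congr rfl fun i _ => ?_
    rw [mul_pow]
    ring
  rw [Finset.sum_congr rfl fun j _ => h1 j, Finset.sum_comm]
  refine Finset.sum_eq_zero fun i _ => ?_
  rw [← Finset.sum_mul, ← sum_pow_char_pow]
  have h2 := congrFun hl i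
  simp only [Matrix.mulVec, dotProduct, Matrix.of_apply, Pi.zero_apply] at h2
  have h3 : ∑ j, l j * c (X j) i = 0 := by
    rw [← h2]
    exact Finset.sum_congr rfl fun j _ => mul_comm _ _
  rw [h3, zero_pow (pow_ne_zero _ (Nat.Prime.ne_zero Fact.out)), zero_mul]

end dependence

section step3

variable {R K ι : Type*} [CommRing R] [IsDomain R] [Field K] [Algebra R K] [IsFractionRing R K]
  {ord : ι → K → ℤ}
variable (h : KrullData R K ι ord)
include h

/-- **Step 3, local form.** -/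
theorem exists_unit_product {p e n : ℕ} [Fact p.Prime] [CharP K p] (s : Fin n → K)
    (hs : ∀ x : K, ∃ c : Fin n → K, x = ∑ i, c i ^ p ^ e * s i)
    {φ : K →+ K} (hφ : IsPL (p ^ e) φ) (hφR : Maps h φ 0 0) {c : K} (hφc : φ c = 1)
    {D : ι → ℤ} (hc : ∀ j : ℕ, c ∈ h.RD (j • D) * h.RD (-(j • D)))
    (𝔪 : Ideal R) [𝔪.IsPrime] :
    ∃ t : ℕ, 0 < t ∧ t ≤ n ∧ ∃ a ∈ h.RD (t • D), ∃ b ∈ h.RD (-(t • D)), ∃ r : R, r ∉ 𝔪 ∧
      algebraMap R K r = a * b := by
  classical
  have hq0 : 0 < p ^ e := pow_pos (Nat.Prime.pos Fact.out) _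
  have hinj : Function.Injective (algebraMap R K) := IsFractionRing.injective R K
  -- twisting by integer multiples of `D`
  have htw : ∀ (t : ℤ) (x : K), x ∈ h.RD ((p ^ e * t) • D) → φ x ∈ h.RD (t • D) := by
    intro t x hx
    have h1 := Maps.twist h hq0 hφ (by simp) hφR (t • D)
    have h2 : (0 : ι → ℤ) + p ^ e • (t • D) = (p ^ e * t) • D := by
      rw [zero_add, ← natCast_zsmul, smul_smul]
      push_cast
      rfl
    have h3 := h1 x (by rw [h2]; exact hx)
    rwa [zero_add] at h3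
  -- choose `X j`, `Y j`
  have hex : ∀ j : Fin (n + 1), ∃ X Y : K, X ∈ h.RD (((p ^ e * (j : ℕ) : ℤ)) • D) ∧
      Y ∈ h.RD ((-(p ^ e * (j : ℕ) : ℤ)) • D) ∧ ∃ r : R, r ∉ 𝔪 ∧ algebraMap R K r = φ (Y * X) := by
    intro j
    obtain ⟨m, x, y, hx, hy, hxy⟩ := mem_mul_iff_exists.1 (hc (p ^ e * j))
    by_contra hcon
    push Not at hcon
    have hmem : ∀ i, ∃ r : R, r ∈ 𝔪 ∧ algebraMap R K r = φ (y i * x i) := by
      intro i
      have h1 : y i * x i ∈ h.RD 0 := by
        have := h.mul_mem_RD (hy i) (hx i)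
        rwa [neg_add_cancel] at this
      obtain ⟨r, hr⟩ := h.mem_RD_zero.1 (hφR _ h1)
      refine ⟨r, ?_, hr⟩
      by_contra hr𝔪
      refine hcon (x i) (y i) ?_ ?_ r hr𝔪 hr
      · have : ((p ^ e * (j : ℕ) : ℤ)) • D = (p ^ e * (j : ℕ)) • D := by
          rw [← natCast_zsmul]
          push_cast
          rfl
        rw [this]
        exact hx i
      · have : (-(p ^ e * (j : ℕ) : ℤ)) • D = -((p ^ e * (j : ℕ)) • D) := by
          rw [← natCast_zsmul, ← neg_smul]
          push_cast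
          rfl
        rw [this]
        exact hy i
    choose r hr hrφ using hmem
    have h1 : algebraMap R K (∑ i, r i) = algebraMap R K 1 := by
      rw [map_sum, map_one, ← hφc, hxy, map_sum]
      refine Finset.sum_congr rfl fun i _ => ?_
      rw [hrφ, mul_comm]
    have h2 := hinj h1
    have h3 : (1 : R) ∈ 𝔪 := by
      rw [← h2]
      exact Ideal.sum_mem _ fun i _ => hr i
    exact (Ideal.IsPrime.ne_top ‹_›) ((Ideal.eq_top_iff_one _).2 h3)
  choose X Y hX hY u hu hφu using hex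
  obtain ⟨l, hl0, hl⟩ := exists_dependence s hs X
  let M : Matrix (Fin (n + 1)) (Fin (n + 1)) K := Matrix.of fun i j => φ (Y i * X j)
  have hMl : M.mulVec l = 0 := by
    ext i
    simp only [Matrix.mulVec, dotProduct, M, Matrix.of_apply, Pi.zero_apply]
    have h1 : ∀ j, φ (Y i * X j) * l j = φ (Y i * (l j ^ p ^ e * X j)) := by
      intro j
      have : Y i * (l j ^ p ^ e * X j) = l j ^ p ^ e * (Y i * X j) := by ring
      rw [this, hφ, mul_comm]
    rw [Finset.sum_congr rfl fun j _ => h1 j, ← map_sum, ← Finset.mul_sum, hl, mul_zero, map_zero]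
  have hdet : M.det = 0 := Matrix.exists_mulVec_eq_zero_iff.1 ⟨l, hl0, hMl⟩
  have hMmem : ∀ i j : Fin (n + 1), M i j ∈ h.RD ((((j : ℕ) : ℤ) - ((i : ℕ) : ℤ)) • D) := by
    intro i j
    refine htw _ _ ?_
    have h1 := h.mul_mem_RD (hY i) (hX j)
    rw [← add_smul] at h1
    have h2 : (-(p ^ e * (i : ℕ) : ℤ)) + (p ^ e * (j : ℕ) : ℤ) =
        (p ^ e * (((j : ℕ) : ℤ) - ((i : ℕ) : ℤ)) : ℤ) := by ring
    rw [h2] at h1
    exact h1
  -- products over finite sets
  have hprod : ∀ (T : Finset (Fin (n + 1))) (σ : Equiv.Perm (Fin (n + 1))),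
      ∏ i ∈ T, M (σ i) i ∈
        h.RD ((∑ i ∈ T, (((i : ℕ) : ℤ) - ((σ i : ℕ) : ℤ))) • D) := by
    intro T σ
    induction T using Finset.induction_on with
    | empty =>
      simp only [Finset.prod_empty, Finset.sum_empty, zero_smul]
      exact h.mem_RD_zero.2 ⟨1, by simp⟩
    | insert a T ha ih =>
      rw [Finset.prod_insert ha, Finset.sum_insert ha, add_smul]
      exact h.mul_mem_RD (hMmem _ _) ih
  have hsum0 : ∀ σ : Equiv.Perm (Fin (n + 1)),
      ∑ i : Fin (n + 1), (((i : ℕ) : ℤ) - ((σ i : ℕ) : ℤ)) = 0 := by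
    intro σ
    rw [Finset.sum_sub_distrib, Equiv.sum_comp σ (fun i => ((i : ℕ) : ℤ)), sub_self]
  have hr : ∀ σ : Equiv.Perm (Fin (n + 1)), ∃ r : R, algebraMap R K r = ∏ i, M (σ i) i := by
    intro σ
    have h1 := hprod Finset.univ σ
    rw [hsum0, zero_smul] at h1
    exact h.mem_RD_zero.1 h1
  choose r hr using hr
  have hdet' : ∑ σ : Equiv.Perm (Fin (n + 1)), Equiv.Perm.sign σ • r σ = 0 := by
    apply hinj
    rw [map_sum, map_zero, ← hdet, Matrix.det_apply]
    refine Finset.sum_congr rfl fun σ _ => ?_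
    rw [← hr σ]
    rcases Int.units_eq_one_or (Equiv.Perm.sign σ) with hσ | hσ <;> rw [hσ] <;> simp
  have hid : r 1 ∉ 𝔪 := by
    have h1 : r 1 = ∏ i, u i := by
      apply hinj
      rw [hr, map_prod]
      refine Finset.prod_congr rfl fun i _ => ?_
      rw [hφu]
      rfl
    rw [h1]
    intro hmem
    obtain ⟨i, _, hi⟩ := (Ideal.IsPrime.prod_mem_iff (p := 𝔪)).1 hmem
    exact hu i hi
  have hσ : ∃ σ : Equiv.Perm (Fin (n + 1)), σ ≠ 1 ∧ r σ ∉ 𝔪 := by
    by_contra hcon
    push Not at hcon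
    apply hid
    rw [Fintype.sum_eq_add_sum_compl 1] at hdet'
    have h1 : ∑ σ ∈ ({1} : Finset (Equiv.Perm (Fin (n + 1))))ᶜ, Equiv.Perm.sign σ • r σ ∈ 𝔪 := by
      refine Ideal.sum_mem _ fun σ hσ => ?_
      have h2 := hcon σ (by simpa using hσ)
      rcases Int.units_eq_one_or (Equiv.Perm.sign σ) with hσ' | hσ' <;> rw [hσ']
      · simpa using h2
      · simpa using h2
    have h2 : r 1 = - ∑ σ ∈ ({1} : Finset (Equiv.Perm (Fin (n + 1))))ᶜ,
        Equiv.Perm.sign σ • r σ := by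
      rw [Equiv.Perm.sign_one, one_smul] at hdet'
      exact eq_neg_of_add_eq_zero_left hdet'
    rw [h2]
    exact neg_mem h1
  obtain ⟨σ, hσ1, hrσ⟩ := hσ
  obtain ⟨i, hi⟩ : ∃ i, σ i ≠ i := by
    by_contra hcon
    push Not at hcon
    exact hσ1 (Equiv.ext hcon)
  set t : ℤ := ((i : ℕ) : ℤ) - ((σ i : ℕ) : ℤ) with ht
  have ht0 : t ≠ 0 := by
    intro h0
    apply hi
    ext
    omega
  have ha : M (σ i) i ∈ h.RD (t • D) := hMmem _ _
  have hb : ∏ j ∈ Finset.univ.erase i, M (σ j) j ∈ h.RD ((-t) • D) := by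
    have h1 := hprod (Finset.univ.erase i) σ
    have h2 : ∑ j ∈ Finset.univ.erase i, (((j : ℕ) : ℤ) - ((σ j : ℕ) : ℤ)) = -t := by
      have h3 := Finset.add_sum_erase Finset.univ
        (fun j : Fin (n + 1) => ((j : ℕ) : ℤ) - ((σ j : ℕ) : ℤ)) (Finset.mem_univ i)
      rw [hsum0] at h3
      omega
    rwa [h2] at h1
  have hab : algebraMap R K (r σ) = M (σ i) i * ∏ j ∈ Finset.univ.erase i, M (σ j) j := by
    rw [hr]
    exact (Finset.mul_prod_erase Finset.univ (fun j => M (σ j) j) (Finset.mem_univ i)).symm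
  have hbound : t.natAbs ≤ n := by
    have h1 := i.2
    have h2 := (σ i).2
    omega
  refine ⟨t.natAbs, Int.natAbs_pos.2 ht0, hbound, ?_⟩
  rcases lt_or_gt_of_ne ht0 with hneg | hpos
  · have h1 : (t.natAbs) • D = (-t) • D := by
      rw [← natCast_zsmul, Int.ofNat_natAbs_of_nonpos hneg.le]
    refine ⟨_, by rw [h1]; exact hb, _, by rw [h1, neg_smul, neg_neg]; exact ha, r σ, hrσ, ?_⟩
    rw [hab, mul_comm]
  · have h1 : (t.natAbs) • D = t • D := by
      rw [← natCast_zsmul, Int.natAbs_of_nonneg hpos.le]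
    exact ⟨_, by rw [h1]; exact ha, _, by rw [h1, ← neg_smul]; exact hb, r σ, hrσ, hab⟩

/-- **Step 3.** -/
theorem qCartier_of_uniform {p e n : ℕ} [Fact p.Prime] [CharP K p] (s : Fin n → K)
    (hs : ∀ x : K, ∃ c : Fin n → K, x = ∑ i, c i ^ p ^ e * s i)
    {φ : K →+ K} (hφ : IsPL (p ^ e) φ) (hφR : Maps h φ 0 0) {c : K} (hφc : φ c = 1)
    {D : ι → ℤ} (hc : ∀ j : ℕ, c ∈ h.RD (j • D) * h.RD (-(j • D))) :
    QCartier h D := by
  classical
  refine ⟨n.factorial, Nat.factorial_pos n, ?_⟩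
  set N := n.factorial with hN
  -- the ideal of elements of `R` in the product
  let I : Ideal R := (h.RD (N • D) * h.RD (-(N • D))).comap (Algebra.linearMap R K)
  have hI : I = ⊤ := by
    by_contra hI
    obtain ⟨𝔪, h𝔪, hI𝔪⟩ := Ideal.exists_le_maximal I hI
    have : 𝔪.IsPrime := h𝔪.isPrime
    obtain ⟨t, ht0, htn, a, ha, b, hb, r, hr, hrab⟩ :=
      exists_unit_product h s hs hφ hφR hφc hc 𝔪
    obtain ⟨m, hm⟩ : t ∣ N := Nat.dvd_factorial ht0 htn
    have h1 : a ^ m ∈ h.RD (N • D) := by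
      have := h.pow_mem_RD ha m
      rwa [smul_smul, mul_comm, ← hm] at this
    have h2 : b ^ m ∈ h.RD (-(N • D)) := by
      have := h.pow_mem_RD hb m
      rwa [smul_neg, smul_smul, mul_comm, ← hm] at this
    have h3 : r ^ m ∈ I := by
      have h4 : algebraMap R K (r ^ m) ∈ h.RD (N • D) * h.RD (-(N • D)) := by
        rw [map_pow, hrab, mul_pow]
        exact Submodule.mul_mem_mul h1 h2
      exact h4
    exact hr (this.mem_of_pow_mem m (hI𝔪 h3))
  have h1 : (1 : R) ∈ I := hI ▸ Submodule.mem_top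
  have h2 : algebraMap R K 1 ∈ h.RD (N • D) * h.RD (-(N • D)) := h1
  rwa [map_one] at h2

end step3

end FJ
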